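import Pool.Agent.Helper46.QP.Field

/-! Block QP-MEAS: measurability, invariance of the Lebesgue measure, trivial bounds. `stp A` is the composition of the exchange of the coordinates and of `(x, y) ↦ (c(x) - y, x)`; compare `PV/Meas.lean` (`Tw_mp`, `sk_mp`: `MeasurePreserving.skew_product`). -/

set_option autoImplicit false
open MeasureTheory Real Set
open scoped ENNReal

namespace Pool.Agent.Helper46.QP

open Pool.Agent.Helper18.UC (nn)
open Pool.Agent.Helper18.FD (NN rr)
open Pool.Agent.Helper95.PV (rp tc cel mv)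

variable {d : ℕ} {D : Dat d}

theorem ee_meas : Measurable ee := by
  unfold ee
  exact (fourier (T := (1 : ℝ)) 1).continuous.measurable

private theorem norm_ee38 (x : UnitAddCircle) : ‖ee x‖ = 1 := by
  unfold ee
  rw [fourier_apply]
  exact Circle.norm_coe _

private theorem aee_meas38 : Measurable fun p : ℂ × UnitAddCircle => p.1 * ee p.2 :=
  measurable_fst.mul (ee_meas.comp measurable_snd)

private theorem c_meas38 : Measurable fun p : ℂ × UnitAddCircle =>
    p.2 + p.2 + (((p.1 * ee p.2).im : ℝ) : UnitAddCircle) :=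
  (measurable_snd.add measurable_snd).add (meas_coe.comp (Complex.measurable_im.comp aee_meas38))

theorem stp_meas : Measurable fun p : ℂ × TT => stp p.1 p.2 := by
  have hb : Measurable fun p : ℂ × TT => ((p.1, p.2.1) : ℂ × UnitAddCircle) :=
    measurable_fst.prodMk (measurable_fst.comp measurable_snd)
  have h1 := aee_meas38.comp hb
  simp only [Function.comp_def] at h1
  have hx : Measurable fun p : ℂ × TT => p.2.1 := measurable_fst.comp measurable_snd
  have hy : Measurable fun p : ℂ × TT => p.2.2 := measurable_snd.comp measurable_snd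
  unfold stp
  exact (((hx.add hx).sub hy).add (meas_coe.comp (Complex.measurable_im.comp h1))).prodMk hx

theorem va_meas : Measurable fun p : ℂ × UnitAddCircle => va p.1 p.2 := by
  unfold va
  exact ((Complex.measurable_re.comp aee_meas38).const_mul (2 * π)).const_add 2

theorem stp_mp (A : ℂ) : MeasurePreserving (stp A) volume volume := by
  have hc : Measurable fun x : UnitAddCircle => x + x + (((A * ee x).im : ℝ) : UnitAddCircle) := by
    have h1 : Measurable fun x : UnitAddCircle => ((A, x) : ℂ × UnitAddCircle) :=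
      measurable_const.prodMk measurable_id
    exact c_meas38.comp h1
  have hg : Measurable (Function.uncurry fun x y : UnitAddCircle =>
      x + x + (((A * ee x).im : ℝ) : UnitAddCircle) - y) :=
    (hc.comp measurable_fst).sub measurable_snd
  have h := (MeasurePreserving.id (volume : Measure UnitAddCircle)).skew_product
    (μc := (volume : Measure UnitAddCircle)) (μd := (volume : Measure UnitAddCircle))
    (g := fun x y : UnitAddCircle => x + x + (((A * ee x).im : ℝ) : UnitAddCircle) - y) hg
    (Filter.Eventually.of_forall fun x => (Measure.measurePreserving_sub_left volume _).map_eq)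
  have h2 := (Measure.measurePreserving_swap (μ := (volume : Measure UnitAddCircle))
    (ν := (volume : Measure UnitAddCircle))).comp h
  have e : stp A = Prod.swap ∘ fun p : UnitAddCircle × UnitAddCircle =>
      (id p.1, p.1 + p.1 + (((A * ee p.1).im : ℝ) : UnitAddCircle) - p.2) := by
    funext z
    refine Prod.ext ?_ rfl
    show z.1 + z.1 - z.2 + (((A * ee z.1).im : ℝ) : UnitAddCircle) =
      z.1 + z.1 + (((A * ee z.1).im : ℝ) : UnitAddCircle) - z.2
    abel
  rw [e]
  exact h2

private theorem ev_meas38 (n : ℕ) : Measurable fun A : ℕ → ℂ => A n := measurable_pi_apply n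

theorem orb_meas (n : ℕ) : Measurable fun p : (ℕ → ℂ) × TT => orb p.1 p.2 n := by
  induction n with
  | zero => exact measurable_snd
  | succ n ih =>
    have hb : Measurable fun p : (ℕ → ℂ) × TT => ((p.1 n, orb p.1 p.2 n) : ℂ × TT) :=
      ((ev_meas38 n).comp measurable_fst).prodMk ih
    exact stp_meas.comp hb

theorem orb_mp (A : ℕ → ℂ) (n : ℕ) : MeasurePreserving (fun z => orb A z n) volume volume := by
  induction n with
  | zero => exact MeasurePreserving.id _
  | succ n ih => exact (stp_mp (A n)).comp ih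

theorem Mx_meas' (n : ℕ) (i j : Fin 2) : Measurable fun p : (ℕ → ℂ) × TT => Mx p.1 p.2 n i j := by
  induction n generalizing i j with
  | zero => exact measurable_const
  | succ n ih =>
    have hv : Measurable fun p : (ℕ → ℂ) × TT => va (p.1 n) (orb p.1 p.2 n).1 := by
      have hb : Measurable fun p : (ℕ → ℂ) × TT => ((p.1 n, (orb p.1 p.2 n).1) : ℂ × UnitAddCircle) :=
        ((ev_meas38 n).comp measurable_fst).prodMk (measurable_fst.comp (orb_meas n))
      exact va_meas.comp hb
    have hD : ∀ i j : Fin 2, Measurable fun p : (ℕ → ℂ) × TT => mv (va (p.1 n) (orb p.1 p.2 n).1) i j := by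
      intro i j
      unfold mv
      fin_cases i <;> fin_cases j
      · exact hv
      · exact measurable_const
      · exact measurable_const
      · exact measurable_const
    simp only [Mx_succ, Matrix.mul_apply, Fin.sum_univ_two]
    exact ((hD i 0).mul (ih 0 j)).add ((hD i 1).mul (ih 1 j))

theorem Mx_meas (n : ℕ) : Measurable fun p : (ℕ → ℂ) × TT => nn (Mx p.1 p.2 n) := by
  have ha : ∀ i j : Fin 2, Measurable fun p : (ℕ → ℂ) × TT => |Mx p.1 p.2 n i j| :=
    fun i j => (Mx_meas' n i j).norm
  unfold Pool.Agent.Helper18.UC.nn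
  exact (((ha 0 0).add (ha 0 1)).add (ha 1 0)).add (ha 1 1)

theorem As_meas (hD : D.Ok) : Measurable fun p : Om d × Td d => D.As p.1 p.2 := by
  refine measurable_pi_lambda _ fun j => ?_
  have hb : Measurable fun p : Om d × Td d => ((p.1, p.2 + j • D.α) : Om d × Td d) :=
    measurable_fst.prodMk (measurable_snd.add_const _)
  have h1 := (A_meas hD).comp hb
  simp only [Function.comp_def] at h1
  unfold Dat.As
  exact h1

theorem Ams_meas (hD : D.Ok) (l : ℕ) : Measurable fun p : Om d × Td d => D.Ams l p.1 p.2 := by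
  refine measurable_pi_lambda _ fun j => ?_
  have hb : Measurable fun p : Om d × Td d => ((p.1, p.2 + j • D.α) : Om d × Td d) :=
    measurable_fst.prodMk (measurable_snd.add_const _)
  have h1 := (Am_meas hD l).comp hb
  simp only [Function.comp_def] at h1
  unfold Dat.Ams
  exact h1

theorem F_meas (hD : D.Ok) : Measurable fun p : Om d × (Td d × TT) => D.F p.1 p.2 := by
  have hb : Measurable fun p : Om d × (Td d × TT) => ((p.1, p.2.1) : Om d × Td d) :=
    measurable_fst.prodMk (measurable_fst.comp measurable_snd)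
  have h1 := (A_meas hD).comp hb
  have hc : Measurable fun p : Om d × (Td d × TT) => ((D.A p.1 p.2.1, p.2.2) : ℂ × TT) :=
    h1.prodMk (measurable_snd.comp measurable_snd)
  unfold Dat.F
  exact ((measurable_fst.comp measurable_snd).add_const _).prodMk (stp_meas.comp hc)

theorem F_mp (hD : D.Ok) (ω : Om d) : MeasurePreserving (D.F ω) volume volume := by
  have hA : Measurable fun θ : Td d => D.A ω θ := by
    have hb : Measurable fun θ : Td d => ((ω, θ) : Om d × Td d) := measurable_const.prodMk measurable_id
    exact (A_meas hD).comp hb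
  have hm : Measurable (Function.uncurry fun (θ : Td d) (z : TT) => stp (D.A ω θ) z) := by
    have hc : Measurable fun p : Td d × TT => ((D.A ω p.1, p.2) : ℂ × TT) :=
      (hA.comp measurable_fst).prodMk measurable_snd
    exact stp_meas.comp hc
  have h := (measurePreserving_add_right (volume : Measure (Td d)) D.α).skew_product
    (μc := (volume : Measure TT)) (μd := (volume : Measure TT))
    (g := fun θ z => stp (D.A ω θ) z) hm
    (Filter.Eventually.of_forall fun θ => (stp_mp _).map_eq)
  exact h

theorem gst_meas : Measurable fun p : ℂ × (TT × ℝ) => gst p.1 p.2 := by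
  have hb : Measurable fun p : ℂ × (TT × ℝ) => ((p.1, p.2.1) : ℂ × TT) :=
    measurable_fst.prodMk (measurable_fst.comp measurable_snd)
  have hc : Measurable fun p : ℂ × (TT × ℝ) => ((p.1, p.2.1.1) : ℂ × UnitAddCircle) :=
    measurable_fst.prodMk (measurable_fst.comp (measurable_fst.comp measurable_snd))
  unfold gst
  exact (stp_meas.comp hb).prodMk ((va_meas.comp hc).sub (measurable_snd.comp measurable_snd).inv)

theorem gkk_meas : Measurable fun p : ℂ × (TT × ℝ) => gkk p.1 p.2 := by
  have hr : Measurable fun p : ℂ × (TT × ℝ) => p.2.2 := measurable_snd.comp measurable_snd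
  have h1 : Measurable fun p : ℂ × (TT × ℝ) => |p.2.2| := hr.norm
  unfold gkk
  exact ENNReal.measurable_ofReal.comp h1.inv

theorem gph_meas : Measurable gph := by
  have hr : Measurable fun y : TT × ℝ => y.2 := measurable_snd
  have h1 : Measurable fun y : TT × ℝ => |y.2| := hr.norm
  unfold gph
  exact ENNReal.measurable_ofReal.comp (h1.add_const 1).inv

private theorem shift_meas38 : Measurable fun A : ℕ → ℂ => (fun j => A (j + 1)) :=
  measurable_pi_lambda _ fun j => ev_meas38 (j + 1)

theorem ch_meas {Y : Type*} [MeasurableSpace Y] {st : ℂ → Y → Y} {kk : ℂ → Y → ℝ≥0∞} {φ : Y → ℝ≥0∞}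
    (hst : Measurable fun p : ℂ × Y => st p.1 p.2) (hkk : Measurable fun p : ℂ × Y => kk p.1 p.2)
    (hφ : Measurable φ) (n : ℕ) : Measurable fun p : (ℕ → ℂ) × Y => ch st kk φ p.1 n p.2 := by
  induction n with
  | zero =>
    simp only [ch]
    exact hφ.comp measurable_snd
  | succ n ih =>
    have h0 : Measurable fun p : (ℕ → ℂ) × Y => ((p.1 0, p.2) : ℂ × Y) :=
      ((ev_meas38 0).comp measurable_fst).prodMk measurable_snd
    have h1 : Measurable fun p : (ℕ → ℂ) × Y =>
        (((fun j => p.1 (j + 1)), st (p.1 0) p.2) : (ℕ → ℂ) × Y) :=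
      (shift_meas38.comp measurable_fst).prodMk (hst.comp h0)
    have h2 := ih.comp h1
    have h3 := hkk.comp h0
    simp only [Function.comp_def] at h2 h3
    simp only [ch]
    exact h3.mul h2

theorem ach_meas {Y : Type*} [MeasurableSpace Y] {st : ℂ → Y → Y} {kk : ℂ → Y → ℝ≥0∞} {φ : Y → ℝ≥0∞}
    (hst : Measurable fun p : ℂ × Y => st p.1 p.2) (hkk : Measurable fun p : ℂ × Y => kk p.1 p.2)
    (hφ : Measurable φ) (s : ℝ) (n : ℕ) : Measurable fun p : (ℕ → ℂ) × Y => ach st kk φ s p.1 n p.2 := by
  induction n with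
  | zero =>
    simp only [ach]
    exact hφ.comp measurable_snd
  | succ n ih =>
    have h0 : Measurable fun q : ((ℕ → ℂ) × Y) × ℂ => ((q.1.1 0 + s * q.2, q.1.2) : ℂ × Y) :=
      (((ev_meas38 0).comp (measurable_fst.comp measurable_fst)).add (measurable_snd.const_mul _)).prodMk
        (measurable_snd.comp measurable_fst)
    have h1 : Measurable fun q : ((ℕ → ℂ) × Y) × ℂ =>
        (((fun j => q.1.1 (j + 1)), st (q.1.1 0 + s * q.2) q.1.2) : (ℕ → ℂ) × Y) :=
      (shift_meas38.comp (measurable_fst.comp measurable_fst)).prodMk (hst.comp h0)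
    have h2 := ih.comp h1
    have h3 := hkk.comp h0
    simp only [Function.comp_def] at h2 h3
    simp only [ach]
    exact (h3.mul h2).lintegral_prod_right'

theorem Qn_BM {f : TT → ℝ} (hf : BM f) (s : ℝ) (n : ℕ) : BM fun p : (ℕ → ℂ) × TT => Qn s f p.1 n p.2 := by
  induction n with
  | zero =>
    simp only [Qn]
    exact hf.comp measurable_snd
  | succ n ih =>
    have h0 : Measurable fun q : ((ℕ → ℂ) × TT) × ℂ => ((q.1.1 0 + s * q.2, q.1.2) : ℂ × TT) :=
      (((ev_meas38 0).comp (measurable_fst.comp measurable_fst)).add (measurable_snd.const_mul _)).prodMk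
        (measurable_snd.comp measurable_fst)
    have h1 : Measurable fun q : ((ℕ → ℂ) × TT) × ℂ =>
        (((fun j => q.1.1 (j + 1)), stp (q.1.1 0 + s * q.2) q.1.2) : (ℕ → ℂ) × TT) :=
      (shift_meas38.comp (measurable_fst.comp measurable_fst)).prodMk (stp_meas.comp h0)
    have h2 := (ih.comp h1).integral dl
    simp only [Qn]
    exact h2

theorem log_nn_nonneg (A : ℕ → ℂ) (z : TT) (n : ℕ) : 0 ≤ Real.log (nn (Mx A z n)) :=
  Real.log_nonneg (by linarith [Pool.Agent.Helper95.PV.nn_ge_two (det_Mx A z n)])

theorem log_nn_le {A : ℕ → ℂ} {K : ℝ} (hK0 : 0 ≤ K) (hK : ∀ j, ‖A j‖ ≤ K) (z : TT) (n : ℕ) :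
    Real.log (nn (Mx A z n)) ≤ Real.log 2 + n * Real.log (2 * π * K + 4) := by
  have hp : 0 < 2 * π * K + 4 := by positivity
  have hv : ∀ (j : ℕ) (x : UnitAddCircle), |va (A j) x| ≤ 2 + 2 * π * K := by
    intro j x
    have h1 : |(A j * ee x).re| ≤ K := by
      refine (Complex.abs_re_le_norm _).trans ?_
      rw [norm_mul, norm_ee38, mul_one]
      exact hK j
    unfold va
    refine (abs_add_le _ _).trans ?_
    rw [abs_two, abs_mul, abs_of_pos (by positivity : (0 : ℝ) < 2 * π)]
    have := mul_le_mul_of_nonneg_left h1 (by positivity : (0 : ℝ) ≤ 2 * π)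
    linarith
  have hn : nn (Mx A z n) ≤ 2 * (2 * π * K + 4) ^ n := by
    induction n with
    | zero =>
      show nn (1 : Matrix (Fin 2) (Fin 2) ℝ) ≤ _
      rw [Pool.Agent.Helper18.UC.nn_one, pow_zero, mul_one]
    | succ n ih =>
      rw [Mx_succ]
      refine (Pool.Agent.Helper18.UC.nn_mul _ _).trans ?_
      rw [Pool.Agent.Helper95.PV.nn_mv, pow_succ]
      have h1 : |va (A n) (orb A z n).1| + 2 ≤ 2 * π * K + 4 := by linarith [hv n (orb A z n).1]
      calc (|va (A n) (orb A z n).1| + 2) * nn (Mx A z n)
          ≤ (2 * π * K + 4) * (2 * (2 * π * K + 4) ^ n) :=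
            mul_le_mul h1 ih (Pool.Agent.Helper18.UC.nn_nonneg _) hp.le
        _ = 2 * ((2 * π * K + 4) ^ n * (2 * π * K + 4)) := by ring
  have h2 : 0 < nn (Mx A z n) := by linarith [Pool.Agent.Helper95.PV.nn_ge_two (det_Mx A z n)]
  refine (Real.log_le_log h2 hn).trans ?_
  rw [Real.log_mul two_ne_zero (pow_pos hp n).ne', Real.log_pow]

end Pool.Agent.Helper46.QP
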