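import Pool.Agent.Helper46.QP.Defs

/-! Block QP-LINK: lifts to the plane and their derivatives. Independent of the other blocks; compare `Mm_fderiv`, `lim_fderiv` in `Helper18/HY/Fin.lean` and `Helper18/FD/King.lean`.

`HasFDerivAt (Fl A) ..` with the matrix `mv (va A q.1)`: the derivative of `x ↦ (A exp (2 π i x)).im` is `2 π (A exp (2 π i x)).re`. Chain rule: the derivative of `Fn A n` at `q` is the linear map of `Mx A (q.1, q.2) n`; its norm (sup norm of `ℝ × ℝ`) is between `nn / 4` and `nn`. -/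

set_option autoImplicit false
open MeasureTheory Real Set Filter Topology

namespace Pool.Agent.Helper46.QP

open Pool.Agent.Helper18.UC (nn rep toT clm clm_apply norm_clm_le nn_le_clm)
open Pool.Agent.Helper95.PV (mv nn_ge_two)

/-- the lift of `stp A` to the plane -/
noncomputable def Fl (A : ℂ) (q : ℝ × ℝ) : ℝ × ℝ :=
  (2 * q.1 - q.2 + (A * Complex.exp (2 * π * Complex.I * q.1)).im, q.1)

/-- the lift of the orbit map -/
noncomputable def Fn (A : ℕ → ℂ) : ℕ → ℝ × ℝ → ℝ × ℝ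
  | 0 => id
  | n + 1 => fun q => Fl (A n) (Fn A n q)

/-- projection to the torus -/
def tor (q : ℝ × ℝ) : TT := ((q.1 : UnitAddCircle), (q.2 : UnitAddCircle))

private lemma clm_one88 : clm 1 = ContinuousLinearMap.id ℝ (ℝ × ℝ) := by
  refine ContinuousLinearMap.ext fun v => ?_
  rw [clm_apply]
  simp

private lemma clm_mul88 (B C : Matrix (Fin 2) (Fin 2) ℝ) : clm (B * C) = (clm B).comp (clm C) := by
  refine ContinuousLinearMap.ext fun v => ?_
  rw [ContinuousLinearMap.comp_apply, clm_apply, clm_apply, clm_apply]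
  refine Prod.ext ?_ ?_
  · simp only [Matrix.mul_apply, Fin.sum_univ_two]
    ring
  · simp only [Matrix.mul_apply, Fin.sum_univ_two]
    ring

theorem ee_coe (x : ℝ) : ee (x : UnitAddCircle) = Complex.exp (2 * π * Complex.I * x) := by
  unfold ee
  rw [fourier_coe_apply]
  congr 1
  push_cast
  ring

theorem tor_Fl (A : ℂ) (q : ℝ × ℝ) : tor (Fl A q) = stp A (tor q) := by
  unfold tor Fl stp
  refine Prod.ext ?_ rfl
  show ((2 * q.1 - q.2 + (A * Complex.exp (2 * π * Complex.I * q.1)).im : ℝ) : UnitAddCircle) =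
    (q.1 : UnitAddCircle) + (q.1 : UnitAddCircle) - (q.2 : UnitAddCircle) +
      (((A * ee (q.1 : UnitAddCircle)).im : ℝ) : UnitAddCircle)
  rw [ee_coe, ← AddCircle.coe_add, ← AddCircle.coe_sub, ← AddCircle.coe_add, two_mul]

theorem tor_Fn (A : ℕ → ℂ) (n : ℕ) (q : ℝ × ℝ) : tor (Fn A n q) = orb A (tor q) n := by
  induction n with
  | zero => rfl
  | succ n ih =>
    rw [orb_succ, ← ih, ← tor_Fl]
    rfl

private lemma im_der88 (A : ℂ) (x : ℝ) :
    HasDerivAt (fun x : ℝ => (A * Complex.exp (2 * π * Complex.I * x)).im)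
      (2 * π * (A * ee (x : UnitAddCircle)).re) x := by
  have h1 : HasDerivAt (fun x : ℝ => (2 * π * Complex.I * (x : ℂ))) (2 * π * Complex.I * 1) x :=
    (HasDerivAt.ofReal_comp (hasDerivAt_id x)).const_mul _
  have h2 : HasDerivAt (fun x : ℝ => A * Complex.exp (2 * π * Complex.I * x))
      (A * (Complex.exp (2 * π * Complex.I * x) * (2 * π * Complex.I * 1))) x :=
    (h1.cexp).const_mul A
  have h3 := (Complex.imCLM.hasFDerivAt (x := A * Complex.exp (2 * π * Complex.I * x))).comp_hasDerivAt x h2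
  have e : Complex.imCLM (A * (Complex.exp (2 * π * Complex.I * x) * (2 * π * Complex.I * 1))) =
      2 * π * (A * ee (x : UnitAddCircle)).re := by
    rw [ee_coe]
    have e2 : A * (Complex.exp (2 * π * Complex.I * x) * (2 * π * Complex.I * 1)) =
        ((2 * π : ℝ) : ℂ) * ((A * Complex.exp (2 * π * Complex.I * x)) * Complex.I) := by
      push_cast; ring
    rw [e2, Complex.imCLM_apply, Complex.im_ofReal_mul, Complex.mul_I_im]
  rw [e] at h3
  exact h3

private lemma Fl_der88 (A : ℂ) (q : ℝ × ℝ) :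
    HasFDerivAt (Fl A) (clm (mv (va A (q.1 : UnitAddCircle)))) q := by
  have h1 : HasFDerivAt (fun q : ℝ × ℝ => q.1) (ContinuousLinearMap.fst ℝ ℝ ℝ) q := hasFDerivAt_fst
  have h2 : HasFDerivAt (fun q : ℝ × ℝ => q.2) (ContinuousLinearMap.snd ℝ ℝ ℝ) q := hasFDerivAt_snd
  have h3 : HasFDerivAt (fun q : ℝ × ℝ => (A * Complex.exp (2 * π * Complex.I * q.1)).im)
      ((2 * π * (A * ee (q.1 : UnitAddCircle)).re) • (ContinuousLinearMap.fst ℝ ℝ ℝ)) q :=
    (im_der88 A q.1).comp_hasFDerivAt q h1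
  have h4 := ((((h1.const_mul 2).sub h2).add h3)).prodMk h1
  refine h4.congr_fderiv (ContinuousLinearMap.ext fun v => ?_)
  rw [clm_apply]
  refine Prod.ext ?_ ?_
  · show 2 * v.1 - v.2 + (2 * π * (A * ee (q.1 : UnitAddCircle)).re) * v.1 =
      (2 + 2 * π * (A * ee (q.1 : UnitAddCircle)).re) * v.1 + (-1) * v.2
    ring
  · show v.1 = 1 * v.1 + 0 * v.2
    ring

private lemma Fn_der88 (A : ℕ → ℂ) (n : ℕ) (q : ℝ × ℝ) :
    HasFDerivAt (Fn A n) (clm (Mx A (tor q) n)) q := by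
  induction n with
  | zero =>
    rw [show Mx A (tor q) 0 = 1 from rfl, clm_one88]
    exact hasFDerivAt_id q
  | succ n ih =>
    rw [Mx_succ, clm_mul88]
    have h : (orb A (tor q) n).1 = ((Fn A n q).1 : UnitAddCircle) := by
      rw [← tor_Fn]; rfl
    rw [h]
    exact (Fl_der88 (A n) (Fn A n q)).comp q ih

theorem Fn_fderiv (A : ℕ → ℂ) (n : ℕ) (q : ℝ × ℝ) :
    nn (Mx A (tor q) n) / 4 ≤ ‖fderiv ℝ (Fn A n) q‖ ∧ ‖fderiv ℝ (Fn A n) q‖ ≤ nn (Mx A (tor q) n) := by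
  rw [(Fn_der88 A n q).fderiv]
  have h1 := nn_le_clm (Mx A (tor q) n)
  have h2 := norm_clm_le (Mx A (tor q) n)
  have h3 := norm_nonneg (clm (Mx A (tor q) n))
  exact ⟨by linarith, h2⟩

theorem Fn_lim {A : ℕ → ℂ} {q : ℝ × ℝ} {L : ℝ}
    (h : Tendsto (fun n : ℕ => Real.log (nn (Mx A (tor q) n)) / n) atTop (𝓝 L)) :
    Tendsto (fun n : ℕ => Real.log ‖fderiv ℝ (Fn A n) q‖ / n) atTop (𝓝 L) := by
  have h2 : Tendsto (fun n : ℕ => Real.log (nn (Mx A (tor q) n)) / n - Real.log 4 / n) atTop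
      (𝓝 (L - 0)) := h.sub (tendsto_const_div_atTop_nhds_zero_nat _)
  rw [sub_zero] at h2
  have hpos : ∀ n, 0 < nn (Mx A (tor q) n) := fun n => by
    have := nn_ge_two (det_Mx A (tor q) n)
    linarith
  have key := fun n => Fn_fderiv A n q
  refine tendsto_of_tendsto_of_tendsto_of_le_of_le h2 h (fun n => ?_) (fun n => ?_)
  · change Real.log (nn (Mx A (tor q) n)) / n - Real.log 4 / n ≤ Real.log ‖fderiv ℝ (Fn A n) q‖ / n
    rw [← sub_div]
    refine div_le_div_of_nonneg_right ?_ (Nat.cast_nonneg n)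
    rw [← Real.log_div (hpos n).ne' (by norm_num)]
    exact Real.log_le_log (div_pos (hpos n) (by norm_num)) (key n).1
  · change Real.log ‖fderiv ℝ (Fn A n) q‖ / n ≤ Real.log (nn (Mx A (tor q) n)) / n
    refine div_le_div_of_nonneg_right ?_ (Nat.cast_nonneg n)
    exact Real.log_le_log (lt_of_lt_of_le (div_pos (hpos n) (by norm_num)) (key n).1) (key n).2

theorem ae_tor {P : TT → Prop} (h : ∀ᵐ z, P z) : ∀ᵐ q : ℝ × ℝ, P (tor q) := by
  obtain ⟨N, hN1, hN2, hN3⟩ := exists_measurable_superset_of_null (ae_iff.mp h)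
  have h0 : volume (toT ⁻¹' N ∩ (Ico (0:ℝ) 1 ×ˢ Ico (0:ℝ) 1)) = 0 := by
    rw [← Pool.Agent.Helper18.UC.vol_rep (Pool.Agent.Helper18.UC.measurable_toT hN2)]
    have : rep ⁻¹' (toT ⁻¹' N) = N := by
      ext z
      simp [Pool.Agent.Helper18.UC.toT_rep]
    rw [this, hN3]
  have h1 : ∀ k : ℤ × ℤ, volume ((fun q : ℝ × ℝ => q + ((k.1 : ℝ), (k.2 : ℝ))) ⁻¹'
      (toT ⁻¹' N ∩ (Ico (0:ℝ) 1 ×ˢ Ico (0:ℝ) 1))) = 0 := by
    intro k
    rw [measure_preimage_add_right, h0]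
  rw [ae_iff]
  refine measure_mono_null ?_ (measure_iUnion_null h1)
  intro q hq
  obtain ⟨u, w, h2⟩ := Pool.Agent.Helper18.UC.rep_toT q
  refine mem_iUnion.mpr ⟨(u, w), ?_⟩
  have h3 : q + ((u : ℝ), (w : ℝ)) = rep (toT q) := by
    rw [h2]
    rfl
  rw [mem_preimage, h3]
  refine ⟨?_, Pool.Agent.Helper18.UC.rep_mem _⟩
  change toT (rep (toT q)) ∈ N
  rw [Pool.Agent.Helper18.UC.toT_rep]
  exact hN1 hq

end Pool.Agent.Helper46.QP
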