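import Pool.Agent.Helper46.QP.Defs

/-! Block QP-RES: resampling one coordinate of the noise, rotation of the disc. Compare `PV/Dec.lean` (`res_mp`, `res1`) and `Helper18/PV/Rand.lean` (real coordinates). -/

set_option autoImplicit false
open MeasureTheory Real Set
open scoped ENNReal

namespace Pool.Agent.Helper46.QP

variable {d : ℕ}

lemma measurable_upd88 (i : Ix d) :
    Measurable fun q : Om d × ℂ => Function.update q.1 i q.2 := by
  rw [measurable_pi_iff]
  intro j
  by_cases hj : j = i
  · subst hj
    simp only [Function.update_self]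
    exact measurable_snd
  · simp only [Function.update_of_ne hj]
    exact (measurable_pi_apply j).comp measurable_fst

theorem res_mp (i : Ix d) :
    MeasurePreserving (fun p : Om d × ℂ => Function.update p.1 i p.2) ((law d).prod dl) (law d) := by
  refine ⟨measurable_upd88 i, ?_⟩
  conv_rhs => unfold law
  apply Measure.eq_infinitePi
  intro s t ht
  rw [Measure.map_apply (measurable_upd88 i)
    (MeasurableSet.pi (Finset.countable_toSet _) fun j _ => ht j)]
  by_cases hi : i ∈ s
  · have e : (fun q : Om d × ℂ => Function.update q.1 i q.2) ⁻¹' (Set.pi (s : Set (Ix d)) t) =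
        Set.pi ((s.erase i : Finset (Ix d)) : Set (Ix d)) t ×ˢ t i := by
      ext ⟨ω, u⟩
      simp only [Set.mem_preimage, Set.mem_pi, Finset.mem_coe, Set.mem_prod, Finset.mem_erase]
      constructor
      · intro h
        refine ⟨fun j hj => ?_, ?_⟩
        · have h1 := h j hj.2
          rwa [Function.update_of_ne hj.1] at h1
        · have h1 := h i hi
          rwa [Function.update_self] at h1
      · rintro ⟨h1, h2⟩ j hj
        by_cases hji : j = i
        · subst hji
          rwa [Function.update_self]
        · rw [Function.update_of_ne hji]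
          exact h1 j ⟨hji, hj⟩
    rw [e, Measure.prod_prod]
    unfold law
    rw [Measure.infinitePi_pi _ (fun j _ => ht j)]
    exact Finset.prod_erase_mul s (fun j => dl (t j)) hi
  · have e : (fun q : Om d × ℂ => Function.update q.1 i q.2) ⁻¹' (Set.pi (s : Set (Ix d)) t) =
        Set.pi (s : Set (Ix d)) t ×ˢ univ := by
      ext ⟨ω, u⟩
      simp only [Set.mem_preimage, Set.mem_pi, Finset.mem_coe, Set.mem_prod, Set.mem_univ, and_true]
      have hne : ∀ j ∈ s, j ≠ i := fun j hj h => hi (h ▸ hj)
      constructor
      · intro h j hj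
        have h1 := h j hj
        rwa [Function.update_of_ne (hne j hj)] at h1
      · intro h j hj
        rw [Function.update_of_ne (hne j hj)]
        exact h j hj
    rw [e, Measure.prod_prod, measure_univ, mul_one]
    unfold law
    rw [Measure.infinitePi_pi _ (fun j _ => ht j)]

theorem res_l (i : Ix d) {F : Om d → ℝ≥0∞} (hF : Measurable F) :
    ∫⁻ ω, F ω ∂law d = ∫⁻ ω, ∫⁻ w, F (Function.update ω i w) ∂dl ∂law d := by
  rw [← (res_mp i).lintegral_comp hF]
  exact lintegral_prod _ (hF.comp (measurable_upd88 i)).aemeasurable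

theorem clip_ae : ∀ᵐ w ∂dl, clip w = w := by
  unfold dl
  refine Measure.ae_smul_measure ?_ _
  filter_upwards [ae_restrict_mem (μ := (volume : Measure ℂ)) (Metric.isClosed_closedBall (x := (0 : ℂ)) (ε := 1)).measurableSet] with w hw
  rw [mem_closedBall_zero_iff] at hw
  simp only [clip, if_pos hw]

/-- multiplication by a number of absolute value one -/
noncomputable def rot88 (u : ℂ) (hu : ‖u‖ = 1) : ℂ ≃ₗᵢ[ℝ] ℂ :=
  rotation ⟨u, mem_sphere_zero_iff_norm.2 hu⟩

lemma rot88_apply (u : ℂ) (hu : ‖u‖ = 1) (w : ℂ) : rot88 u hu w = w * u := by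
  show u * w = w * u
  exact mul_comm _ _

theorem dl_rot {u : ℂ} (hu : ‖u‖ = 1) : MeasurePreserving (fun w : ℂ => w * u) dl dl := by
  have h1 : MeasurePreserving (fun w : ℂ => w * u) (volume : Measure ℂ) volume := by
    have h := (rot88 u hu).measurePreserving
    have e : (⇑(rot88 u hu) : ℂ → ℂ) = fun w => w * u := by
      funext w; exact rot88_apply u hu w
    rwa [e] at h
  have h2 := h1.restrict_preimage (Metric.isClosed_closedBall (x := (0 : ℂ)) (ε := 1)).measurableSet
  have e : (fun w : ℂ => w * u) ⁻¹' Metric.closedBall (0 : ℂ) 1 = Metric.closedBall (0 : ℂ) 1 := by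
    ext w
    simp only [Set.mem_preimage, mem_closedBall_zero_iff, norm_mul, hu, mul_one]
  rw [e] at h2
  unfold dl
  exact h2.smul_measure _

theorem norm_ee (x : UnitAddCircle) : ‖ee x‖ = 1 := by
  unfold ee
  rw [fourier_apply]
  exact Circle.norm_coe _

end Pool.Agent.Helper46.QP
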