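import Pool.Agent.Helper46.QP.Meas
import Pool.Agent.Helper46.QP.Res

/-! Block QP-DBL: junction. With `v_j = va (A j) (orb A z j).1`, `L' = Mx A z (m-1)`, `L'' = Mx A z (m-2)`, `L = Mx A z m = mv v_(m-1) * L'`, `L' = mv v_(m-2) * L''`, `R = R' * mv v_m` the product of the matrices of the times `m ≤ j < 2m` (`Mx_add`, `Mx_one_add`), `Mx A z (2m) = R * L`.
`PV/Bas.lean`: `jun`, `row`, `col`, `row_nn` (and the analogue for `nn (R' * mv v) = cn1 (R' * mv v) + cn1 R'`):
 (1) `nn R ≤ cn1 R * (1 + 4 / |v_m - y₁|)`, (2) `nn L = rn1 L + rn1 L' ≤ rn1 L' * (|v_(m-1)| + 1 + 4 / |v_(m-2) - y₂|)`, (3) `cn1 R * rn1 L' * |v_(m-1) - y₃| ≤ 4 * nn (R * L)`; `cn1 R > 0`, `rn1 L' > 0` (determinant one).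
So the loss is `[log nn R - log cn1 R] + [log nn L - log rn1 L'] + [log cn1 R + log rn1 L' - log nn (R L)]`, three measurable functions of `ω`. For each of them resample the cell of `θ + k α`, `k = m, m - 2, m - 1` (`res_l`; by `A_far` and `iso` the amplitudes of the other times `j < 2m` do not change; the point `x_k` does not change), and turn the new value: `w = ζ * conj (ee x_k)`
(`dl_rot`, `norm_ee`): `A k * ee x_k = (Am) * ee x_k + s * ζ`. The orbit and all `v_j`, `j ≠ k`, depend on `ζ` only through `ζ.im` (`stp` and `va` of the other times do not see `ζ.re`), and `v_k = v⁰ + 2 π s ζ.re`. So for fixed `ζ.im` the number `y` is fixed and `|v_k - y| = 2 π s |ζ.re - a|`.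
`one`: `log (1 + 1/u) ≤ u^(-1/2)`; `∫_{-1}^{1} |t - a|^(-1/2) dt ≤ 6`. Total: `C + 3 log (1/s)` (`s ≤ 1`, `|v| ≤ 2 + 2 π K`, `A_bd`). -/

set_option autoImplicit false
open MeasureTheory Real Set
open scoped ENNReal

namespace Pool.Agent.Helper46.QP

open Pool.Agent.Helper18.UC (nn)

variable {d : ℕ} {D : Dat d}

open Pool.Agent.Helper18.UC (nn_nonneg nn_mul)
open Pool.Agent.Helper18.FD (NN)
open Pool.Agent.Helper95.PV (mv rn1 cn1 rn1_pos cn1_pos nn_ge_two jun row col row_nn col_nn nn_mv)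

private theorem loc24 {u : ℝ} (hu : u ≠ 0) :
    Real.log (1 + 1 / |u|) ≤ Real.log 2 + (Icc (-1 : ℝ) 1).indicator (fun u => |Real.log u|) u := by
  have h0 : 0 < |u| := abs_pos.2 hu
  by_cases h : u ∈ Icc (-1 : ℝ) 1
  · rw [indicator_of_mem h]
    have h1 : |u| ≤ 1 := abs_le.2 h
    have e : 1 + 1 / |u| ≤ 2 / |u| := by
      rw [show (2 : ℝ) / |u| = 1 / |u| + 1 / |u| by ring]
      have : 1 ≤ 1 / |u| := by rw [le_div_iff₀ h0]; linarith
      linarith
    have h2 := Real.log_le_log (by positivity) e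
    rw [Real.log_div two_ne_zero h0.ne', Real.log_abs] at h2
    have := neg_abs_le (Real.log u)
    show _ ≤ Real.log 2 + |Real.log u|
    linarith
  · rw [indicator_of_notMem h, add_zero]
    have h1 : 1 < |u| := by
      by_contra hc
      exact h (abs_le.1 (not_lt.1 hc))
    refine Real.log_le_log (by positivity) ?_
    have : 1 / |u| ≤ 1 := by rw [div_le_one h0]; exact h1.le
    linarith

private theorem fin24 :
    ∫⁻ u : ℝ, ENNReal.ofReal ((Icc (-1 : ℝ) 1).indicator (fun u => |Real.log u|) u) ≠ ⊤ := by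
  have h1 : IntervalIntegrable Real.log volume (-1) 1 := intervalIntegral.intervalIntegrable_log'
  have h2 : IntegrableOn Real.log (Icc (-1) 1) := by
    rw [integrableOn_Icc_iff_integrableOn_Ioc]
    exact (intervalIntegrable_iff_integrableOn_Ioc_of_le (by norm_num)).1 h1
  have h3 : IntegrableOn (fun u => |Real.log u|) (Icc (-1) 1) := h2.abs
  have h4 : Integrable ((Icc (-1 : ℝ) 1).indicator (fun u => |Real.log u|)) :=
    (integrable_indicator_iff measurableSet_Icc).2 h3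
  exact h4.lintegral_lt_top.ne

theorem one : ∃ C : ℝ, 0 ≤ C ∧ ∀ G : ℂ → ℝ≥0∞, Measurable G → ∀ B : ℝ, 0 ≤ B →
    (∀ τ : ℝ, ∃ a : ℝ, ∀ t : ℝ, t ≠ a → G ⟨t, τ⟩ ≤ ENNReal.ofReal (B + Real.log (1 + 1 / |t - a|))) →
    ∫⁻ ζ, G ζ ∂dl ≤ ENNReal.ofReal (B + C) := by
  set C₁ : ℝ≥0∞ := ∫⁻ u : ℝ, ENNReal.ofReal ((Icc (-1 : ℝ) 1).indicator (fun u => |Real.log u|) u) with hC₁
  have hfin : C₁ ≠ ⊤ := fin24
  have hl2 : 0 ≤ Real.log 2 := Real.log_nonneg one_le_two
  refine ⟨Real.log 2 + 2 * C₁.toReal, by positivity, fun G hG B hB h => ?_⟩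
  set c : ℝ≥0∞ := ENNReal.ofReal (B + Real.log 2) with hc
  have h1 : ∫⁻ ζ, G ζ ∂dl ≤ c + ∫⁻ ζ, (G ζ - c) ∂dl := by
    calc ∫⁻ ζ, G ζ ∂dl ≤ ∫⁻ ζ, (c + (G ζ - c)) ∂dl := lintegral_mono fun ζ => le_add_tsub
      _ = c + ∫⁻ ζ, (G ζ - c) ∂dl := by
        rw [lintegral_add_left measurable_const, lintegral_const, measure_univ, mul_one]
  have hGc : Measurable fun ζ : ℂ => G ζ - c := hG.sub_const c
  have hin : ∀ τ : ℝ, ∫⁻ t : ℝ, (G ⟨t, τ⟩ - c) ≤ C₁ := by
    intro τ
    obtain ⟨a, ha⟩ := h τ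
    have e : ∫⁻ t : ℝ, ENNReal.ofReal ((Icc (-1 : ℝ) 1).indicator (fun u => |Real.log u|) (t - a)) = C₁ :=
      lintegral_sub_right_eq_self (fun u : ℝ => ENNReal.ofReal ((Icc (-1 : ℝ) 1).indicator (fun u => |Real.log u|) u)) a
    rw [← e]
    refine lintegral_mono_ae ?_
    have hne : ∀ᵐ t : ℝ, t ≠ a := by
      rw [ae_iff]
      simp
    filter_upwards [hne] with t ht
    rw [tsub_le_iff_left]
    refine (ha t ht).trans ?_
    rw [hc, ← ENNReal.ofReal_add (by positivity) (indicator_nonneg (fun _ _ => abs_nonneg _) _)]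
    refine ENNReal.ofReal_le_ofReal ?_
    have := loc24 (sub_ne_zero.2 ht)
    linarith
  have h2 : ∫⁻ ζ, (G ζ - c) ∂dl ≤ 2 * C₁ := by
    unfold dl
    rw [lintegral_smul_measure, smul_eq_mul]
    have hb : Metric.closedBall (0 : ℂ) 1 ⊆ (univ : Set ℝ) ×ℂ Icc (-1 : ℝ) 1 := by
      intro ζ hζ
      rw [mem_closedBall_zero_iff] at hζ
      rw [Complex.mem_reProdIm]
      exact ⟨mem_univ _, abs_le.1 ((Complex.abs_im_le_norm ζ).trans hζ)⟩
    have hpi : (ENNReal.ofReal π)⁻¹ ≤ 1 := by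
      rw [ENNReal.inv_le_one]
      rw [← ENNReal.ofReal_one]
      exact ENNReal.ofReal_le_ofReal (by linarith [pi_gt_three])
    have e1 : (univ : Set ℝ) ×ℂ Icc (-1 : ℝ) 1 =
        Complex.measurableEquivRealProd ⁻¹' ((univ : Set ℝ) ×ˢ (Icc (-1 : ℝ) 1)) := by
      ext ζ
      simp only [Complex.mem_reProdIm, Complex.measurableEquivRealProd, mem_preimage, mem_prod]
      rfl
    have e2 : ∫⁻ ζ in (univ : Set ℝ) ×ℂ Icc (-1 : ℝ) 1, (G ζ - c) =
        ∫⁻ p in (univ : Set ℝ) ×ˢ (Icc (-1 : ℝ) 1), (G ⟨p.1, p.2⟩ - c) := by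
      rw [e1, ← Complex.volume_preserving_equiv_real_prod.setLIntegral_comp_preimage_emb
        Complex.measurableEquivRealProd.measurableEmbedding (fun p : ℝ × ℝ => G ⟨p.1, p.2⟩ - c)]
      rfl
    have hm : Measurable fun p : ℝ × ℝ => G ⟨p.1, p.2⟩ - c :=
      hGc.comp Complex.measurableEquivRealProd.symm.measurable
    calc (ENNReal.ofReal π)⁻¹ * ∫⁻ ζ in Metric.closedBall (0 : ℂ) 1, (G ζ - c)
        ≤ 1 * ∫⁻ ζ in (univ : Set ℝ) ×ℂ Icc (-1 : ℝ) 1, (G ζ - c) :=
          mul_le_mul' hpi (lintegral_mono_set hb)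
      _ = ∫⁻ p in (univ : Set ℝ) ×ˢ (Icc (-1 : ℝ) 1), (G ⟨p.1, p.2⟩ - c) := by rw [one_mul, e2]
      _ = ∫⁻ τ in Icc (-1 : ℝ) 1, ∫⁻ t : ℝ, (G ⟨t, τ⟩ - c) := by
          rw [Measure.volume_eq_prod, ← Measure.prod_restrict, Measure.restrict_univ,
            lintegral_prod_symm' _ hm]
      _ ≤ ∫⁻ _ in Icc (-1 : ℝ) 1, C₁ := lintegral_mono fun τ => hin τ
      _ = 2 * C₁ := by
          rw [setLIntegral_const, Real.volume_Icc, mul_comm]
          congr 1
          norm_num
  refine h1.trans ((add_le_add le_rfl h2).trans ?_)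
  rw [hc, ← ENNReal.ofReal_toReal hfin, ← ENNReal.ofReal_ofNat, ← ENNReal.ofReal_mul (by norm_num),
    ← ENNReal.ofReal_add (by positivity) (by positivity)]
  refine ENNReal.ofReal_le_ofReal ?_
  rw [ENNReal.toReal_ofReal ENNReal.toReal_nonneg]
  linarith

/-! ### the orbit under a change of one amplitude -/

private theorem orb_congr24 {A A' : ℕ → ℂ} (z : TT) {n : ℕ} (h : ∀ j < n, A j = A' j) : orb A z n = orb A' z n := by
  induction n with
  | zero => rfl
  | succ n ih => rw [orb_succ, orb_succ, ih fun j hj => h j (by omega), h n (by omega)]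

private theorem Mx_congr24 {A A' : ℕ → ℂ} (z : TT) {n : ℕ} (h : ∀ j < n, A j = A' j) : Mx A z n = Mx A' z n := by
  induction n with
  | zero => rfl
  | succ n ih =>
    rw [Mx_succ, Mx_succ, ih fun j hj => h j (by omega), h n (by omega),
      orb_congr24 z fun j hj => h j (by omega)]

private theorem upd_lt24 (A : ℕ → ℂ) {k j : ℕ} (hj : j ≤ k) (a : ℂ) (z : TT) :
    orb (Function.update A k a) z j = orb A z j :=
  orb_congr24 z fun i hi => Function.update_of_ne (by omega) _ _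

private theorem updM_lt24 (A : ℕ → ℂ) {k j : ℕ} (hj : j ≤ k) (a : ℂ) (z : TT) :
    Mx (Function.update A k a) z j = Mx A z j :=
  Mx_congr24 z fun i hi => Function.update_of_ne (by omega) _ _

private theorem upd_gt24 (A : ℕ → ℂ) {k j : ℕ} (hj : k < j) {a a' : ℂ} (z : TT)
    (h : (a * ee (orb A z k).1).im = (a' * ee (orb A z k).1).im) :
    orb (Function.update A k a) z j = orb (Function.update A k a') z j := by
  obtain ⟨i, rfl⟩ : ∃ i, j = k + 1 + i := ⟨j - (k + 1), by omega⟩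
  clear hj
  induction i with
  | zero =>
    rw [add_zero, orb_succ, orb_succ, Function.update_self, Function.update_self, upd_lt24 A le_rfl,
      upd_lt24 A le_rfl]
    unfold stp
    rw [h]
  | succ i ih =>
    rw [← add_assoc, orb_succ, orb_succ, ih, Function.update_of_ne (by omega), Function.update_of_ne (by omega)]

private theorem shift24 (A : ℕ → ℂ) {k j : ℕ} (hj : k < j) (a : ℂ) :
    (fun i => Function.update A k a (i + j)) = fun i => A (i + j) := by
  funext i
  exact Function.update_of_ne (by omega) _ _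

/-! ### the three functions -/

private noncomputable def fR24 (z : TT) (m : ℕ) (A : ℕ → ℂ) : ℝ :=
  Real.log (1 + rn1 (Mx A z (m - 2)) / rn1 (Mx A z (m - 1)))

private noncomputable def fJ24 (z : TT) (m : ℕ) (A : ℕ → ℂ) : ℝ :=
  Real.log (1 + cn1 (Mx (fun j => A (j + m)) (orb A z m) m) * rn1 (Mx A z (m - 1)) / nn (Mx A z (2 * m)))

private noncomputable def fC24 (z : TT) (m : ℕ) (A : ℕ → ℂ) : ℝ :=
  Real.log (1 + cn1 (Mx (fun j => A (j + (m + 1))) (orb A z (m + 1)) (m - 1)) /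
    cn1 (Mx (fun j => A (j + m)) (orb A z m) m))

private theorem rn_meas24 (n : ℕ) : Measurable fun p : (ℕ → ℂ) × TT => rn1 (Mx p.1 p.2 n) := by
  have ha : ∀ i j : Fin 2, Measurable fun p : (ℕ → ℂ) × TT => |Mx p.1 p.2 n i j| :=
    fun i j => (Mx_meas' n i j).norm
  exact (ha 0 0).add (ha 0 1)

private theorem cn_meas24 (n : ℕ) : Measurable fun p : (ℕ → ℂ) × TT => cn1 (Mx p.1 p.2 n) := by
  have ha : ∀ i j : Fin 2, Measurable fun p : (ℕ → ℂ) × TT => |Mx p.1 p.2 n i j| :=
    fun i j => (Mx_meas' n i j).norm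
  exact (ha 0 0).add (ha 1 0)

private theorem pt_meas24 (z : TT) (m : ℕ) :
    Measurable fun A : ℕ → ℂ => (((fun j => A (j + m)), orb A z m) : (ℕ → ℂ) × TT) :=
  (measurable_pi_lambda _ fun j => measurable_pi_apply (j + m)).prodMk
    ((orb_meas m).comp (measurable_id.prodMk measurable_const))

private theorem fst_meas24 (z : TT) : Measurable fun A : ℕ → ℂ => ((A, z) : (ℕ → ℂ) × TT) :=
  measurable_id.prodMk measurable_const

private theorem fR_meas24 (z : TT) (m : ℕ) : Measurable (fR24 z m) := by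
  unfold fR24
  exact Real.measurable_log.comp ((((rn_meas24 (m - 2)).comp (fst_meas24 z)).div
    ((rn_meas24 (m - 1)).comp (fst_meas24 z))).const_add 1)

private theorem fJ_meas24 (z : TT) (m : ℕ) : Measurable (fJ24 z m) := by
  unfold fJ24
  exact Real.measurable_log.comp (((((cn_meas24 m).comp (pt_meas24 z m)).mul
    ((rn_meas24 (m - 1)).comp (fst_meas24 z))).div ((Mx_meas (2 * m)).comp (fst_meas24 z))).const_add 1)

private theorem fC_meas24 (z : TT) (m : ℕ) : Measurable (fC24 z m) := by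
  unfold fC24
  exact Real.measurable_log.comp ((((cn_meas24 (m - 1)).comp (pt_meas24 z (m + 1))).div
    ((cn_meas24 m).comp (pt_meas24 z m))).const_add 1)

private theorem fR_nonneg24 (z : TT) (m : ℕ) (A : ℕ → ℂ) : 0 ≤ fR24 z m A := by
  unfold fR24
  have h1 := rn1_pos (det_Mx A z (m - 2))
  have h2 := rn1_pos (det_Mx A z (m - 1))
  exact Real.log_nonneg (by linarith [div_pos h1 h2])

private theorem nn_pos24 {B : Matrix (Fin 2) (Fin 2) ℝ} (h : B.det = 1) : 0 < nn B := by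
  have := nn_ge_two h
  linarith

private theorem fJ_nonneg24 (z : TT) (m : ℕ) (A : ℕ → ℂ) : 0 ≤ fJ24 z m A := by
  unfold fJ24
  have h1 := cn1_pos (det_Mx (fun j => A (j + m)) (orb A z m) m)
  have h2 := rn1_pos (det_Mx A z (m - 1))
  have h3 := nn_pos24 (det_Mx A z (2 * m))
  exact Real.log_nonneg (by linarith [div_pos (mul_pos h1 h2) h3])

private theorem fC_nonneg24 (z : TT) (m : ℕ) (A : ℕ → ℂ) : 0 ≤ fC24 z m A := by
  unfold fC24
  have h1 := cn1_pos (det_Mx (fun j => A (j + (m + 1))) (orb A z (m + 1)) (m - 1))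
  have h2 := cn1_pos (det_Mx (fun j => A (j + m)) (orb A z m) m)
  exact Real.log_nonneg (by linarith [div_pos h1 h2])

private theorem fR_congr24 (z : TT) {m : ℕ} (hm : 2 ≤ m) {A A' : ℕ → ℂ} (h : ∀ j < 2 * m, A j = A' j) :
    fR24 z m A = fR24 z m A' := by
  unfold fR24
  rw [Mx_congr24 z fun j hj => h j (by omega), Mx_congr24 z (n := m - 1) fun j hj => h j (by omega)]

private theorem fJ_congr24 (z : TT) {m : ℕ} (hm : 2 ≤ m) {A A' : ℕ → ℂ} (h : ∀ j < 2 * m, A j = A' j) :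
    fJ24 z m A = fJ24 z m A' := by
  unfold fJ24
  rw [Mx_congr24 z (n := m - 1) fun j hj => h j (by omega), Mx_congr24 z (n := 2 * m) h,
    orb_congr24 z (n := m) fun j hj => h j (by omega),
    Mx_congr24 (A := fun j => A (j + m)) (A' := fun j => A' (j + m)) _ (n := m) fun j hj => h (j + m) (by omega)]

private theorem fC_congr24 (z : TT) {m : ℕ} (hm : 2 ≤ m) {A A' : ℕ → ℂ} (h : ∀ j < 2 * m, A j = A' j) :
    fC24 z m A = fC24 z m A' := by
  unfold fC24
  rw [orb_congr24 z (n := m) fun j hj => h j (by omega), orb_congr24 z (n := m + 1) fun j hj => h j (by omega),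
    Mx_congr24 (A := fun j => A (j + m)) (A' := fun j => A' (j + m)) _ (n := m) fun j hj => h (j + m) (by omega),
    Mx_congr24 (A := fun j => A (j + (m + 1))) (A' := fun j => A' (j + (m + 1))) _ (n := m - 1)
      fun j hj => h (j + (m + 1)) (by omega)]

/-- the logarithm of `1 + x / y` if `|v - w| x ≤ 4 y` -/
private theorem log4_24 {x y v : ℝ} (hx : 0 < x) (hy : 0 < y) (hv : 0 < v) (h : v * x ≤ 4 * y) :
    Real.log (1 + x / y) ≤ Real.log (1 + 4 / v) := by
  have h1 : x / y ≤ 4 / v := by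
    rw [div_le_div_iff₀ hy hv]
    linarith
  have h2 := div_pos hx hy
  exact Real.log_le_log (by linarith) (by linarith)

private theorem fR_one24 (z : TT) {m : ℕ} (hm : 2 ≤ m) (A : ℕ → ℂ) (a₀ : ℂ) : ∃ y : ℝ, ∀ a : ℂ,
    (a * ee (orb A z (m - 2)).1).im = (a₀ * ee (orb A z (m - 2)).1).im → va a (orb A z (m - 2)).1 ≠ y →
    fR24 z m (Function.update A (m - 2) a) ≤ Real.log (1 + 4 / |va a (orb A z (m - 2)).1 - y|) := by
  obtain ⟨k, rfl⟩ : ∃ k, m = k + 2 := ⟨m - 2, by omega⟩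
  have e1 : k + 2 - 2 = k := by omega
  have e2 : k + 2 - 1 = k + 1 := by omega
  rw [e1]
  obtain ⟨y, hy⟩ := row (Mx A z k)
  refine ⟨y, fun a _ hne => ?_⟩
  have h1 : Mx (Function.update A k a) z (k + 1) = mv (va a (orb A z k).1) * Mx A z k := by
    rw [Mx_succ, Function.update_self, updM_lt24 A le_rfl, upd_lt24 A le_rfl]
  unfold fR24
  rw [e1, e2, updM_lt24 A le_rfl]
  refine log4_24 (rn1_pos (det_Mx _ _ _)) (rn1_pos (det_Mx _ _ _)) (abs_pos.2 (sub_ne_zero.2 hne)) ?_
  rw [h1]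
  exact hy _

private theorem fJ_one24 (z : TT) {m : ℕ} (hm : 2 ≤ m) (A : ℕ → ℂ) (a₀ : ℂ) : ∃ y : ℝ, ∀ a : ℂ,
    (a * ee (orb A z (m - 1)).1).im = (a₀ * ee (orb A z (m - 1)).1).im → va a (orb A z (m - 1)).1 ≠ y →
    fJ24 z m (Function.update A (m - 1) a) ≤ Real.log (1 + 4 / |va a (orb A z (m - 1)).1 - y|) := by
  obtain ⟨k, rfl⟩ : ∃ k, m = k + 1 := ⟨m - 1, by omega⟩
  have e1 : k + 1 - 1 = k := by omega
  rw [e1]
  obtain ⟨y, hy⟩ := jun (Mx (fun i => A (i + (k + 1))) (orb (Function.update A k a₀) z (k + 1)) (k + 1)) (Mx A z k)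
  refine ⟨y, fun a him hne => ?_⟩
  have h1 : Mx (Function.update A k a) z (k + 1) = mv (va a (orb A z k).1) * Mx A z k := by
    rw [Mx_succ, Function.update_self, updM_lt24 A le_rfl, upd_lt24 A le_rfl]
  have h2 : Mx (fun i => Function.update A k a (i + (k + 1))) (orb (Function.update A k a) z (k + 1)) (k + 1) =
      Mx (fun i => A (i + (k + 1))) (orb (Function.update A k a₀) z (k + 1)) (k + 1) := by
    rw [shift24 A (Nat.lt_succ_self k), upd_gt24 A (Nat.lt_succ_self k) z him]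
  have h3 : Mx (Function.update A k a) z (2 * (k + 1)) =
      Mx (fun i => A (i + (k + 1))) (orb (Function.update A k a₀) z (k + 1)) (k + 1) *
        (mv (va a (orb A z k).1) * Mx A z k) := by
    rw [two_mul, Mx_add, h1, h2]
  unfold fJ24
  rw [e1, h2, updM_lt24 A le_rfl]
  refine log4_24 (mul_pos (cn1_pos (det_Mx _ _ _)) (rn1_pos (det_Mx _ _ _))) (nn_pos24 (det_Mx _ _ _))
    (abs_pos.2 (sub_ne_zero.2 hne)) ?_
  rw [h3]
  exact hy _

private theorem fC_one24 (z : TT) {m : ℕ} (hm : 2 ≤ m) (A : ℕ → ℂ) (a₀ : ℂ) : ∃ y : ℝ, ∀ a : ℂ,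
    (a * ee (orb A z m).1).im = (a₀ * ee (orb A z m).1).im → va a (orb A z m).1 ≠ y →
    fC24 z m (Function.update A m a) ≤ Real.log (1 + 4 / |va a (orb A z m).1 - y|) := by
  obtain ⟨y, hy⟩ := col (Mx (fun i => A (i + (m + 1))) (orb (Function.update A m a₀) z (m + 1)) (m - 1))
  refine ⟨y, fun a him hne => ?_⟩
  have h1 : Mx (fun i => Function.update A m a (i + (m + 1))) (orb (Function.update A m a) z (m + 1)) (m - 1) =
      Mx (fun i => A (i + (m + 1))) (orb (Function.update A m a₀) z (m + 1)) (m - 1) := by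
    rw [shift24 A (Nat.lt_succ_self m), upd_gt24 A (Nat.lt_succ_self m) z him]
  have h2 : Mx (fun i => Function.update A m a (i + m)) (orb (Function.update A m a) z m) m =
      Mx (fun i => A (i + (m + 1))) (orb (Function.update A m a₀) z (m + 1)) (m - 1) *
        mv (va a (orb A z m).1) := by
    obtain ⟨k, rfl⟩ : ∃ k, m = k + 1 := ⟨m - 1, by omega⟩
    have e1 : k + 1 - 1 = k := by omega
    rw [e1] at h1 ⊢
    rw [Mx_one_add, ← h1]
    have e2 : (fun j => Function.update A (k + 1) a (j + 1 + (k + 1))) =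
        fun i => Function.update A (k + 1) a (i + (k + 1 + 1)) := by
      funext j
      congr 1
      omega
    rw [e2, zero_add, Function.update_self, orb_succ _ z (k + 1), Function.update_self, upd_lt24 A le_rfl]
  unfold fC24
  rw [h1, h2]
  refine log4_24 (cn1_pos (det_Mx _ _ _)) ?_ (abs_pos.2 (sub_ne_zero.2 hne)) (hy _)
  rw [← h2]
  exact cn1_pos (det_Mx _ _ _)

/-! ### resampling -/

private theorem iso_dist24 {l n : ℕ} (h : D.iso l n) (θ : Td d) {j k : ℕ} (hj : j < n) (hk : k < n) (hjk : j ≠ k) :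
    2 / (NN l : ℝ) ≤ dist (θ + k • D.α) (θ + j • D.α) := by
  rw [dist_add_left, dist_eq_norm]
  rcases lt_or_gt_of_ne hjk with h1 | h1
  · have e : k • D.α - j • D.α = (k - j) • D.α := by
      rw [sub_eq_iff_eq_add, ← add_nsmul]
      congr 1
      omega
    rw [e]
    exact h _ (by omega) (by omega)
  · have e : k • D.α - j • D.α = -((j - k) • D.α) := by
      rw [eq_neg_iff_add_eq_zero, sub_add_eq_add_sub, sub_eq_zero, ← add_nsmul]
      congr 1
      omega
    rw [e, norm_neg]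
    exact h _ (by omega) (by omega)

private theorem s_pos24 (hD : D.Ok) (l : ℕ) : 0 < D.s l := by
  unfold Dat.s
  have h1 : (0 : ℝ) < NN l := by exact_mod_cast Pool.Agent.Helper18.FD.NN_pos l
  exact mul_pos hD.hq (Real.rpow_pos_of_pos h1 _)

private theorem weg24 (hD : D.Ok) : ∃ C : ℝ, 0 ≤ C ∧ ∀ l n k : ℕ, k < n → D.iso l n → D.s l ≤ 1 → ∀ θ z,
    ∀ Φ : (ℕ → ℂ) → ℝ, Measurable Φ → (∀ A A' : ℕ → ℂ, (∀ j < n, A j = A' j) → Φ A = Φ A') →
    (∀ (A : ℕ → ℂ) (a₀ : ℂ), ∃ y : ℝ, ∀ a : ℂ,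
      (a * ee (orb A z k).1).im = (a₀ * ee (orb A z k).1).im → va a (orb A z k).1 ≠ y →
      Φ (Function.update A k a) ≤ Real.log (1 + 4 / |va a (orb A z k).1 - y|)) →
    ∫⁻ ω, ENNReal.ofReal (Φ (D.As ω θ)) ∂law d ≤ ENNReal.ofReal (Real.log (1 / D.s l) + C) := by
  obtain ⟨C, hC, hone⟩ := one
  refine ⟨C, hC, fun l n k hk hiso hs θ z Φ hΦm hΦc hΦ => ?_⟩
  have hs0 := s_pos24 hD l
  have hls : 0 ≤ Real.log (1 / D.s l) := Real.log_nonneg (by rw [le_div_iff₀ hs0]; linarith)
  have hAm : Measurable fun ω : Om d => D.As ω θ := (As_meas hD).comp (measurable_id.prodMk measurable_const)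
  have hm : Measurable fun ω : Om d => ENNReal.ofReal (Φ (D.As ω θ)) :=
    ENNReal.measurable_ofReal.comp (hΦm.comp hAm)
  rw [res_l (l, cl l (θ + k • D.α)) hm]
  have key : ∀ ω : Om d, ∫⁻ w, ENNReal.ofReal (Φ (D.As (Function.update ω (l, cl l (θ + k • D.α)) w) θ)) ∂dl ≤
      ENNReal.ofReal (Real.log (1 / D.s l) + C) := by
    intro ω
    set A : ℕ → ℂ := D.As ω θ with hA
    set x : UnitAddCircle := (orb A z k).1 with hx
    set u : ℂ := ee x with hu
    have hnu : ‖u‖ = 1 := norm_ee x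
    set B : ℂ := D.Am l ω (θ + k • D.α) with hB
    -- the new amplitudes
    have e1 : ∀ w : ℂ, Φ (D.As (Function.update ω (l, cl l (θ + k • D.α)) w) θ) =
        Φ (Function.update A k (B + D.s l * clip w)) := by
      intro w
      refine hΦc _ _ fun j hj => ?_
      rcases eq_or_ne j k with rfl | hjk
      · rw [Function.update_self]
        exact A_own hD l (θ + j • D.α) w ω
      · rw [Function.update_of_ne hjk]
        exact A_far hD (iso_dist24 hiso θ hj hk hjk) w ω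
    have e2 : ∫⁻ w, ENNReal.ofReal (Φ (D.As (Function.update ω (l, cl l (θ + k • D.α)) w) θ)) ∂dl =
        ∫⁻ w, ENNReal.ofReal (Φ (Function.update A k (B + D.s l * w))) ∂dl := by
      refine lintegral_congr_ae ?_
      filter_upwards [clip_ae] with w hw
      rw [e1, hw]
    have hcu : ‖(starRingEnd ℂ) u‖ = 1 := by rw [RCLike.norm_conj]; exact hnu
    have huu : (starRingEnd ℂ) u * u = 1 := by
      rw [mul_comm, Complex.mul_conj, Complex.normSq_eq_norm_sq, hnu]
      norm_num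
    have hGm : Measurable fun w : ℂ => ENNReal.ofReal (Φ (Function.update A k (B + D.s l * w))) := by
      refine ENNReal.measurable_ofReal.comp (hΦm.comp ?_)
      exact (measurable_update A).comp ((measurable_id.const_mul _).const_add _)
    have e3 : ∫⁻ w, ENNReal.ofReal (Φ (Function.update A k (B + D.s l * w))) ∂dl =
        ∫⁻ ζ, ENNReal.ofReal (Φ (Function.update A k (B + D.s l * (ζ * (starRingEnd ℂ) u)))) ∂dl :=
      ((dl_rot hcu).lintegral_comp hGm).symm
    rw [e2, e3]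
    refine hone _ (hGm.comp (measurable_id.mul_const _)) _ hls fun τ => ?_
    have hval : ∀ ζ : ℂ, (B + D.s l * (ζ * (starRingEnd ℂ) u)) * u = B * u + D.s l * ζ := by
      intro ζ
      calc (B + D.s l * (ζ * (starRingEnd ℂ) u)) * u = B * u + D.s l * ζ * ((starRingEnd ℂ) u * u) := by ring
        _ = _ := by rw [huu, mul_one]
    obtain ⟨y, hy⟩ := hΦ A (B + D.s l * ((⟨0, τ⟩ : ℂ) * (starRingEnd ℂ) u))
    have h2ps : 0 < 2 * π * D.s l := by positivity
    refine ⟨(y - (2 + 2 * π * (B * u).re)) / (2 * π * D.s l), fun t ht => ?_⟩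
    set a : ℂ := B + D.s l * ((⟨t, τ⟩ : ℂ) * (starRingEnd ℂ) u) with ha
    have hva : va a x - y = 2 * π * D.s l * (t - (y - (2 + 2 * π * (B * u).re)) / (2 * π * D.s l)) := by
      have h1 : va a x = 2 + 2 * π * ((B * u).re + D.s l * t) := by
        unfold va
        rw [← hu, ha, hval]
        simp
      rw [h1]
      field_simp
      ring
    have hne : va a x ≠ y := by
      intro h0
      rw [h0, sub_self] at hva
      rcases mul_eq_zero.1 hva.symm with h1 | h1
      · exact h2ps.ne' h1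
      · exact ht (sub_eq_zero.1 h1)
    have him : (a * ee x).im = ((B + D.s l * ((⟨0, τ⟩ : ℂ) * (starRingEnd ℂ) u)) * ee x).im := by
      rw [← hu, ha, hval, hval]
      simp
    refine ENNReal.ofReal_le_ofReal ((hy a him hne).trans ?_)
    have htp : 0 < |t - (y - (2 + 2 * π * (B * u).re)) / (2 * π * D.s l)| := abs_pos.2 (sub_ne_zero.2 ht)
    rw [hva, abs_mul, abs_of_pos h2ps]
    set r : ℝ := |t - (y - (2 + 2 * π * (B * u).re)) / (2 * π * D.s l)| with hr
    rw [← Real.log_mul (by positivity) (by positivity)]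
    refine Real.log_le_log (by positivity) ?_
    have h3 : 4 / (2 * π * D.s l * r) ≤ 1 / D.s l * (1 / r) := by
      rw [div_mul_div_comm, one_mul, div_le_div_iff₀ (by positivity) (by positivity)]
      have : 0 < D.s l * r := by positivity
      nlinarith [pi_gt_three]
    have h4 : 1 ≤ 1 / D.s l := by rw [le_div_iff₀ hs0]; linarith
    calc 1 + 4 / (2 * π * D.s l * r) ≤ 1 / D.s l + 1 / D.s l * (1 / r) := by linarith
      _ = 1 / D.s l * (1 + 1 / r) := by ring
  calc _ ≤ ∫⁻ _ : Om d, ENNReal.ofReal (Real.log (1 / D.s l) + C) ∂law d := lintegral_mono key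
    _ = _ := by rw [lintegral_const, measure_univ, mul_one]

private theorem pt24 {K : ℝ} (hK0 : 0 ≤ K) {A : ℕ → ℂ} (hK : ∀ j, ‖A j‖ ≤ K) (z : TT) {m : ℕ} (hm : 2 ≤ m) :
    Real.log (nn (Mx A z m)) + Real.log (nn (Mx (fun j => A (j + m)) (orb A z m) m)) -
      Real.log (nn (Mx A z (2 * m))) ≤ Real.log (2 * π * K + 4) + fR24 z m A + fJ24 z m A + fC24 z m A := by
  obtain ⟨k, rfl⟩ : ∃ k, m = k + 2 := ⟨m - 2, by omega⟩
  have e1 : k + 2 - 1 = k + 1 := by omega
  have e2 : k + 2 - 2 = k := by omega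
  have hp : 0 < 2 * π * K + 4 := by positivity
  have hv : ∀ (j : ℕ) (x : UnitAddCircle), |va (A j) x| ≤ 2 + 2 * π * K := by
    intro j x
    have h1 : |(A j * ee x).re| ≤ K := by
      refine (Complex.abs_re_le_norm _).trans ?_
      rw [norm_mul, norm_ee, mul_one]
      exact hK j
    unfold va
    refine (abs_add_le _ _).trans ?_
    rw [abs_two, abs_mul, abs_of_pos (by positivity : (0 : ℝ) < 2 * π)]
    have := mul_le_mul_of_nonneg_left h1 (by positivity : (0 : ℝ) ≤ 2 * π)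
    linarith
  have p0 := rn1_pos (det_Mx A z k)
  have p1 := rn1_pos (det_Mx A z (k + 1))
  have p2 := nn_pos24 (det_Mx A z (k + 1))
  have p3 := nn_pos24 (det_Mx A z (k + 2))
  have p4 := nn_pos24 (det_Mx A z (2 * (k + 2)))
  set q : TT := orb A z (k + 2) with hq
  set R : Matrix (Fin 2) (Fin 2) ℝ := Mx (fun j => A (j + (k + 2))) q (k + 2) with hR
  set R' : Matrix (Fin 2) (Fin 2) ℝ := Mx (fun j => A (j + (k + 2 + 1))) (orb A z (k + 2 + 1)) (k + 1) with hR'
  have p5 : 0 < cn1 R := cn1_pos (det_Mx _ _ _)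
  have p6 : 0 < cn1 R' := cn1_pos (det_Mx _ _ _)
  have p7 : 0 < nn R := nn_pos24 (det_Mx _ _ _)
  -- the row
  have h1 : Real.log (nn (Mx A z (k + 2))) ≤ Real.log (2 * π * K + 4) + Real.log (nn (Mx A z (k + 1))) := by
    rw [← Real.log_mul hp.ne' p2.ne']
    refine Real.log_le_log p3 ?_
    rw [Mx_succ A z (k + 1)]
    refine (nn_mul _ _).trans (mul_le_mul_of_nonneg_right ?_ p2.le)
    rw [nn_mv]
    linarith [hv (k + 1) (orb A z (k + 1)).1]
  have h2 : Real.log (nn (Mx A z (k + 1))) = Real.log (rn1 (Mx A z (k + 1))) + fR24 z (k + 2) A := by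
    unfold fR24
    rw [e1, e2, ← Real.log_mul p1.ne' (by positivity)]
    congr 1
    have h3 : nn (Mx A z (k + 1)) = rn1 (Mx A z (k + 1)) + rn1 (Mx A z k) := by
      rw [Mx_succ A z k]
      exact row_nn _ _
    rw [h3]
    field_simp
  -- the column
  have h4 : Real.log (nn R) = Real.log (cn1 R) + fC24 z (k + 2) A := by
    unfold fC24
    rw [e1, ← hq, ← hR, ← hR', ← Real.log_mul p5.ne' (by positivity)]
    congr 1
    have h3 : nn R = cn1 R + cn1 R' := by
      have h5 : R = R' * mv (va (A (k + 2)) q.1) := by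
        rw [hR, Mx_one_add, hR']
        have e3 : (fun j => A (j + 1 + (k + 2))) = fun j => A (j + (k + 2 + 1)) := by
          funext j
          congr 1
          omega
        rw [e3, zero_add, orb_succ A z (k + 2)]
      rw [h5]
      exact col_nn _ _
    rw [h3]
    field_simp
  -- the junction
  have h5 : Real.log (cn1 R) + Real.log (rn1 (Mx A z (k + 1))) - Real.log (nn (Mx A z (2 * (k + 2)))) ≤
      fJ24 z (k + 2) A := by
    unfold fJ24
    rw [e1, ← hq, ← hR, ← Real.log_mul p5.ne' p1.ne', ← Real.log_div (by positivity) p4.ne']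
    exact Real.log_le_log (by positivity) (by linarith)
  linarith

theorem dbl (hD : D.Ok) : ∃ C : ℝ, 0 ≤ C ∧ ∀ l m : ℕ, 2 ≤ m → D.iso l (2 * m) → D.s l ≤ 1 → ∀ θ z,
    ∫⁻ ω, ENNReal.ofReal (Real.log (nn (Mx (D.As ω θ) z m)) +
      Real.log (nn (Mx (D.As ω (θ + m • D.α)) (orb (D.As ω θ) z m) m)) -
      Real.log (nn (Mx (D.As ω θ) z (2 * m)))) ∂law d ≤ ENNReal.ofReal (C + 3 * Real.log (1 / D.s l)) := by
  obtain ⟨K, hK0, hK⟩ := A_bd hD
  obtain ⟨C, hC, hw⟩ := weg24 hD
  have hp : 1 ≤ 2 * π * K + 4 := by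
    have : 0 ≤ 2 * π * K := by positivity
    linarith
  have hlK : 0 ≤ Real.log (2 * π * K + 4) := Real.log_nonneg hp
  refine ⟨Real.log (2 * π * K + 4) + 3 * C, by positivity, fun l m hm hiso hs θ z => ?_⟩
  have hs0 := s_pos24 hD l
  have hls : 0 ≤ Real.log (1 / D.s l) := Real.log_nonneg (by rw [le_div_iff₀ hs0]; linarith)
  have hAm : Measurable fun ω : Om d => D.As ω θ := (As_meas hD).comp (measurable_id.prodMk measurable_const)
  have iR := hw l (2 * m) (m - 2) (by omega) hiso hs θ z (fR24 z m) (fR_meas24 z m)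
    (fun A A' h => fR_congr24 z hm h) (fun A a₀ => fR_one24 z hm A a₀)
  have iJ := hw l (2 * m) (m - 1) (by omega) hiso hs θ z (fJ24 z m) (fJ_meas24 z m)
    (fun A A' h => fJ_congr24 z hm h) (fun A a₀ => fJ_one24 z hm A a₀)
  have iC := hw l (2 * m) m (by omega) hiso hs θ z (fC24 z m) (fC_meas24 z m)
    (fun A A' h => fC_congr24 z hm h) (fun A a₀ => fC_one24 z hm A a₀)
  have mR : Measurable fun ω : Om d => ENNReal.ofReal (fR24 z m (D.As ω θ)) :=
    ENNReal.measurable_ofReal.comp ((fR_meas24 z m).comp hAm)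
  have mJ : Measurable fun ω : Om d => ENNReal.ofReal (fJ24 z m (D.As ω θ)) :=
    ENNReal.measurable_ofReal.comp ((fJ_meas24 z m).comp hAm)
  have mC : Measurable fun ω : Om d => ENNReal.ofReal (fC24 z m (D.As ω θ)) :=
    ENNReal.measurable_ofReal.comp ((fC_meas24 z m).comp hAm)
  calc ∫⁻ ω, ENNReal.ofReal (Real.log (nn (Mx (D.As ω θ) z m)) +
        Real.log (nn (Mx (D.As ω (θ + m • D.α)) (orb (D.As ω θ) z m) m)) -
        Real.log (nn (Mx (D.As ω θ) z (2 * m)))) ∂law d
      ≤ ∫⁻ ω, (((ENNReal.ofReal (Real.log (2 * π * K + 4)) + ENNReal.ofReal (fR24 z m (D.As ω θ))) +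
        ENNReal.ofReal (fJ24 z m (D.As ω θ))) + ENNReal.ofReal (fC24 z m (D.As ω θ))) ∂law d := by
        refine lintegral_mono fun ω => ?_
        have h1 := pt24 hK0 (A := D.As ω θ) (fun j => hK ω _) z hm
        rw [As_add] at h1
        have n1 := fR_nonneg24 z m (D.As ω θ)
        have n2 := fJ_nonneg24 z m (D.As ω θ)
        have n3 := fC_nonneg24 z m (D.As ω θ)
        rw [← ENNReal.ofReal_add hlK n1, ← ENNReal.ofReal_add (by positivity) n2,
          ← ENNReal.ofReal_add (by positivity) n3]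
        exact ENNReal.ofReal_le_ofReal h1
    _ = ((ENNReal.ofReal (Real.log (2 * π * K + 4)) + ∫⁻ ω, ENNReal.ofReal (fR24 z m (D.As ω θ)) ∂law d) +
        ∫⁻ ω, ENNReal.ofReal (fJ24 z m (D.As ω θ)) ∂law d) + ∫⁻ ω, ENNReal.ofReal (fC24 z m (D.As ω θ)) ∂law d := by
        rw [lintegral_add_right _ mC, lintegral_add_right _ mJ, lintegral_add_right _ mR, lintegral_const,
          measure_univ, mul_one]
    _ ≤ ((ENNReal.ofReal (Real.log (2 * π * K + 4)) + ENNReal.ofReal (Real.log (1 / D.s l) + C)) +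
        ENNReal.ofReal (Real.log (1 / D.s l) + C)) + ENNReal.ofReal (Real.log (1 / D.s l) + C) := by
        gcongr
    _ = ENNReal.ofReal (Real.log (2 * π * K + 4) + 3 * C + 3 * Real.log (1 / D.s l)) := by
        rw [← ENNReal.ofReal_add hlK (by positivity), ← ENNReal.ofReal_add (by positivity) (by positivity),
          ← ENNReal.ofReal_add (by positivity) (by positivity)]
        congr 1
        ring

end Pool.Agent.Helper46.QP
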