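import Pool.Agent.Helper46.QP.Defs

/-! Block QP-RATES: choice of the levels. Let `1/d < τ`, `2 b τ < 1` (possible because `b < d/2`; `D.hd`), `c k^(-τ) ≤ ‖k α‖`, `c ≤ 1`. `L i = ⌈τ (i + 2)⌉₊ + l₀` with `2^(l₀ + 2) c ≥ 1`: `N = 2^(L i + 3)`, `2/N = 2^(-L i - 2) ≤ c 2^(-τ (i+2)) ≤ ‖k α‖` for `1 ≤ k < 2^(i+2)`.
`2^(τ i) ≤ N ≤ C 2^(τ i)`, `s = q N^(-b)`: `2^i s² ≥ c' 2^(η i)`, `η = min (1 - 2 b τ) (d τ - 1) > 0`, `2^i (4/N)^d ≤ C 2^(-η i)`, `log (1/s) ≤ C (i + 1)`, `s → 0`.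
So `(1 - s²/8640)^(2^i/2) ≤ exp (- c'' 2^(η i))` for large `i` (`1 - x ≤ exp (-x)`, `1 - s²/8640 ≥ 0`), and the same with `50000`; `δ = η/2`. -/

set_option autoImplicit false
open MeasureTheory Real Set Filter Topology

namespace Pool.Agent.Helper46.QP

open Pool.Agent.Helper18.FD (NN rr)

variable {d : ℕ} {D : Dat d}

private theorem nn34 (l : ℕ) : (NN l : ℝ) = (2 : ℝ) ^ ((l : ℝ) + 3) := by
  have h : ((l : ℝ) + 3) = ((l + 3 : ℕ) : ℝ) := by push_cast; ring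
  rw [h, Real.rpow_natCast]
  unfold NN
  push_cast
  rfl

private theorem nb34 {τ : ℝ} (hτ : 0 < τ) (l₀ i : ℕ) :
    (2 : ℝ) ^ (τ * (i + 2) + l₀ + 3) ≤ NN (⌈τ * ((i : ℝ) + 2)⌉₊ + l₀) ∧
    (NN (⌈τ * ((i : ℝ) + 2)⌉₊ + l₀) : ℝ) ≤ (2 : ℝ) ^ (2 * τ + l₀ + 4) * (2 : ℝ) ^ (τ * i) := by
  rw [nn34]
  have h0 : 0 ≤ τ * ((i : ℝ) + 2) := by positivity
  have h1 := Nat.le_ceil (τ * ((i : ℝ) + 2))
  have h2 := Nat.ceil_lt_add_one h0
  constructor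
  · apply Real.rpow_le_rpow_of_exponent_le one_le_two
    push_cast
    linarith
  · rw [← Real.rpow_add two_pos]
    apply Real.rpow_le_rpow_of_exponent_le one_le_two
    push_cast
    linarith

private theorem geo34 {η : ℝ} (hη : 0 < η) : Summable fun i : ℕ => (2 : ℝ) ^ (-(η * i)) := by
  have h : (fun i : ℕ => (2 : ℝ) ^ (-(η * i))) = fun i => ((2 : ℝ) ^ (-η)) ^ i := by
    funext i
    rw [← Real.rpow_natCast, ← Real.rpow_mul two_pos.le]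
    congr 1
    ring
  rw [h]
  exact summable_geometric_of_lt_one (by positivity)
    (Real.rpow_lt_one_of_one_lt_of_neg one_lt_two (by linarith))

private theorem ex34 {a y : ℝ} (ha : 0 < a) (hy : 0 < y) : Real.exp (-(a * y)) ≤ a⁻¹ * y⁻¹ := by
  rw [Real.exp_neg, ← mul_inv]
  exact inv_anti₀ (by positivity) (by have := Real.add_one_le_exp (a * y); linarith)

private theorem pw34 {s K : ℝ} (hK : 1 ≤ K) (hs0 : 0 ≤ s) (hs : s ≤ 1) {i : ℕ} (hi : 1 ≤ i) :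
    0 ≤ (1 - s ^ 2 / K) ^ (2 ^ i / 2) ∧
    (1 - s ^ 2 / K) ^ (2 ^ i / 2) ≤ Real.exp (-(s ^ 2 * 2 ^ i / (2 * K))) := by
  obtain ⟨j, rfl⟩ := Nat.exists_eq_add_of_le' hi
  have e : 2 ^ (j + 1) / 2 = 2 ^ j := by rw [pow_succ]; simp
  rw [e]
  have hK0 : 0 < K := by linarith
  have hb : 0 ≤ 1 - s ^ 2 / K := by
    have : s ^ 2 / K ≤ 1 := by
      rw [div_le_one hK0]
      nlinarith
    linarith
  refine ⟨pow_nonneg hb _, ?_⟩
  refine (pow_le_pow_left₀ hb (Real.one_sub_le_exp_neg _) _).trans (le_of_eq ?_)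
  rw [← Real.exp_nat_mul]
  congr 1
  push_cast
  field_simp
  ring

theorem rates (hD : D.Ok) (hb : D.b < d / 2)
    (hα : ∀ τ : ℝ, 1 / (d : ℝ) < τ → ∃ c : ℝ, 0 < c ∧ ∀ k : ℕ, 1 ≤ k → c * (k : ℝ) ^ (-τ) ≤ ‖k • D.α‖) :
    ∃ (L : ℕ → ℕ) (i₀ : ℕ) (C δ : ℝ), 0 < C ∧ 0 < δ ∧ (∀ i, D.iso (L i) (2 ^ (i + 2))) ∧
      (∀ i, i₀ ≤ i → π * D.s (L i) ≤ 1) ∧ (∀ i, Real.log (1 / D.s (L i)) ≤ C * (i + 1)) ∧
      (Summable fun i : ℕ => (1 - D.s (L i) ^ 2 / 8640) ^ (2 ^ i / 2) + 2 * (2 : ℝ) ^ i * (4 / (NN (L i) : ℝ)) ^ d) ∧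
      (Summable fun i : ℕ => Real.exp ((2 : ℝ) ^ (δ * i)) * (1 - D.s (L i) ^ 2 / 50000) ^ (2 ^ i / 2)) := by
  have hd : (0 : ℝ) < d := by exact_mod_cast hD.hd
  have hb0 := hD.hb
  have hq0 := hD.hq
  obtain ⟨τ, hτ1, hτ2⟩ : ∃ τ : ℝ, 1 / (d : ℝ) < τ ∧ 2 * D.b * τ < 1 := by
    have h : 1 / (d : ℝ) < 1 / (2 * D.b) := by
      apply one_div_lt_one_div_of_lt (by positivity)
      linarith
    obtain ⟨τ, h1, h2⟩ := exists_between h
    refine ⟨τ, h1, ?_⟩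
    rw [lt_div_iff₀ (by positivity)] at h2
    linarith
  have hτ : 0 < τ := lt_trans (by positivity) hτ1
  have hdτ : 1 < d * τ := by
    rw [div_lt_iff₀ hd] at hτ1
    linarith
  obtain ⟨c, hc, hα'⟩ := hα τ hτ1
  obtain ⟨l₀, hl₀⟩ := exists_pow_lt_of_lt_one hc (by norm_num : (1 / 2 : ℝ) < 1)
  obtain ⟨L, hL⟩ : ∃ L : ℕ → ℕ, ∀ i : ℕ, L i = ⌈τ * ((i : ℝ) + 2)⌉₊ + l₀ := ⟨_, fun _ => rfl⟩
  obtain ⟨M, hM⟩ : ∃ M : ℝ, M = (2 : ℝ) ^ (2 * τ + l₀ + 4) := ⟨_, rfl⟩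
  have hM0 : 0 < M := by rw [hM]; positivity
  have hlow : ∀ i : ℕ, (2 : ℝ) ^ (τ * (i + 2) + l₀ + 3) ≤ NN (L i) := fun i => by
    rw [hL]; exact (nb34 hτ l₀ i).1
  have hup : ∀ i : ℕ, (NN (L i) : ℝ) ≤ M * (2 : ℝ) ^ (τ * i) := fun i => by
    rw [hL, hM]; exact (nb34 hτ l₀ i).2
  have hN0 : ∀ i : ℕ, (0 : ℝ) < NN (L i) := fun i => lt_of_lt_of_le (by positivity) (hlow i)
  have hlow4 : ∀ i : ℕ, 4 * (2 : ℝ) ^ (τ * i) ≤ NN (L i) := fun i => by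
    refine le_trans ?_ (hlow i)
    have e : (4 : ℝ) = (2 : ℝ) ^ (2 : ℝ) := by norm_num
    rw [e, ← Real.rpow_add two_pos]
    apply Real.rpow_le_rpow_of_exponent_le one_le_two
    have : (0 : ℝ) ≤ l₀ := Nat.cast_nonneg _
    linarith
  -- lower bound for s
  obtain ⟨a, ha⟩ : ∃ a : ℝ, a = D.q * M ^ (-D.b) := ⟨_, rfl⟩
  have ha0 : 0 < a := by rw [ha]; positivity
  have hslow : ∀ i : ℕ, a * (2 : ℝ) ^ (-(D.b * τ * i)) ≤ D.s (L i) := fun i => by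
    unfold Dat.s
    have h1 := Real.rpow_le_rpow_of_nonpos (hN0 i) (hup i) (by linarith : -D.b ≤ 0)
    rw [Real.mul_rpow hM0.le (by positivity), ← Real.rpow_mul two_pos.le] at h1
    have e : τ * (i : ℝ) * -D.b = -(D.b * τ * i) := by ring
    rw [e] at h1
    rw [ha, mul_assoc]
    exact mul_le_mul_of_nonneg_left h1 hq0.le
  have hsup : ∀ i : ℕ, D.s (L i) ≤ D.q * (2 : ℝ) ^ (-(D.b * τ * i)) := fun i => by
    unfold Dat.s
    have h0 : (2 : ℝ) ^ (τ * i) ≤ NN (L i) := by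
      refine le_trans ?_ (hlow4 i)
      have : (0 : ℝ) < (2 : ℝ) ^ (τ * i) := by positivity
      linarith
    have h1 := Real.rpow_le_rpow_of_nonpos (by positivity) h0 (by linarith : -D.b ≤ 0)
    rw [← Real.rpow_mul two_pos.le] at h1
    have e : τ * (i : ℝ) * -D.b = -(D.b * τ * i) := by ring
    rw [e] at h1
    exact mul_le_mul_of_nonneg_left h1 hq0.le
  have hs0 : ∀ i : ℕ, 0 < D.s (L i) := fun i => lt_of_lt_of_le (by positivity) (hslow i)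
  obtain ⟨i₀, hi₀⟩ : ∃ i₀ : ℕ, ∀ i, i₀ ≤ i → π * D.s (L i) ≤ 1 := by
    have h1 : Tendsto (fun i : ℕ => π * (D.q * (2 : ℝ) ^ (-(D.b * τ * i)))) atTop (𝓝 (π * (D.q * 0))) :=
      ((geo34 (η := D.b * τ) (by positivity)).tendsto_atTop_zero.const_mul D.q).const_mul π
    rw [mul_zero, mul_zero] at h1
    obtain ⟨i₀, h2⟩ := eventually_atTop.1 (h1.eventually (ge_mem_nhds one_pos))
    refine ⟨i₀, fun i hi => le_trans ?_ (h2 i hi)⟩
    exact mul_le_mul_of_nonneg_left (hsup i) pi_pos.le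
  have hs1 : ∀ i, i₀ ≤ i → D.s (L i) ≤ 1 := fun i hi => by
    have h1 := hi₀ i hi
    have h2 := pi_gt_three
    have h3 := hs0 i
    nlinarith
  obtain ⟨η, hη⟩ : ∃ η : ℝ, η = 1 - 2 * D.b * τ := ⟨_, rfl⟩
  have hη0 : 0 < η := by rw [hη]; linarith
  have hmain : ∀ i : ℕ, a ^ 2 * (2 : ℝ) ^ (η * i) ≤ D.s (L i) ^ 2 * 2 ^ i := fun i => by
    have h1 : (a * (2 : ℝ) ^ (-(D.b * τ * i))) ^ 2 ≤ D.s (L i) ^ 2 :=
      pow_le_pow_left₀ (by positivity) (hslow i) 2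
    have e : a ^ 2 * (2 : ℝ) ^ (η * i) = (a * (2 : ℝ) ^ (-(D.b * τ * i))) ^ 2 * 2 ^ i := by
      rw [mul_pow, ← Real.rpow_natCast ((2 : ℝ) ^ (-(D.b * τ * i))) 2, ← Real.rpow_mul two_pos.le,
        ← Real.rpow_natCast (2 : ℝ) i, mul_assoc, ← Real.rpow_add two_pos, hη]
      congr 2
      push_cast
      ring
    rw [e]
    exact mul_le_mul_of_nonneg_right h1 (by positivity)
  have hpow : ∀ K : ℝ, 1 ≤ K → ∀ i, max i₀ 1 ≤ i → 0 ≤ (1 - D.s (L i) ^ 2 / K) ^ (2 ^ i / 2) ∧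
      (1 - D.s (L i) ^ 2 / K) ^ (2 ^ i / 2) ≤ Real.exp (-(a ^ 2 / (2 * K) * (2 : ℝ) ^ (η * i))) := by
    intro K hK i hi
    obtain ⟨h1, h2⟩ := pw34 hK (hs0 i).le (hs1 i ((le_max_left _ _).trans hi)) ((le_max_right _ _).trans hi)
    refine ⟨h1, h2.trans (Real.exp_le_exp.2 (neg_le_neg ?_))⟩
    have e : a ^ 2 / (2 * K) * (2 : ℝ) ^ (η * i) = a ^ 2 * (2 : ℝ) ^ (η * i) / (2 * K) := by ring
    rw [e]
    have hK0 : 0 < K := by linarith
    exact div_le_div_of_nonneg_right (hmain i) (by positivity)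
  refine ⟨L, i₀, |Real.log a| + D.b * τ * Real.log 2 + 1, η / 2, ?_, by positivity, ?_, hi₀, ?_, ?_, ?_⟩
  · have := Real.log_pos (one_lt_two : (1 : ℝ) < 2)
    positivity
  · intro i k hk1 hk2
    have hk0 : (0 : ℝ) < k := by exact_mod_cast hk1
    refine le_trans ?_ (hα' k hk1)
    have h1 : (k : ℝ) ≤ (2 : ℝ) ^ ((i : ℝ) + 2) := by
      have e : (i : ℝ) + 2 = ((i + 2 : ℕ) : ℝ) := by push_cast; ring
      rw [e, Real.rpow_natCast]
      exact_mod_cast hk2.le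
    have h2 := Real.rpow_le_rpow_of_nonpos hk0 h1 (by linarith : -τ ≤ 0)
    rw [← Real.rpow_mul two_pos.le] at h2
    have h3 : 2 / (NN (L i) : ℝ) ≤ c * (2 : ℝ) ^ (((i : ℝ) + 2) * -τ) := by
      rw [div_le_iff₀ (hN0 i)]
      have h4 := hlow i
      have e1 : (2 : ℝ) ^ (((i : ℝ) + 2) * -τ) * (2 : ℝ) ^ (τ * (i + 2) + l₀ + 3) = 8 * 2 ^ l₀ := by
        rw [← Real.rpow_add two_pos]
        have e2 : ((i : ℝ) + 2) * -τ + (τ * (i + 2) + l₀ + 3) = ((3 + l₀ : ℕ) : ℝ) := by push_cast; ring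
        rw [e2, Real.rpow_natCast, pow_add]
        norm_num
      have h5 : 1 ≤ c * 2 ^ l₀ := by
        rw [one_div, inv_pow, inv_lt_iff_one_lt_mul₀ (by positivity)] at hl₀
        linarith
      calc (2 : ℝ) ≤ 8 * (c * 2 ^ l₀) := by linarith
        _ = c * ((2 : ℝ) ^ (((i : ℝ) + 2) * -τ) * (2 : ℝ) ^ (τ * (i + 2) + l₀ + 3)) := by rw [e1]; ring
        _ ≤ c * ((2 : ℝ) ^ (((i : ℝ) + 2) * -τ) * NN (L i)) := by gcongr
        _ = _ := by ring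
    exact h3.trans (mul_le_mul_of_nonneg_left h2 hc.le)
  · intro i
    have h1 := Real.log_le_log (by positivity) (hslow i)
    rw [Real.log_mul ha0.ne' (by positivity), Real.log_rpow two_pos] at h1
    rw [one_div, Real.log_inv]
    have h2 := neg_abs_le (Real.log a)
    have h3 := abs_nonneg (Real.log a)
    have h4 := Real.log_pos (one_lt_two : (1 : ℝ) < 2)
    have h5 : (0 : ℝ) ≤ i := Nat.cast_nonneg _
    have h6 : 0 ≤ D.b * τ * Real.log 2 := by positivity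
    nlinarith [mul_nonneg h3 h5]
  · refine Summable.of_norm_bounded_eventually_nat (g := fun i : ℕ =>
      (a ^ 2 / (2 * 8640))⁻¹ * (2 : ℝ) ^ (-(η * i)) + 2 * (2 : ℝ) ^ (-((d * τ - 1) * i))) ?_ ?_
    · exact ((geo34 hη0).mul_left _).add ((geo34 (by linarith)).mul_left _)
    · filter_upwards [eventually_ge_atTop (max i₀ 1)] with i hi
      obtain ⟨h1, h2⟩ := hpow 8640 (by norm_num) i hi
      have h3 : 0 ≤ 2 * (2 : ℝ) ^ i * (4 / (NN (L i) : ℝ)) ^ d := by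
        have := hN0 i
        positivity
      rw [Real.norm_of_nonneg (add_nonneg h1 h3)]
      refine add_le_add (h2.trans ?_) ?_
      · refine (ex34 (by positivity) (by positivity)).trans (le_of_eq ?_)
        rw [Real.rpow_neg two_pos.le]
      · rw [mul_assoc]
        refine mul_le_mul_of_nonneg_left ?_ two_pos.le
        have h4 : 4 / (NN (L i) : ℝ) ≤ (2 : ℝ) ^ (-(τ * i)) := by
          rw [div_le_iff₀ (hN0 i), Real.rpow_neg two_pos.le, ← div_eq_inv_mul, le_div_iff₀ (by positivity)]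
          exact hlow4 i
        have h5 : (4 / (NN (L i) : ℝ)) ^ d ≤ (2 : ℝ) ^ (-(τ * i) * d) := by
          rw [Real.rpow_mul two_pos.le, Real.rpow_natCast]
          exact pow_le_pow_left₀ (by have := hN0 i; positivity) h4 d
        refine (mul_le_mul_of_nonneg_left h5 (by positivity)).trans (le_of_eq ?_)
        rw [← Real.rpow_natCast (2 : ℝ) i, ← Real.rpow_add two_pos]
        congr 1
        ring
  · refine Summable.of_norm_bounded_eventually_nat (g := fun i : ℕ =>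
      Real.exp ((a ^ 2 / (2 * 50000))⁻¹ / 2) * ((a ^ 2 / (2 * 50000) / 2)⁻¹ * (2 : ℝ) ^ (-(η * i)))) ?_ ?_
    · exact ((geo34 hη0).mul_left _).mul_left _
    · filter_upwards [eventually_ge_atTop (max i₀ 1)] with i hi
      obtain ⟨h1, h2⟩ := hpow 50000 (by norm_num) i hi
      rw [Real.norm_of_nonneg (mul_nonneg (Real.exp_pos _).le h1)]
      obtain ⟨κ, hκ⟩ : ∃ κ : ℝ, κ = a ^ 2 / (2 * 50000) := ⟨_, rfl⟩
      rw [← hκ] at h2 ⊢
      have hκ0 : 0 < κ := by rw [hκ]; positivity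
      obtain ⟨y, hy⟩ : ∃ y : ℝ, y = (2 : ℝ) ^ (η / 2 * i) := ⟨_, rfl⟩
      have hy0 : 0 < y := by rw [hy]; positivity
      have hyy : (2 : ℝ) ^ (η * i) = y ^ 2 := by
        rw [hy, ← Real.rpow_natCast, ← Real.rpow_mul two_pos.le]
        congr 1
        push_cast
        ring
      rw [hyy] at h2
      rw [← hy, Real.rpow_neg two_pos.le, hyy]
      calc Real.exp y * (1 - D.s (L i) ^ 2 / 50000) ^ (2 ^ i / 2)
          ≤ Real.exp y * Real.exp (-(κ * y ^ 2)) := mul_le_mul_of_nonneg_left h2 (Real.exp_pos _).le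
        _ = Real.exp (y - κ * y ^ 2) := by rw [← Real.exp_add]; congr 1
        _ ≤ Real.exp (κ⁻¹ / 2 + -(κ / 2 * y ^ 2)) := by
          refine Real.exp_le_exp.2 ?_
          have h3 : 0 ≤ κ⁻¹ / 2 * (κ * y - 1) ^ 2 := by positivity
          have h4 : κ⁻¹ / 2 * (κ * y - 1) ^ 2 = κ / 2 * y ^ 2 - y + κ⁻¹ / 2 := by
            field_simp
            ring
          rw [h4] at h3
          linarith
        _ = Real.exp (κ⁻¹ / 2) * Real.exp (-(κ / 2 * y ^ 2)) := Real.exp_add _ _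
        _ ≤ Real.exp (κ⁻¹ / 2) * ((κ / 2)⁻¹ * (y ^ 2)⁻¹) :=
          mul_le_mul_of_nonneg_left (ex34 (by positivity) (by positivity)) (Real.exp_pos _).le

end Pool.Agent.Helper46.QP
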