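import Pool.Agent.Helper18.SD.King

/-! Block QP-SOFT: abstract, independent of the rest. Copy of the block HY-SOFT (/team-store/HY_Soft.lean, complete) with the threshold `2^(δ i)` instead of `2^(i/2)` and the doubling inequality only for `i ≥ i₁`. -/

set_option autoImplicit false
open MeasureTheory Real Set Filter Topology

namespace Pool.Agent.Helper46.QP

open Pool.Agent.Helper18

/-- the numerical inequality behind the telescoping bound -/
private theorem num80 {s : ℝ} (hs : 4 ≤ s) : s ^ 3 ≤ 22 * (2 * s ^ 3 - (s + 1) ^ 3) := by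
  nlinarith [mul_nonneg (sub_nonneg.2 hs) (sub_nonneg.2 hs), mul_nonneg (mul_nonneg (sub_nonneg.2 hs) (sub_nonneg.2 hs)) (sub_nonneg.2 hs), sq_nonneg s]

/-- almost super-doubling sequences whose quotients tend to zero are small -/
private theorem seq80 {b : ℕ → ℝ} {C1 : ℝ} (h0 : 0 ≤ C1) {N : ℕ} (hN : 3 ≤ N)
    (h1 : ∀ i : ℕ, N ≤ i → 2 * b i ≤ b (i + 1) + C1 * ((i : ℝ) + 1) ^ 3)
    (h2 : Tendsto (fun i : ℕ => b i / 2 ^ i) atTop (𝓝 0)) (i : ℕ) (hi : N ≤ i) :
    b i ≤ 22 * C1 * ((i : ℝ) + 1) ^ 3 := by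
  set f : ℕ → ℝ := fun j => (b (j + N) - 22 * C1 * (((j + N : ℕ) : ℝ) + 1) ^ 3) / 2 ^ (j + N) with hf
  have hmono : Monotone f := by
    refine monotone_nat_of_le_succ fun j => ?_
    have e1 := h1 (j + N) (by omega)
    have e2 := num80 (s := ((j + N : ℕ) : ℝ) + 1) (by
      have h3 : (3 : ℝ) ≤ N := by exact_mod_cast hN
      push_cast
      linarith [(Nat.cast_nonneg j : (0 : ℝ) ≤ j)])
    have e3 := mul_le_mul_of_nonneg_left e2 h0
    simp only [hf]
    rw [show j + 1 + N = (j + N) + 1 by ring, pow_succ, div_le_div_iff₀ (by positivity) (by positivity)]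
    have e4 : (((j + N + 1 : ℕ) : ℝ)) = ((j + N : ℕ) : ℝ) + 1 := by push_cast; ring
    rw [e4]
    have hp : (0 : ℝ) < 2 ^ (j + N) := by positivity
    set s : ℝ := ((j + N : ℕ) : ℝ) + 1 with hs
    have e5 : 2 * (b (j + N) - 22 * C1 * s ^ 3) ≤ b (j + N + 1) - 22 * C1 * (s + 1) ^ 3 := by
      nlinarith [e1, e3]
    calc (b (j + N) - 22 * C1 * s ^ 3) * (2 ^ (j + N) * 2)
        = (2 * (b (j + N) - 22 * C1 * s ^ 3)) * 2 ^ (j + N) := by ring
      _ ≤ (b (j + N + 1) - 22 * C1 * (s + 1) ^ 3) * 2 ^ (j + N) := mul_le_mul_of_nonneg_right e5 hp.le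
  have hlim : Tendsto f atTop (𝓝 0) := by
    have t1 : Tendsto (fun j : ℕ => b (j + N) / 2 ^ (j + N)) atTop (𝓝 0) := h2.comp (tendsto_add_atTop_nat N)
    have t2 : Tendsto (fun n : ℕ => ((n : ℝ) ^ 3) / 2 ^ n) atTop (𝓝 0) := by
      have := tendsto_pow_const_div_const_pow_of_one_lt 3 (by norm_num : (1 : ℝ) < 2)
      exact this
    have t3 : Tendsto (fun j : ℕ => (((j + N : ℕ) : ℝ) + 1) ^ 3 / 2 ^ (j + N)) atTop (𝓝 0) := by
      have t4 := (t2.comp (tendsto_add_atTop_nat (N + 1))).const_mul 2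
      rw [mul_zero] at t4
      refine t4.congr fun j => ?_
      simp only [Function.comp]
      rw [show (((j + (N + 1) : ℕ) : ℝ)) = ((j + N : ℕ) : ℝ) + 1 by push_cast; ring,
        show (2 : ℝ) ^ (j + (N + 1)) = 2 ^ (j + N) * 2 by rw [← pow_succ, add_assoc]]
      field_simp
    have t5 := t1.sub (t3.const_mul (22 * C1))
    rw [mul_zero, sub_zero] at t5
    refine t5.congr fun j => ?_
    simp only [hf]
    ring
  have h3 := hmono.ge_of_tendsto hlim (i - N)
  simp only [hf] at h3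
  rw [show i - N + N = i by omega] at h3
  have hp : (0 : ℝ) < 2 ^ i := by positivity
  by_contra hcon
  push_neg at hcon
  have : 0 < (b i - 22 * C1 * ((i : ℝ) + 1) ^ 3) / 2 ^ i := div_pos (by linarith) hp
  linarith

/-- exponentials beat cubes -/
private theorem grow80 {p K δ : ℝ} (hδ : 0 < δ) (hp : 0 < p) (i₀ : ℕ) :
    ∃ i : ℕ, i₀ ≤ i ∧ K * ((i : ℝ) + 1) ^ 3 < (2 : ℝ) ^ (δ * i) * p := by
  have hr : (1 : ℝ) < (2 : ℝ) ^ δ := Real.one_lt_rpow (by norm_num) hδ
  have hr0 : (0 : ℝ) < (2 : ℝ) ^ δ := by linarith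
  have t2 : Tendsto (fun n : ℕ => ((n : ℝ) ^ 3) / ((2 : ℝ) ^ δ) ^ n) atTop (𝓝 0) :=
    tendsto_pow_const_div_const_pow_of_one_lt 3 hr
  have t3 := (t2.comp (tendsto_add_atTop_nat 1)).const_mul (|K| * (2 : ℝ) ^ δ)
  rw [mul_zero] at t3
  obtain ⟨n, hn1, hn2⟩ := ((t3.eventually (gt_mem_nhds hp)).and (eventually_ge_atTop i₀)).exists
  refine ⟨n, hn2, ?_⟩
  have e1 : (2 : ℝ) ^ (δ * n) = ((2 : ℝ) ^ δ) ^ n := by
    rw [Real.rpow_mul (by norm_num), Real.rpow_natCast]
  rw [e1]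
  set r : ℝ := (2 : ℝ) ^ δ with hrdef
  have hpos : (0 : ℝ) < r ^ n := by positivity
  simp only [Function.comp] at hn1
  have e2 : |K| * r * ((((n + 1 : ℕ) : ℝ)) ^ 3 / r ^ (n + 1)) = |K| * ((n : ℝ) + 1) ^ 3 / r ^ n := by
    have hr1 : r ≠ 0 := hr0.ne'
    have hr2 : r ^ n ≠ 0 := hpos.ne'
    push_cast
    rw [mul_div_assoc', div_eq_div_iff (pow_ne_zero _ hr1) hr2]
    ring
  rw [e2, div_lt_iff₀ hpos] at hn1
  have e4 : K * ((n : ℝ) + 1) ^ 3 ≤ |K| * ((n : ℝ) + 1) ^ 3 :=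
    mul_le_mul_of_nonneg_right (le_abs_self K) (by positivity)
  linarith [mul_comm p (r ^ n)]

theorem soft {X : Type*} [MeasurableSpace X] {μ : Measure X} [IsProbabilityMeasure μ] {T : X → X}
    (hT : MeasurePreserving T μ μ) {g : ℕ → X → ℝ} (hg : ∀ n, Measurable (g n)) {C C1 δ : ℝ} (hδ : 0 < δ) {i₁ : ℕ}
    (hC : ∀ n x, |g n x| ≤ C * n) (h0 : ∀ n x, 0 ≤ g n x)
    (hsub : ∀ n m x, g (n + m) x ≤ g n x + g m (T^[n] x))
    (hD : ∀ i : ℕ, i₁ ≤ i → ∃ e : X → ℝ, Integrable e μ ∧ (∀ x, 0 ≤ e x) ∧ ∫ x, e x ∂μ ≤ C1 * ((i : ℝ) + 1) ^ 3 ∧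
      ∀ x, g (2 ^ i) x + g (2 ^ i) (T^[2 ^ i] x) ≤ g (2 ^ (i + 1)) x + e x)
    (hG : ∀ ε : ℝ, 0 < ε → ∃ i₀ : ℕ, ∀ i ≥ i₀, μ.real {x | g (2 ^ i) x < (2 : ℝ) ^ (δ * i)} ≤ ε) :
    ∃ G : X → ℝ, Measurable G ∧ (∀ᵐ x ∂μ, 0 < G x) ∧
      ∀ᵐ x ∂μ, Tendsto (fun n : ℕ => g n x / n) atTop (𝓝 (G x)) := by
  obtain ⟨G, hG1, hG2, hG3, hG4, -⟩ := SD.kingman_bdd hT hg hC hsub
  refine ⟨G, hG1, ?_, hG4⟩
  -- integrability
  have hint : ∀ n, Integrable (g n) μ := fun n =>
    Integrable.of_bound (hg n).aestronglyMeasurable (C * n) (Eventually.of_forall fun x => by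
      rw [Real.norm_eq_abs]; exact hC n x)
  -- the invariant set
  set Z : Set X := {x | G x ≤ 0} with hZ
  have hZm : MeasurableSet Z := measurableSet_le hG1 measurable_const
  have hG0 : ∀ᵐ x ∂μ, 0 ≤ G x := by
    filter_upwards [hG4] with x hx
    exact ge_of_tendsto hx (Eventually.of_forall fun n => div_nonneg (h0 n x) (Nat.cast_nonneg n))
  have hC1 : 0 ≤ C1 := by
    obtain ⟨e, -, e2, e3, -⟩ := hD i₁ le_rfl
    have h7 : 0 ≤ ∫ x, e x ∂μ := integral_nonneg e2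
    have h8 : 0 < ((i₁ : ℝ) + 1) ^ 3 := by positivity
    by_contra hcon
    push_neg at hcon
    have h9 := mul_neg_of_neg_of_pos hcon h8
    linarith
  have hinv : ∀ n : ℕ, ∀ᵐ x ∂μ, G (T^[n] x) = G x := by
    intro n
    induction n with
    | zero => exact Eventually.of_forall fun x => rfl
    | succ n ih =>
      have h1 : ∀ᵐ x ∂μ, G (T (T^[n] x)) = G (T^[n] x) := (hT.iterate n).quasiMeasurePreserving.ae hG3
      filter_upwards [ih, h1] with x hx1 hx2
      rw [Function.iterate_succ_apply', hx2, hx1]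
  -- the restricted integral of a composition
  have hcomp : ∀ (n : ℕ) (f : X → ℝ), Measurable f → ∫ x in Z, f (T^[n] x) ∂μ = ∫ x in Z, f x ∂μ := by
    intro n f hf
    rw [← integral_indicator hZm, ← integral_indicator hZm]
    have h1 : ∫ x, Z.indicator f x ∂μ = ∫ x, Z.indicator f (T^[n] x) ∂μ := by
      have hm : Measurable (Z.indicator f) := hf.indicator hZm
      have := (hT.iterate n).map_eq
      conv_lhs => rw [← this]
      rw [integral_map (hT.iterate n).measurable.aemeasurable hm.aestronglyMeasurable]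
    rw [h1]
    refine integral_congr_ae ?_
    filter_upwards [hinv n] with x hx
    by_cases hxZ : x ∈ Z
    · have h2 : T^[n] x ∈ Z := by
        simp only [hZ, mem_setOf_eq] at hxZ ⊢
        rw [hx]; exact hxZ
      simp only [indicator, hxZ, h2, if_true]
    · have h2 : T^[n] x ∉ Z := by
        simp only [hZ, mem_setOf_eq] at hxZ ⊢
        rw [hx]; exact hxZ
      simp only [indicator, hxZ, h2, if_false]
  set b : ℕ → ℝ := fun i => ∫ x in Z, g (2 ^ i) x ∂μ with hb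
  have hb1 : ∀ i : ℕ, max i₁ 3 ≤ i → 2 * b i ≤ b (i + 1) + C1 * ((i : ℝ) + 1) ^ 3 := by
    intro i hi
    obtain ⟨e, e1, e2, e3, e4⟩ := hD i ((le_max_left _ _).trans hi)
    have i1 : Integrable (fun x => g (2 ^ i) (T^[2 ^ i] x)) μ :=
      (hT.iterate (2 ^ i)).integrable_comp_of_integrable (hint (2 ^ i))
    have h1 : 2 * b i = ∫ x in Z, (g (2 ^ i) x + g (2 ^ i) (T^[2 ^ i] x)) ∂μ := by
      rw [integral_add (hint _).integrableOn i1.integrableOn, hcomp (2 ^ i) _ (hg _)]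
      simp only [hb]
      ring
    have h2 : ∫ x in Z, (g (2 ^ i) x + g (2 ^ i) (T^[2 ^ i] x)) ∂μ ≤ ∫ x in Z, (g (2 ^ (i + 1)) x + e x) ∂μ :=
      integral_mono ((hint _).integrableOn.add i1.integrableOn) ((hint _).integrableOn.add e1.integrableOn) e4
    have h3 : ∫ x in Z, (g (2 ^ (i + 1)) x + e x) ∂μ = b (i + 1) + ∫ x in Z, e x ∂μ :=
      integral_add (hint _).integrableOn e1.integrableOn
    have h4 : ∫ x in Z, e x ∂μ ≤ ∫ x, e x ∂μ := setIntegral_le_integral e1 (Eventually.of_forall e2)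
    linarith
  have hb2 : Tendsto (fun i : ℕ => b i / 2 ^ i) atTop (𝓝 0) := by
    have h1 : Tendsto (fun i : ℕ => ∫ x in Z, g (2 ^ i) x / ((2 ^ i : ℕ) : ℝ) ∂μ) atTop (𝓝 (∫ x in Z, G x ∂μ)) := by
      refine tendsto_integral_of_dominated_convergence (fun _ => |C|) (fun i => ?_) (integrable_const _) (fun i => ?_) ?_
      · exact ((hg _).div_const _).aestronglyMeasurable
      · refine Eventually.of_forall fun x => ?_
        have hp : (0 : ℝ) < ((2 ^ i : ℕ) : ℝ) := by positivity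
        rw [Real.norm_eq_abs, abs_div, abs_of_pos hp, div_le_iff₀ hp]
        exact (hC _ x).trans (mul_le_mul_of_nonneg_right (le_abs_self C) hp.le)
      · have h2 : ∀ᵐ x ∂(μ.restrict Z), Tendsto (fun n : ℕ => g n x / n) atTop (𝓝 (G x)) := ae_restrict_of_ae hG4
        filter_upwards [h2] with x hx
        exact hx.comp (tendsto_pow_atTop_atTop_of_one_lt (by norm_num : 1 < 2))
    have h2 : ∫ x in Z, G x ∂μ = 0 := by
      refine integral_eq_zero_of_ae ?_
      have h3 : ∀ᵐ x ∂(μ.restrict Z), 0 ≤ G x := ae_restrict_of_ae hG0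
      have h4 : ∀ᵐ x ∂(μ.restrict Z), x ∈ Z := ae_restrict_mem hZm
      filter_upwards [h3, h4] with x hx1 hx2
      exact le_antisymm hx2 hx1
    rw [h2] at h1
    refine h1.congr fun i => ?_
    rw [integral_div]
    push_cast
    rfl
  -- positive measure is impossible
  have hnull : μ Z = 0 := by
    by_contra hcon
    have hp : 0 < μ.real Z := by
      rw [Measure.real]
      exact ENNReal.toReal_pos hcon (measure_ne_top _ _)
    obtain ⟨i₀, hi₀⟩ := hG (μ.real Z / 2) (by linarith)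
    obtain ⟨i, hi1', hi3⟩ := grow80 (p := μ.real Z / 2) (K := 22 * C1) hδ (by linarith) (max i₀ (max i₁ 3))
    have hi1 : i₀ ≤ i := (le_max_left _ _).trans hi1'
    have hi2 : max i₁ 3 ≤ i := (le_max_right _ _).trans hi1'
    have h1 := seq80 hC1 (le_max_right i₁ 3) hb1 hb2 i hi2
    have h2 := hi₀ i hi1
    set A : Set X := {x | g (2 ^ i) x < (2 : ℝ) ^ (δ * i)} with hA
    have hAm : MeasurableSet A := measurableSet_lt (hg _) measurable_const
    have h3 : μ.real Z ≤ μ.real A + μ.real (Z \ A) := by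
      refine (measureReal_mono (μ := μ) (s₂ := A ∪ (Z \ A)) (fun x hx => ?_) (measure_ne_top _ _)).trans (measureReal_union_le _ _)
      by_cases hxA : x ∈ A
      · exact Or.inl hxA
      · exact Or.inr ⟨hx, hxA⟩
    have h4 : (2 : ℝ) ^ (δ * i) * μ.real (Z \ A) ≤ b i := by
      have h5 : ∫ x in Z \ A, (2 : ℝ) ^ (δ * i) ∂μ ≤ ∫ x in Z \ A, g (2 ^ i) x ∂μ := by
        refine setIntegral_mono_on (integrable_const _).integrableOn (hint _).integrableOn (hZm.diff hAm) fun x hx => ?_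
        have := hx.2
        simp only [hA, mem_setOf_eq, not_lt] at this
        exact this
      have h6 : ∫ x in Z \ A, g (2 ^ i) x ∂μ ≤ b i :=
        setIntegral_mono_set (hint _).integrableOn (Eventually.of_forall fun x => h0 _ x) (Eventually.of_forall fun x hx => hx.1)
      rw [setIntegral_const, smul_eq_mul] at h5
      linarith [mul_comm ((2 : ℝ) ^ (δ * i)) (μ.real (Z \ A))]
    have h7 : (0 : ℝ) < (2 : ℝ) ^ (δ * i) := by positivity
    have h8 : μ.real Z / 2 ≤ μ.real (Z \ A) := by linarith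
    have h9 := mul_le_mul_of_nonneg_left h8 h7.le
    linarith
  have : ∀ᵐ x ∂μ, x ∉ Z := measure_eq_zero_iff_ae_notMem.1 hnull
  filter_upwards [this] with x hx
  simp only [hZ, mem_setOf_eq, not_le] at hx
  exact hx

end Pool.Agent.Helper46.QP
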