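import Pool.Agent.Helper46.QP.GrowB
import Pool.Agent.Helper46.QP.Dbl
import Pool.Agent.Helper46.QP.Rates
import Pool.Agent.Helper46.QP.Soft

/-! Block QP-LYA: the Lyapunov exponent exists and is positive almost everywhere.

For a.e. `ω` apply `soft` on `X = Td d × TT`, `T = D.F ω` (`F_mp`), `g n (θ, z) = log nn (Mx (As ω θ) z n)` for `n ≥ 1`, `g 0 = 0` (`F_iter`, `Mx_add`, `As_add`, `nn_mul`; `log_nn_nonneg`, `log_nn_le` with `A_bd`: `log 2 + n log (2 π K + 4) ≤ (log 2 + log (2 π K + 4)) n` for `n ≥ 1`).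
* `hG`: `ofReal (nn ..)⁻¹` has mean at most `(1 - s²/50000)^(2^i/2)` for `i ≥ i₀` (`grow_om`, `iso` is monotone in the length; Tonelli in `(ω, p)`), so `∫ ω, μ {g (2^i) < 2^(δ i)} ≤ exp (2^(δ i)) * (1 - s²/50000)^(2^i/2)` (Markov: `g < t` iff `nn⁻¹ > exp (-t)`), summable by `rates`: for a.e. `ω`, `μ {..} → 0`.
* `hD`: `e_i = max 0 (g (2^i) + g (2^i) ∘ T^(2^i) - g (2^(i+1)))`, `∫ ω, ∫ p, e_i ≤ C + 3 log (1/s) ≤ C' (i + 1)` for large `i` (`dbl` with `m = 2^i`), so `Σ_i P {∫ p, e_i > (i + 1)^3} < ∞`: for a.e. `ω` from some `i₁` on `∫ e_i ≤ (i + 1)^3`. -/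

set_option autoImplicit false
open MeasureTheory Real Set Filter Topology

namespace Pool.Agent.Helper46.QP

open Pool.Agent.Helper18.UC (nn)

variable {d : ℕ} {D : Dat d}

open scoped ENNReal

/-- from sums of means to almost everywhere convergence -/
private theorem tend38 {Ω : Type*} [MeasurableSpace Ω] {P : Measure Ω} {f : ℕ → Ω → ℝ≥0∞}
    (hf : ∀ i, Measurable (f i)) {a : ℕ → ℝ} {i₀ : ℕ} (ha : Summable a)
    (h : ∀ i, i₀ ≤ i → ∫⁻ ω, f i ω ∂P ≤ ENNReal.ofReal (a i)) :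
    ∀ᵐ ω ∂P, Tendsto (fun i => f i ω) atTop (𝓝 0) := by
  have h1 : ∫⁻ ω, ∑' i, f (i + i₀) ω ∂P ≠ ⊤ := by
    rw [lintegral_tsum fun i => (hf _).aemeasurable]
    exact ne_top_of_le_ne_top ((summable_nat_add_iff i₀).2 ha).tsum_ofReal_ne_top
      (ENNReal.tsum_le_tsum fun i => h (i + i₀) (Nat.le_add_left _ _))
  filter_upwards [ae_lt_top (Measurable.tsum fun i => hf (i + i₀)) h1] with ω hω
  exact (tendsto_add_atTop_iff_nat i₀).1 (ENNReal.tendsto_atTop_zero_of_tsum_ne_top hω.ne)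

/-- the cocycle of the logarithms -/
private noncomputable def g38 (D : Dat d) (ω : Om d) (n : ℕ) (p : Td d × TT) : ℝ :=
  if n = 0 then 0 else Real.log (nn (Mx (D.As ω p.1) p.2 n))

private theorem g38_pos {ω : Om d} {n : ℕ} (hn : n ≠ 0) (p : Td d × TT) :
    g38 D ω n p = Real.log (nn (Mx (D.As ω p.1) p.2 n)) := by
  unfold g38; rw [if_neg hn]

private theorem nnm0_38 (hD : D.Ok) (n : ℕ) : Measurable fun q : Om d × (Td d × TT) =>
    nn (Mx (D.As q.1 q.2.1) q.2.2 n) := by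
  have h2 : Measurable fun q : Om d × (Td d × TT) => ((q.1, q.2.1) : Om d × Td d) :=
    measurable_fst.prodMk (measurable_fst.comp measurable_snd)
  have h3 : Measurable fun q : Om d × (Td d × TT) => ((D.As q.1 q.2.1, q.2.2) : (ℕ → ℂ) × TT) :=
    ((As_meas hD).comp h2).prodMk (measurable_snd.comp measurable_snd)
  exact (Mx_meas n).comp h3

private theorem nnm38 (hD : D.Ok) (n m : ℕ) : Measurable fun q : Om d × (Td d × TT) =>
    nn (Mx (D.As q.1 (q.2.1 + m • D.α)) (orb (D.As q.1 q.2.1) q.2.2 m) n) := by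
  have h1 : Measurable fun q : Om d × (Td d × TT) => ((q.1, q.2.1 + m • D.α) : Om d × Td d) :=
    measurable_fst.prodMk ((measurable_fst.comp measurable_snd).add_const _)
  have h2 : Measurable fun q : Om d × (Td d × TT) => ((q.1, q.2.1) : Om d × Td d) :=
    measurable_fst.prodMk (measurable_fst.comp measurable_snd)
  have h3 : Measurable fun q : Om d × (Td d × TT) => ((D.As q.1 q.2.1, q.2.2) : (ℕ → ℂ) × TT) :=
    ((As_meas hD).comp h2).prodMk (measurable_snd.comp measurable_snd)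
  have h4 := (orb_meas m).comp h3
  simp only [Function.comp_def] at h4
  have h5 : Measurable fun q : Om d × (Td d × TT) =>
      ((D.As q.1 (q.2.1 + m • D.α), orb (D.As q.1 q.2.1) q.2.2 m) : (ℕ → ℂ) × TT) :=
    ((As_meas hD).comp h1).prodMk h4
  exact (Mx_meas n).comp h5

/-- the loss at the junction -/
private noncomputable def ls38 (D : Dat d) (m : ℕ) (q : Om d × (Td d × TT)) : ℝ :=
  Real.log (nn (Mx (D.As q.1 q.2.1) q.2.2 m)) +
    Real.log (nn (Mx (D.As q.1 (q.2.1 + m • D.α)) (orb (D.As q.1 q.2.1) q.2.2 m) m)) -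
    Real.log (nn (Mx (D.As q.1 q.2.1) q.2.2 (2 * m)))

private theorem ls38_meas (hD : D.Ok) (m : ℕ) : Measurable (ls38 D m) := by
  unfold ls38
  exact ((Real.measurable_log.comp (nnm0_38 hD m)).add (Real.measurable_log.comp (nnm38 hD m m))).sub
    (Real.measurable_log.comp (nnm0_38 hD (2 * m)))

private theorem inv38_meas (hD : D.Ok) (n : ℕ) : Measurable fun q : Om d × (Td d × TT) =>
    ENNReal.ofReal (nn (Mx (D.As q.1 q.2.1) q.2.2 n))⁻¹ :=
  ENNReal.measurable_ofReal.comp (nnm0_38 hD n).inv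

/-- growth: the measure of the points with small norm tends to zero for almost every noise -/
private theorem slow38 (hD : D.Ok) {L : ℕ → ℕ} {i₀ : ℕ} {δ : ℝ} (hiso : ∀ i, D.iso (L i) (2 ^ (i + 2)))
    (hs : ∀ i, i₀ ≤ i → π * D.s (L i) ≤ 1)
    (hsum : Summable fun i : ℕ => Real.exp ((2 : ℝ) ^ (δ * i)) * (1 - D.s (L i) ^ 2 / 50000) ^ (2 ^ i / 2)) :
    ∀ᵐ ω ∂law d, Tendsto (fun i : ℕ => ENNReal.ofReal (Real.exp ((2 : ℝ) ^ (δ * i))) *
      ∫⁻ p : Td d × TT, ENNReal.ofReal (nn (Mx (D.As ω p.1) p.2 (2 ^ i)))⁻¹) atTop (𝓝 0) := by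
  refine tend38 (i₀ := i₀) (fun i => ?_) hsum (fun i hi => ?_)
  · exact (inv38_meas hD (2 ^ i)).lintegral_prod_right'.const_mul _
  · have hm : Measurable fun ω : Om d => ∫⁻ p : Td d × TT, ENNReal.ofReal (nn (Mx (D.As ω p.1) p.2 (2 ^ i)))⁻¹ :=
      (inv38_meas hD (2 ^ i)).lintegral_prod_right'
    rw [lintegral_const_mul _ hm,
      lintegral_lintegral_swap (f := fun (ω : Om d) (p : Td d × TT) =>
        ENNReal.ofReal (nn (Mx (D.As ω p.1) p.2 (2 ^ i)))⁻¹) (inv38_meas hD (2 ^ i)).aemeasurable,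
      ENNReal.ofReal_mul (Real.exp_pos _).le]
    refine mul_le_mul_right ?_ _
    have hi2 : D.iso (L i) (2 ^ i) := fun k h1 h2 =>
      hiso i k h1 (h2.trans_le (Nat.pow_le_pow_right (by norm_num) (by omega)))
    have h3 : ∀ p : Td d × TT, ∫⁻ ω, ENNReal.ofReal (nn (Mx (D.As ω p.1) p.2 (2 ^ i)))⁻¹ ∂law d ≤
        ENNReal.ofReal ((1 - D.s (L i) ^ 2 / 50000) ^ (2 ^ i / 2)) := fun p =>
      grow_om (l := L i) (n := 2 ^ i) hD hi2 (hs i hi) p.1 p.2
    refine (lintegral_mono h3).trans ?_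
    rw [lintegral_const, measure_univ, mul_one]

/-- the losses at the junctions -/
private theorem loss38 (hD : D.Ok) {L : ℕ → ℕ} {i₀ : ℕ} {C : ℝ} (hC : 0 < C)
    (hiso : ∀ i, D.iso (L i) (2 ^ (i + 2)))
    (hs : ∀ i, i₀ ≤ i → π * D.s (L i) ≤ 1) (hlog : ∀ i : ℕ, Real.log (1 / D.s (L i)) ≤ C * (i + 1)) :
    ∀ᵐ ω ∂law d, Tendsto (fun i : ℕ => ENNReal.ofReal ((((i : ℝ) + 1) ^ 3)⁻¹) *
      ∫⁻ p : Td d × TT, ENNReal.ofReal (ls38 D (2 ^ i) (ω, p))) atTop (𝓝 0) := by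
  obtain ⟨Cd, hCd, hdbl⟩ := dbl hD
  have hm1 : ∀ i : ℕ, Measurable fun q : Om d × (Td d × TT) => ENNReal.ofReal (ls38 D (2 ^ i) q) :=
    fun i => ENNReal.measurable_ofReal.comp (ls38_meas hD (2 ^ i))
  have hsum : Summable fun i : ℕ => (Cd + 3 * C) * (((i : ℝ) + 1) ^ 2)⁻¹ := by
    refine Summable.mul_left _ ?_
    have h := (summable_nat_add_iff 1).2 (Real.summable_nat_pow_inv.2 (one_lt_two : 1 < 2))
    refine h.congr fun i => ?_
    rw [Nat.cast_add, Nat.cast_one]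
  refine tend38 (i₀ := max i₀ 1) (fun i => ?_) hsum (fun i hi => ?_)
  · exact (hm1 i).lintegral_prod_right'.const_mul _
  · have hi0 : i₀ ≤ i := (le_max_left _ _).trans hi
    have hi1 : 1 ≤ i := (le_max_right _ _).trans hi
    have hm : Measurable fun ω : Om d => ∫⁻ p : Td d × TT, ENNReal.ofReal (ls38 D (2 ^ i) (ω, p)) :=
      (hm1 i).lintegral_prod_right'
    have hs1 : D.s (L i) ≤ 1 := by
      by_contra h
      push Not at h
      nlinarith [pi_gt_three, hs i hi0]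
    have h2m : 2 ≤ 2 ^ i := by
      calc 2 = 2 ^ 1 := rfl
        _ ≤ 2 ^ i := Nat.pow_le_pow_right (by norm_num) hi1
    have hi2 : D.iso (L i) (2 * 2 ^ i) := fun k h1 h2 =>
      hiso i k h1 (h2.trans_le (by
        calc 2 * 2 ^ i = 2 ^ (i + 1) := by rw [pow_succ, mul_comm]
          _ ≤ 2 ^ (i + 2) := Nat.pow_le_pow_right (by norm_num) (by omega)))
    rw [lintegral_const_mul _ hm,
      lintegral_lintegral_swap (f := fun (ω : Om d) (p : Td d × TT) => ENNReal.ofReal (ls38 D (2 ^ i) (ω, p)))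
        (hm1 i).aemeasurable]
    have h3 : ∫⁻ p : Td d × TT, ∫⁻ ω, ENNReal.ofReal (ls38 D (2 ^ i) (ω, p)) ∂law d ≤
        ENNReal.ofReal ((Cd + 3 * C) * ((i : ℝ) + 1)) := by
      have h6 : ∀ p : Td d × TT, ∫⁻ ω, ENNReal.ofReal (ls38 D (2 ^ i) (ω, p)) ∂law d ≤
          ENNReal.ofReal (Cd + 3 * Real.log (1 / D.s (L i))) := by
        intro p
        unfold ls38
        exact hdbl (L i) (2 ^ i) h2m hi2 hs1 p.1 p.2
      refine (lintegral_mono h6).trans ?_
      rw [lintegral_const, measure_univ, mul_one]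
      refine ENNReal.ofReal_le_ofReal ?_
      have h4 := hlog i
      have h5 : (0 : ℝ) ≤ i := Nat.cast_nonneg i
      nlinarith [mul_nonneg hCd h5]
    refine (mul_le_mul_right h3 _).trans ?_
    have hp : (0 : ℝ) < (i : ℝ) + 1 := by positivity
    rw [← ENNReal.ofReal_mul (by positivity)]
    refine ENNReal.ofReal_le_ofReal (le_of_eq ?_)
    field_simp

theorem lya (hD : D.Ok) (hb : D.b < d / 2)
    (hα : ∀ τ : ℝ, 1 / (d : ℝ) < τ → ∃ c : ℝ, 0 < c ∧ ∀ k : ℕ, 1 ≤ k → c * (k : ℝ) ^ (-τ) ≤ ‖k • D.α‖) :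
    ∀ᵐ ω ∂law d, ∃ G : Td d × TT → ℝ, Measurable G ∧ (∀ᵐ p, 0 < G p) ∧
      ∀ᵐ p : Td d × TT, Tendsto (fun n : ℕ => Real.log (nn (Mx (D.As ω p.1) p.2 n)) / n) atTop (𝓝 (G p)) := by
  obtain ⟨L, i₀, C, δ, hC, hδ, hiso, hs, hlog, -, hsum⟩ := rates hD hb hα
  obtain ⟨K, hK0, hK⟩ := A_bd hD
  filter_upwards [slow38 hD hiso hs hsum, loss38 hD hC hiso hs hlog] with ω h1 h2
  have hpair : Measurable fun p : Td d × TT => ((ω, p) : Om d × (Td d × TT)) :=
    measurable_const.prodMk measurable_id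
  have hnn : ∀ n, Measurable fun p : Td d × TT => nn (Mx (D.As ω p.1) p.2 n) := by
    intro n
    have h := (nnm0_38 hD n).comp hpair
    simp only [Function.comp_def] at h
    exact h
  have hgm : ∀ n, Measurable (g38 D ω n) := by
    intro n
    by_cases hn : n = 0
    · have e : g38 D ω n = fun _ => (0 : ℝ) := by
        funext p; unfold g38; rw [if_pos hn]
      rw [e]; exact measurable_const
    · have e : g38 D ω n = fun p => Real.log (nn (Mx (D.As ω p.1) p.2 n)) := by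
        funext p; exact g38_pos hn p
      rw [e]
      exact (hnn n).log
  have hlK : ∀ (n : ℕ) (p : Td d × TT), Real.log (nn (Mx (D.As ω p.1) p.2 n)) ≤
      Real.log 2 + n * Real.log (2 * π * K + 4) :=
    fun n p => log_nn_le hK0 (fun j => hK ω _) p.2 n
  have hg0 : ∀ n p, 0 ≤ g38 D ω n p := by
    intro n p
    unfold g38
    split_ifs
    · exact le_rfl
    · exact log_nn_nonneg _ _ _
  have hC1 : ∀ n p, |g38 D ω n p| ≤ (Real.log 2 + Real.log (2 * π * K + 4)) * n := by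
    intro n p
    rw [abs_of_nonneg (hg0 n p)]
    by_cases hn : n = 0
    · subst hn
      unfold g38
      simp
    · rw [g38_pos hn]
      refine (hlK n p).trans ?_
      have hn1 : (1 : ℝ) ≤ n := by exact_mod_cast Nat.one_le_iff_ne_zero.2 hn
      have h3 : 0 ≤ Real.log 2 := Real.log_nonneg one_le_two
      nlinarith
  have hsub : ∀ n m p, g38 D ω (n + m) p ≤ g38 D ω n p + g38 D ω m ((D.F ω)^[n] p) := by
    intro n m p
    by_cases hn : n = 0
    · subst hn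
      simp [g38]
    by_cases hm : m = 0
    · subst hm
      simp [g38]
    obtain ⟨θ, z⟩ := p
    have hnm : n + m ≠ 0 := by omega
    rw [g38_pos hn, g38_pos hm, g38_pos hnm, F_iter]
    show Real.log (nn (Mx (D.As ω θ) z (n + m))) ≤ Real.log (nn (Mx (D.As ω θ) z n)) +
      Real.log (nn (Mx (D.As ω (θ + n • D.α)) (orb (D.As ω θ) z n) m))
    have a1 : 0 < nn (Mx (D.As ω θ) z n) := by
      linarith [Pool.Agent.Helper95.PV.nn_ge_two (det_Mx (D.As ω θ) z n)]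
    have a2 : 0 < nn (Mx (D.As ω (θ + n • D.α)) (orb (D.As ω θ) z n) m) := by
      linarith [Pool.Agent.Helper95.PV.nn_ge_two (det_Mx (D.As ω (θ + n • D.α)) (orb (D.As ω θ) z n) m)]
    have a3 : 0 < nn (Mx (D.As ω θ) z (n + m)) := by
      linarith [Pool.Agent.Helper95.PV.nn_ge_two (det_Mx (D.As ω θ) z (n + m))]
    rw [← Real.log_mul a1.ne' a2.ne']
    refine Real.log_le_log a3 ?_
    rw [Mx_add, As_add, mul_comm (nn (Mx (D.As ω θ) z n))]
    exact Pool.Agent.Helper18.UC.nn_mul _ _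
  have hev : ∀ᶠ i : ℕ in atTop, ENNReal.ofReal ((((i : ℝ) + 1) ^ 3)⁻¹) *
      ∫⁻ p : Td d × TT, ENNReal.ofReal (ls38 D (2 ^ i) (ω, p)) ≤ 1 :=
    h2.eventually_le_const zero_lt_one
  obtain ⟨i₁, hi₁⟩ := eventually_atTop.1 hev
  have hDD : ∀ i : ℕ, i₁ ≤ i → ∃ e : Td d × TT → ℝ, Integrable e volume ∧ (∀ x, 0 ≤ e x) ∧
      ∫ x, e x ≤ 1 * ((i : ℝ) + 1) ^ 3 ∧
      ∀ x, g38 D ω (2 ^ i) x + g38 D ω (2 ^ i) ((D.F ω)^[2 ^ i] x) ≤ g38 D ω (2 ^ (i + 1)) x + e x := by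
    intro i hi
    have hp : (0 : ℝ) < ((i : ℝ) + 1) ^ 3 := by positivity
    have hb : ∫⁻ p : Td d × TT, ENNReal.ofReal (ls38 D (2 ^ i) (ω, p)) ≤ ENNReal.ofReal (((i : ℝ) + 1) ^ 3) := by
      have h3 := hi₁ i hi
      rw [ENNReal.ofReal_inv_of_pos hp, mul_comm, ← div_eq_mul_inv] at h3
      have h4 := (ENNReal.div_le_iff (by simpa using hp) ENNReal.ofReal_ne_top).1 h3
      rwa [one_mul] at h4
    have hls : Measurable fun p : Td d × TT => ls38 D (2 ^ i) (ω, p) := (ls38_meas hD (2 ^ i)).comp hpair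
    have hem : Measurable fun p : Td d × TT => max 0 (ls38 D (2 ^ i) (ω, p)) := measurable_const.max hls
    have he0 : ∀ p : Td d × TT, 0 ≤ max 0 (ls38 D (2 ^ i) (ω, p)) := fun p => le_max_left _ _
    have hee : ∫⁻ p : Td d × TT, ENNReal.ofReal (max 0 (ls38 D (2 ^ i) (ω, p))) ≤
        ENNReal.ofReal (((i : ℝ) + 1) ^ 3) := by
      refine le_trans (le_of_eq (lintegral_congr fun p => ?_)) hb
      rw [ENNReal.ofReal_max, ENNReal.ofReal_zero]
      exact max_eq_right zero_le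
    refine ⟨fun p => max 0 (ls38 D (2 ^ i) (ω, p)), ?_, he0, ?_, ?_⟩
    · exact (lintegral_ofReal_ne_top_iff_integrable hem.aestronglyMeasurable
        (Eventually.of_forall he0)).1 (ne_top_of_le_ne_top ENNReal.ofReal_ne_top hee)
    · rw [integral_eq_lintegral_of_nonneg_ae (Eventually.of_forall he0) hem.aestronglyMeasurable, one_mul]
      exact ENNReal.toReal_le_of_le_ofReal hp.le hee
    · rintro ⟨θ, z⟩
      have hne : 2 ^ i ≠ 0 := by positivity
      have hne2 : 2 ^ (i + 1) ≠ 0 := by positivity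
      rw [g38_pos hne, g38_pos hne, g38_pos hne2, F_iter, pow_succ, mul_comm (2 ^ i) 2]
      have h5 : ls38 D (2 ^ i) (ω, (θ, z)) ≤ max 0 (ls38 D (2 ^ i) (ω, (θ, z))) := le_max_right _ _
      unfold ls38 at h5 ⊢
      simp only at h5 ⊢
      linarith
  have hGG : ∀ ε : ℝ, 0 < ε → ∃ i₀ : ℕ, ∀ i ≥ i₀,
      (volume : Measure (Td d × TT)).real {x | g38 D ω (2 ^ i) x < (2 : ℝ) ^ (δ * i)} ≤ ε := by
    intro ε hε
    have h3 := h1.eventually_le_const (ENNReal.ofReal_pos.2 hε)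
    obtain ⟨i₂, hi₂⟩ := eventually_atTop.1 h3
    refine ⟨i₂, fun i hi => ?_⟩
    refine ENNReal.toReal_le_of_le_ofReal hε.le (le_trans ?_ (hi₂ i hi))
    have hne : 2 ^ i ≠ 0 := by positivity
    have hms : MeasurableSet {x : Td d × TT | g38 D ω (2 ^ i) x < (2 : ℝ) ^ (δ * i)} :=
      measurableSet_lt (hgm _) measurable_const
    have hmi : Measurable fun p : Td d × TT => ENNReal.ofReal (nn (Mx (D.As ω p.1) p.2 (2 ^ i)))⁻¹ :=
      ENNReal.measurable_ofReal.comp (hnn (2 ^ i)).inv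
    rw [← lintegral_indicator_one hms, ← lintegral_const_mul _ hmi]
    refine lintegral_mono fun p => ?_
    by_cases hp : p ∈ {x : Td d × TT | g38 D ω (2 ^ i) x < (2 : ℝ) ^ (δ * i)}
    · rw [indicator_of_mem hp]
      have h4 : g38 D ω (2 ^ i) p < (2 : ℝ) ^ (δ * i) := hp
      rw [g38_pos hne] at h4
      have a3 : 0 < nn (Mx (D.As ω p.1) p.2 (2 ^ i)) := by
        linarith [Pool.Agent.Helper95.PV.nn_ge_two (det_Mx (D.As ω p.1) p.2 (2 ^ i))]
      have h5 : nn (Mx (D.As ω p.1) p.2 (2 ^ i)) ≤ Real.exp ((2 : ℝ) ^ (δ * i)) := by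
        rw [← Real.exp_log a3]
        exact Real.exp_le_exp.2 h4.le
      rw [← ENNReal.ofReal_mul (Real.exp_pos _).le]
      show (1 : ℝ≥0∞) ≤ _
      rw [← ENNReal.ofReal_one]
      refine ENNReal.ofReal_le_ofReal ?_
      rw [← div_eq_mul_inv, le_div_iff₀ a3, one_mul]
      exact h5
    · rw [indicator_of_notMem hp]
      exact zero_le
  obtain ⟨G, hGm, hGp, hGt⟩ := soft (F_mp hD ω) hgm hδ hC1 hg0 hsub hDD hGG
  refine ⟨G, hGm, hGp, ?_⟩
  filter_upwards [hGt] with p hp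
  refine hp.congr fun n => ?_
  by_cases hn : n = 0
  · subst hn; simp
  · rw [g38_pos hn]

end Pool.Agent.Helper46.QP
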