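import Pool.Agent.Helper46.QP.Defs

/-! Block QP-SMOOTH: the noise is of class `C^r` for every integer `r < b`. Independent of the other blocks.

`U y = ∏ m, χ (y m)` is of class `C^r` with compact support, so its derivatives up to the order `r` are bounded by some `B`. The function of level `l` is `g_l (x) = Σ_c clip (ω (l, c)) ∏ m, χ (N rr (x m - c m / N))` (`tc_coe`). Near a point `x₀` every term is `clip (..) * U (N x - u)` with a vector of integers `u = c + N k` (`k m = round (x₀ m - c m / N)`) or zero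
(if `|N rr (x₀ m - c m / N)| > 1` for some `m`; `N ≥ 8`, so the jumps of `rr` are in this region), and at most `3^d` of the terms are not zero. So `‖iteratedFDeriv k g_l x‖ ≤ 3^d B N^k`, `Σ_l N^(-b) N^k < ∞` for `k ≤ r < b`: `contDiff_tsum`. -/

set_option autoImplicit false
open MeasureTheory Real Set

namespace Pool.Agent.Helper46.QP

open Pool.Agent.Helper18.FD (NN rr)
open Pool.Agent.Helper95.PV (rp tc cel)

variable {d : ℕ}

open Filter Topology in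
/-- Near `u₀` the periodic bump is the bump around the nearest integer. -/
private lemma per57 {χ : ℝ → ℝ} (h0 : ∀ t, 1 ≤ |t| → χ t = 0) {N : ℝ} (hN : 8 ≤ N) (u₀ : ℝ) :
    ∀ᶠ u in 𝓝 u₀, χ (N * rr u) = χ (N * (u - round u₀)) := by
  have h1 : ∀ᶠ u in 𝓝 u₀, |u - u₀| < 1 / 4 := by
    have := Metric.ball_mem_nhds u₀ (show (0 : ℝ) < 1 / 4 by norm_num)
    filter_upwards [this] with u hu
    rwa [Metric.mem_ball, Real.dist_eq] at hu
  filter_upwards [h1] with u hu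
  have h2 : |u₀ - round u₀| ≤ 1 / 2 := abs_sub_round u₀
  have h3 : |u - round u₀| < 3 / 4 := by
    have e : u - round u₀ = (u - u₀) + (u₀ - round u₀) := by ring
    rw [e]
    exact (abs_add_le _ _).trans_lt (by linarith)
  by_cases hk : round u = round u₀
  · unfold rr
    rw [hk]
  · have h4 : 1 ≤ |((round u₀ : ℤ) : ℝ) - (round u : ℤ)| := by
      have : (1 : ℤ) ≤ |round u₀ - round u| := Int.one_le_abs (sub_ne_zero.2 (Ne.symm hk))
      exact_mod_cast this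
    have h5 : |u - round u| ≤ 1 / 2 := abs_sub_round u
    have h6 : |((round u₀ : ℤ) : ℝ) - (round u : ℤ)| ≤ |u - round u₀| + |u - round u| := by
      have e : ((round u₀ : ℤ) : ℝ) - (round u : ℤ) = -(u - round u₀) + (u - round u) := by ring
      rw [e]
      exact (abs_add_le _ _).trans (by rw [abs_neg])
    have hN0 : (0 : ℝ) ≤ N := by linarith
    rw [h0 (N * rr u), h0 (N * (u - round u₀))]
    · rw [abs_mul, abs_of_nonneg hN0]
      nlinarith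
    · unfold rr
      rw [abs_mul, abs_of_nonneg hN0]
      nlinarith

/-- The product bump. -/
private noncomputable def U57 (χ : ℝ → ℝ) (y : Fin d → ℝ) : ℝ := ∏ m, χ (y m)

private lemma U57_smooth {χ : ℝ → ℝ} {r : ℕ} (hχ : ContDiff ℝ r χ) : ContDiff ℝ r (U57 (d := d) χ) := by
  unfold U57
  exact contDiff_prod fun m _ => hχ.comp (contDiff_apply ℝ ℝ m)

private lemma U57_zero {χ : ℝ → ℝ} (h0 : ∀ t, 1 ≤ |t| → χ t = 0) {y : Fin d → ℝ} {m : Fin d} (hm : 1 ≤ |y m|) :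
    U57 χ y = 0 := Finset.prod_eq_zero (Finset.mem_univ m) (h0 _ hm)

private lemma U57_supp {χ : ℝ → ℝ} (h0 : ∀ t, 1 ≤ |t| → χ t = 0) : HasCompactSupport (U57 (d := d) χ) := by
  refine HasCompactSupport.intro (isCompact_closedBall (0 : Fin d → ℝ) 1) ?_
  intro y hy
  rw [mem_closedBall_zero_iff, not_le] at hy
  by_contra hne
  apply hne
  have : ∃ m, 1 ≤ |y m| := by
    by_contra hcon
    push Not at hcon
    have : ‖y‖ ≤ 1 := (pi_norm_le_iff_of_nonneg zero_le_one).2 fun m => (hcon m).le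
    linarith
  obtain ⟨m, hm⟩ := this
  exact U57_zero h0 hm

private lemma U57_bound {χ : ℝ → ℝ} {r : ℕ} (hχ : ContDiff ℝ r χ) (h0 : ∀ t, 1 ≤ |t| → χ t = 0) (k : ℕ) (hk : k ≤ r) :
    ∃ B : ℝ, 0 ≤ B ∧ ∀ y : Fin d → ℝ, ‖iteratedFDeriv ℝ k (U57 χ) y‖ ≤ B := by
  have h1 : Continuous (iteratedFDeriv ℝ k (U57 (d := d) χ)) :=
    (U57_smooth hχ).continuous_iteratedFDeriv (by exact_mod_cast hk)
  obtain ⟨C, hC⟩ := ((U57_supp h0).iteratedFDeriv k).exists_bound_of_continuous h1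
  exact ⟨max C 0, le_max_right _ _, fun y => (hC y).trans (le_max_left _ _)⟩

open Filter Topology in
private lemma U57_off {χ : ℝ → ℝ} (h0 : ∀ t, 1 ≤ |t| → χ t = 0) (k : ℕ) {y : Fin d → ℝ} {m : Fin d} (hm : 1 < |y m|) :
    iteratedFDeriv ℝ k (U57 χ) y = 0 := by
  have h1 : U57 (d := d) χ =ᶠ[𝓝 y] fun _ => (0 : ℝ) := by
    have h2 : ∀ᶠ z : Fin d → ℝ in 𝓝 y, 1 < |z m| :=
      (continuous_apply m).abs.continuousAt.eventually (lt_mem_nhds hm)
    filter_upwards [h2] with z hz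
    exact U57_zero h0 hz.le
  rw [(Filter.EventuallyEq.iteratedFDeriv ℝ h1 k).eq_of_nhds]
  have h3 : iteratedFDeriv ℝ k (fun _ : Fin d → ℝ => (0 : ℝ)) = 0 := iteratedFDeriv_fun_zero
  rw [h3]
  rfl

/-- The term of the cell with the corner `a`. -/
private noncomputable def T57 (χ : ℝ → ℝ) (N : ℝ) (a : Fin d → ℝ) (x : Fin d → ℝ) : ℝ := ∏ m, χ (N * rr (x m - a m))

open Filter Topology in
private lemma T57_loc {χ : ℝ → ℝ} (h0 : ∀ t, 1 ≤ |t| → χ t = 0) {N : ℝ} (hN : 8 ≤ N) (a x₀ : Fin d → ℝ) :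
    T57 χ N a =ᶠ[𝓝 x₀] (fun y => U57 χ (y - fun m => N * (a m + round (x₀ m - a m)))) ∘
      (N • ContinuousLinearMap.id ℝ (Fin d → ℝ)) := by
  have h1 : ∀ m : Fin d, ∀ᶠ x : Fin d → ℝ in 𝓝 x₀,
      χ (N * rr (x m - a m)) = χ (N * ((x m - a m) - round (x₀ m - a m))) := fun m =>
    (show Continuous fun x : Fin d → ℝ => x m - a m from
      (continuous_apply m).sub continuous_const).continuousAt.eventually (per57 h0 hN (x₀ m - a m))
  filter_upwards [eventually_all.2 h1] with x hx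
  unfold T57 U57
  refine Finset.prod_congr rfl fun m _ => ?_
  rw [hx m]
  congr 1
  simp only [smul_apply, ContinuousLinearMap.id_apply, Pi.sub_apply, Pi.smul_apply,
    smul_eq_mul]
  ring

private lemma T57_smooth {χ : ℝ → ℝ} {r : ℕ} (hχ : ContDiff ℝ r χ) (h0 : ∀ t, 1 ≤ |t| → χ t = 0) {N : ℝ} (hN : 8 ≤ N)
    (a : Fin d → ℝ) : ContDiff ℝ r (T57 χ N a) := by
  rw [contDiff_iff_contDiffAt]
  intro x₀
  refine ContDiffAt.congr_of_eventuallyEq ?_ (T57_loc h0 hN a x₀)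
  exact (((U57_smooth hχ).comp (contDiff_id.sub contDiff_const)).comp
    (ContinuousLinearMap.contDiff _)).contDiffAt

private lemma T57_bound {χ : ℝ → ℝ} {r : ℕ} (hχ : ContDiff ℝ r χ) (h0 : ∀ t, 1 ≤ |t| → χ t = 0) {N : ℝ} (hN : 8 ≤ N)
    (a x₀ : Fin d → ℝ) {k : ℕ} (hk : k ≤ r) {B : ℝ} (hB0 : 0 ≤ B)
    (hB : ∀ y : Fin d → ℝ, ‖iteratedFDeriv ℝ k (U57 χ) y‖ ≤ B) :
    ‖iteratedFDeriv ℝ k (T57 χ N a) x₀‖ ≤ B * N ^ k ∧
      ((∃ m, 1 < |N * x₀ m - N * (a m + round (x₀ m - a m))|) → iteratedFDeriv ℝ k (T57 χ N a) x₀ = 0) := by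
  have h1 := (Filter.EventuallyEq.iteratedFDeriv ℝ (T57_loc h0 hN a x₀) k).eq_of_nhds
  have hs : ContDiff ℝ k (fun y : Fin d → ℝ => U57 χ (y - fun m => N * (a m + round (x₀ m - a m)))) :=
    ((U57_smooth hχ).of_le (by exact_mod_cast hk)).comp (contDiff_id.sub contDiff_const)
  rw [h1, ContinuousLinearMap.iteratedFDeriv_comp_right _ hs x₀ le_rfl, iteratedFDeriv_comp_sub]
  constructor
  · refine (ContinuousMultilinearMap.norm_compContinuousLinearMap_le _ _).trans ?_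
    refine mul_le_mul (hB _) ?_ (by positivity) hB0
    rw [Finset.prod_const, Finset.card_univ, Fintype.card_fin]
    refine pow_le_pow_left₀ (norm_nonneg _) ?_ k
    rw [norm_smul, Real.norm_of_nonneg (by linarith : (0 : ℝ) ≤ N)]
    calc N * ‖ContinuousLinearMap.id ℝ (Fin d → ℝ)‖ ≤ N * 1 :=
          mul_le_mul_of_nonneg_left ContinuousLinearMap.norm_id_le (by linarith)
      _ = N := mul_one _
  · rintro ⟨m, hm⟩
    rw [U57_off h0 k (m := m) (by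
      simpa only [smul_apply, ContinuousLinearMap.id_apply, Pi.sub_apply, Pi.smul_apply,
        smul_eq_mul] using hm)]
    ext v
    simp

open Classical in
/-- At most `3^d` cells are near a point. -/
private lemma count57 {N : ℕ} (hN : 0 < N) (x₀ : Fin d → ℝ) :
    ((Fintype.piFinset fun _ : Fin d => Finset.range N).filter fun c =>
      ∀ m, |(N : ℝ) * x₀ m - N * ((c m : ℝ) / N + round (x₀ m - (c m : ℝ) / N))| ≤ 1).card ≤ 3 ^ d := by
  have hN0 : (0 : ℝ) < N := by exact_mod_cast hN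
  have hcard : (Fintype.piFinset fun _ : Fin d => Finset.Icc (-1 : ℤ) 1).card = 3 ^ d := by
    rw [Fintype.card_piFinset, Finset.prod_const, Finset.card_univ, Fintype.card_fin]
    rfl
  rw [← hcard]
  have hu : ∀ (c : Fin d → ℕ) (m : Fin d), (N : ℝ) * ((c m : ℝ) / N + round (x₀ m - (c m : ℝ) / N)) =
      (((c m : ℤ) + N * round (x₀ m - (c m : ℝ) / N) : ℤ) : ℝ) := by
    intro c m
    push_cast
    field_simp
  refine Finset.card_le_card_of_injOn (fun c m => ((c m : ℤ) + N * round (x₀ m - (c m : ℝ) / N)) - ⌊(N : ℝ) * x₀ m⌋) ?_ ?_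
  · intro c hc
    rw [Finset.mem_coe, Finset.mem_filter] at hc
    rw [Finset.mem_coe, Fintype.mem_piFinset]
    intro m
    have h1 := hc.2 m
    rw [hu, abs_le] at h1
    have h2 := Int.floor_le ((N : ℝ) * x₀ m)
    have h3 := Int.lt_floor_add_one ((N : ℝ) * x₀ m)
    rw [Finset.mem_Icc]
    have h4 : ((((c m : ℤ) + N * round (x₀ m - (c m : ℝ) / N)) - ⌊(N : ℝ) * x₀ m⌋ : ℤ) : ℝ) < 2 := by
      rw [Int.cast_sub]; linarith [h1.1]
    have h5 : (-1 : ℝ) ≤ ((((c m : ℤ) + N * round (x₀ m - (c m : ℝ) / N)) - ⌊(N : ℝ) * x₀ m⌋ : ℤ) : ℝ) := by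
      rw [Int.cast_sub]; linarith [h1.2]
    have h6 : (((c m : ℤ) + N * round (x₀ m - (c m : ℝ) / N)) - ⌊(N : ℝ) * x₀ m⌋) < 2 := by exact_mod_cast h4
    have h7 : (-1 : ℤ) ≤ (((c m : ℤ) + N * round (x₀ m - (c m : ℝ) / N)) - ⌊(N : ℝ) * x₀ m⌋) := by exact_mod_cast h5
    beta_reduce
    exact ⟨h7, by omega⟩
  · intro c hc c' hc' he
    rw [Finset.mem_coe, Finset.mem_filter, Fintype.mem_piFinset] at hc hc'
    funext m
    have h1 := congrFun he m
    have h2 : (c m : ℤ) + N * round (x₀ m - (c m : ℝ) / N) = (c' m : ℤ) + N * round (x₀ m - (c' m : ℝ) / N) := by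
      simpa using h1
    have h3 : (c m : ℤ) % N = (c' m : ℤ) % N := by
      have h4 := congrArg (· % (N : ℤ)) h2
      simpa only [Int.add_mul_emod_self_left] using h4
    have h5 := Finset.mem_range.1 (hc.1 m)
    have h6 := Finset.mem_range.1 (hc'.1 m)
    rw [Int.emod_eq_of_lt (by positivity) (by exact_mod_cast h5), Int.emod_eq_of_lt (by positivity) (by exact_mod_cast h6)] at h3
    exact_mod_cast h3

private lemma clip57 (w : ℂ) : ‖clip w‖ ≤ 1 := by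
  unfold clip
  split_ifs with h
  · exact h
  · simp

private lemma NN57 (l : ℕ) : (8 : ℝ) ≤ NN l := by
  unfold NN
  push_cast
  have : (1 : ℝ) ≤ 2 ^ l := one_le_pow₀ (by norm_num)
  rw [pow_add]
  nlinarith

/-- The function of level `l`. -/
private noncomputable def G57 (χ : ℝ → ℝ) (b : ℝ) (ω : Om d) (l : ℕ) (x : Fin d → ℝ) : ℂ :=
  ∑ c ∈ Fintype.piFinset fun _ : Fin d => Finset.range (NN l),
    (ContinuousLinearMap.smulRight (1 : ℝ →L[ℝ] ℝ) (((((NN l : ℝ) ^ (-b) : ℝ) : ℂ)) * clip (ω (l, c))) ∘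
      T57 χ (NN l) fun m => (c m : ℝ) / NN l) x

private lemma G57_eq (χ : ℝ → ℝ) (b : ℝ) (ω : Om d) (l : ℕ) (x : Fin d → ℝ) :
    (((NN l : ℝ) ^ (-b) : ℝ) : ℂ) * lvl χ ω l (fun m => (x m : UnitAddCircle)) = G57 χ b ω l x := by
  unfold lvl G57
  rw [Finset.mul_sum]
  refine Finset.sum_congr rfl fun c _ => ?_
  have h : cf χ l c (fun m => (x m : UnitAddCircle)) = T57 χ (NN l) (fun m => (c m : ℝ) / NN l) x := by
    unfold cf T57
    refine Finset.prod_congr rfl fun m _ => ?_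
    rw [Pool.Agent.Helper95.PV.tc_coe]
  rw [h]
  simp only [Function.comp, ContinuousLinearMap.smulRight_apply, one_apply_eq_self, Complex.real_smul]
  ring

private lemma G57_smooth {χ : ℝ → ℝ} {r : ℕ} (hχ : ContDiff ℝ r χ) (h0 : ∀ t, 1 ≤ |t| → χ t = 0) (b : ℝ) (ω : Om d)
    (l : ℕ) : ContDiff ℝ r (G57 χ b ω l) := by
  unfold G57
  exact ContDiff.sum fun c _ => (ContinuousLinearMap.contDiff _).comp (T57_smooth hχ h0 (NN57 l) _)

private lemma G57_bound {χ : ℝ → ℝ} {r : ℕ} (hχ : ContDiff ℝ r χ) (h0 : ∀ t, 1 ≤ |t| → χ t = 0) (b : ℝ) (ω : Om d)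
    (l : ℕ) {k : ℕ} (hk : k ≤ r) {B : ℝ} (hB0 : 0 ≤ B)
    (hB : ∀ y : Fin d → ℝ, ‖iteratedFDeriv ℝ k (U57 χ) y‖ ≤ B) (x : Fin d → ℝ) :
    ‖iteratedFDeriv ℝ k (G57 χ b ω l) x‖ ≤ 3 ^ d * ((NN l : ℝ) ^ (-b) * (B * (NN l : ℝ) ^ k)) := by
  classical
  have hN8 := NN57 l
  have hN0 : (0 : ℝ) < NN l := by linarith
  have hNb : (0 : ℝ) ≤ (NN l : ℝ) ^ (-b) := by positivity
  have hsm : ∀ c : Fin d → ℕ, ContDiff ℝ k (T57 χ (NN l) fun m => (c m : ℝ) / NN l) := fun c =>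
    (T57_smooth hχ h0 hN8 _).of_le (by exact_mod_cast hk)
  have hterm : ∀ c : Fin d → ℕ, iteratedFDeriv ℝ k
      (ContinuousLinearMap.smulRight (1 : ℝ →L[ℝ] ℝ) (((((NN l : ℝ) ^ (-b) : ℝ) : ℂ)) * clip (ω (l, c))) ∘
        T57 χ (NN l) fun m => (c m : ℝ) / NN l) x =
      (ContinuousLinearMap.smulRight (1 : ℝ →L[ℝ] ℝ) (((((NN l : ℝ) ^ (-b) : ℝ) : ℂ)) * clip (ω (l, c)))).compContinuousMultilinearMap
        (iteratedFDeriv ℝ k (T57 χ (NN l) fun m => (c m : ℝ) / NN l) x) := fun c =>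
    ContinuousLinearMap.iteratedFDeriv_comp_left _ (hsm c).contDiffAt le_rfl
  have hsum : iteratedFDeriv ℝ k (G57 χ b ω l) x = ∑ c ∈ Fintype.piFinset fun _ : Fin d => Finset.range (NN l),
      iteratedFDeriv ℝ k
      (ContinuousLinearMap.smulRight (1 : ℝ →L[ℝ] ℝ) (((((NN l : ℝ) ^ (-b) : ℝ) : ℂ)) * clip (ω (l, c))) ∘
        T57 χ (NN l) fun m => (c m : ℝ) / NN l) x := by
    have h1 := iteratedFDeriv_sum (𝕜 := ℝ) (i := k) (u := Fintype.piFinset fun _ : Fin d => Finset.range (NN l))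
      (f := fun c => ContinuousLinearMap.smulRight (1 : ℝ →L[ℝ] ℝ) (((((NN l : ℝ) ^ (-b) : ℝ) : ℂ)) * clip (ω (l, c))) ∘
        T57 χ (NN l) fun m => (c m : ℝ) / NN l) (fun c _ => (ContinuousLinearMap.contDiff _).comp (hsm c))
    have h2 := congrFun h1 x
    rw [Finset.sum_apply] at h2
    exact h2
  rw [hsum]
  set S := (Fintype.piFinset fun _ : Fin d => Finset.range (NN l)).filter fun c =>
      ∀ m, |((NN l : ℕ) : ℝ) * x m - (NN l : ℕ) * ((c m : ℝ) / (NN l : ℕ) + round (x m - (c m : ℝ) / (NN l : ℕ)))| ≤ 1 with hS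
  have hcard : S.card ≤ 3 ^ d := count57 (by exact_mod_cast hN0) x
  have hle : ∀ c ∈ Fintype.piFinset fun _ : Fin d => Finset.range (NN l), ‖iteratedFDeriv ℝ k
      (ContinuousLinearMap.smulRight (1 : ℝ →L[ℝ] ℝ) (((((NN l : ℝ) ^ (-b) : ℝ) : ℂ)) * clip (ω (l, c))) ∘
        T57 χ (NN l) fun m => (c m : ℝ) / NN l) x‖ ≤
      if c ∈ S then (NN l : ℝ) ^ (-b) * (B * (NN l : ℝ) ^ k) else 0 := by
    intro c hc
    rw [hterm c]
    obtain ⟨hb1, hb2⟩ := T57_bound hχ h0 hN8 (fun m => (c m : ℝ) / NN l) x hk hB0 hB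
    by_cases hcS : c ∈ S
    · rw [if_pos hcS]
      refine (ContinuousLinearMap.norm_compContinuousMultilinearMap_le _ _).trans ?_
      refine mul_le_mul ?_ hb1 (norm_nonneg _) hNb
      rw [ContinuousLinearMap.norm_smulRight_apply, norm_mul, Complex.norm_real, Real.norm_of_nonneg hNb, norm_one, one_mul]
      calc (NN l : ℝ) ^ (-b) * ‖clip (ω (l, c))‖ ≤ (NN l : ℝ) ^ (-b) * 1 := mul_le_mul_of_nonneg_left (clip57 _) hNb
        _ = _ := mul_one _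
    · rw [if_neg hcS]
      have : ∃ m, 1 < |((NN l : ℕ) : ℝ) * x m - (NN l : ℕ) * ((c m : ℝ) / (NN l : ℕ) + round (x m - (c m : ℝ) / (NN l : ℕ)))| := by
        by_contra hcon
        push Not at hcon
        exact hcS (Finset.mem_filter.2 ⟨hc, hcon⟩)
      rw [hb2 this]
      refine le_of_eq ?_
      rw [norm_eq_zero]
      ext v
      simp
  calc ‖(∑ c ∈ (Fintype.piFinset fun _ : Fin d => Finset.range (NN l)), iteratedFDeriv ℝ k
      (ContinuousLinearMap.smulRight (1 : ℝ →L[ℝ] ℝ) (((((NN l : ℝ) ^ (-b) : ℝ) : ℂ)) * clip (ω (l, c))) ∘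
        T57 χ (NN l) fun m => (c m : ℝ) / NN l) x)‖ ≤ ∑ c ∈ Fintype.piFinset fun _ : Fin d => Finset.range (NN l),
        (if c ∈ S then (NN l : ℝ) ^ (-b) * (B * (NN l : ℝ) ^ k) else 0) := norm_sum_le_of_le _ hle
    _ = S.card * ((NN l : ℝ) ^ (-b) * (B * (NN l : ℝ) ^ k)) := by
        rw [← Finset.sum_filter, Finset.filter_mem_eq_inter, Finset.inter_eq_right.2 (Finset.filter_subset _ _),
          Finset.sum_const, nsmul_eq_mul]
    _ ≤ 3 ^ d * ((NN l : ℝ) ^ (-b) * (B * (NN l : ℝ) ^ k)) := by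
        refine mul_le_mul_of_nonneg_right ?_ (by positivity)
        exact_mod_cast hcard

theorem nz_smooth {χ : ℝ → ℝ} {r : ℕ} (hχ : ContDiff ℝ r χ) (h0 : ∀ t, 1 ≤ |t| → χ t = 0) {b : ℝ} (hb : (r : ℝ) < b)
    (ω : Om d) : ContDiff ℝ r (fun x : Fin d → ℝ => nz χ b ω (fun m => (x m : UnitAddCircle))) := by
  have hB : ∀ k : ℕ, ∃ B : ℝ, 0 ≤ B ∧ (k ≤ r → ∀ y : Fin d → ℝ, ‖iteratedFDeriv ℝ k (U57 χ) y‖ ≤ B) := by
    intro k
    by_cases hk : k ≤ r
    · obtain ⟨B, h1, h2⟩ := U57_bound (d := d) hχ h0 k hk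
      exact ⟨B, h1, fun _ => h2⟩
    · exact ⟨0, le_rfl, fun h => absurd h hk⟩
  choose B hB0 hB using hB
  have he : (fun x : Fin d → ℝ => nz χ b ω (fun m => (x m : UnitAddCircle))) = fun x => ∑' l, G57 χ b ω l x := by
    funext x
    unfold nz
    exact tsum_congr fun l => G57_eq χ b ω l x
  rw [he]
  refine contDiff_tsum (N := (r : ℕ∞)) (v := fun k l => 3 ^ d * ((NN l : ℝ) ^ (-b) * (B k * (NN l : ℝ) ^ k)))
    (fun l => G57_smooth hχ h0 b ω l) ?_ ?_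
  · intro k hk
    have hkr : k ≤ r := by exact_mod_cast hk
    have hkb : (k : ℝ) - b < 0 := by
      have : (k : ℝ) ≤ r := by exact_mod_cast hkr
      linarith
    have h1 : ∀ l : ℕ, (3 : ℝ) ^ d * ((NN l : ℝ) ^ (-b) * (B k * (NN l : ℝ) ^ k)) =
        (3 ^ d * B k * ((2 : ℝ) ^ ((k : ℝ) - b)) ^ 3) * ((2 : ℝ) ^ ((k : ℝ) - b)) ^ l := by
      intro l
      have h2 : (NN l : ℝ) = (2 : ℝ) ^ (l + 3) := by unfold NN; push_cast; ring
      have hN0 : (0 : ℝ) < NN l := by linarith [NN57 l]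
      have h3 : (NN l : ℝ) ^ (-b) * (NN l : ℝ) ^ k = ((2 : ℝ) ^ ((k : ℝ) - b)) ^ (l + 3) := by
        rw [← Real.rpow_natCast (NN l : ℝ) k, ← Real.rpow_add hN0, h2, ← Real.rpow_natCast (2 : ℝ) (l + 3),
          ← Real.rpow_mul (by norm_num), ← Real.rpow_natCast ((2 : ℝ) ^ ((k : ℝ) - b)) (l + 3), ← Real.rpow_mul (by norm_num)]
        congr 1
        ring
      calc (3 : ℝ) ^ d * ((NN l : ℝ) ^ (-b) * (B k * (NN l : ℝ) ^ k)) =
            3 ^ d * B k * ((NN l : ℝ) ^ (-b) * (NN l : ℝ) ^ k) := by ring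
        _ = _ := by rw [h3, pow_add]; ring
    have h4 : (fun l : ℕ => (3 : ℝ) ^ d * ((NN l : ℝ) ^ (-b) * (B k * (NN l : ℝ) ^ k))) =
        fun l : ℕ => (3 ^ d * B k * ((2 : ℝ) ^ ((k : ℝ) - b)) ^ 3) * ((2 : ℝ) ^ ((k : ℝ) - b)) ^ l := funext h1
    rw [h4]
    refine Summable.mul_left _ (summable_geometric_of_lt_one (by positivity) ?_)
    exact Real.rpow_lt_one_of_one_lt_of_neg (by norm_num) hkb
  · intro k l x hk
    have hkr : k ≤ r := by exact_mod_cast hk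
    exact G57_bound hχ h0 b ω l hkr (hB0 k) (hB k hkr) x

private lemma sum82 {r : ℕ} {b : ℝ} (hb : (r : ℝ) < b) (d : ℕ) {k : ℕ} (hkr : k ≤ r) (B : ℝ) :
    Summable fun l : ℕ => (3 : ℝ) ^ d * ((NN l : ℝ) ^ (-b) * (B * (NN l : ℝ) ^ k)) := by
  have hkb : (k : ℝ) - b < 0 := by
    have : (k : ℝ) ≤ r := by exact_mod_cast hkr
    linarith
  have h1 : ∀ l : ℕ, (3 : ℝ) ^ d * ((NN l : ℝ) ^ (-b) * (B * (NN l : ℝ) ^ k)) =
      (3 ^ d * B * ((2 : ℝ) ^ ((k : ℝ) - b)) ^ 3) * ((2 : ℝ) ^ ((k : ℝ) - b)) ^ l := by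
    intro l
    have h2 : (NN l : ℝ) = (2 : ℝ) ^ (l + 3) := by unfold NN; push_cast; ring
    have hN0 : (0 : ℝ) < NN l := by linarith [NN57 l]
    have h3 : (NN l : ℝ) ^ (-b) * (NN l : ℝ) ^ k = ((2 : ℝ) ^ ((k : ℝ) - b)) ^ (l + 3) := by
      rw [← Real.rpow_natCast (NN l : ℝ) k, ← Real.rpow_add hN0, h2, ← Real.rpow_natCast (2 : ℝ) (l + 3),
        ← Real.rpow_mul (by norm_num), ← Real.rpow_natCast ((2 : ℝ) ^ ((k : ℝ) - b)) (l + 3), ← Real.rpow_mul (by norm_num)]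
      congr 1
      ring
    calc (3 : ℝ) ^ d * ((NN l : ℝ) ^ (-b) * (B * (NN l : ℝ) ^ k)) =
          3 ^ d * B * ((NN l : ℝ) ^ (-b) * (NN l : ℝ) ^ k) := by ring
      _ = _ := by rw [h3, pow_add]; ring
  have h4 : (fun l : ℕ => (3 : ℝ) ^ d * ((NN l : ℝ) ^ (-b) * (B * (NN l : ℝ) ^ k))) =
      fun l : ℕ => (3 ^ d * B * ((2 : ℝ) ^ ((k : ℝ) - b)) ^ 3) * ((2 : ℝ) ^ ((k : ℝ) - b)) ^ l := funext h1
  rw [h4]
  refine Summable.mul_left _ (summable_geometric_of_lt_one (by positivity) ?_)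
  exact Real.rpow_lt_one_of_one_lt_of_neg (by norm_num) hkb

/-- uniform bound of the derivatives of the noise up to the order `r < b` -/
theorem nz_bd {χ : ℝ → ℝ} {r : ℕ} (hχ : ContDiff ℝ r χ) (h0 : ∀ t, 1 ≤ |t| → χ t = 0) {b : ℝ} (hb : (r : ℝ) < b) :
    ∃ K : ℝ, 0 ≤ K ∧ ∀ (ω : Om d) (k : ℕ), k ≤ r → ∀ x,
      ‖iteratedFDeriv ℝ k (fun x : Fin d → ℝ => nz χ b ω (fun m => (x m : UnitAddCircle))) x‖ ≤ K := by
  have hB : ∀ k : ℕ, ∃ B : ℝ, 0 ≤ B ∧ (k ≤ r → ∀ y : Fin d → ℝ, ‖iteratedFDeriv ℝ k (U57 χ) y‖ ≤ B) := by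
    intro k
    by_cases hk : k ≤ r
    · obtain ⟨B, h1, h2⟩ := U57_bound (d := d) hχ h0 k hk
      exact ⟨B, h1, fun _ => h2⟩
    · exact ⟨0, le_rfl, fun h => absurd h hk⟩
  choose B hB0 hB using hB
  have hv0 : ∀ k l : ℕ, 0 ≤ (3 : ℝ) ^ d * ((NN l : ℝ) ^ (-b) * (B k * (NN l : ℝ) ^ k)) := by
    intro k l
    have := hB0 k
    positivity
  refine ⟨∑ k ∈ Finset.range (r + 1), ∑' l : ℕ, (3 : ℝ) ^ d * ((NN l : ℝ) ^ (-b) * (B k * (NN l : ℝ) ^ k)),
    Finset.sum_nonneg fun k _ => tsum_nonneg fun l => hv0 k l, fun ω k hk x => ?_⟩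
  have he : (fun x : Fin d → ℝ => nz χ b ω (fun m => (x m : UnitAddCircle))) = fun x => ∑' l, G57 χ b ω l x := by
    funext x
    unfold nz
    exact tsum_congr fun l => G57_eq χ b ω l x
  rw [he, iteratedFDeriv_tsum_apply (N := (r : ℕ∞)) (v := fun k l => 3 ^ d * ((NN l : ℝ) ^ (-b) * (B k * (NN l : ℝ) ^ k)))
    (fun l => G57_smooth hχ h0 b ω l) (fun k hk => sum82 hb d (by exact_mod_cast hk) (B k))
    (fun k l x hk => G57_bound hχ h0 b ω l (by exact_mod_cast hk) (hB0 k) (hB k (by exact_mod_cast hk)) x)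
    (by exact_mod_cast hk) x]
  refine (tsum_of_norm_bounded (sum82 hb d hk (B k)).hasSum
    fun l => G57_bound hχ h0 b ω l hk (hB0 k) (hB k hk) x).trans ?_
  exact Finset.single_le_sum (f := fun k => ∑' l : ℕ, (3 : ℝ) ^ d * ((NN l : ℝ) ^ (-b) * (B k * (NN l : ℝ) ^ k)))
    (fun k _ => tsum_nonneg fun l => hv0 k l) (Finset.mem_range.2 (by omega))

end Pool.Agent.Helper46.QP
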