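import Pool.Agent.Helper46.QP.Erg
import Pool.Agent.Helper46.QP.Lya
import Pool.Agent.Helper46.QP.Link
import Pool.Agent.Helper46.QP.Smooth
import Pool.Agent.Helper46.QP.Out
import Pool.Agent.Helper82.QP.Tor

/-! Project QP: assembly. -/

set_option autoImplicit false
open MeasureTheory Real Set Filter Topology

namespace Pool.Agent.Helper46.QP

open Pool.Agent.Helper18.UC (nn nn_nonneg nn_mul)
open Pool.Agent.Helper18.FD (NN rr)
open Pool.Agent.Helper95.PV (rp tc cel mv nn_ge_two nn_mv det_mv)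

variable {d : ℕ} {D : Dat d}

/-! ### eigenfunctions -/

theorem eig_mod {X : Type*} [MeasurableSpace X] {μ : Measure X} [IsProbabilityMeasure μ] {T : X → X}
    (hT : MeasurePreserving T μ μ) {h : X → ℂ} (hm : Measurable h) {ξ : ℂ} (hh : ∀ᵐ x ∂μ, h (T x) = ξ * h x) :
    (∀ᵐ x ∂μ, h x = 0) ∨ ‖ξ‖ = 1 := by
  by_cases hξ : ‖ξ‖ = 1
  · exact Or.inr hξ
  left
  set φ : X → ℝ := fun x => ‖h x‖ / (1 + ‖h x‖) with hφ
  have hφm : Measurable φ := hm.norm.div (measurable_const.add hm.norm)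
  have hb : ∀ x, ‖φ x‖ ≤ 1 := by
    intro x
    have h1 : 0 ≤ ‖h x‖ := norm_nonneg _
    rw [Real.norm_eq_abs, abs_of_nonneg (by positivity)]
    rw [div_le_one (by positivity)]
    linarith
  have hi : Integrable φ μ := Integrable.of_bound hφm.aestronglyMeasurable 1 (Eventually.of_forall hb)
  have hiT : Integrable (fun x => φ (T x)) μ := hT.integrable_comp_of_integrable hi
  have he : ∫ x, φ (T x) ∂μ = ∫ x, φ x ∂μ := by
    have := integral_map (μ := μ) hT.measurable.aemeasurable (f := φ) (hT.map_eq.symm ▸ hφm.aestronglyMeasurable)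
    rw [hT.map_eq] at this
    exact this.symm
  set c := ‖ξ‖ with hc
  have hc0 : 0 ≤ c := norm_nonneg _
  have key : ∀ᵐ x ∂μ, φ (T x) = c * ‖h x‖ / (1 + c * ‖h x‖) := by
    filter_upwards [hh] with x hx
    simp only [hφ]
    rw [hx, norm_mul]
  have fin : ∀ x, (c * ‖h x‖ / (1 + c * ‖h x‖) = φ x) → h x = 0 := by
    intro x hx
    have h1 : 0 ≤ ‖h x‖ := norm_nonneg _
    simp only [hφ] at hx
    rw [div_eq_div_iff (by positivity) (by positivity)] at hx
    have h2 : (c - 1) * ‖h x‖ = 0 := by nlinarith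
    rcases mul_eq_zero.1 h2 with h3 | h3
    · exact absurd (by linarith) hξ
    · exact norm_eq_zero.1 h3
  rcases lt_or_gt_of_ne hξ with hlt | hgt
  · have hle : ∀ᵐ x ∂μ, 0 ≤ φ x - φ (T x) := by
      filter_upwards [key] with x hx
      rw [hx]
      have h1 : 0 ≤ ‖h x‖ := norm_nonneg _
      simp only [hφ]
      rw [sub_nonneg, div_le_div_iff₀ (by positivity) (by positivity)]
      nlinarith [mul_nonneg h1 h1, mul_nonneg (sub_nonneg.2 hlt.le) h1]
    have h0 : ∫ x, (φ x - φ (T x)) ∂μ = 0 := by rw [integral_sub hi hiT, he, sub_self]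
    have h1 := (integral_eq_zero_iff_of_nonneg_ae hle (hi.sub hiT)).1 h0
    filter_upwards [h1, key] with x hx hk
    have h2 : φ x - φ (T x) = 0 := hx
    exact fin x (by rw [← hk]; linarith)
  · have hle : ∀ᵐ x ∂μ, 0 ≤ φ (T x) - φ x := by
      filter_upwards [key] with x hx
      rw [hx]
      have h1 : 0 ≤ ‖h x‖ := norm_nonneg _
      simp only [hφ]
      rw [sub_nonneg, div_le_div_iff₀ (by positivity) (by positivity)]
      nlinarith [mul_nonneg h1 h1, mul_nonneg (sub_nonneg.2 hgt.le) h1]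
    have h0 : ∫ x, (φ (T x) - φ x) ∂μ = 0 := by rw [integral_sub hiT hi, he, sub_self]
    have h1 := (integral_eq_zero_iff_of_nonneg_ae hle (hiT.sub hi)).1 h0
    filter_upwards [h1, key] with x hx hk
    have h2 : φ (T x) - φ x = 0 := hx
    exact fin x (by rw [← hk]; linarith)

/-- all eigenfunctions are characters of the base -/
theorem eig (hD : D.Ok) (hind : ∀ k : Fin d → ℤ, k ≠ 0 → ∑ m, k m • D.α m ≠ 0) {ω : Om d}
    (hfib : ∀ (ξ : ℂ) (h : Td d × TT → ℂ), ‖ξ‖ = 1 → Measurable h → (∃ K : ℝ, ∀ p, ‖h p‖ ≤ K) →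
      (∀ᵐ p, h (D.F ω p) = ξ * h p) → ∃ u : Td d → ℂ, Measurable u ∧ ∀ᵐ p : Td d × TT, h p = u p.1)
    (ξ : ℂ) (h : Td d × TT → ℂ) (hm : Measurable h) (hh : ∀ᵐ p, h (D.F ω p) = ξ * h p) :
    (∀ᵐ p, h p = 0) ∨ ∃ k : Fin d → ℤ, ∃ c : ℂ, fourier 1 (∑ m, k m • D.α m) = ξ ∧
      ∀ᵐ p : Td d × TT, h p = c * fourier 1 (∑ m, k m • p.1 m) := by
  rcases eig_mod (F_mp hD ω) hm hh with h0 | hξ
  · exact Or.inl h0
  set g : Td d × TT → ℂ := fun p => h p / ((1 + ‖h p‖ : ℝ) : ℂ) with hg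
  have hgm : Measurable g := hm.div (Complex.measurable_ofReal.comp (measurable_const.add hm.norm))
  have hpos : ∀ p, (0 : ℝ) < 1 + ‖h p‖ := fun p => by have := norm_nonneg (h p); linarith
  have hgn : ∀ p, ‖g p‖ = ‖h p‖ / (1 + ‖h p‖) := by
    intro p
    simp only [hg]
    rw [norm_div, Complex.norm_real, Real.norm_eq_abs, abs_of_pos (hpos p)]
  have hg1 : ∀ p, ‖g p‖ < 1 := by
    intro p
    rw [hgn, div_lt_one (hpos p)]
    linarith
  have hgi : ∀ p, h p = g p / ((1 - ‖g p‖ : ℝ) : ℂ) := by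
    intro p
    have h1 : (1 - ‖g p‖ : ℝ) = 1 / (1 + ‖h p‖) := by
      rw [hgn]
      have := (hpos p).ne'
      field_simp
      ring
    rw [h1]
    simp only [hg]
    have h2 : ((1 + ‖h p‖ : ℝ) : ℂ) ≠ 0 := by exact_mod_cast (hpos p).ne'
    push_cast at h2 ⊢
    field_simp
  have hgF : ∀ᵐ p, g (D.F ω p) = ξ * g p := by
    filter_upwards [hh] with p hp
    simp only [hg]
    rw [hp, norm_mul, hξ, one_mul, mul_div_assoc]
  obtain ⟨u, hu, hgu⟩ := hfib ξ g hξ hgm ⟨1, fun p => (hg1 p).le⟩ hgF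
  have hgu' : ∀ᵐ p : Td d × TT, g (D.F ω p) = u (D.F ω p).1 := (F_mp hD ω).quasiMeasurePreserving.ae hgu
  have h1 : ∀ᵐ p : Td d × TT, u (p.1 + D.α) = ξ * u p.1 := by
    filter_upwards [hgF, hgu, hgu'] with p a1 a2 a3
    have a4 : (D.F ω p).1 = p.1 + D.α := rfl
    rw [a4] at a3
    rw [← a3, a1, a2]
  have h2 : ∀ᵐ θ : Td d, u (θ + D.α) = ξ * u θ := by
    have h3 := Measure.ae_ae_of_ae_prod h1
    filter_upwards [h3] with θ hθ
    obtain ⟨z, hz⟩ := hθ.exists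
    exact hz
  rcases Pool.Agent.Helper82.QP.rot_eig hind ξ u hu h2 with h3 | ⟨k, c, hk, hc⟩
  · left
    have h4 : ∀ᵐ p : Td d × TT, u p.1 = 0 := Measure.quasiMeasurePreserving_fst.ae h3
    filter_upwards [hgu, h4] with p a1 a2
    rw [hgi, a1, a2, zero_div]
  · right
    refine ⟨k, c / ((1 - ‖c‖ : ℝ) : ℂ), hk, ?_⟩
    have h4 : ∀ᵐ p : Td d × TT, u p.1 = c * fourier 1 (∑ m, k m • p.1 m) := Measure.quasiMeasurePreserving_fst.ae hc
    filter_upwards [hgu, h4] with p a1 a2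
    have h5 : ‖(fourier 1 (∑ m, k m • p.1 m) : ℂ)‖ = 1 := by
      rw [fourier_apply]
      exact Circle.norm_coe _
    have h6 : ‖g p‖ = ‖c‖ := by rw [a1, a2, norm_mul, h5, mul_one]
    rw [hgi, h6, a1, a2]
    ring

/-! ### the exponent -/

theorem nn_inv_mv (v : ℝ) (M : Matrix (Fin 2) (Fin 2) ℝ) :
    nn M ≤ nn (M * mv v) * (|v| + 2) := by
  have h1 : M = (M * mv v) * !![0, 1; -1, v] := by
    rw [Matrix.mul_assoc]
    have h2 : mv v * !![0, 1; -1, v] = 1 := by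
      unfold Pool.Agent.Helper95.PV.mv
      ext i j
      fin_cases i <;> fin_cases j <;> simp [Matrix.mul_apply, Fin.sum_univ_two]
    rw [h2, Matrix.mul_one]
  have h3 : nn !![0, 1; -1, v] = |v| + 2 := by
    unfold Pool.Agent.Helper18.UC.nn
    simp
    ring
  calc nn M = nn ((M * mv v) * !![0, 1; -1, v]) := by rw [← h1]
    _ ≤ nn (M * mv v) * nn !![0, 1; -1, v] := nn_mul _ _
    _ = nn (M * mv v) * (|v| + 2) := by rw [h3]

theorem lim_shift {A : ℕ → ℂ} {z : TT} {L L' : ℝ}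
    (h : Tendsto (fun n : ℕ => Real.log (nn (Mx A z n)) / n) atTop (𝓝 L))
    (h' : Tendsto (fun n : ℕ => Real.log (nn (Mx (fun j => A (j + 1)) (stp (A 0) z) n)) / n) atTop (𝓝 L')) : L = L' := by
  have hpos : ∀ (B : ℕ → ℂ) (w : TT) (n : ℕ), 0 < nn (Mx B w n) := by
    intro B w n
    have := nn_ge_two (det_Mx B w n)
    linarith
  set c : ℝ := Real.log (|va (A 0) z.1| + 2) with hc
  have hv : (0 : ℝ) < |va (A 0) z.1| + 2 := by positivity
  have hb : ∀ n : ℕ, |Real.log (nn (Mx A z (n + 1))) - Real.log (nn (Mx (fun j => A (j + 1)) (stp (A 0) z) n))| ≤ c := by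
    intro n
    have e := Mx_one_add A z n
    have h1 : nn (Mx A z (n + 1)) ≤ nn (Mx (fun j => A (j + 1)) (stp (A 0) z) n) * (|va (A 0) z.1| + 2) := by
      rw [e, ← nn_mv]
      exact nn_mul _ _
    have h2 : nn (Mx (fun j => A (j + 1)) (stp (A 0) z) n) ≤ nn (Mx A z (n + 1)) * (|va (A 0) z.1| + 2) := by
      rw [e]
      exact nn_inv_mv _ _
    have p1 := hpos A z (n + 1)
    have p2 := hpos (fun j => A (j + 1)) (stp (A 0) z) n
    rw [abs_le]
    constructor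
    · have := Real.log_le_log p2 h2
      rw [Real.log_mul p1.ne' hv.ne'] at this
      linarith
    · have := Real.log_le_log p1 h1
      rw [Real.log_mul p2.ne' hv.ne'] at this
      linarith
  -- first: shift the index
  have s1 : Tendsto (fun n : ℕ => Real.log (nn (Mx A z (n + 1))) / ((n + 1 : ℕ) : ℝ)) atTop (𝓝 L) :=
    h.comp (tendsto_add_atTop_nat 1)
  have s2 : Tendsto (fun n : ℕ => Real.log (nn (Mx A z (n + 1))) / (n : ℝ)) atTop (𝓝 L) := by
    have s3 : Tendsto (fun n : ℕ => (((n + 1 : ℕ) : ℝ)) / (n : ℝ)) atTop (𝓝 1) := by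
      have s4 : Tendsto (fun n : ℕ => 1 + 1 / (n : ℝ)) atTop (𝓝 (1 + 0)) :=
        tendsto_const_nhds.add (tendsto_const_div_atTop_nhds_zero_nat 1)
      rw [add_zero] at s4
      refine s4.congr' ?_
      filter_upwards [eventually_gt_atTop 0] with n hn
      have : (n : ℝ) ≠ 0 := by exact_mod_cast hn.ne'
      push_cast
      field_simp
    have s5 := s1.mul s3
    rw [mul_one] at s5
    refine s5.congr' ?_
    filter_upwards [eventually_gt_atTop 0] with n hn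
    have : (n : ℝ) ≠ 0 := by exact_mod_cast hn.ne'
    have h2 : (((n + 1 : ℕ) : ℝ)) ≠ 0 := by positivity
    field_simp
  have s6 : Tendsto (fun n : ℕ => Real.log (nn (Mx A z (n + 1))) / (n : ℝ) -
      Real.log (nn (Mx (fun j => A (j + 1)) (stp (A 0) z) n)) / (n : ℝ)) atTop (𝓝 (L - L')) := s2.sub h'
  have s7 : Tendsto (fun n : ℕ => Real.log (nn (Mx A z (n + 1))) / (n : ℝ) -
      Real.log (nn (Mx (fun j => A (j + 1)) (stp (A 0) z) n)) / (n : ℝ)) atTop (𝓝 0) := by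
    have s8 : Tendsto (fun n : ℕ => c / (n : ℝ)) atTop (𝓝 0) := tendsto_const_div_atTop_nhds_zero_nat c
    refine squeeze_zero_norm (fun n => ?_) s8
    rw [← sub_div, norm_div, Real.norm_eq_abs, Real.norm_eq_abs, abs_of_nonneg (Nat.cast_nonneg n : (0 : ℝ) ≤ n)]
    exact div_le_div_of_nonneg_right (hb n) (Nat.cast_nonneg n)
  have := tendsto_nhds_unique s6 s7
  linarith

theorem exponent (hD : D.Ok) {ω : Om d} (hE : Ergodic (D.F ω) volume)
    (hG : ∃ G : Td d × TT → ℝ, Measurable G ∧ (∀ᵐ p, 0 < G p) ∧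
      ∀ᵐ p : Td d × TT, Tendsto (fun n : ℕ => Real.log (nn (Mx (D.As ω p.1) p.2 n)) / n) atTop (𝓝 (G p))) :
    ∃ L : ℝ, 0 < L ∧ ∀ᵐ p : Td d × TT,
      Tendsto (fun n : ℕ => Real.log (nn (Mx (D.As ω p.1) p.2 n)) / n) atTop (𝓝 L) := by
  obtain ⟨G, hGm, hG0, hGl⟩ := hG
  have hinv : ∀ᵐ p : Td d × TT, G (D.F ω p) = G p := by
    have h1 := hE.toMeasurePreserving.quasiMeasurePreserving.ae hGl
    filter_upwards [hGl, h1] with p a1 a2
    refine (lim_shift a1 ?_).symm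
    have e1 : (fun j => D.As ω p.1 (j + 1)) = D.As ω (p.1 + D.α) := by
      rw [As_add, one_nsmul]
    have e2 : stp (D.As ω p.1 0) p.2 = (D.F ω p).2 := by
      unfold Dat.F Dat.As
      simp
    rw [e1, e2]
    exact a2
  obtain ⟨L, hL⟩ := hE.ae_eq_const_of_ae_eq_comp₀ hGm.nullMeasurable hinv
  have hL' : ∀ᵐ p : Td d × TT, G p = L := hL
  refine ⟨L, ?_, ?_⟩
  · obtain ⟨p, h1, h2⟩ := (hG0.and hL').exists
    rw [← h2]
    exact h1
  · filter_upwards [hGl, hL'] with p a1 a2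
    rw [← a2]
    exact a1

end Pool.Agent.Helper46.QP
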