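import Pool.Agent.Helper46.QP.Meas
import Pool.Agent.Helper46.QP.Res

/-! Block QP-GAP: the averaged operators contract the functions of mean zero.

`∫ w, f (stp (A + s w) z) ∂dl = (𝒜 f) (stp A z)`, `(𝒜 f) (X, x) = ∫ ζ, f (X + s ζ.im, x) ∂dl` (rotation `w ↦ w ee(x)`, `dl_rot`). By `contr1` (block GAP1, done) for every `x`: `∫ (𝒜 f)^2 ≤ ∫ f^2 - (s^2/540) ∫ (f - f̄)^2`, `f̄(x) = ∫ f(X, x) dX`.
Two steps: `g = (𝒜 f) ∘ stp A'`. If `∫ (f - f̄)^2 ≥ (1/16) ∫ f^2` the first averaging gains. Otherwise `g (x, y) = f̄(x) + ((𝒜 (f - f̄)) ∘ stp A') (x, y)` has in the first variable a variance with `(∫ (g - ḡ)^2)^(1/2) ≥ (∫ f̄^2)^(1/2) - (∫ (f - f̄)^2)^(1/2) ≥ (1/4) (∫ f^2)^(1/2)`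
(`∫ f̄ = 0`), so the second averaging gains: `∫ (two steps)^2 ≤ (1 - s^2/8640) ∫ f^2`. The mean stays zero (`stp_mp`). Peel the first two steps, induction on `n / 2`. -/

set_option autoImplicit false
open MeasureTheory Real Set
open scoped ENNReal

namespace Pool.Agent.Helper46.QP

/-- average over the translations of the first coordinate -/
private noncomputable def Av54 (s : ℝ) (f : TT → ℝ) (z : TT) : ℝ :=
  ∫ ζ, f (z.1 + ((s * ζ.im : ℝ) : UnitAddCircle), z.2) ∂dl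

/-- one averaged step -/
private noncomputable def P54 (s : ℝ) (A : ℂ) (f : TT → ℝ) (z : TT) : ℝ :=
  ∫ w, f (stp (A + s * w) z) ∂dl

/-- mean over the first coordinate -/
private noncomputable def br54 (f : TT → ℝ) (x : UnitAddCircle) : ℝ := ∫ X : UnitAddCircle, f (X, x)

private lemma mp54 {α β : Type*} [MeasurableSpace α] [MeasurableSpace β] {μ : Measure α} {ν : Measure β} {T : α → β}
    (hT : MeasurePreserving T μ ν) {G : β → ℝ} (hG : Measurable G) : ∫ z, G (T z) ∂μ = ∫ z, G z ∂ν := by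
  rw [← hT.map_eq]
  exact (integral_map hT.measurable.aemeasurable hG.aestronglyMeasurable).symm

private lemma fub54 {F : TT → ℝ} (hF : BM F) :
    ∫ z, F z = ∫ x : UnitAddCircle, ∫ X : UnitAddCircle, F (X, x) := by
  rw [Measure.volume_eq_prod]
  exact integral_prod_symm F (hF.int _)

private lemma br_BM54 {f : TT → ℝ} (hf : BM f) : BM (br54 f) := by
  have h1 : BM fun p : UnitAddCircle × UnitAddCircle => f (p.2, p.1) := hf.comp measurable_swap
  exact h1.integral volume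

private lemma jen54 {g : UnitAddCircle → ℝ} (hg : BM g) : (∫ X, g X) ^ 2 ≤ ∫ X, g X ^ 2 := by
  have h1 := int_Dd hg
  have h2 : 0 ≤ ∫ h in Ioc (0 : ℝ) 1, Dd g h := integral_nonneg fun _ => Dd_nonneg _
  linarith

private lemma sl_BM54 {f : TT → ℝ} (hf : BM f) (x : UnitAddCircle) : BM fun X : UnitAddCircle => f (X, x) :=
  hf.comp (measurable_id.prodMk measurable_const)

private lemma M_le54 {f : TT → ℝ} (hf : BM f) : ∫ x, br54 f x ^ 2 ≤ ∫ z, f z ^ 2 := by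
  rw [fub54 hf.sq]
  refine integral_mono ((br_BM54 hf).sq.int _) ((br_BM54 hf.sq).int _) fun x => ?_
  exact jen54 (sl_BM54 hf x)

private lemma Av_arg54 {f : TT → ℝ} (hf : BM f) (s : ℝ) :
    BM fun p : TT × ℂ => f (p.1.1 + ((s * p.2.im : ℝ) : UnitAddCircle), p.1.2) :=
  hf.comp (((measurable_fst.comp measurable_fst).add
    (meas_coe.comp ((Complex.measurable_im.comp measurable_snd).const_mul s))).prodMk
    (measurable_snd.comp measurable_fst))

private lemma Av_BM54 {f : TT → ℝ} (hf : BM f) (s : ℝ) : BM (Av54 s f) :=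
  (Av_arg54 hf s).integral dl

private lemma P_eq54 {f : TT → ℝ} (hf : BM f) (s : ℝ) (A : ℂ) (z : TT) : P54 s A f z = Av54 s f (stp A z) := by
  have h := dl_rot (norm_ee z.1)
  have hG : Measurable fun ζ : ℂ => f ((stp A z).1 + ((s * ζ.im : ℝ) : UnitAddCircle), (stp A z).2) :=
    hf.1.comp ((measurable_const.add (meas_coe.comp (Complex.measurable_im.const_mul s))).prodMk measurable_const)
  have h1 := mp54 h hG
  unfold P54 Av54
  rw [← h1]
  refine integral_congr_ae (Filter.Eventually.of_forall fun w => ?_)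
  show f (stp (A + s * w) z) = f ((stp A z).1 + ((s * (w * ee z.1).im : ℝ) : UnitAddCircle), (stp A z).2)
  congr 1
  refine Prod.ext ?_ rfl
  show z.1 + z.1 - z.2 + ((((A + s * w) * ee z.1).im : ℝ) : UnitAddCircle) =
    z.1 + z.1 - z.2 + (((A * ee z.1).im : ℝ) : UnitAddCircle) + ((s * (w * ee z.1).im : ℝ) : UnitAddCircle)
  rw [add_assoc, ← AddCircle.coe_add]
  congr 2
  rw [add_mul, Complex.add_im, mul_assoc, Complex.im_ofReal_mul]

private lemma P_sq54 {f : TT → ℝ} (hf : BM f) (s : ℝ) (A : ℂ) :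
    ∫ z, P54 s A f z ^ 2 = ∫ z, Av54 s f z ^ 2 := by
  simp only [P_eq54 hf]
  exact mp54 (stp_mp A) (G := fun z => Av54 s f z ^ 2) (Av_BM54 hf s).sq.1

private lemma stp_m54 (A : ℂ) : Measurable (stp A) := (stp_mp A).measurable

private lemma P_BM54 {f : TT → ℝ} (hf : BM f) (s : ℝ) (A : ℂ) : BM (P54 s A f) := by
  have h : P54 s A f = fun z => Av54 s f (stp A z) := funext fun z => P_eq54 hf s A z
  rw [h]
  exact (Av_BM54 hf s).comp (stp_m54 A)

private lemma Av_int54 {f : TT → ℝ} (hf : BM f) (s : ℝ) : ∫ z, Av54 s f z = ∫ z, f z := by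
  have hB := Av_arg54 hf s
  have h1 : ∫ z, Av54 s f z = ∫ ζ : ℂ, (∫ z : TT, f (z.1 + ((s * ζ.im : ℝ) : UnitAddCircle), z.2)) ∂dl := by
    unfold Av54
    exact integral_integral_swap (f := fun (z : TT) (ζ : ℂ) => f (z.1 + ((s * ζ.im : ℝ) : UnitAddCircle), z.2))
      (hB.int _)
  rw [h1]
  have h2 : ∀ ζ : ℂ, ∫ z : TT, f (z.1 + ((s * ζ.im : ℝ) : UnitAddCircle), z.2) = ∫ z, f z := by
    intro ζ
    have hb : BM fun z : TT => f (z.1 + ((s * ζ.im : ℝ) : UnitAddCircle), z.2) :=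
      hf.comp ((measurable_fst.add_const _).prodMk measurable_snd)
    rw [fub54 hb, fub54 hf]
    refine integral_congr_ae (Filter.Eventually.of_forall fun x => ?_)
    exact integral_add_right_eq_self (fun X : UnitAddCircle => f (X, x)) _
  simp only [h2]
  rw [integral_const, probReal_univ, one_smul]

private lemma P_int54 {f : TT → ℝ} (hf : BM f) (s : ℝ) (A : ℂ) : ∫ z, P54 s A f z = ∫ z, f z := by
  simp only [P_eq54 hf]
  rw [mp54 (stp_mp A) (G := Av54 s f) (Av_BM54 hf s).1, Av_int54 hf]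

private lemma one54 {f : TT → ℝ} (hf : BM f) {s : ℝ} (hs : 0 < s) (hs1 : s ≤ 1) :
    ∫ z, Av54 s f z ^ 2 ≤ (∫ z, f z ^ 2) - s ^ 2 / 540 * ((∫ z, f z ^ 2) - ∫ x, br54 f x ^ 2) := by
  have i1 : Integrable fun x : UnitAddCircle => ∫ X : UnitAddCircle, f (X, x) ^ 2 := (br_BM54 hf.sq).int _
  have i2 : Integrable fun x : UnitAddCircle => br54 f x ^ 2 := (br_BM54 hf).sq.int _
  have e : (∫ z, f z ^ 2) - s ^ 2 / 540 * ((∫ z, f z ^ 2) - ∫ x, br54 f x ^ 2) =
      ∫ x : UnitAddCircle, ((∫ X : UnitAddCircle, f (X, x) ^ 2) -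
        s ^ 2 / 540 * ((∫ X : UnitAddCircle, f (X, x) ^ 2) - br54 f x ^ 2)) := by
    have i3 : Integrable fun x : UnitAddCircle =>
        s ^ 2 / 540 * ((∫ X : UnitAddCircle, f (X, x) ^ 2) - br54 f x ^ 2) := (i1.sub i2).const_mul _
    rw [integral_sub i1 i3, integral_const_mul, integral_sub i1 i2, ← fub54 hf.sq]
  rw [e, fub54 (Av_BM54 hf s).sq]
  refine integral_mono ((br_BM54 (Av_BM54 hf s).sq).int _) ?_ fun x => ?_
  · exact i1.sub ((i1.sub i2).const_mul _)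
  · exact contr1 (sl_BM54 hf x) hs hs1

private lemma snd_int54 {g : UnitAddCircle → ℝ} (hg : BM g) : ∫ z : TT, g z.1 = ∫ x, g x := by
  have hb : BM fun z : TT => g z.1 := hg.comp measurable_fst
  rw [fub54 hb]
  show ∫ _ : UnitAddCircle, (∫ X, g X) = _
  rw [integral_const, probReal_univ, one_smul]

/-- the part of mean zero in the first variable -/
private noncomputable def k54 (f : TT → ℝ) (z : TT) : ℝ := f z - br54 f z.2

private lemma k_BM54 {f : TT → ℝ} (hf : BM f) : BM (k54 f) :=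
  hf.sub ((br_BM54 hf).comp measurable_snd)

private lemma k_sq54 {f : TT → ℝ} (hf : BM f) :
    ∫ z, k54 f z ^ 2 = (∫ z, f z ^ 2) - ∫ x, br54 f x ^ 2 := by
  have i1 : Integrable fun x : UnitAddCircle => ∫ X : UnitAddCircle, f (X, x) ^ 2 := (br_BM54 hf.sq).int _
  have i2 : Integrable fun x : UnitAddCircle => br54 f x ^ 2 := (br_BM54 hf).sq.int _
  rw [fub54 (k_BM54 hf).sq, fub54 hf.sq, ← integral_sub i1 i2]
  refine integral_congr_ae (Filter.Eventually.of_forall fun x => ?_)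
  show ∫ X : UnitAddCircle, (f (X, x) - br54 f x) ^ 2 = (∫ X : UnitAddCircle, f (X, x) ^ 2) - br54 f x ^ 2
  have hb := sl_BM54 hf x
  have e : ∀ X : UnitAddCircle, (f (X, x) - br54 f x) ^ 2 =
      f (X, x) ^ 2 - 2 * br54 f x * f (X, x) + br54 f x ^ 2 := fun X => by ring
  simp only [e]
  have j1 : Integrable fun X : UnitAddCircle => f (X, x) ^ 2 := hb.sq.int _
  have j2 : Integrable fun X : UnitAddCircle => 2 * br54 f x * f (X, x) := (hb.const_mul _).int _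
  have j12 : Integrable fun X : UnitAddCircle => f (X, x) ^ 2 - 2 * br54 f x * f (X, x) := j1.sub j2
  rw [integral_add j12 (integrable_const _), integral_sub j1 j2, integral_const_mul, integral_const,
    probReal_univ, one_smul]
  have e2 : ∫ X : UnitAddCircle, f (X, x) = br54 f x := rfl
  rw [e2]
  ring

private lemma Av_k54 {f : TT → ℝ} (hf : BM f) (s : ℝ) (z : TT) : Av54 s f z = br54 f z.2 + Av54 s (k54 f) z := by
  have hb : BM fun ζ : ℂ => f (z.1 + ((s * ζ.im : ℝ) : UnitAddCircle), z.2) :=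
    hf.comp ((measurable_const.add (meas_coe.comp (Complex.measurable_im.const_mul s))).prodMk measurable_const)
  have h : Av54 s (k54 f) z = ∫ ζ, (f (z.1 + ((s * ζ.im : ℝ) : UnitAddCircle), z.2) - br54 f z.2) ∂dl := rfl
  rw [h, integral_sub (hb.int _) (integrable_const _), integral_const, probReal_univ, one_smul]
  unfold Av54
  ring

private lemma two54 {f : TT → ℝ} (hf : BM f) (h0 : ∫ z, f z = 0) {s : ℝ} (hs : 0 < s) (hs1 : s ≤ 1) (A B : ℂ) :
    ∫ z, P54 s B (P54 s A f) z ^ 2 ≤ (1 - s ^ 2 / 8640) * ∫ z, f z ^ 2 := by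
  set g : TT → ℝ := P54 s A f with hg
  have hgB : BM g := P_BM54 hf s A
  have hk := k_BM54 hf
  set r : TT → ℝ := fun z => Av54 s (k54 f) (stp A z) with hr
  have hrB : BM r := (Av_BM54 hk s).comp (stp_m54 A)
  have hgr : ∀ z : TT, g z = br54 f z.1 + r z := by
    intro z
    rw [hg, P_eq54 hf, Av_k54 hf]
    rfl
  -- the norm of `r`
  have hc0 : 0 < s ^ 2 / 540 := by positivity
  have hrk : ∫ z, r z ^ 2 ≤ (∫ z, f z ^ 2) - ∫ x, br54 f x ^ 2 := by
    have h1 : ∫ z, r z ^ 2 = ∫ z, Av54 s (k54 f) z ^ 2 :=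
      mp54 (stp_mp A) (G := fun z => Av54 s (k54 f) z ^ 2) (Av_BM54 hk s).sq.1
    have h2 := one54 hk hs hs1
    have h3 := M_le54 hk
    rw [h1, ← k_sq54 hf]
    have h4 : 0 ≤ s ^ 2 / 540 * ((∫ z, k54 f z ^ 2) - ∫ x, br54 (k54 f) x ^ 2) :=
      mul_nonneg hc0.le (by linarith)
    linarith
  -- the mean of `g`
  have hbf : ∫ x, br54 f x = 0 := by
    rw [← h0, fub54 hf]
    rfl
  have hMg : ∫ x, br54 g x ^ 2 ≤ ∫ z, r z ^ 2 := by
    have h1 : ∀ y : UnitAddCircle, br54 g y = br54 r y := by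
      intro y
      unfold br54
      have h2 : ∀ X : UnitAddCircle, g (X, y) = br54 f X + r (X, y) := fun X => hgr (X, y)
      simp only [h2]
      rw [integral_add ((br_BM54 hf).int _) ((sl_BM54 hrB y).int _), hbf, zero_add]
    simp only [h1]
    exact M_le54 hrB
  -- lower bound of the norm of `g`
  have hNg : (∫ x, br54 f x ^ 2) / 2 - ∫ z, r z ^ 2 ≤ ∫ z, g z ^ 2 := by
    have hb : BM fun z : TT => br54 f z.1 ^ 2 := ((br_BM54 hf).comp measurable_fst).sq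
    have h1 : ∫ z : TT, br54 f z.1 ^ 2 = ∫ x, br54 f x ^ 2 := snd_int54 (br_BM54 hf).sq
    rw [← h1, ← integral_div, ← integral_sub ((hb.int _).div_const 2) (hrB.sq.int _)]
    refine integral_mono (((hb.int _).div_const 2).sub (hrB.sq.int _)) (hgB.sq.int _) fun z => ?_
    show br54 f z.1 ^ 2 / 2 - r z ^ 2 ≤ g z ^ 2
    rw [hgr z]
    nlinarith [sq_nonneg (br54 f z.1 + 2 * r z)]
  have hB : ∫ z, P54 s B g z ^ 2 ≤ (∫ z, g z ^ 2) - s ^ 2 / 540 * ((∫ z, g z ^ 2) - ∫ x, br54 g x ^ 2) := by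
    rw [P_sq54 hgB]
    exact one54 hgB hs hs1
  have hA : ∫ z, g z ^ 2 ≤ (∫ z, f z ^ 2) - s ^ 2 / 540 * ((∫ z, f z ^ 2) - ∫ x, br54 f x ^ 2) := by
    rw [hg, P_sq54 hf]
    exact one54 hf hs hs1
  have hf0 : 0 ≤ ∫ z, f z ^ 2 := integral_nonneg fun _ => sq_nonneg _
  have hMf := M_le54 hf
  have hMg2 := M_le54 hgB
  set N : ℝ := ∫ z, f z ^ 2
  set M : ℝ := ∫ x, br54 f x ^ 2
  set Ng : ℝ := ∫ z, g z ^ 2
  set Mg : ℝ := ∫ x, br54 g x ^ 2
  set R : ℝ := ∫ z, r z ^ 2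
  set c : ℝ := s ^ 2 / 540 with hc
  have e8 : s ^ 2 / 8640 = c / 16 := by rw [hc]; ring
  rw [e8]
  have hcg : 0 ≤ c * (Ng - Mg) := mul_nonneg hc0.le (by linarith)
  have hcf : 0 ≤ c * (N - M) := mul_nonneg hc0.le (by linarith)
  rcases le_or_gt (N / 16) (N - M) with h1 | h1
  · have h2 : c * (N / 16) ≤ c * (N - M) := mul_le_mul_of_nonneg_left h1 hc0.le
    linarith
  · have h3 : N / 16 ≤ Ng - Mg := by linarith
    have h2 : c * (N / 16) ≤ c * (Ng - Mg) := mul_le_mul_of_nonneg_left h3 hc0.le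
    linarith

private lemma Qn_BM54 {f : TT → ℝ} (hf : BM f) (s : ℝ) (A : ℕ → ℂ) (n : ℕ) : BM (Qn s f A n) :=
  (Qn_BM hf s n).comp (f := fun z : TT => ((A, z) : (ℕ → ℂ) × TT)) (measurable_const.prodMk measurable_id)

private lemma Qn_mean54 {f : TT → ℝ} (hf : BM f) (s : ℝ) (n : ℕ) :
    ∀ A : ℕ → ℂ, ∫ z, Qn s f A n z = ∫ z, f z := by
  induction n with
  | zero => exact fun A => rfl
  | succ n ih =>
    intro A
    have h := P_int54 (Qn_BM54 hf s (fun j => A (j + 1)) n) s (A 0)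
    rw [ih] at h
    exact h

theorem gap {f : TT → ℝ} (hf : BM f) (h0 : ∫ z, f z = 0) {s : ℝ} (hs : 0 < s) (hs1 : s ≤ 1) (A : ℕ → ℂ) (n : ℕ) :
    ∫ z, Qn s f A n z ^ 2 ≤ (1 - s ^ 2 / 8640) ^ (n / 2) * ∫ z, f z ^ 2 := by
  have hs2 : s ^ 2 ≤ 1 := pow_le_one₀ hs.le hs1
  have hq : 0 ≤ 1 - s ^ 2 / 8640 := by linarith
  induction n using Nat.twoStepInduction generalizing A with
  | zero =>
    show ∫ z, f z ^ 2 ≤ (1 - s ^ 2 / 8640) ^ 0 * ∫ z, f z ^ 2
    rw [pow_zero, one_mul]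
  | one =>
    show ∫ z, P54 s (A 0) f z ^ 2 ≤ (1 - s ^ 2 / 8640) ^ 0 * ∫ z, f z ^ 2
    rw [pow_zero, one_mul, P_sq54 hf]
    refine (one54 hf hs hs1).trans ?_
    have h1 := M_le54 hf
    have h2 : 0 ≤ s ^ 2 / 540 * ((∫ z, f z ^ 2) - ∫ x, br54 f x ^ 2) := mul_nonneg (by positivity) (by linarith)
    linarith
  | more n ih _ =>
    have hb := Qn_BM54 hf s (fun j => A (j + 1 + 1)) n
    have hm : ∫ z, Qn s f (fun j => A (j + 1 + 1)) n z = 0 := (Qn_mean54 hf s n _).trans h0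
    have h1 := two54 hb hm hs hs1 (A (0 + 1)) (A 0)
    have h2 := ih (fun j => A (j + 1 + 1))
    have e : (n + 2) / 2 = n / 2 + 1 := by omega
    rw [e, pow_succ]
    calc ∫ z, Qn s f A (n + 2) z ^ 2 ≤ (1 - s ^ 2 / 8640) * ∫ z, Qn s f (fun j => A (j + 1 + 1)) n z ^ 2 := h1
      _ ≤ (1 - s ^ 2 / 8640) * ((1 - s ^ 2 / 8640) ^ (n / 2) * ∫ z, f z ^ 2) := mul_le_mul_of_nonneg_left h2 hq
      _ = (1 - s ^ 2 / 8640) ^ (n / 2) * (1 - s ^ 2 / 8640) * ∫ z, f z ^ 2 := by ring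

end Pool.Agent.Helper46.QP
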