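import Pool.Agent.Helper46.QP.Ann
import Pool.Agent.Helper46.QP.Gap

/-! Block QP-PAIRS: second moment of the correlations with functions of mean zero on the fibres.

`(∫ p, G (F^n p) Ψ p)^2 = ∫ θ, ∫ θ', ∫ z, ∫ z', ..` (Fubini, `F_iter`: `F^n (θ, z) = (θ + n α, orb (As ω θ) z n)`). For `mut l n θ θ'`, `annQ` with `f = G (θ + n α, ·)`, `f' = G (θ' + n α, ·)` gives, for the mean over `ω`,
`∫ ω, (∫ z, Qn s f (Ams ω θ) n z * Ψ (θ, z)) * (∫ z', Qn s f' (Ams ω θ') n z' * Ψ (θ', z'))`. `Qn` is linear and fixes the constants, `∫ Ψ (θ, ·) = 0`, so `f` can be replaced by `f - ∫ f`; Cauchy-Schwarz and `gap` (`∫ (f - ∫ f)^2 ≤ K^2`): each factor is at most `K K' ((1 - s^2/8640)^(n/2))^(1/2)` in absolute value.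
`mut_meas`: if not `mut`, then `θ'` is in a ball of radius `2/N` with centre `θ + k α` or `θ - k α`, `0 ≤ k < n`; the volume of a ball (sup norm) is at most `(4/N)^d`. There use `|G| ≤ K`, `|Ψ| ≤ K'`. -/

set_option autoImplicit false
open MeasureTheory Real Set
open scoped ENNReal

namespace Pool.Agent.Helper46.QP

open Pool.Agent.Helper18.FD (NN rr)

variable {d : ℕ} {D : Dat d}

private theorem mut_iff63 (D : Dat d) (l n : ℕ) : {p : Td d × Td d | D.mut l n p.1 p.2} =
    ⋂ i ∈ Finset.range n, ⋂ j ∈ Finset.range n,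
      {p : Td d × Td d | 2 / (NN l : ℝ) ≤ dist (p.1 + i • D.α) (p.2 + j • D.α)} := by
  ext p
  simp only [Dat.mut, mem_ofPred_eq, mem_iInter, Finset.mem_range]

private theorem ball_le63 (x : Td d) {r : ℝ} (hr : 0 < r) :
    (volume : Measure (Td d)) (Metric.ball x r) ≤ ENNReal.ofReal (2 * r) ^ d := by
  rw [volume_pi_ball x hr]
  calc ∏ i, (volume : Measure UnitAddCircle) (Metric.ball (x i) r) ≤ ∏ _i : Fin d, ENNReal.ofReal (2 * r) := by
        refine Finset.prod_le_prod' fun i _ => ?_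
        refine (measure_mono Metric.ball_subset_closedBall).trans ?_
        rw [AddCircle.volume_closedBall]
        exact ENNReal.ofReal_le_ofReal (min_le_right _ _)
    _ = ENNReal.ofReal (2 * r) ^ d := by
        rw [Finset.prod_const, Finset.card_univ, Fintype.card_fin]

theorem mut_meas (D : Dat d) (l n : ℕ) :
    MeasurableSet {p : Td d × Td d | D.mut l n p.1 p.2} ∧
    (volume : Measure (Td d × Td d)).real {p : Td d × Td d | ¬ D.mut l n p.1 p.2} ≤ 2 * n * (4 / (NN l : ℝ)) ^ d := by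
  have hN : (0 : ℝ) < NN l := by exact_mod_cast Pool.Agent.Helper18.FD.NN_pos l
  set r : ℝ := 2 / (NN l : ℝ) with hr
  have hr0 : 0 < r := by positivity
  have hcont : ∀ a b : Td d, Continuous fun p : Td d × Td d => dist (p.1 + a) (p.2 + b) := fun a b =>
    (continuous_fst.add continuous_const).dist (continuous_snd.add continuous_const)
  refine ⟨?_, ?_⟩
  · rw [mut_iff63]
    refine MeasurableSet.biInter (Finset.countable_toSet _) fun i _ =>
      MeasurableSet.biInter (Finset.countable_toSet _) fun j _ => ?_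
    exact (isClosed_le continuous_const (hcont _ _)).measurableSet
  · set S : ℤ → Set (Td d × Td d) := fun k => {p | dist (p.1 + k • D.α) p.2 < r} with hS
    have hSm : ∀ k, MeasurableSet (S k) := by
      intro k
      have h : Continuous fun p : Td d × Td d => dist (p.1 + k • D.α) p.2 :=
        (continuous_fst.add continuous_const).dist continuous_snd
      exact (isOpen_lt h continuous_const).measurableSet
    have hSv : ∀ k, (volume : Measure (Td d × Td d)) (S k) ≤ ENNReal.ofReal (2 * r) ^ d := by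
      intro k
      rw [Measure.volume_eq_prod, Measure.prod_apply (hSm k)]
      have : ∀ θ : Td d, (volume : Measure (Td d)) (Prod.mk θ ⁻¹' S k) ≤ ENNReal.ofReal (2 * r) ^ d := by
        intro θ
        have e : Prod.mk θ ⁻¹' S k = Metric.ball (θ + k • D.α) r := by
          ext y
          rw [Metric.mem_ball, dist_comm]
          rfl
        rw [e]
        exact ball_le63 _ hr0
      refine (lintegral_mono this).trans ?_
      rw [lintegral_const, measure_univ, mul_one]
    have hsub : {p : Td d × Td d | ¬ D.mut l n p.1 p.2} ⊆ ⋃ k ∈ Finset.Ioo (-(n : ℤ)) n, S k := by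
      intro p hp
      rw [mem_ofPred_eq, Dat.mut] at hp
      push Not at hp
      obtain ⟨i, hi, j, hj, h⟩ := hp
      rw [mem_iUnion₂]
      refine ⟨(i : ℤ) - j, Finset.mem_Ioo.2 ⟨by omega, by omega⟩, ?_⟩
      show dist (p.1 + ((i : ℤ) - j) • D.α) p.2 < r
      have e : dist (p.1 + ((i : ℤ) - j) • D.α) p.2 = dist (p.1 + i • D.α) (p.2 + j • D.α) := by
        rw [← dist_add_right (p.1 + ((i : ℤ) - j) • D.α) p.2 (j • D.α)]
        congr 1
        rw [sub_smul, natCast_zsmul, natCast_zsmul]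
        abel
      rw [e]
      exact h
    have h1 : (volume : Measure (Td d × Td d)) {p : Td d × Td d | ¬ D.mut l n p.1 p.2} ≤
        ENNReal.ofReal (2 * n * (4 / (NN l : ℝ)) ^ d) := by
      refine (measure_mono hsub).trans ((measure_biUnion_finset_le _ _).trans ?_)
      refine (Finset.sum_le_sum fun k _ => hSv k).trans ?_
      rw [Finset.sum_const, Int.card_Ioo, nsmul_eq_mul]
      have e1 : 2 * r = 4 / (NN l : ℝ) := by rw [hr]; ring
      rw [e1, ← ENNReal.ofReal_pow (by positivity), ENNReal.ofReal_mul (by positivity)]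
      refine mul_le_mul_left (a := ENNReal.ofReal ((4 / (NN l : ℝ)) ^ d)) ?_
      have e2 : (2 : ℝ) * n = ((2 * n : ℕ) : ℝ) := by push_cast; ring
      rw [e2, ENNReal.ofReal_natCast]
      have : ((n : ℤ) - -(n : ℤ) - 1).toNat ≤ 2 * n := by omega
      exact_mod_cast this
    exact ENNReal.toReal_le_of_le_ofReal (by positivity) h1

/-- the product of two parametric integrals -/
private theorem two63 {X Y : Type*} [MeasurableSpace X] [MeasurableSpace Y] (μ : Measure X) (ν : Measure Y)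
    [IsProbabilityMeasure μ] [IsProbabilityMeasure ν] {u v : X × Y → ℝ} (hu : BM u) (hv : BM v) :
    ∫ x, (∫ y, u (x, y) ∂ν) * (∫ y, v (x, y) ∂ν) ∂μ =
      ∫ q : Y × Y, (∫ x, u (x, q.1) * v (x, q.2) ∂μ) ∂(ν.prod ν) := by
  have h1 : ∀ x, (∫ y, u (x, y) ∂ν) * (∫ y, v (x, y) ∂ν) = ∫ q : Y × Y, u (x, q.1) * v (x, q.2) ∂(ν.prod ν) :=
    fun x => (integral_prod_mul (fun y => u (x, y)) (fun y => v (x, y))).symm
  simp only [h1]
  apply integral_integral_swap
  have h2 : BM fun p : X × (Y × Y) => u (p.1, p.2.1) * v (p.1, p.2.2) :=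
    (hu.comp (measurable_fst.prodMk (measurable_fst.comp measurable_snd))).mul
      (hv.comp (measurable_fst.prodMk (measurable_snd.comp measurable_snd)))
  exact h2.int _

private theorem Qn_sub63 {g : TT → ℝ} (hg : BM g) (s c : ℝ) (n : ℕ) : ∀ (A : ℕ → ℂ) (z : TT),
    Qn s (fun x => g x - c) A n z = Qn s g A n z - c := by
  induction n with
  | zero => intro A z; rfl
  | succ n ih =>
    intro A z
    show (∫ w, Qn s (fun x => g x - c) (fun j => A (j + 1)) n (stp (A 0 + s * w) z) ∂dl) =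
      (∫ w, Qn s g (fun j => A (j + 1)) n (stp (A 0 + s * w) z) ∂dl) - c
    simp only [ih]
    have hw : BM fun w : ℂ => Qn s g (fun j => A (j + 1)) n (stp (A 0 + s * w) z) :=
      (Qn_BM hg s n).comp (measurable_const.prodMk (stp_meas.comp
        ((measurable_const.add (measurable_const.mul measurable_id)).prodMk measurable_const)))
    rw [integral_sub (hw.int dl) (integrable_const c), integral_const, probReal_univ, one_smul]

private theorem sq_int63 {X : Type*} [MeasurableSpace X] (μ : Measure X) [IsProbabilityMeasure μ] {h : X → ℝ}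
    (hh : BM h) : (∫ x, h x ∂μ) ^ 2 ≤ ∫ x, h x ^ 2 ∂μ := by
  set m := ∫ x, h x ∂μ with hm
  have h0 : 0 ≤ ∫ x, (h x - m) ^ 2 ∂μ := integral_nonneg fun x => sq_nonneg _
  have e : ∀ x, (h x - m) ^ 2 = h x ^ 2 - 2 * m * h x + m ^ 2 := fun x => by ring
  simp only [e] at h0
  have j1 : Integrable (fun x => h x ^ 2 - 2 * m * h x) μ := (hh.sq.int μ).sub ((hh.int μ).const_mul _)
  rw [integral_add j1 (integrable_const _), integral_sub (hh.sq.int μ) ((hh.int μ).const_mul _),
    integral_const_mul, integral_const, probReal_univ, one_smul, ← hm] at h0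
  nlinarith

/-- one factor -/
private theorem fac63 {s : ℝ} (hs : 0 < s) (hs1 : s ≤ 1) {f ψ : TT → ℝ} (hf : BM f) (hψ : BM ψ) {K K' : ℝ}
    (hK : ∀ z, |f z| ≤ K) (hK' : ∀ z, |ψ z| ≤ K') (h0 : ∫ z, ψ z = 0) (A : ℕ → ℂ) (n : ℕ) :
    (∫ z, Qn s f A n z * ψ z) ^ 2 ≤ K ^ 2 * K' ^ 2 * (1 - s ^ 2 / 8640) ^ (n / 2) := by
  set m := ∫ z, f z with hm
  have hρ : 0 ≤ 1 - s ^ 2 / 8640 := by nlinarith
  have hfm : BM fun z => f z - m := hf.sub (BM.const m)
  have hz : Measurable fun z : TT => ((A, z) : (ℕ → ℂ) × TT) := measurable_const.prodMk measurable_id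
  have hQ : BM fun z => Qn s f A n z := (Qn_BM hf s n).comp hz
  have hQm : BM fun z => Qn s (fun z => f z - m) A n z := (Qn_BM hfm s n).comp hz
  have hint0 : ∫ z, (f z - m) = 0 := by
    rw [integral_sub (hf.int _) (integrable_const _), integral_const, probReal_univ, one_smul, ← hm, sub_self]
  have e1 : ∫ z, Qn s f A n z * ψ z = ∫ z, Qn s (fun z => f z - m) A n z * ψ z := by
    have e2 : ∀ z, Qn s (fun z => f z - m) A n z * ψ z = Qn s f A n z * ψ z - m * ψ z := by
      intro z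
      rw [Qn_sub63 hf]
      ring
    simp only [e2]
    rw [integral_sub ((hQ.mul hψ).int _) ((hψ.int _).const_mul m), integral_const_mul, h0, mul_zero, sub_zero]
  rw [e1]
  refine (sq_int63 volume (hQm.mul hψ)).trans ?_
  have h1 : ∫ z, (Qn s (fun z => f z - m) A n z * ψ z) ^ 2 ≤ ∫ z, K' ^ 2 * Qn s (fun z => f z - m) A n z ^ 2 := by
    refine integral_mono ((hQm.mul hψ).sq.int _) ((hQm.sq.int _).const_mul _) fun z => ?_
    show (Qn s (fun z => f z - m) A n z * ψ z) ^ 2 ≤ K' ^ 2 * Qn s (fun z => f z - m) A n z ^ 2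
    rw [mul_pow, mul_comm]
    refine mul_le_mul_of_nonneg_right ?_ (sq_nonneg _)
    rw [← sq_abs (ψ z)]
    exact pow_le_pow_left₀ (abs_nonneg _) (hK' z) 2
  rw [integral_const_mul] at h1
  have h2 := gap hfm hint0 hs hs1 A n
  have h3 : ∫ z, (f z - m) ^ 2 ≤ K ^ 2 := by
    have e : ∀ z, (f z - m) ^ 2 = f z ^ 2 - 2 * m * f z + m ^ 2 := fun z => by ring
    simp only [e]
    have j1 : Integrable (fun z => f z ^ 2 - 2 * m * f z) (volume : Measure TT) :=
      (hf.sq.int _).sub ((hf.int _).const_mul _)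
    rw [integral_add j1 (integrable_const _), integral_sub (hf.sq.int _) ((hf.int _).const_mul _),
      integral_const_mul, integral_const, probReal_univ, one_smul, ← hm]
    have h4 : ∫ z, f z ^ 2 ≤ K ^ 2 := by
      calc ∫ z, f z ^ 2 ≤ ∫ _z : TT, K ^ 2 := by
            refine integral_mono (hf.sq.int _) (integrable_const _) fun z => ?_
            show f z ^ 2 ≤ K ^ 2
            rw [← sq_abs (f z)]
            exact pow_le_pow_left₀ (abs_nonneg _) (hK z) 2
        _ = K ^ 2 := by rw [integral_const, probReal_univ, one_smul]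
    nlinarith [sq_nonneg m]
  calc ∫ z, (Qn s (fun z => f z - m) A n z * ψ z) ^ 2
      ≤ K' ^ 2 * ∫ z, Qn s (fun z => f z - m) A n z ^ 2 := h1
    _ ≤ K' ^ 2 * ((1 - s ^ 2 / 8640) ^ (n / 2) * K ^ 2) :=
        mul_le_mul_of_nonneg_left (h2.trans (mul_le_mul_of_nonneg_left h3 (pow_nonneg hρ _))) (sq_nonneg _)
    _ = _ := by ring

theorem pairs (hD : D.Ok) {l n : ℕ} (hi : D.iso l n) (hs : D.s l ≤ 1) {G Ψ : Td d × TT → ℝ}
    (hG : Measurable G) (hΨ : Measurable Ψ) {K K' : ℝ} (hK : ∀ p, |G p| ≤ K) (hK' : ∀ p, |Ψ p| ≤ K')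
    (h0 : ∀ θ, ∫ z, Ψ (θ, z) = 0) :
    ∫ ω, (∫ p, G ((D.F ω)^[n] p) * Ψ p) ^ 2 ∂law d ≤
      K ^ 2 * K' ^ 2 * ((1 - D.s l ^ 2 / 8640) ^ (n / 2) + 2 * n * (4 / (NN l : ℝ)) ^ d) := by
  have hN : (0 : ℝ) < NN l := by exact_mod_cast Pool.Agent.Helper18.FD.NN_pos l
  have hs0 : 0 < D.s l := mul_pos hD.hq (Real.rpow_pos_of_pos hN _)
  set ρ : ℝ := (1 - D.s l ^ 2 / 8640) ^ (n / 2) with hρdef
  have hρ : 0 ≤ ρ := pow_nonneg (by nlinarith) _
  have hGB : BM G := ⟨hG, K, hK⟩
  have hΨB : BM Ψ := ⟨hΨ, K', hK'⟩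
  -- the integrand
  have hBm : Measurable fun p : (Om d × Td d) × TT =>
      ((p.1.2 + n • D.α, orb (D.As p.1.1 p.1.2) p.2 n) : Td d × TT) := by
    have h1 : Measurable fun p : (Om d × Td d) × TT => ((D.As p.1.1 p.1.2, p.2) : (ℕ → ℂ) × TT) :=
      ((As_meas hD).comp measurable_fst).prodMk measurable_snd
    exact ((measurable_snd.comp measurable_fst).add_const _).prodMk ((orb_meas n).comp h1)
  set B : (Om d × Td d) × TT → ℝ := fun p =>
    G (p.1.2 + n • D.α, orb (D.As p.1.1 p.1.2) p.2 n) * Ψ (p.1.2, p.2) with hB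
  have hBB : BM B := (hGB.comp hBm).mul (hΨB.comp ((measurable_snd.comp measurable_fst).prodMk measurable_snd))
  set a : Om d × Td d → ℝ := fun p => ∫ z, B (p, z) with ha
  have haB : BM a := hBB.integral volume
  -- the correlation
  have e1 : ∀ ω, ∫ p, G ((D.F ω)^[n] p) * Ψ p = ∫ θ, a (ω, θ) := by
    intro ω
    have h1 : BM fun p : Td d × TT => B ((ω, p.1), p.2) :=
      hBB.comp ((measurable_const.prodMk measurable_fst).prodMk measurable_snd)
    have h2 : ∀ p : Td d × TT, G ((D.F ω)^[n] p) * Ψ p = B ((ω, p.1), p.2) := by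
      rintro ⟨θ, z⟩
      rw [F_iter]
    simp only [h2]
    rw [Measure.volume_eq_prod, integral_prod _ (h1.int _)]
  have e2 : ∫ ω, (∫ p, G ((D.F ω)^[n] p) * Ψ p) ^ 2 ∂law d =
      ∫ q : Td d × Td d, (∫ ω, a (ω, q.1) * a (ω, q.2) ∂law d) := by
    simp only [e1, sq]
    rw [two63 (law d) (volume : Measure (Td d)) haB haB, ← Measure.volume_eq_prod]
  -- the bounds
  have hab : ∀ p, |a p| ≤ K * K' := by
    intro p
    have h := norm_integral_le_of_norm_le_const (μ := (volume : Measure TT)) (f := fun z => B (p, z)) (C := K * K')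
      (Filter.Eventually.of_forall fun z => by
        rw [Real.norm_eq_abs, hB]
        simp only
        rw [abs_mul]
        exact mul_le_mul (hK _) (hK' _) (abs_nonneg _) ((abs_nonneg _).trans (hK (p.2, z))))
    simpa using h
  have hcB : BM fun q : Td d × Td d => ∫ ω, a (ω, q.1) * a (ω, q.2) ∂law d := by
    have h1 : BM fun p : (Td d × Td d) × Om d => a (p.2, p.1.1) * a (p.2, p.1.2) :=
      (haB.comp (measurable_snd.prodMk (measurable_fst.comp measurable_fst))).mul
        (haB.comp (measurable_snd.prodMk (measurable_snd.comp measurable_fst)))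
    exact h1.integral (law d)
  have hall : ∀ q : Td d × Td d, ∫ ω, a (ω, q.1) * a (ω, q.2) ∂law d ≤ K ^ 2 * K' ^ 2 := by
    intro q
    have h1 : BM fun ω : Om d => a (ω, q.1) * a (ω, q.2) :=
      (haB.comp (measurable_id.prodMk measurable_const)).mul (haB.comp (measurable_id.prodMk measurable_const))
    calc ∫ ω, a (ω, q.1) * a (ω, q.2) ∂law d ≤ ∫ _ω : Om d, K ^ 2 * K' ^ 2 ∂law d := by
          refine integral_mono (h1.int _) (integrable_const _) fun ω => ?_
          show a (ω, q.1) * a (ω, q.2) ≤ K ^ 2 * K' ^ 2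
          have h2 := hab (ω, q.1)
          have h3 := hab (ω, q.2)
          calc a (ω, q.1) * a (ω, q.2) ≤ |a (ω, q.1) * a (ω, q.2)| := le_abs_self _
            _ = |a (ω, q.1)| * |a (ω, q.2)| := abs_mul _ _
            _ ≤ (K * K') * (K * K') := mul_le_mul h2 h3 (abs_nonneg _) ((abs_nonneg _).trans h2)
            _ = K ^ 2 * K' ^ 2 := by ring
      _ = K ^ 2 * K' ^ 2 := by rw [integral_const, probReal_univ, one_smul]
  have hmut : ∀ q : Td d × Td d, D.mut l n q.1 q.2 →
      ∫ ω, a (ω, q.1) * a (ω, q.2) ∂law d ≤ K ^ 2 * K' ^ 2 * ρ := by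
    rintro ⟨θ, θ'⟩ hm
    simp only
    set f : TT → ℝ := fun z => G (θ + n • D.α, z) with hf
    set f' : TT → ℝ := fun z => G (θ' + n • D.α, z) with hf'
    set ψ : TT → ℝ := fun z => Ψ (θ, z) with hψ
    set ψ' : TT → ℝ := fun z => Ψ (θ', z) with hψ'
    have hpk : ∀ t : Td d, Measurable fun z : TT => ((t, z) : Td d × TT) := fun t =>
      measurable_const.prodMk measurable_id
    have hfB : BM f := hGB.comp (hpk _)
    have hfB' : BM f' := hGB.comp (hpk _)
    have hψB : BM ψ := hΨB.comp (hpk _)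
    have hψB' : BM ψ' := hΨB.comp (hpk _)
    have hAs : ∀ t : Td d, Measurable fun p : Om d × TT => ((D.As p.1 t, p.2) : (ℕ → ℂ) × TT) := fun t =>
      ((As_meas hD).comp (measurable_fst.prodMk measurable_const)).prodMk measurable_snd
    have hAms : ∀ t : Td d, Measurable fun p : Om d × TT => ((D.Ams l p.1 t, p.2) : (ℕ → ℂ) × TT) := by
      intro t
      have h := (Ams_meas hD l).comp (show Measurable fun p : Om d × TT => ((p.1, t) : Om d × Td d) from
        measurable_fst.prodMk measurable_const)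
      simp only [Function.comp_def] at h
      exact h.prodMk measurable_snd
    have hu : ∀ {g φ : TT → ℝ} (t : Td d), BM g → BM φ →
        BM fun p : Om d × TT => g (orb (D.As p.1 t) p.2 n) * φ p.2 := fun t hg hφ =>
      (hg.comp ((orb_meas n).comp (hAs t))).mul (hφ.comp measurable_snd)
    have hv : ∀ {g φ : TT → ℝ} (t : Td d), BM g → BM φ →
        BM fun p : Om d × TT => Qn (D.s l) g (D.Ams l p.1 t) n p.2 * φ p.2 := fun t hg hφ =>
      ((Qn_BM hg (D.s l) n).comp (hAms t)).mul (hφ.comp measurable_snd)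
    have h1 : ∫ ω, a (ω, θ) * a (ω, θ') ∂law d =
        ∫ ω, (∫ z, Qn (D.s l) f (D.Ams l ω θ) n z * ψ z) * (∫ z, Qn (D.s l) f' (D.Ams l ω θ') n z * ψ' z) ∂law d := by
      have j1 := two63 (law d) (volume : Measure TT) (hu θ hfB hψB) (hu θ' hfB' hψB')
      have j2 := two63 (law d) (volume : Measure TT) (hv θ hfB hψB) (hv θ' hfB' hψB')
      simp only at j1 j2
      have j3 : ∫ ω, a (ω, θ) * a (ω, θ') ∂law d =
          ∫ ω, (∫ z, f (orb (D.As ω θ) z n) * ψ z) * (∫ z, f' (orb (D.As ω θ') z n) * ψ' z) ∂law d := rfl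
      rw [j3, j1, j2]
      refine integral_congr_ae (Filter.Eventually.of_forall fun q => ?_)
      simp only
      have k1 : ∀ ω, f (orb (D.As ω θ) q.1 n) * ψ q.1 * (f' (orb (D.As ω θ') q.2 n) * ψ' q.2) =
          (ψ q.1 * ψ' q.2) * (f (orb (D.As ω θ) q.1 n) * f' (orb (D.As ω θ') q.2 n)) := fun ω => by ring
      have k2 : ∀ ω, Qn (D.s l) f (D.Ams l ω θ) n q.1 * ψ q.1 * (Qn (D.s l) f' (D.Ams l ω θ') n q.2 * ψ' q.2) =
          (ψ q.1 * ψ' q.2) * (Qn (D.s l) f (D.Ams l ω θ) n q.1 * Qn (D.s l) f' (D.Ams l ω θ') n q.2) :=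
        fun ω => by ring
      simp only [k1, k2]
      rw [integral_const_mul, integral_const_mul, annQ hD hi hm hfB hfB']
    rw [h1]
    have hF1 : BM fun ω : Om d => ∫ z, Qn (D.s l) f (D.Ams l ω θ) n z * ψ z := (hv θ hfB hψB).integral volume
    have hF2 : BM fun ω : Om d => ∫ z, Qn (D.s l) f' (D.Ams l ω θ') n z * ψ' z :=
      (hv θ' hfB' hψB').integral volume
    calc ∫ ω, (∫ z, Qn (D.s l) f (D.Ams l ω θ) n z * ψ z) *
          (∫ z, Qn (D.s l) f' (D.Ams l ω θ') n z * ψ' z) ∂law d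
        ≤ ∫ _ω : Om d, K ^ 2 * K' ^ 2 * ρ ∂law d := by
          refine integral_mono ((hF1.mul hF2).int _) (integrable_const _) fun ω => ?_
          have g1 := fac63 hs0 hs hfB hψB (fun z => hK _) (fun z => hK' _) (h0 θ) (D.Ams l ω θ) n
          have g2 := fac63 hs0 hs hfB' hψB' (fun z => hK _) (fun z => hK' _) (h0 θ') (D.Ams l ω θ') n
          show (∫ z, Qn (D.s l) f (D.Ams l ω θ) n z * ψ z) *
            (∫ z, Qn (D.s l) f' (D.Ams l ω θ') n z * ψ' z) ≤ K ^ 2 * K' ^ 2 * ρ
          nlinarith [sq_nonneg ((∫ z, Qn (D.s l) f (D.Ams l ω θ) n z * ψ z) -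
            (∫ z, Qn (D.s l) f' (D.Ams l ω θ') n z * ψ' z))]
      _ = K ^ 2 * K' ^ 2 * ρ := by rw [integral_const, probReal_univ, one_smul]
  -- integrate
  obtain ⟨hm1, hm2⟩ := mut_meas D l n
  have hmc : MeasurableSet {p : Td d × Td d | ¬ D.mut l n p.1 p.2} := hm1.compl
  rw [e2]
  have hfin : ∀ q : Td d × Td d, ∫ ω, a (ω, q.1) * a (ω, q.2) ∂law d ≤
      K ^ 2 * K' ^ 2 * ρ + K ^ 2 * K' ^ 2 *
        {p : Td d × Td d | ¬ D.mut l n p.1 p.2}.indicator (1 : Td d × Td d → ℝ) q := by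
    intro q
    by_cases hq : D.mut l n q.1 q.2
    · have : q ∉ {p : Td d × Td d | ¬ D.mut l n p.1 p.2} := fun h => h hq
      rw [indicator_of_notMem this, mul_zero, add_zero]
      exact hmut q hq
    · have : q ∈ {p : Td d × Td d | ¬ D.mut l n p.1 p.2} := hq
      rw [indicator_of_mem this, Pi.one_apply, mul_one]
      have := hall q
      have h3 : 0 ≤ K ^ 2 * K' ^ 2 * ρ := by positivity
      linarith
  have hind : Integrable ({p : Td d × Td d | ¬ D.mut l n p.1 p.2}.indicator (1 : Td d × Td d → ℝ))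
      (volume : Measure (Td d × Td d)) := (integrable_const (1 : ℝ)).indicator hmc
  calc ∫ q : Td d × Td d, (∫ ω, a (ω, q.1) * a (ω, q.2) ∂law d)
      ≤ ∫ q : Td d × Td d, (K ^ 2 * K' ^ 2 * ρ + K ^ 2 * K' ^ 2 *
          {p : Td d × Td d | ¬ D.mut l n p.1 p.2}.indicator (1 : Td d × Td d → ℝ) q) :=
        integral_mono (hcB.int _) ((integrable_const _).add (hind.const_mul _)) hfin
    _ = K ^ 2 * K' ^ 2 * ρ + K ^ 2 * K' ^ 2 *
          (volume : Measure (Td d × Td d)).real {p : Td d × Td d | ¬ D.mut l n p.1 p.2} := by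
        rw [integral_add (integrable_const _) (hind.const_mul _), integral_const, probReal_univ, one_smul,
          integral_const_mul, integral_indicator_one hmc]
    _ ≤ K ^ 2 * K' ^ 2 * ρ + K ^ 2 * K' ^ 2 * (2 * n * (4 / (NN l : ℝ)) ^ d) := by
        have := mul_le_mul_of_nonneg_left hm2 (by positivity : 0 ≤ K ^ 2 * K' ^ 2)
        linarith
    _ = _ := by ring

end Pool.Agent.Helper46.QP
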