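import Pool.Agent.Helper46.QP.Meas
import Pool.Agent.Helper46.QP.Res

/-! Block QP-ANN: the noise of the cells met by a separated orbit of the rotation is averaged out.

`ann`: induction on `n` (all `θ`, `ζ`, `H`). Step: `ch .. (n+1) (ζ ω) = kk (A ω θ) (ζ ω) * ch .. (As ω (θ + α)) n (st (A ω θ) (ζ ω))`; the new start `st (A ω θ) (ζ ω)` and the new weight `kk (A ω θ) (ζ ω) * H ω` do not depend on the coordinates `(l, cl l (θ + j α))`,
`1 ≤ j ≤ n` (`A_far`), so the induction hypothesis at `θ + α` applies; then resample the coordinate `(l, cl l θ)` (`res_l`): `A_own`, `Am_far`, `h1`, `h2`, `clip_ae`. (`iso` gives `2 / N ≤ dist (θ + i α) (θ + j α)` for `i ≠ j < n`.)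
`ann2`: `ann` with constant `ζ = z` and `H = ch .. (As ω θ') n z'`, then `ann` for `θ'` with `H = ach .. (Ams l ω θ) n z` (`mut`; `Am_far`, `A_far`, induction on the length of the chain). `annQ`: apply `ann2` with `kk = 1` to `f + K, f' + K'` (and to the constants), `ch`, `ach` are then `f (orb ..) + K`, `Qn .. f + K`. -/

set_option autoImplicit false
open MeasureTheory Real Set
open scoped ENNReal

namespace Pool.Agent.Helper46.QP

variable {d : ℕ} {D : Dat d}

variable {Y : Type*}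

private theorem ch_congr56 {st : ℂ → Y → Y} {kk : ℂ → Y → ℝ≥0∞} {φ : Y → ℝ≥0∞} (n : ℕ) :
    ∀ (A B : ℕ → ℂ) (y : Y), (∀ j < n, A j = B j) → ch st kk φ A n y = ch st kk φ B n y := by
  induction n with
  | zero => intro A B y _; rfl
  | succ n ih =>
    intro A B y h
    show kk (A 0) y * ch st kk φ (fun j => A (j + 1)) n (st (A 0) y) =
      kk (B 0) y * ch st kk φ (fun j => B (j + 1)) n (st (B 0) y)
    rw [h 0 (Nat.succ_pos n), ih (fun j => A (j + 1)) (fun j => B (j + 1)) _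
      (fun j hj => h (j + 1) (Nat.succ_lt_succ hj))]

private theorem ach_congr56 {st : ℂ → Y → Y} {kk : ℂ → Y → ℝ≥0∞} {φ : Y → ℝ≥0∞} (s : ℝ) (n : ℕ) :
    ∀ (A B : ℕ → ℂ) (y : Y), (∀ j < n, A j = B j) → ach st kk φ s A n y = ach st kk φ s B n y := by
  induction n with
  | zero => intro A B y _; rfl
  | succ n ih =>
    intro A B y h
    show (∫⁻ w, kk (A 0 + s * w) y * ach st kk φ s (fun j => A (j + 1)) n (st (A 0 + s * w) y) ∂dl) =
      ∫⁻ w, kk (B 0 + s * w) y * ach st kk φ s (fun j => B (j + 1)) n (st (B 0 + s * w) y) ∂dl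
    rw [h 0 (Nat.succ_pos n)]
    refine lintegral_congr fun w => ?_
    rw [ih (fun j => A (j + 1)) (fun j => B (j + 1)) _ (fun j hj => h (j + 1) (Nat.succ_lt_succ hj))]

private theorem Ams_shift56 (D : Dat d) (l : ℕ) (ω : Om d) (θ : Td d) :
    (fun j => D.Ams l ω θ (j + 1)) = D.Ams l ω (θ + 1 • D.α) := by
  funext j
  unfold Dat.Ams
  rw [add_assoc, ← add_nsmul, add_comm 1 j]

private theorem As_zero56 (D : Dat d) (ω : Om d) (θ : Td d) : D.As ω θ 0 = D.A ω θ := by
  unfold Dat.As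
  rw [zero_nsmul, add_zero]

private theorem Ams_zero56 (D : Dat d) (l : ℕ) (ω : Om d) (θ : Td d) : D.Ams l ω θ 0 = D.Am l ω θ := by
  unfold Dat.Ams
  rw [zero_nsmul, add_zero]

private theorem dist_shift56 (θ a : Td d) : dist θ (θ + a) = ‖a‖ := by
  rw [dist_self_add_right]

private theorem A_meas56 (hD : D.Ok) (θ : Td d) : Measurable fun ω : Om d => D.A ω θ :=
  (A_meas hD).comp (measurable_id.prodMk measurable_const)

private theorem As_meas56 (hD : D.Ok) (θ : Td d) : Measurable fun ω : Om d => D.As ω θ :=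
  (As_meas hD).comp (measurable_id.prodMk measurable_const)

private theorem Ams_meas56 (hD : D.Ok) (l : ℕ) (θ : Td d) : Measurable fun ω : Om d => D.Ams l ω θ := by
  have h0 : Measurable fun ω : Om d => ((ω, θ) : Om d × Td d) := measurable_id.prodMk measurable_const
  have h := (Ams_meas hD l).comp h0
  exact h

theorem ann {Y : Type*} [MeasurableSpace Y] (hD : D.Ok) {st : ℂ → Y → Y} {kk : ℂ → Y → ℝ≥0∞} {φ : Y → ℝ≥0∞}
    (hst : Measurable fun p : ℂ × Y => st p.1 p.2) (hkk : Measurable fun p : ℂ × Y => kk p.1 p.2)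
    (hφ : Measurable φ) {l n : ℕ} (hi : D.iso l n) (θ : Td d) {ζ : Om d → Y} (hζ : Measurable ζ)
    {H : Om d → ℝ≥0∞} (hH : Measurable H)
    (h1 : ∀ j < n, ∀ ω w, ζ (Function.update ω (l, cl l (θ + j • D.α)) w) = ζ ω)
    (h2 : ∀ j < n, ∀ ω w, H (Function.update ω (l, cl l (θ + j • D.α)) w) = H ω) :
    ∫⁻ ω, ch st kk φ (D.As ω θ) n (ζ ω) * H ω ∂law d =
      ∫⁻ ω, ach st kk φ (D.s l) (D.Ams l ω θ) n (ζ ω) * H ω ∂law d := by
  induction n generalizing θ ζ H with
  | zero => rfl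
  | succ n ih =>
    have hi' : D.iso l n := fun k hk1 hk2 => hi k hk1 (Nat.lt_succ_of_lt hk2)
    have hdist : ∀ j < n, 2 / (Pool.Agent.Helper18.FD.NN l : ℝ) ≤ dist θ (θ + 1 • D.α + j • D.α) := by
      intro j hj
      rw [add_assoc, ← add_nsmul, dist_shift56]
      exact hi (1 + j) (by omega) (by omega)
    have hst1 : ∀ {f : Om d → ℂ}, Measurable f → Measurable fun ω => st (f ω) (ζ ω) := fun hf =>
      hst.comp (hf.prodMk hζ)
    have hkk1 : ∀ {f : Om d → ℂ}, Measurable f → Measurable fun ω => kk (f ω) (ζ ω) := fun hf =>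
      hkk.comp (hf.prodMk hζ)
    have hζ' := hst1 (A_meas56 hD θ)
    have hH' : Measurable fun ω => kk (D.A ω θ) (ζ ω) * H ω := (hkk1 (A_meas56 hD θ)).mul hH
    have hidx : ∀ j : ℕ, θ + 1 • D.α + j • D.α = θ + (j + 1) • D.α := by
      intro j
      rw [add_assoc, ← add_nsmul, add_comm 1 j]
    have e1 : ∀ ω, ch st kk φ (D.As ω θ) (n + 1) (ζ ω) * H ω =
        ch st kk φ (D.As ω (θ + 1 • D.α)) n (st (D.A ω θ) (ζ ω)) * (kk (D.A ω θ) (ζ ω) * H ω) := by
      intro ω
      show kk (D.As ω θ 0) (ζ ω) * ch st kk φ (fun j => D.As ω θ (j + 1)) n (st (D.As ω θ 0) (ζ ω)) * H ω = _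
      rw [As_add, As_zero56]
      ring
    have e2 := ih hi' (θ + 1 • D.α) hζ' hH' (by
      intro j hj ω w
      rw [A_far hD (by rw [dist_comm]; exact hdist j hj), hidx, h1 (j + 1) (by omega)]) (by
      intro j hj ω w
      rw [A_far hD (by rw [dist_comm]; exact hdist j hj), hidx, h1 (j + 1) (by omega),
        h2 (j + 1) (by omega)])
    have hF : Measurable fun ω => ach st kk φ (D.s l) (D.Ams l ω (θ + 1 • D.α)) n (st (D.A ω θ) (ζ ω)) *
        (kk (D.A ω θ) (ζ ω) * H ω) :=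
      ((ach_meas hst hkk hφ (D.s l) n).comp ((Ams_meas56 hD l (θ + 1 • D.α)).prodMk hζ')).mul hH'
    rw [lintegral_congr e1, e2, res_l (l, cl l θ) hF]
    refine lintegral_congr fun ω => ?_
    have e3 : ∀ w, ach st kk φ (D.s l) (D.Ams l (Function.update ω (l, cl l θ) w) (θ + 1 • D.α)) n
          (st (D.A (Function.update ω (l, cl l θ) w) θ) (ζ (Function.update ω (l, cl l θ) w))) *
        (kk (D.A (Function.update ω (l, cl l θ) w) θ) (ζ (Function.update ω (l, cl l θ) w)) *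
          H (Function.update ω (l, cl l θ) w)) =
        (fun v : ℂ => kk (D.Am l ω θ + D.s l * v) (ζ ω) *
          ach st kk φ (D.s l) (D.Ams l ω (θ + 1 • D.α)) n (st (D.Am l ω θ + D.s l * v) (ζ ω)) * H ω) (clip w) := by
      intro w
      have h3 := h1 0 (Nat.succ_pos n) ω w
      have h4 := h2 0 (Nat.succ_pos n) ω w
      rw [zero_nsmul, add_zero] at h3 h4
      rw [h3, h4, A_own hD]
      rw [ach_congr56 (D.s l) n (D.Ams l (Function.update ω (l, cl l θ) w) (θ + 1 • D.α))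
        (D.Ams l ω (θ + 1 • D.α)) _ (fun j hj => Am_far hD (hdist j hj) w ω)]
      simp only
      ring
    have e4 : (∫⁻ w, (fun v : ℂ => kk (D.Am l ω θ + D.s l * v) (ζ ω) *
          ach st kk φ (D.s l) (D.Ams l ω (θ + 1 • D.α)) n (st (D.Am l ω θ + D.s l * v) (ζ ω)) * H ω) (clip w) ∂dl) =
        ∫⁻ w, kk (D.Am l ω θ + D.s l * w) (ζ ω) *
          ach st kk φ (D.s l) (D.Ams l ω (θ + 1 • D.α)) n (st (D.Am l ω θ + D.s l * w) (ζ ω)) * H ω ∂dl := by
      refine lintegral_congr_ae ?_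
      filter_upwards [clip_ae] with w hw
      rw [hw]
    rw [lintegral_congr e3, e4, lintegral_mul_const]
    · show _ = (∫⁻ w, kk (D.Ams l ω θ 0 + D.s l * w) (ζ ω) *
          ach st kk φ (D.s l) (fun j => D.Ams l ω θ (j + 1)) n (st (D.Ams l ω θ 0 + D.s l * w) (ζ ω)) ∂dl) * H ω
      rw [Ams_shift56, Ams_zero56]
    · have hv : Measurable fun w : ℂ => D.Am l ω θ + D.s l * w :=
        measurable_const.add (measurable_const.mul measurable_id)
      refine (hkk.comp (hv.prodMk measurable_const)).mul ?_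
      exact (ach_meas hst hkk hφ (D.s l) n).comp
        (measurable_const.prodMk (hst.comp (hv.prodMk measurable_const)))

theorem ann2 {Y : Type*} [MeasurableSpace Y] (hD : D.Ok) {st : ℂ → Y → Y} {kk : ℂ → Y → ℝ≥0∞} {φ φ' : Y → ℝ≥0∞}
    (hst : Measurable fun p : ℂ × Y => st p.1 p.2) (hkk : Measurable fun p : ℂ × Y => kk p.1 p.2)
    (hφ : Measurable φ) (hφ' : Measurable φ') {l n : ℕ} (hi : D.iso l n) {θ θ' : Td d} (hm : D.mut l n θ θ')
    (z z' : Y) :
    ∫⁻ ω, ch st kk φ (D.As ω θ) n z * ch st kk φ' (D.As ω θ') n z' ∂law d =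
      ∫⁻ ω, ach st kk φ (D.s l) (D.Ams l ω θ) n z * ach st kk φ' (D.s l) (D.Ams l ω θ') n z' ∂law d := by
  have hc' : Measurable fun ω => ch st kk φ' (D.As ω θ') n z' :=
    (ch_meas hst hkk hφ' n).comp ((As_meas56 hD θ').prodMk measurable_const)
  have ha : Measurable fun ω => ach st kk φ (D.s l) (D.Ams l ω θ) n z :=
    (ach_meas hst hkk hφ (D.s l) n).comp ((Ams_meas56 hD l θ).prodMk measurable_const)
  have e1 := ann hD hst hkk hφ hi θ (ζ := fun _ => z) measurable_const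
    (H := fun ω => ch st kk φ' (D.As ω θ') n z') hc' (fun _ _ _ _ => rfl) (by
      intro j hj ω w
      exact ch_congr56 n _ _ _ fun i hij => A_far hD (hm j hj i hij) w ω)
  have e2 := ann hD hst hkk hφ' hi θ' (ζ := fun _ => z') measurable_const
    (H := fun ω => ach st kk φ (D.s l) (D.Ams l ω θ) n z) ha (fun _ _ _ _ => rfl) (by
      intro j hj ω w
      exact ach_congr56 (D.s l) n _ _ _ fun i hij =>
        Am_far hD (by rw [dist_comm]; exact hm i hij j hj) w ω)
  rw [e1]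
  calc ∫⁻ ω, ach st kk φ (D.s l) (D.Ams l ω θ) n z * ch st kk φ' (D.As ω θ') n z' ∂law d
      = ∫⁻ ω, ch st kk φ' (D.As ω θ') n z' * ach st kk φ (D.s l) (D.Ams l ω θ) n z ∂law d :=
        lintegral_congr fun ω => mul_comm _ _
    _ = ∫⁻ ω, ach st kk φ' (D.s l) (D.Ams l ω θ') n z' * ach st kk φ (D.s l) (D.Ams l ω θ) n z ∂law d := e2
    _ = _ := lintegral_congr fun ω => mul_comm _ _

private theorem ch_orb56 (g : TT → ℝ) (n : ℕ) : ∀ (A : ℕ → ℂ) (z : TT),
    ch stp (fun _ _ => 1) (fun z => ENNReal.ofReal (g z)) A n z = ENNReal.ofReal (g (orb A z n)) := by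
  induction n with
  | zero => intro A z; rfl
  | succ n ih =>
    intro A z
    show 1 * ch stp (fun _ _ => 1) (fun z => ENNReal.ofReal (g z)) (fun j => A (j + 1)) n (stp (A 0) z) = _
    rw [one_mul, ih, orb_one_add]

private theorem Qn_w56 {g : TT → ℝ} (hg : BM g) (s : ℝ) (n : ℕ) (A : ℕ → ℂ) (z : TT) (a : ℂ) :
    BM fun w : ℂ => Qn s g A n (stp (a + s * w) z) :=
  (Qn_BM hg s n).comp (measurable_const.prodMk (stp_meas.comp
    ((measurable_const.add (measurable_const.mul measurable_id)).prodMk measurable_const)))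

private theorem Qn_nonneg56 {g : TT → ℝ} (h0 : ∀ x, 0 ≤ g x) (s : ℝ) (n : ℕ) : ∀ (A : ℕ → ℂ) (z : TT),
    0 ≤ Qn s g A n z := by
  induction n with
  | zero => intro A z; exact h0 z
  | succ n ih => intro A z; exact integral_nonneg fun w => ih _ _

private theorem Qn_add56 {g : TT → ℝ} (hg : BM g) (s c : ℝ) (n : ℕ) : ∀ (A : ℕ → ℂ) (z : TT),
    Qn s (fun x => g x + c) A n z = Qn s g A n z + c := by
  induction n with
  | zero => intro A z; rfl
  | succ n ih =>
    intro A z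
    show (∫ w, Qn s (fun x => g x + c) (fun j => A (j + 1)) n (stp (A 0 + s * w) z) ∂dl) =
      (∫ w, Qn s g (fun j => A (j + 1)) n (stp (A 0 + s * w) z) ∂dl) + c
    simp only [ih]
    rw [integral_add ((Qn_w56 hg s n _ z (A 0)).int dl) (integrable_const c), integral_const,
      probReal_univ, one_smul]

private theorem Qn_one56 (s : ℝ) (n : ℕ) : ∀ (A : ℕ → ℂ) (z : TT), Qn s (fun _ => (1 : ℝ)) A n z = 1 := by
  induction n with
  | zero => intro A z; rfl
  | succ n ih =>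
    intro A z
    show (∫ w, Qn s (fun _ => (1 : ℝ)) (fun j => A (j + 1)) n (stp (A 0 + s * w) z) ∂dl) = 1
    simp only [ih]
    rw [integral_const, probReal_univ, one_smul]

private theorem ach_Qn56 {g : TT → ℝ} (hg : BM g) (h0 : ∀ x, 0 ≤ g x) (s : ℝ) (n : ℕ) :
    ∀ (A : ℕ → ℂ) (z : TT),
    ach stp (fun _ _ => 1) (fun z => ENNReal.ofReal (g z)) s A n z = ENNReal.ofReal (Qn s g A n z) := by
  induction n with
  | zero => intro A z; rfl
  | succ n ih =>
    intro A z
    show (∫⁻ w, 1 * ach stp (fun _ _ => 1) (fun z => ENNReal.ofReal (g z)) s (fun j => A (j + 1)) n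
      (stp (A 0 + s * w) z) ∂dl) = ENNReal.ofReal (∫ w, Qn s g (fun j => A (j + 1)) n (stp (A 0 + s * w) z) ∂dl)
    simp only [one_mul, ih]
    rw [ofReal_integral_eq_lintegral_ofReal ((Qn_w56 hg s n _ z (A 0)).int dl)
      (Filter.Eventually.of_forall fun w => Qn_nonneg56 h0 s n _ _)]

private theorem orb_BM56 (hD : D.Ok) {g : TT → ℝ} (hg : BM g) (θ : Td d) (z : TT) (n : ℕ) :
    BM fun ω : Om d => g (orb (D.As ω θ) z n) :=
  hg.comp ((orb_meas n).comp ((As_meas56 hD θ).prodMk measurable_const))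

private theorem Qn_BM56 (hD : D.Ok) {g : TT → ℝ} (hg : BM g) (l : ℕ) (θ : Td d) (z : TT) (n : ℕ) :
    BM fun ω : Om d => Qn (D.s l) g (D.Ams l ω θ) n z :=
  (Qn_BM hg (D.s l) n).comp ((Ams_meas56 hD l θ).prodMk measurable_const)

private theorem annQ_pos56 (hD : D.Ok) {l n : ℕ} (hi : D.iso l n) {θ θ' : Td d} (hm : D.mut l n θ θ')
    {g g' : TT → ℝ} (hg : BM g) (hg' : BM g') (h0 : ∀ x, 0 ≤ g x) (h0' : ∀ x, 0 ≤ g' x) (z z' : TT) :
    ∫ ω, g (orb (D.As ω θ) z n) * g' (orb (D.As ω θ') z' n) ∂law d =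
      ∫ ω, Qn (D.s l) g (D.Ams l ω θ) n z * Qn (D.s l) g' (D.Ams l ω θ') n z' ∂law d := by
  rw [integral_eq_lintegral_of_nonneg_ae (Filter.Eventually.of_forall fun ω => mul_nonneg (h0 _) (h0' _))
      ((orb_BM56 hD hg θ z n).mul (orb_BM56 hD hg' θ' z' n)).1.aestronglyMeasurable,
    integral_eq_lintegral_of_nonneg_ae (Filter.Eventually.of_forall fun ω =>
        mul_nonneg (Qn_nonneg56 h0 _ _ _ _) (Qn_nonneg56 h0' _ _ _ _))
      ((Qn_BM56 hD hg l θ z n).mul (Qn_BM56 hD hg' l θ' z' n)).1.aestronglyMeasurable]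
  congr 1
  have h1 := ann2 hD stp_meas (kk := fun _ _ => 1) measurable_const
    (φ := fun z => ENNReal.ofReal (g z)) (φ' := fun z => ENNReal.ofReal (g' z))
    (ENNReal.measurable_ofReal.comp hg.1) (ENNReal.measurable_ofReal.comp hg'.1) hi hm z z'
  simp only [ch_orb56, ach_Qn56 hg h0, ach_Qn56 hg' h0'] at h1
  calc ∫⁻ ω, ENNReal.ofReal (g (orb (D.As ω θ) z n) * g' (orb (D.As ω θ') z' n)) ∂law d
      = ∫⁻ ω, ENNReal.ofReal (g (orb (D.As ω θ) z n)) * ENNReal.ofReal (g' (orb (D.As ω θ') z' n)) ∂law d :=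
        lintegral_congr fun ω => ENNReal.ofReal_mul (h0 _)
    _ = _ := h1
    _ = ∫⁻ ω, ENNReal.ofReal (Qn (D.s l) g (D.Ams l ω θ) n z * Qn (D.s l) g' (D.Ams l ω θ') n z') ∂law d :=
        lintegral_congr fun ω => (ENNReal.ofReal_mul (Qn_nonneg56 h0 _ _ _ _)).symm

private theorem expand56 {X : Type*} [MeasurableSpace X] (μ : Measure X) [IsProbabilityMeasure μ] {a b : X → ℝ}
    (ha : BM a) (hb : BM b) (K L : ℝ) :
    ∫ x, a x * b x ∂μ = ∫ x, (a x + K) * (b x + L) ∂μ - L * ∫ x, (a x + K) ∂μ - K * ∫ x, (b x + L) ∂μ + K * L := by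
  have h1 := (ha.mul hb).int μ
  have h2 := ha.int μ
  have h3 := hb.int μ
  have e : ∀ x, (a x + K) * (b x + L) = a x * b x + L * a x + (K * b x + K * L) := fun x => by ring
  simp only [e]
  have j1 : Integrable (fun x => a x * b x + L * a x) μ := h1.add (h2.const_mul L)
  have j2 : Integrable (fun x => K * b x + K * L) μ := (h3.const_mul K).add (integrable_const _)
  rw [integral_add j1 j2, integral_add h1 (h2.const_mul L),
    integral_add (h3.const_mul K) (integrable_const _),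
    integral_add h2 (integrable_const _), integral_add h3 (integrable_const _),
    integral_const_mul, integral_const_mul]
  simp only [integral_const, probReal_univ, one_smul]
  ring

theorem annQ (hD : D.Ok) {l n : ℕ} (hi : D.iso l n) {θ θ' : Td d} (hm : D.mut l n θ θ')
    {f f' : TT → ℝ} (hf : BM f) (hf' : BM f') (z z' : TT) :
    ∫ ω, f (orb (D.As ω θ) z n) * f' (orb (D.As ω θ') z' n) ∂law d =
      ∫ ω, Qn (D.s l) f (D.Ams l ω θ) n z * Qn (D.s l) f' (D.Ams l ω θ') n z' ∂law d := by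
  obtain ⟨hfm, K, hK⟩ := id hf
  obtain ⟨hfm', K', hK'⟩ := id hf'
  have hg : BM fun x => f x + K := hf.add (BM.const K)
  have hg' : BM fun x => f' x + K' := hf'.add (BM.const K')
  have g0 : ∀ x, 0 ≤ f x + K := fun x => by linarith [(abs_le.1 (hK x)).1]
  have g0' : ∀ x, 0 ≤ f' x + K' := fun x => by linarith [(abs_le.1 (hK' x)).1]
  have h1 : BM fun _ : TT => (1 : ℝ) := BM.const 1
  have E1 := annQ_pos56 hD hi hm hg hg' g0 g0' z z'
  have E2 := annQ_pos56 hD hi hm hg h1 g0 (fun _ => zero_le_one) z z'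
  have E3 := annQ_pos56 hD hi hm h1 hg' (fun _ => zero_le_one) g0' z z'
  simp only [Qn_one56, mul_one, one_mul, Qn_add56 hf, Qn_add56 hf'] at E1 E2 E3
  rw [expand56 (law d) (orb_BM56 hD hf θ z n) (orb_BM56 hD hf' θ' z' n) K K',
    expand56 (law d) (Qn_BM56 hD hf l θ z n) (Qn_BM56 hD hf' l θ' z' n) K K', E1, E2, E3]

end Pool.Agent.Helper46.QP
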