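import Mathlib

/-! Project QP (MP_9ee088_an), block GAP1: averaging over a small disc contracts the functions of mean zero on the circle. -/

set_option autoImplicit false
open MeasureTheory Real Set
open scoped ENNReal

namespace Pool.Agent.Helper46.QP

/-- the uniform law on the unit disc of `ℂ` -/
noncomputable def dl : Measure ℂ := (ENNReal.ofReal π)⁻¹ • volume.restrict (Metric.closedBall (0 : ℂ) 1)

instance : IsProbabilityMeasure dl := by
  constructor
  unfold dl
  rw [Measure.smul_apply, Measure.restrict_apply_univ, Complex.volume_closedBall, ENNReal.ofReal_one, one_pow,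
    one_mul, smul_eq_mul]
  have h : ENNReal.ofReal π = (NNReal.pi : ℝ≥0∞) := by
    rw [ENNReal.ofReal, Real.toNNReal_of_nonneg pi_pos.le]; rfl
  rw [h]
  exact ENNReal.inv_mul_cancel (by simp [NNReal.pi_ne_zero]) ENNReal.coe_ne_top

instance prob_circle : IsProbabilityMeasure (volume : Measure UnitAddCircle) := ⟨by
  rw [AddCircle.measure_univ, ENNReal.ofReal_one]⟩

/-- bounded and measurable -/
def BM {α : Type*} [MeasurableSpace α] (g : α → ℝ) : Prop := Measurable g ∧ ∃ K : ℝ, ∀ x, |g x| ≤ K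

theorem BM.int {α : Type*} [MeasurableSpace α] {g : α → ℝ} (hg : BM g) (μ : Measure α) [IsFiniteMeasure μ] :
    Integrable g μ := by
  obtain ⟨h1, K, hK⟩ := hg
  exact Integrable.of_bound h1.aestronglyMeasurable K (Filter.Eventually.of_forall fun x => hK x)

theorem BM.comp {α β : Type*} [MeasurableSpace α] [MeasurableSpace β] {g : α → ℝ} (hg : BM g) {f : β → α}
    (hf : Measurable f) : BM fun x => g (f x) :=
  ⟨hg.1.comp hf, hg.2.choose, fun x => hg.2.choose_spec (f x)⟩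

theorem BM.mul {α : Type*} [MeasurableSpace α] {f g : α → ℝ} (hf : BM f) (hg : BM g) : BM fun x => f x * g x := by
  obtain ⟨h1, K, hK⟩ := hf
  obtain ⟨h2, L, hL⟩ := hg
  refine ⟨h1.mul h2, K * L, fun x => ?_⟩
  rw [abs_mul]
  exact mul_le_mul (hK x) (hL x) (abs_nonneg _) ((abs_nonneg _).trans (hK x))

theorem BM.add {α : Type*} [MeasurableSpace α] {f g : α → ℝ} (hf : BM f) (hg : BM g) : BM fun x => f x + g x := by
  obtain ⟨h1, K, hK⟩ := hf
  obtain ⟨h2, L, hL⟩ := hg
  exact ⟨h1.add h2, K + L, fun x => (abs_add_le _ _).trans (add_le_add (hK x) (hL x))⟩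

theorem BM.sub {α : Type*} [MeasurableSpace α] {f g : α → ℝ} (hf : BM f) (hg : BM g) : BM fun x => f x - g x := by
  obtain ⟨h1, K, hK⟩ := hf
  obtain ⟨h2, L, hL⟩ := hg
  exact ⟨h1.sub h2, K + L, fun x => (abs_sub _ _).trans (add_le_add (hK x) (hL x))⟩

theorem BM.sq {α : Type*} [MeasurableSpace α] {f : α → ℝ} (hf : BM f) : BM fun x => f x ^ 2 := by
  have h := hf.mul hf
  have e : (fun x => f x ^ 2) = fun x => f x * f x := funext fun x => pow_two (f x)
  rw [e]; exact h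

theorem BM.const {α : Type*} [MeasurableSpace α] (c : ℝ) : BM fun _ : α => c :=
  ⟨measurable_const, |c|, fun _ => le_rfl⟩

theorem BM.const_mul {α : Type*} [MeasurableSpace α] (c : ℝ) {f : α → ℝ} (hf : BM f) : BM fun x => c * f x :=
  (BM.const c).mul hf

/-- a parametric integral -/
theorem BM.integral {α β : Type*} [MeasurableSpace α] [MeasurableSpace β] {f : α × β → ℝ} (hf : BM f)
    (μ : Measure β) [IsProbabilityMeasure μ] : BM fun x => ∫ y, f (x, y) ∂μ := by
  obtain ⟨h1, K, hK⟩ := hf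
  have h3 : StronglyMeasurable (Function.uncurry fun (x : α) (y : β) => f (x, y)) := h1.stronglyMeasurable
  refine ⟨h3.integral_prod_right.measurable, K, fun x => ?_⟩
  have := norm_integral_le_of_norm_le_const (μ := μ) (f := fun y => f (x, y)) (C := K)
    (Filter.Eventually.of_forall fun y => hK (x, y))
  simpa using this

theorem dl_im_ge {F : ℝ → ℝ} (hF : BM F) (h0 : ∀ r, 0 ≤ F r) :
    π⁻¹ * ∫ r in Icc (-(1 / 2) : ℝ) (1 / 2), F r ≤ ∫ ζ, F ζ.im ∂dl := by
  have hb : (Icc (-(1 / 2) : ℝ) (1 / 2)) ×ℂ (Icc (-(1 / 2) : ℝ) (1 / 2)) ⊆ Metric.closedBall (0 : ℂ) 1 := by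
    intro ζ hζ
    rw [Complex.mem_reProdIm] at hζ
    obtain ⟨⟨h1, h2⟩, h3, h4⟩ := hζ
    rw [mem_closedBall_zero_iff, ← sq_le_sq₀ (norm_nonneg _) zero_le_one, Complex.sq_norm, Complex.normSq_apply]
    nlinarith
  have hFm : Measurable fun ζ : ℂ => F ζ.im := hF.1.comp Complex.measurable_im
  have hi : Integrable (fun ζ : ℂ => F ζ.im) (volume.restrict (Metric.closedBall (0 : ℂ) 1)) := by
    have : IsFiniteMeasure (volume.restrict (Metric.closedBall (0 : ℂ) 1)) := ⟨by
      rw [Measure.restrict_apply_univ, Complex.volume_closedBall]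
      simp⟩
    exact (hF.comp Complex.measurable_im).int _
  unfold dl
  rw [integral_smul_measure, ENNReal.toReal_inv, ENNReal.toReal_ofReal pi_pos.le, smul_eq_mul]
  refine mul_le_mul_of_nonneg_left ?_ (by positivity)
  refine le_trans ?_ (setIntegral_mono_set hi (Filter.Eventually.of_forall fun ζ => h0 _) hb.eventuallyLE)
  have e1 : (Icc (-(1 / 2) : ℝ) (1 / 2)) ×ℂ (Icc (-(1 / 2) : ℝ) (1 / 2)) =
      Complex.measurableEquivRealProd ⁻¹' ((Icc (-(1 / 2) : ℝ) (1 / 2)) ×ˢ (Icc (-(1 / 2) : ℝ) (1 / 2))) := by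
    ext ζ
    simp only [Complex.mem_reProdIm, Complex.measurableEquivRealProd, mem_preimage, mem_prod]
    rfl
  have e2 : ∫ ζ in (Icc (-(1 / 2) : ℝ) (1 / 2)) ×ℂ (Icc (-(1 / 2) : ℝ) (1 / 2)), F ζ.im =
      ∫ p in (Icc (-(1 / 2) : ℝ) (1 / 2)) ×ˢ (Icc (-(1 / 2) : ℝ) (1 / 2)), F p.2 := by
    rw [e1, ← Complex.volume_preserving_equiv_real_prod.setIntegral_preimage_emb
      Complex.measurableEquivRealProd.measurableEmbedding (fun p : ℝ × ℝ => F p.2)]
    rfl
  rw [e2, Measure.volume_eq_prod, ← Measure.prod_restrict]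
  have := integral_prod_mul (μ := (volume.restrict (Icc (-(1 / 2) : ℝ) (1 / 2)))) (ν := (volume.restrict (Icc (-(1 / 2) : ℝ) (1 / 2))))
    (fun _ : ℝ => (1 : ℝ)) F
  simp only [one_mul] at this
  rw [this]
  have e3 : ∫ _ in Icc (-(1 / 2) : ℝ) (1 / 2), (1 : ℝ) = 1 := by
    simp
    norm_num
  rw [e3, one_mul]

/-- mean square difference under a translation -/
noncomputable def Dd (g : UnitAddCircle → ℝ) (h : ℝ) : ℝ := ∫ X, (g (X + (h : UnitAddCircle)) - g X) ^ 2

variable {g : UnitAddCircle → ℝ}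

theorem Dd_nonneg (h : ℝ) : 0 ≤ Dd g h := integral_nonneg fun _ => sq_nonneg _

theorem meas_coe : Measurable fun h : ℝ => (h : UnitAddCircle) := AddCircle.measurable_mk'

theorem Dd_BM (hg : BM g) : BM (Dd g) := by
  have h1 : BM fun p : ℝ × UnitAddCircle => (g (p.2 + (p.1 : UnitAddCircle)) - g p.2) ^ 2 :=
    ((hg.comp (measurable_snd.add (meas_coe.comp measurable_fst))).sub (hg.comp measurable_snd)).sq
  exact h1.integral volume

theorem Dd_eq (g : UnitAddCircle → ℝ) (a h : ℝ) :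
    ∫ X : UnitAddCircle, (g (X + (a : UnitAddCircle) + (h : UnitAddCircle)) - g (X + (a : UnitAddCircle))) ^ 2 =
      Dd g h := by
  unfold Dd
  exact integral_add_right_eq_self (fun X : UnitAddCircle => (g (X + (h : UnitAddCircle)) - g X) ^ 2)
    (a : UnitAddCircle)

theorem Dd_mul (hg : BM g) (m : ℕ) (h : ℝ) : Dd g (m * h) ≤ (m : ℝ) ^ 2 * Dd g h := by
  have hB : ∀ a b : ℝ, BM fun X : UnitAddCircle => (g (X + (a : UnitAddCircle)) - g (X + (b : UnitAddCircle))) ^ 2 :=
    fun a b => ((hg.comp (measurable_id.add_const _)).sub (hg.comp (measurable_id.add_const _))).sq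
  have h1 : ∀ X : UnitAddCircle, (g (X + ((m * h : ℝ) : UnitAddCircle)) - g X) ^ 2 ≤
      (m : ℝ) * ∑ j ∈ Finset.range m, (g (X + (((j + 1 : ℕ) * h : ℝ) : UnitAddCircle)) -
        g (X + ((j * h : ℝ) : UnitAddCircle))) ^ 2 := by
    intro X
    have e : g (X + ((m * h : ℝ) : UnitAddCircle)) - g X =
        ∑ j ∈ Finset.range m, (g (X + (((j + 1 : ℕ) * h : ℝ) : UnitAddCircle)) -
          g (X + ((j * h : ℝ) : UnitAddCircle))) := by
      rw [Finset.sum_range_sub fun j : ℕ => g (X + ((j * h : ℝ) : UnitAddCircle))]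
      simp
    rw [e]
    have := sq_sum_le_card_mul_sum_sq (s := Finset.range m) (f := fun j : ℕ =>
      (g (X + (((j + 1 : ℕ) * h : ℝ) : UnitAddCircle)) - g (X + ((j * h : ℝ) : UnitAddCircle))))
    rwa [Finset.card_range] at this
  have h2 : Dd g (m * h) ≤ ∫ X : UnitAddCircle, (m : ℝ) * ∑ j ∈ Finset.range m,
      (g (X + (((j + 1 : ℕ) * h : ℝ) : UnitAddCircle)) - g (X + ((j * h : ℝ) : UnitAddCircle))) ^ 2 := by
    refine integral_mono ?_ ?_ h1
    · have := (hB (m * h) 0).int volume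
      simpa using this
    · exact (integrable_finsetSum _ fun j _ => (hB _ _).int volume).const_mul _
  refine h2.trans (le_of_eq ?_)
  rw [integral_const_mul, integral_finsetSum _ fun j _ => (hB _ _).int volume]
  have h3 : ∀ j ∈ Finset.range m, ∫ X : UnitAddCircle, (g (X + (((j + 1 : ℕ) * h : ℝ) : UnitAddCircle)) -
      g (X + ((j * h : ℝ) : UnitAddCircle))) ^ 2 = Dd g h := by
    intro j _
    rw [← Dd_eq g (j * h) h]
    refine integral_congr_ae (Filter.Eventually.of_forall fun X => ?_)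
    have e : X + (((j + 1 : ℕ) * h : ℝ) : UnitAddCircle) =
        X + ((j * h : ℝ) : UnitAddCircle) + (h : UnitAddCircle) := by
      rw [add_assoc, ← AddCircle.coe_add]
      congr 2
      push_cast
      ring
    simp only [e]
  rw [Finset.sum_congr rfl h3, Finset.sum_const, Finset.card_range, nsmul_eq_mul]
  ring

theorem int_Dd (hg : BM g) : ∫ h in Ioc (0 : ℝ) 1, Dd g h = 2 * ((∫ X, g X ^ 2) - (∫ X, g X) ^ 2) := by
  have h0 : ∀ h : ℝ, Dd g h = ∫ X : UnitAddCircle, (fun Y : UnitAddCircle => (g (X + Y) - g X) ^ 2) h := fun h => rfl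
  have hB : BM fun p : UnitAddCircle × UnitAddCircle => (g (p.1 + p.2) - g p.1) ^ 2 :=
    ((hg.comp (measurable_fst.add measurable_snd)).sub (hg.comp measurable_fst)).sq
  have hsw : BM fun p : UnitAddCircle × UnitAddCircle => (g (p.2 + p.1) - g p.2) ^ 2 := by
    exact hB.comp measurable_swap
  have h1 : ∫ h in Ioc (0 : ℝ) 1, Dd g h = ∫ Y : UnitAddCircle, ∫ X : UnitAddCircle, (g (X + Y) - g X) ^ 2 := by
    have := AddCircle.integral_preimage (1 : ℝ) 0 (fun Y : UnitAddCircle => ∫ X : UnitAddCircle, (g (X + Y) - g X) ^ 2)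
    rw [zero_add] at this
    exact this
  rw [h1, integral_integral_swap (f := fun Y X : UnitAddCircle => (g (X + Y) - g X) ^ 2) (hsw.int _)]
  have h2 : ∀ X : UnitAddCircle, ∫ Y : UnitAddCircle, (g (X + Y) - g X) ^ 2 =
      (∫ Y, g Y ^ 2) - 2 * (∫ Y, g Y) * g X + g X ^ 2 := by
    intro X
    have e : ∀ Y : UnitAddCircle, (g (X + Y) - g X) ^ 2 = g (X + Y) ^ 2 - 2 * g X * g (X + Y) + g X ^ 2 := fun Y => by ring
    simp only [e]
    have i1 : Integrable (fun Y : UnitAddCircle => g (X + Y) ^ 2) := (hg.comp (measurable_const.add measurable_id)).sq.int _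
    have i2 : Integrable (fun Y : UnitAddCircle => 2 * g X * g (X + Y)) :=
      ((hg.comp (measurable_const.add measurable_id)).const_mul _).int _
    have i12 : Integrable (fun Y : UnitAddCircle => g (X + Y) ^ 2 - 2 * g X * g (X + Y)) := i1.sub i2
    rw [integral_add i12 (integrable_const _), integral_sub i1 i2, integral_const_mul,
      integral_add_left_eq_self (fun Y : UnitAddCircle => g Y ^ 2) X, integral_add_left_eq_self (fun Y : UnitAddCircle => g Y) X]
    simp
    ring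
  simp only [h2]
  have i3 : Integrable fun X : UnitAddCircle => (∫ Y, g Y ^ 2) - 2 * (∫ Y, g Y) * g X :=
    ((BM.const _).sub (hg.const_mul _)).int _
  rw [integral_add i3 (hg.sq.int _), integral_sub (integrable_const _) ((hg.const_mul _).int _), integral_const_mul,
    integral_const, probReal_univ, one_smul]
  ring

/-- the variance is controlled by small translations -/
theorem var_le (hg : BM g) {s : ℝ} (hs : 0 < s) (hs1 : s ≤ 1) :
    2 * ((∫ X, g X ^ 2) - (∫ X, g X) ^ 2) ≤ 27 / s ^ 2 * ∫ t in Ioc (0 : ℝ) (1 / 2), Dd g (s * t) := by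
  rw [← int_Dd hg]
  set m : ℕ := ⌈2 / s⌉₊ with hm
  have hm1 : 2 / s ≤ m := Nat.le_ceil _
  have hm2 : (m : ℝ) ≤ 3 / s := by
    have := Nat.ceil_lt_add_one (show 0 ≤ 2 / s by positivity)
    have h2 : 1 ≤ 1 / s := by rw [le_div_iff₀ hs]; linarith
    have h3 : 3 / s = 2 / s + 1 / s := by ring
    rw [← hm] at this
    linarith
  have hm0 : 0 < (m : ℝ) := lt_of_lt_of_le (by positivity) hm1
  have hDi : ∀ a b : ℝ, IntervalIntegrable (Dd g) volume a b := fun a b => by
    rw [intervalIntegrable_iff, uIoc]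
    exact (Dd_BM hg).int _
  have e0 : ∫ h in Ioc (0 : ℝ) 1, Dd g h = ∫ h in (0 : ℝ)..1, Dd g h := by
    rw [intervalIntegral.integral_of_le zero_le_one]
  have h1 : ∫ h in (0 : ℝ)..1, Dd g h ≤ ∫ h in (0 : ℝ)..1, (m : ℝ) ^ 2 * Dd g (h / m) := by
    refine intervalIntegral.integral_mono_on zero_le_one (hDi 0 1) ?_ fun h _ => ?_
    · rw [intervalIntegrable_iff, uIoc]
      exact (((Dd_BM hg).comp (measurable_id.div_const _)).const_mul _).int _
    · have := Dd_mul hg m (h / m)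
      rwa [mul_div_cancel₀ _ hm0.ne'] at this
  have h2 : ∫ h in (0 : ℝ)..1, (m : ℝ) ^ 2 * Dd g (h / m) = (m : ℝ) ^ 3 * ∫ h in (0 : ℝ)..(1 / m), Dd g h := by
    rw [intervalIntegral.integral_const_mul, intervalIntegral.integral_comp_div _ hm0.ne', zero_div, smul_eq_mul]
    ring
  have h3 : ∫ h in (0 : ℝ)..(1 / m), Dd g h ≤ ∫ h in (0 : ℝ)..(s / 2), Dd g h := by
    have hle : 1 / (m : ℝ) ≤ s / 2 := by
      rw [div_le_div_iff₀ hm0 two_pos]
      rw [div_le_iff₀ hs] at hm1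
      linarith
    rw [← intervalIntegral.integral_add_adjacent_intervals (hDi 0 (1 / m)) (hDi (1 / m) (s / 2))]
    have := intervalIntegral.integral_nonneg (μ := volume) hle (f := Dd g) fun u _ => Dd_nonneg u
    linarith
  have h4 : ∫ h in (0 : ℝ)..(s / 2), Dd g h = s * ∫ t in (0 : ℝ)..(1 / 2), Dd g (s * t) := by
    rw [intervalIntegral.integral_comp_mul_left _ hs.ne', smul_eq_mul, mul_zero]
    rw [← mul_assoc, mul_inv_cancel₀ hs.ne', one_mul]
    congr 1
    ring
  have h5 : 0 ≤ ∫ t in (0 : ℝ)..(1 / 2), Dd g (s * t) :=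
    intervalIntegral.integral_nonneg (by norm_num) fun u _ => Dd_nonneg _
  have h6 : (m : ℝ) ^ 3 ≤ 27 / s ^ 3 := by
    have := pow_le_pow_left₀ hm0.le hm2 3
    rw [div_pow] at this
    norm_num at this ⊢
    exact this
  have e1 : ∫ t in Ioc (0 : ℝ) (1 / 2), Dd g (s * t) = ∫ t in (0 : ℝ)..(1 / 2), Dd g (s * t) := by
    rw [intervalIntegral.integral_of_le (by norm_num)]
  rw [e0, e1]
  calc ∫ h in (0 : ℝ)..1, Dd g h ≤ (m : ℝ) ^ 3 * ∫ h in (0 : ℝ)..(1 / m), Dd g h := by rw [← h2]; exact h1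
    _ ≤ (m : ℝ) ^ 3 * ∫ h in (0 : ℝ)..(s / 2), Dd g h := mul_le_mul_of_nonneg_left h3 (by positivity)
    _ = (m : ℝ) ^ 3 * (s * ∫ t in (0 : ℝ)..(1 / 2), Dd g (s * t)) := by rw [h4]
    _ ≤ 27 / s ^ 3 * (s * ∫ t in (0 : ℝ)..(1 / 2), Dd g (s * t)) :=
        mul_le_mul_of_nonneg_right h6 (mul_nonneg hs.le h5)
    _ = 27 / s ^ 2 * ∫ t in (0 : ℝ)..(1 / 2), Dd g (s * t) := by
        field_simp

theorem dbl_ge (hg : BM g) (s : ℝ) :
    π⁻¹ ^ 2 / 2 * ∫ t in Ioc (0 : ℝ) (1 / 2), Dd g (s * t) ≤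
      ∫ ζ', ∫ ζ, Dd g (s * (ζ.im - ζ'.im)) ∂dl ∂dl := by
  have hD := Dd_BM hg
  set I : ℝ := ∫ t in Ioc (0 : ℝ) (1 / 2), Dd g (s * t) with hI
  have hI0 : 0 ≤ I := setIntegral_nonneg measurableSet_Ioc fun t _ => Dd_nonneg _
  have hB1 : BM fun p : ℝ × ℝ => Dd g (s * (p.2 - p.1)) :=
    hD.comp (measurable_const.mul (measurable_snd.sub measurable_fst))
  have hfin : IsFiniteMeasure (volume.restrict (Icc (-(1 / 2) : ℝ) (1 / 2))) := inferInstance
  set H : ℝ → ℝ := fun r' => π⁻¹ * ∫ r in Icc (-(1 / 2) : ℝ) (1 / 2), Dd g (s * (r - r')) with hH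
  have hHi : BM H := by
    have hp : IsProbabilityMeasure (volume.restrict (Icc (-(1 / 2) : ℝ) (1 / 2))) := ⟨by
      rw [Measure.restrict_apply_univ, Real.volume_Icc]
      norm_num⟩
    exact (hB1.integral (volume.restrict (Icc (-(1 / 2) : ℝ) (1 / 2)))).const_mul _
  have hH0 : ∀ r, 0 ≤ H r := fun r =>
    mul_nonneg (by positivity) (integral_nonneg fun _ => Dd_nonneg _)
  have h1 : ∀ ζ' : ℂ, H ζ'.im ≤ ∫ ζ, Dd g (s * (ζ.im - ζ'.im)) ∂dl := fun ζ' =>
    dl_im_ge (F := fun r => Dd g (s * (r - ζ'.im)))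
      (hD.comp (measurable_const.mul (measurable_id.sub_const _))) fun r => Dd_nonneg _
  have hB2 : BM fun p : ℂ × ℂ => Dd g (s * (p.2.im - p.1.im)) :=
    hD.comp (measurable_const.mul ((Complex.measurable_im.comp measurable_snd).sub
      (Complex.measurable_im.comp measurable_fst)))
  have h2 : ∫ ζ', H ζ'.im ∂dl ≤ ∫ ζ', ∫ ζ, Dd g (s * (ζ.im - ζ'.im)) ∂dl ∂dl :=
    integral_mono ((hHi.comp Complex.measurable_im).int dl) ((hB2.integral dl).int dl) h1
  refine le_trans ?_ (le_trans (dl_im_ge hHi hH0) h2)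
  have h3 : ∀ r' ∈ Icc (-(1 / 2) : ℝ) 0, π⁻¹ * I ≤ H r' := by
    intro r' hr'
    refine mul_le_mul_of_nonneg_left ?_ (by positivity)
    have e1 : I = ∫ r in Ioc r' (r' + 1 / 2), Dd g (s * (r - r')) := by
      rw [hI, ← intervalIntegral.integral_of_le (by norm_num), ← intervalIntegral.integral_of_le (by linarith),
        intervalIntegral.integral_comp_sub_right (fun t => Dd g (s * t)) r', sub_self, add_sub_cancel_left]
    rw [e1]
    refine setIntegral_mono_set ((hD.comp (measurable_const.mul (measurable_id.sub_const _))).int _)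
      (Filter.Eventually.of_forall fun _ => Dd_nonneg _) ?_
    refine HasSubset.Subset.eventuallyLE fun r hr => ?_
    exact ⟨by linarith [hr.1, hr'.1], by linarith [hr.2, hr'.2]⟩
  have h4 : π⁻¹ * I / 2 ≤ ∫ r in Icc (-(1 / 2) : ℝ) (1 / 2), H r := by
    calc π⁻¹ * I / 2 = ∫ _ in Icc (-(1 / 2) : ℝ) 0, π⁻¹ * I := by
          rw [setIntegral_const, Measure.real, Real.volume_Icc, ENNReal.toReal_ofReal (by norm_num), smul_eq_mul]
          ring
      _ ≤ ∫ r in Icc (-(1 / 2) : ℝ) 0, H r :=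
          setIntegral_mono_on (integrable_const _) (hHi.int _) measurableSet_Icc h3
      _ ≤ ∫ r in Icc (-(1 / 2) : ℝ) (1 / 2), H r :=
          setIntegral_mono_set (hHi.int _) (Filter.Eventually.of_forall hH0)
            (HasSubset.Subset.eventuallyLE fun r hr => ⟨hr.1, by linarith [hr.2]⟩)
  have h5 := mul_le_mul_of_nonneg_left h4 (show (0 : ℝ) ≤ π⁻¹ by positivity)
  refine le_trans (le_of_eq ?_) h5
  ring

theorem contr1 (hg : BM g) {s : ℝ} (hs : 0 < s) (hs1 : s ≤ 1) :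
    ∫ X : UnitAddCircle, (∫ ζ, g (X + ((s * ζ.im : ℝ) : UnitAddCircle)) ∂dl) ^ 2 ≤
      (∫ X, g X ^ 2) - s ^ 2 / 540 * ((∫ X, g X ^ 2) - (∫ X, g X) ^ 2) := by
  have hD := Dd_BM hg
  have hsh : Measurable fun p : ℂ × UnitAddCircle => p.2 + ((s * p.1.im : ℝ) : UnitAddCircle) :=
    measurable_snd.add (meas_coe.comp (measurable_const.mul (Complex.measurable_im.comp measurable_fst)))
  have hB : BM fun p : ℂ × UnitAddCircle => g (p.2 + ((s * p.1.im : ℝ) : UnitAddCircle)) := hg.comp hsh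
  have hB3 : BM fun p : (ℂ × ℂ) × UnitAddCircle => g (p.2 + ((s * p.1.1.im : ℝ) : UnitAddCircle)) *
      g (p.2 + ((s * p.1.2.im : ℝ) : UnitAddCircle)) :=
    (hB.comp ((measurable_fst.comp measurable_fst).prodMk measurable_snd)).mul
      (hB.comp ((measurable_snd.comp measurable_fst).prodMk measurable_snd))
  -- the square as a double integral
  have h1 : ∀ X : UnitAddCircle, (∫ ζ, g (X + ((s * ζ.im : ℝ) : UnitAddCircle)) ∂dl) ^ 2 =
      ∫ q : ℂ × ℂ, g (X + ((s * q.1.im : ℝ) : UnitAddCircle)) * g (X + ((s * q.2.im : ℝ) : UnitAddCircle)) ∂(dl.prod dl) := by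
    intro X
    rw [integral_prod_mul (fun ζ : ℂ => g (X + ((s * ζ.im : ℝ) : UnitAddCircle)))
      (fun ζ : ℂ => g (X + ((s * ζ.im : ℝ) : UnitAddCircle))), sq]
  have hsw : BM fun p : UnitAddCircle × (ℂ × ℂ) => g (p.1 + ((s * p.2.1.im : ℝ) : UnitAddCircle)) *
      g (p.1 + ((s * p.2.2.im : ℝ) : UnitAddCircle)) := hB3.comp measurable_swap
  have h2 : ∫ X : UnitAddCircle, (∫ ζ, g (X + ((s * ζ.im : ℝ) : UnitAddCircle)) ∂dl) ^ 2 =
      ∫ q : ℂ × ℂ, (∫ X : UnitAddCircle, g (X + ((s * q.1.im : ℝ) : UnitAddCircle)) *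
        g (X + ((s * q.2.im : ℝ) : UnitAddCircle))) ∂(dl.prod dl) := by
    simp only [h1]
    rw [integral_integral_swap (hsw.int _)]
  have h3 : ∀ q : ℂ × ℂ, ∫ X : UnitAddCircle, g (X + ((s * q.1.im : ℝ) : UnitAddCircle)) *
      g (X + ((s * q.2.im : ℝ) : UnitAddCircle)) = (∫ X, g X ^ 2) - Dd g (s * (q.2.im - q.1.im)) / 2 := by
    intro q
    have e1 : ∀ X : UnitAddCircle, g (X + ((s * q.1.im : ℝ) : UnitAddCircle)) *
        g (X + ((s * q.2.im : ℝ) : UnitAddCircle)) =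
        g (X + ((s * q.1.im : ℝ) : UnitAddCircle)) ^ 2 / 2 + g (X + ((s * q.2.im : ℝ) : UnitAddCircle)) ^ 2 / 2 -
          (g (X + ((s * q.1.im : ℝ) : UnitAddCircle) + ((s * (q.2.im - q.1.im) : ℝ) : UnitAddCircle)) -
            g (X + ((s * q.1.im : ℝ) : UnitAddCircle))) ^ 2 / 2 := by
      intro X
      have e2 : X + ((s * q.1.im : ℝ) : UnitAddCircle) + ((s * (q.2.im - q.1.im) : ℝ) : UnitAddCircle) =
          X + ((s * q.2.im : ℝ) : UnitAddCircle) := by
        rw [add_assoc, ← AddCircle.coe_add]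
        congr 2
        ring
      rw [e2]
      ring
    simp only [e1]
    have i1 : ∀ c : UnitAddCircle, Integrable fun X : UnitAddCircle => g (X + c) ^ 2 / 2 := fun c => by
      have := ((hg.comp (measurable_id.add_const c)).sq.const_mul (1 / 2)).int (volume : Measure UnitAddCircle)
      refine this.congr (Filter.Eventually.of_forall fun X => ?_)
      simp only [id]
      ring
    have i2 : Integrable fun X : UnitAddCircle =>
        (g (X + ((s * q.1.im : ℝ) : UnitAddCircle) + ((s * (q.2.im - q.1.im) : ℝ) : UnitAddCircle)) -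
            g (X + ((s * q.1.im : ℝ) : UnitAddCircle))) ^ 2 / 2 := by
      have := ((((hg.comp ((measurable_id.add_const ((s * q.1.im : ℝ) : UnitAddCircle)).add_const
        ((s * (q.2.im - q.1.im) : ℝ) : UnitAddCircle))).sub
        (hg.comp (measurable_id.add_const ((s * q.1.im : ℝ) : UnitAddCircle)))).sq).const_mul (1 / 2)).int
        (volume : Measure UnitAddCircle)
      refine this.congr (Filter.Eventually.of_forall fun X => ?_)
      simp only [id]
      ring
    have i12 : Integrable fun X : UnitAddCircle =>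
      g (X + ((s * q.1.im : ℝ) : UnitAddCircle)) ^ 2 / 2 + g (X + ((s * q.2.im : ℝ) : UnitAddCircle)) ^ 2 / 2 :=
      (i1 _).add (i1 _)
    rw [integral_sub i12 i2, integral_add (i1 _) (i1 _), integral_div, integral_div, integral_div,
      integral_add_right_eq_self (fun X : UnitAddCircle => g X ^ 2), integral_add_right_eq_self (fun X : UnitAddCircle => g X ^ 2),
      Dd_eq g (s * q.1.im) (s * (q.2.im - q.1.im))]
    ring
  have hBK : BM fun q : ℂ × ℂ => Dd g (s * (q.2.im - q.1.im)) :=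
    hD.comp (measurable_const.mul ((Complex.measurable_im.comp measurable_snd).sub
      (Complex.measurable_im.comp measurable_fst)))
  have h4 : ∫ X : UnitAddCircle, (∫ ζ, g (X + ((s * ζ.im : ℝ) : UnitAddCircle)) ∂dl) ^ 2 =
      (∫ X, g X ^ 2) - (∫ q : ℂ × ℂ, Dd g (s * (q.2.im - q.1.im)) ∂(dl.prod dl)) / 2 := by
    rw [h2]
    simp only [h3]
    have i3 : Integrable (fun q : ℂ × ℂ => Dd g (s * (q.2.im - q.1.im)) / 2) (dl.prod dl) :=
      (hBK.int _).div_const 2
    rw [integral_sub (integrable_const _) i3, integral_div, integral_const, probReal_univ, one_smul]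
  have h5 : ∫ q : ℂ × ℂ, Dd g (s * (q.2.im - q.1.im)) ∂(dl.prod dl) =
      ∫ ζ', ∫ ζ, Dd g (s * (ζ.im - ζ'.im)) ∂dl ∂dl := integral_prod _ (hBK.int _)
  have h6 := dbl_ge hg s
  have h7 := var_le hg hs hs1
  rw [h4, h5]
  set I : ℝ := ∫ t in Ioc (0 : ℝ) (1 / 2), Dd g (s * t)
  set V : ℝ := (∫ X, g X ^ 2) - (∫ X, g X) ^ 2
  set K : ℝ := ∫ ζ', ∫ ζ, Dd g (s * (ζ.im - ζ'.im)) ∂dl ∂dl
  have hV0 : 0 ≤ V := by
    have := int_Dd hg
    have h8 : 0 ≤ ∫ h in Ioc (0 : ℝ) 1, Dd g h := integral_nonneg fun _ => Dd_nonneg _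
    rw [this] at h8
    linarith
  have h9 : 2 * V * s ^ 2 / 27 ≤ I := by
    rw [div_le_iff₀ (by norm_num)]
    have := mul_le_mul_of_nonneg_right h7 (sq_nonneg s)
    have e : 27 / s ^ 2 * I * s ^ 2 = 27 * I := by field_simp
    rw [e] at this
    linarith
  have hpi : (1 / 10 : ℝ) ≤ π⁻¹ ^ 2 := by
    have h10 := Real.pi_lt_d2
    have h11 : π ^ 2 ≤ 10 := by nlinarith [Real.pi_pos]
    rw [inv_pow, ← one_div]
    exact one_div_le_one_div_of_le (by positivity) h11
  have hI0 : 0 ≤ I := le_trans (by positivity) h9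
  have h12 : 1 / 10 / 2 * I ≤ K :=
    le_trans (mul_le_mul_of_nonneg_right (by linarith) hI0) h6
  nlinarith

end Pool.Agent.Helper46.QP
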