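import Pool.Agent.Helper95.PV.Bas
import Pool.Agent.Helper95.PV.Cell
import Pool.Agent.Helper46.QP.Gap1

/-! Project QP (MP_9ee088_an): standard maps with a quasi-periodic, typical complex amplitude. Definitions.
Proof in words: README.md in this folder. -/

set_option autoImplicit false
open MeasureTheory Real Set
open scoped ENNReal

namespace Pool.Agent.Helper46.QP

open Pool.Agent.Helper18.UC (nn)
open Pool.Agent.Helper18.FD (NN rr)
open Pool.Agent.Helper95.PV (rp tc cel mv)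

/-- the circle, the torus of the phase points, the torus of the phases of the modulation -/
abbrev TT := UnitAddCircle × UnitAddCircle
abbrev Td (d : ℕ) := Fin d → UnitAddCircle

/-- `e^{2π i x}` -/
noncomputable def ee (x : UnitAddCircle) : ℂ := fourier 1 x

/-- the standard map with the complex amplitude `A` -/
noncomputable def stp (A : ℂ) (z : TT) : TT :=
  (z.1 + z.1 - z.2 + (((A * ee z.1).im : ℝ) : UnitAddCircle), z.1)

/-- the entry of the derivative -/
noncomputable def va (A : ℂ) (x : UnitAddCircle) : ℝ := 2 + 2 * π * (A * ee x).re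

/-- the orbit of `z` for the amplitudes `A 0, A 1, ..` -/
noncomputable def orb (A : ℕ → ℂ) (z : TT) : ℕ → TT
  | 0 => z
  | n + 1 => stp (A n) (orb A z n)

/-- the derivative matrices along the orbit -/
noncomputable def Mx (A : ℕ → ℂ) (z : TT) : ℕ → Matrix (Fin 2) (Fin 2) ℝ
  | 0 => 1
  | n + 1 => mv (va (A n) (orb A z n).1) * Mx A z n

/-! ### the noise -/

/-- indices: level and cell -/
abbrev Ix (d : ℕ) := ℕ × (Fin d → ℕ)

abbrev Om (d : ℕ) := Ix d → ℂ

noncomputable def law (d : ℕ) : Measure (Om d) := Measure.infinitePi fun _ : Ix d => dl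

instance (d : ℕ) : IsProbabilityMeasure (law d) := by unfold law; infer_instance

/-- keeps the point if it is in the unit disc -/
noncomputable def clip (w : ℂ) : ℂ := if ‖w‖ ≤ 1 then w else 0

variable {d : ℕ}

/-- the coefficient of the cell `c` of level `l` at the point `θ` -/
noncomputable def cf (χ : ℝ → ℝ) (l : ℕ) (c : Fin d → ℕ) (θ : Td d) : ℝ := ∏ m, χ (tc l (c m) (θ m))

/-- the noise of level `l` -/
noncomputable def lvl (χ : ℝ → ℝ) (ω : Om d) (l : ℕ) (θ : Td d) : ℂ :=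
  ∑ c ∈ Fintype.piFinset fun _ : Fin d => Finset.range (NN l), (cf χ l c θ : ℂ) * clip (ω (l, c))

/-- the noise -/
noncomputable def nz (χ : ℝ → ℝ) (b : ℝ) (ω : Om d) (θ : Td d) : ℂ :=
  ∑' l : ℕ, (((NN l : ℝ) ^ (-b) : ℝ) : ℂ) * lvl χ ω l θ

/-- the data: frequencies, background, size of the noise, regularity, bump -/
structure Dat (d : ℕ) where
  α : Td d
  A0 : Td d → ℂ
  q : ℝ
  b : ℝ
  χ : ℝ → ℝ

structure Dat.Ok (D : Dat d) : Prop where
  hd : 0 < d
  hA : Continuous D.A0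
  hq : 0 < D.q
  hb : 0 < D.b
  hχ : Continuous D.χ
  one : ∀ t, |t| ≤ 1 / 2 → D.χ t = 1
  zero : ∀ t, 1 ≤ |t| → D.χ t = 0

/-- the amplitude -/
noncomputable def Dat.A (D : Dat d) (ω : Om d) (θ : Td d) : ℂ := D.A0 θ + D.q * nz D.χ D.b ω θ

/-- the amplitudes along the rotation -/
noncomputable def Dat.As (D : Dat d) (ω : Om d) (θ : Td d) (j : ℕ) : ℂ := D.A ω (θ + j • D.α)

/-- the map of the torus of dimension `d + 2` for a fixed noise -/
noncomputable def Dat.F (D : Dat d) (ω : Om d) (p : Td d × TT) : Td d × TT :=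
  (p.1 + D.α, stp (D.A ω p.1) p.2)

/-- the cell of level `l` of a point -/
noncomputable def cl (l : ℕ) (θ : Td d) (m : Fin d) : ℕ := cel l (θ m)

/-- size of the noise of level `l` -/
noncomputable def Dat.s (D : Dat d) (l : ℕ) : ℝ := D.q * (NN l : ℝ) ^ (-D.b)

/-- the amplitude at `θ` without the noise of the cell of `θ` of level `l` -/
noncomputable def Dat.Am (D : Dat d) (l : ℕ) (ω : Om d) (θ : Td d) : ℂ :=
  D.A (Function.update ω (l, cl l θ) 0) θ

/-- the same along the rotation -/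
noncomputable def Dat.Ams (D : Dat d) (l : ℕ) (ω : Om d) (θ : Td d) (j : ℕ) : ℂ := D.Am l ω (θ + j • D.α)

/-- the orbits of the rotation of length `n` are separated at level `l` -/
def Dat.iso (D : Dat d) (l n : ℕ) : Prop := ∀ k : ℕ, 1 ≤ k → k < n → 2 / (NN l : ℝ) ≤ ‖k • D.α‖

/-- the orbits of length `n` of `θ` and `θ'` are separated at level `l` -/
def Dat.mut (D : Dat d) (l n : ℕ) (θ θ' : Td d) : Prop :=
  ∀ i < n, ∀ j < n, 2 / (NN l : ℝ) ≤ dist (θ + i • D.α) (θ' + j • D.α)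

/-! ### chains -/

/-- weighted chain: `kk` weights, `st` steps, `φ` terminal function -/
noncomputable def ch {Y : Type*} (st : ℂ → Y → Y) (kk : ℂ → Y → ℝ≥0∞) (φ : Y → ℝ≥0∞) :
    (ℕ → ℂ) → ℕ → Y → ℝ≥0∞
  | _, 0, y => φ y
  | A, n + 1, y => kk (A 0) y * ch st kk φ (fun j => A (j + 1)) n (st (A 0) y)

/-- the chain averaged over independent uniform perturbations of size `s` of the amplitudes -/
noncomputable def ach {Y : Type*} (st : ℂ → Y → Y) (kk : ℂ → Y → ℝ≥0∞) (φ : Y → ℝ≥0∞) (s : ℝ) :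
    (ℕ → ℂ) → ℕ → Y → ℝ≥0∞
  | _, 0, y => φ y
  | A, n + 1, y => ∫⁻ w, kk (A 0 + s * w) y * ach st kk φ s (fun j => A (j + 1)) n (st (A 0 + s * w) y) ∂dl

/-- the averaged operators -/
noncomputable def Qn (s : ℝ) (f : TT → ℝ) : (ℕ → ℂ) → ℕ → TT → ℝ
  | _, 0, z => f z
  | A, n + 1, z => ∫ w, Qn s f (fun j => A (j + 1)) n (stp (A 0 + s * w) z) ∂dl

/-- step, weight and terminal function of the chain which measures the growth of the derivative -/
noncomputable def gst (A : ℂ) (y : TT × ℝ) : TT × ℝ := (stp A y.1, va A y.1.1 - y.2⁻¹)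

noncomputable def gkk (_ : ℂ) (y : TT × ℝ) : ℝ≥0∞ := ENNReal.ofReal |y.2|⁻¹

noncomputable def gph (y : TT × ℝ) : ℝ≥0∞ := ENNReal.ofReal (|y.2| + 1)⁻¹

/-! ### trivial lemmas -/

lemma orb_succ (A : ℕ → ℂ) (z : TT) (n : ℕ) : orb A z (n + 1) = stp (A n) (orb A z n) := rfl

lemma Mx_succ (A : ℕ → ℂ) (z : TT) (n : ℕ) : Mx A z (n + 1) = mv (va (A n) (orb A z n).1) * Mx A z n := rfl

lemma orb_add (A : ℕ → ℂ) (z : TT) (m n : ℕ) :
    orb A z (m + n) = orb (fun j => A (j + m)) (orb A z m) n := by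
  induction n with
  | zero => rfl
  | succ n ih =>
    rw [← add_assoc, orb_succ, ih, orb_succ, add_comm m n]

lemma Mx_add (A : ℕ → ℂ) (z : TT) (m n : ℕ) :
    Mx A z (m + n) = Mx (fun j => A (j + m)) (orb A z m) n * Mx A z m := by
  induction n with
  | zero => simp [Mx]
  | succ n ih =>
    rw [← add_assoc, Mx_succ, ih, Mx_succ, orb_add, add_comm m n, Matrix.mul_assoc]

lemma orb_one_add (A : ℕ → ℂ) (z : TT) (n : ℕ) :
    orb A z (n + 1) = orb (fun j => A (j + 1)) (stp (A 0) z) n := by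
  rw [add_comm, orb_add]; rfl

lemma Mx_one_add (A : ℕ → ℂ) (z : TT) (n : ℕ) :
    Mx A z (n + 1) = Mx (fun j => A (j + 1)) (stp (A 0) z) n * mv (va (A 0) z.1) := by
  rw [add_comm, Mx_add]
  show _ * (mv (va (A 0) z.1) * 1) = _
  rw [Matrix.mul_one]; rfl

lemma det_Mx (A : ℕ → ℂ) (z : TT) (n : ℕ) : (Mx A z n).det = 1 := by
  induction n with
  | zero => exact Matrix.det_one
  | succ n ih => rw [Mx_succ, Matrix.det_mul, Pool.Agent.Helper95.PV.det_mv, ih, one_mul]

lemma As_add (D : Dat d) (ω : Om d) (θ : Td d) (m : ℕ) :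
    (fun j => D.As ω θ (j + m)) = D.As ω (θ + m • D.α) := by
  funext j
  unfold Dat.As
  congr 1
  rw [add_assoc, ← add_nsmul, add_comm m j]

lemma F_iter (D : Dat d) (ω : Om d) (θ : Td d) (z : TT) (n : ℕ) :
    (D.F ω)^[n] (θ, z) = (θ + n • D.α, orb (D.As ω θ) z n) := by
  induction n with
  | zero => simp [orb]
  | succ n ih =>
    rw [Function.iterate_succ_apply', ih]
    unfold Dat.F
    rw [orb_succ]
    refine Prod.ext ?_ rfl
    show θ + n • D.α + D.α = θ + (n + 1) • D.α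
    rw [succ_nsmul, add_assoc]

end Pool.Agent.Helper46.QP
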