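import Pool.Agent.Helper46.QP.Defs

/-! Block QP-FIELD: the amplitude field. `PV.Cell` has the facts on one coordinate (`cel_lt`, `inn_cel`, `out_of_far`, `meas_cel`, `tc_coe`, `meas_rp`).
`cf χ l c θ = 0` if `1 ≤ |tc l (c m) (θ m)|` for some `m`, and `= 1` if `|tc l (c m) (θ m)| ≤ 1/2` for all `m`. Bound: `Σ_c |cf χ l c θ| ≤ (2 K)^d` (`Finset.prod_univ_sum`, at most two cells `i < N` with `|tc l i x| < 1`), `|χ| ≤ K`
(continuous with compact support), so the series converges uniformly (`b > 0`). `dist θ θ' ≥ 2/N` gives an `m` with `dist (θ m) (θ' m) ≥ 2/N`, so `|tc l (cl l θ m) (θ' m)| ≥ 1` (`out_of_far`). -/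

set_option autoImplicit false
open MeasureTheory Real Set
open scoped ENNReal

namespace Pool.Agent.Helper46.QP

open Pool.Agent.Helper18.UC (nn)
open Pool.Agent.Helper18.FD (NN rr)
open Pool.Agent.Helper95.PV (rp tc cel mv)

variable {d : ℕ} {D : Dat d}

/-! ### one coordinate -/

private theorem chi_bd76 (hD : D.Ok) : ∃ K : ℝ, 0 ≤ K ∧ ∀ t, |D.χ t| ≤ K := by
  obtain ⟨K, hK⟩ := (isCompact_Icc (a := (-1 : ℝ)) (b := 1)).exists_bound_of_continuousOn
    hD.hχ.continuousOn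
  refine ⟨max K 0, le_max_right _ _, fun t => ?_⟩
  by_cases ht : |t| ≤ 1
  · have h1 := hK t (abs_le.1 ht)
    rw [Real.norm_eq_abs] at h1
    exact h1.trans (le_max_left _ _)
  · rw [hD.zero t (not_le.1 ht).le, abs_zero]
    exact le_max_right _ _

private theorem nn4_76 (l : ℕ) : 4 ≤ NN l := by
  have := Pool.Agent.Helper18.FD.NN_ge l
  have h : (4 : ℝ) ≤ (NN l : ℝ) := by linarith
  exact_mod_cast h

private theorem sum_chi76 (hD : D.Ok) {K : ℝ} (hK : ∀ t, |D.χ t| ≤ K) (l : ℕ) (x : UnitAddCircle) :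
    ∑ i ∈ Finset.range (NN l), |D.χ (tc l i x)| ≤ 2 * K :=
  Pool.Agent.Helper18.FD.pr_sum (nn4_76 l) hK hD.zero (rp x)

private theorem chi_cont76 (hD : D.Ok) (l i : ℕ) : Continuous fun x : UnitAddCircle => D.χ (tc l i x) := by
  have h1 : Continuous fun x : ℝ => Pool.Agent.Helper18.FD.pr (NN l) D.χ (x - i / NN l) :=
    (Pool.Agent.Helper18.FD.pr_cont (nn4_76 l) hD.hχ hD.zero).comp (continuous_id.sub continuous_const)
  have h2 : (fun x : UnitAddCircle => D.χ (tc l i x)) ∘ (fun x : ℝ => (x : UnitAddCircle)) =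
      fun x : ℝ => Pool.Agent.Helper18.FD.pr (NN l) D.χ (x - i / NN l) := by
    funext x
    show D.χ (tc l i (x : UnitAddCircle)) = D.χ (NN l * rr (x - i / NN l))
    rw [Pool.Agent.Helper95.PV.tc_coe]
  refine (QuotientAddGroup.isQuotientMap_mk (N := AddSubgroup.zmultiples (1 : ℝ))).continuous_iff.2 ?_
  have h3 := h2 ▸ h1
  exact h3

/-! ### coefficients -/

private theorem cf_cont76 (hD : D.Ok) (l : ℕ) (c : Fin d → ℕ) : Continuous fun θ : Td d => cf D.χ l c θ := by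
  unfold cf
  exact continuous_finsetProd _ fun m _ => (chi_cont76 hD l (c m)).comp (continuous_apply m)

private theorem sum_cf76 (hD : D.Ok) {K : ℝ} (hK : ∀ t, |D.χ t| ≤ K) (l : ℕ) (θ : Td d) :
    ∑ c ∈ Fintype.piFinset (fun _ : Fin d => Finset.range (NN l)), |cf D.χ l c θ| ≤ (2 * K) ^ d := by
  have h1 : ∀ c : Fin d → ℕ, |cf D.χ l c θ| = ∏ m, |D.χ (tc l (c m) (θ m))| := by
    intro c
    unfold cf
    rw [Finset.abs_prod]
  simp only [h1]
  rw [← Finset.prod_univ_sum (fun _ : Fin d => Finset.range (NN l)) (fun m i => |D.χ (tc l i (θ m))|)]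
  calc ∏ m : Fin d, ∑ i ∈ Finset.range (NN l), |D.χ (tc l i (θ m))| ≤ ∏ _m : Fin d, 2 * K := by
        refine Finset.prod_le_prod (fun m _ => Finset.sum_nonneg fun i _ => abs_nonneg _) fun m _ => ?_
        exact sum_chi76 hD hK l (θ m)
    _ = (2 * K) ^ d := by rw [Finset.prod_const, Finset.card_univ, Fintype.card_fin]

private theorem clip_le76 (w : ℂ) : ‖clip w‖ ≤ 1 := by
  unfold clip
  split_ifs with h
  · exact h
  · simp

private theorem clip_zero76 : clip 0 = 0 := by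
  unfold clip
  simp

private theorem clip_meas76 : Measurable clip := by
  unfold clip
  exact Measurable.ite (measurableSet_le measurable_norm measurable_const) measurable_id measurable_const

private theorem lvl_bd76 (hD : D.Ok) {K : ℝ} (hK : ∀ t, |D.χ t| ≤ K) (ω : Om d) (l : ℕ) (θ : Td d) :
    ‖lvl D.χ ω l θ‖ ≤ (2 * K) ^ d := by
  unfold lvl
  refine (norm_sum_le _ _).trans (le_trans (Finset.sum_le_sum fun c _ => ?_) (sum_cf76 hD hK l θ))
  rw [norm_mul, Complex.norm_real, Real.norm_eq_abs]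
  exact mul_le_of_le_one_right (abs_nonneg _) (clip_le76 _)

private theorem lvl_cont76 (hD : D.Ok) (ω : Om d) (l : ℕ) : Continuous fun θ : Td d => lvl D.χ ω l θ := by
  unfold lvl
  refine continuous_finsetSum _ fun c _ => ?_
  exact (Complex.continuous_ofReal.comp (cf_cont76 hD l c)).mul continuous_const

private theorem lvl_meas76 (hD : D.Ok) (l : ℕ) : Measurable fun p : Om d × Td d => lvl D.χ p.1 l p.2 := by
  unfold lvl
  refine Finset.measurable_sum _ fun c _ => ?_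
  refine Measurable.mul ?_ ?_
  · exact (Complex.continuous_ofReal.comp (cf_cont76 hD l c)).measurable.comp measurable_snd
  · exact clip_meas76.comp ((measurable_pi_apply (l, c)).comp measurable_fst)

/-! ### the series -/

private theorem summ76 (hD : D.Ok) : Summable fun l : ℕ => (NN l : ℝ) ^ (-D.b) := by
  have h1 : ∀ l : ℕ, (NN l : ℝ) ^ (-D.b) = ((2 : ℝ) ^ (-D.b)) ^ 3 * ((2 : ℝ) ^ (-D.b)) ^ l := by
    intro l
    rw [← pow_add, add_comm 3 l]
    have h2 : (NN l : ℝ) = (2 : ℝ) ^ (l + 3) := by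
      unfold Pool.Agent.Helper18.FD.NN
      push_cast
      rfl
    rw [h2, ← Real.rpow_natCast ((2 : ℝ) ^ (-D.b)), ← Real.rpow_mul (by norm_num), mul_comm,
      Real.rpow_mul (by norm_num), Real.rpow_natCast]
  simp only [h1]
  refine Summable.mul_left _ (summable_geometric_of_lt_one (by positivity) ?_)
  exact Real.rpow_lt_one_of_one_lt_of_neg (by norm_num) (by linarith [hD.hb])

private theorem term_bd76 (hD : D.Ok) {K : ℝ} (hK : ∀ t, |D.χ t| ≤ K) (ω : Om d) (l : ℕ) (θ : Td d) :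
    ‖(((NN l : ℝ) ^ (-D.b) : ℝ) : ℂ) * lvl D.χ ω l θ‖ ≤ (NN l : ℝ) ^ (-D.b) * (2 * K) ^ d := by
  rw [norm_mul, Complex.norm_real, Real.norm_eq_abs, abs_of_nonneg (by positivity)]
  exact mul_le_mul_of_nonneg_left (lvl_bd76 hD hK ω l θ) (by positivity)

private theorem nz_bd76 (hD : D.Ok) : ∃ K : ℝ, 0 ≤ K ∧ ∀ (ω : Om d) (θ : Td d), ‖nz D.χ D.b ω θ‖ ≤ K := by
  obtain ⟨K, hK0, hK⟩ := chi_bd76 hD
  have hs := (summ76 hD).mul_right ((2 * K) ^ d)
  refine ⟨∑' l : ℕ, (NN l : ℝ) ^ (-D.b) * (2 * K) ^ d, tsum_nonneg fun l => by positivity, fun ω θ => ?_⟩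
  exact tsum_of_norm_bounded hs.hasSum fun l => term_bd76 hD hK ω l θ

theorem A_bd (hD : D.Ok) : ∃ K : ℝ, 0 ≤ K ∧ ∀ ω θ, ‖D.A ω θ‖ ≤ K := by
  obtain ⟨K, hK0, hK⟩ := nz_bd76 hD
  obtain ⟨K', hK'⟩ := (isCompact_univ (X := Td d)).exists_bound_of_continuousOn hD.hA.continuousOn
  refine ⟨max K' 0 + D.q * K, by have := hD.hq; positivity, fun ω θ => ?_⟩
  unfold Dat.A
  refine (norm_add_le _ _).trans (add_le_add ((hK' θ (mem_univ θ)).trans (le_max_left _ _)) ?_)
  rw [norm_mul, Complex.norm_real, Real.norm_eq_abs, abs_of_pos hD.hq]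
  exact mul_le_mul_of_nonneg_left (hK ω θ) hD.hq.le

private theorem hs76 (hD : D.Ok) (ω : Om d) (θ : Td d) :
    Summable fun l : ℕ => (((NN l : ℝ) ^ (-D.b) : ℝ) : ℂ) * lvl D.χ ω l θ := by
  obtain ⟨K, hK0, hK⟩ := chi_bd76 hD
  exact Summable.of_norm_bounded ((summ76 hD).mul_right ((2 * K) ^ d)) fun l => term_bd76 hD hK ω l θ

theorem A_meas (hD : D.Ok) : Measurable fun p : Om d × Td d => D.A p.1 p.2 := by
  unfold Dat.A
  refine (hD.hA.measurable.comp measurable_snd).add (measurable_const.mul ?_)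
  have h1 : ∀ n : ℕ, Measurable fun p : Om d × Td d =>
      ∑ l ∈ Finset.range n, (((NN l : ℝ) ^ (-D.b) : ℝ) : ℂ) * lvl D.χ p.1 l p.2 := by
    intro n
    exact Finset.measurable_sum _ fun l _ => measurable_const.mul (lvl_meas76 hD l)
  refine measurable_of_tendsto_metrizable h1 ?_
  rw [tendsto_pi_nhds]
  intro p
  exact (hs76 hD p.1 p.2).hasSum.tendsto_sum_nat

theorem A_cont (hD : D.Ok) (ω : Om d) : Continuous (D.A ω) := by
  obtain ⟨K, hK0, hK⟩ := chi_bd76 hD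
  have h1 : Continuous fun θ : Td d => nz D.χ D.b ω θ := by
    unfold nz
    exact continuous_tsum (fun l => continuous_const.mul (lvl_cont76 hD ω l))
      ((summ76 hD).mul_right ((2 * K) ^ d)) fun l θ => term_bd76 hD hK ω l θ
  unfold Dat.A
  exact hD.hA.add (continuous_const.mul h1)

/-! ### change of one coordinate -/

private theorem lvl_upd76 (χ : ℝ → ℝ) (ω : Om d) {l : ℕ} {c : Fin d → ℕ} (hc : ∀ m, c m < NN l) (w : ℂ) (θ : Td d) :
    lvl χ (Function.update ω (l, c) w) l θ = lvl χ ω l θ + (cf χ l c θ : ℂ) * (clip w - clip (ω (l, c))) := by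
  classical
  have hmem : c ∈ Fintype.piFinset (fun _ : Fin d => Finset.range (NN l)) := by
    rw [Fintype.mem_piFinset]
    intro m
    exact Finset.mem_range.2 (hc m)
  unfold lvl
  rw [← Finset.add_sum_erase _ _ hmem, ← Finset.add_sum_erase _ _ hmem]
  have h1 : ∀ c' ∈ (Fintype.piFinset (fun _ : Fin d => Finset.range (NN l))).erase c,
      (cf χ l c' θ : ℂ) * clip (Function.update ω (l, c) w (l, c')) = (cf χ l c' θ : ℂ) * clip (ω (l, c')) := by
    intro c' hc'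
    have h2 : ((l, c') : Ix d) ≠ (l, c) := by
      intro h
      exact (Finset.mem_erase.1 hc').1 (Prod.mk.inj h).2
    rw [Function.update_of_ne h2]
  rw [Finset.sum_congr rfl h1, Function.update_self]
  ring

private theorem lvl_upd_ne76 (χ : ℝ → ℝ) (ω : Om d) {l l' : ℕ} (hl : l' ≠ l) (c : Fin d → ℕ) (w : ℂ) (θ : Td d) :
    lvl χ (Function.update ω (l, c) w) l' θ = lvl χ ω l' θ := by
  unfold lvl
  refine Finset.sum_congr rfl fun c' _ => ?_
  have h2 : ((l', c') : Ix d) ≠ (l, c) := by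
    intro h
    exact hl (Prod.mk.inj h).1
  rw [Function.update_of_ne h2]

private theorem A_upd76 (hD : D.Ok) (ω : Om d) {l : ℕ} {c : Fin d → ℕ} (hc : ∀ m, c m < NN l) (w : ℂ) (θ : Td d) :
    D.A (Function.update ω (l, c) w) θ = D.A ω θ + D.s l * ((cf D.χ l c θ : ℂ) * (clip w - clip (ω (l, c)))) := by
  have h1 : nz D.χ D.b (Function.update ω (l, c) w) θ = nz D.χ D.b ω θ +
      (((NN l : ℝ) ^ (-D.b) : ℝ) : ℂ) * ((cf D.χ l c θ : ℂ) * (clip w - clip (ω (l, c)))) := by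
    unfold nz
    have h2 : ∀ l' : ℕ, (((NN l' : ℝ) ^ (-D.b) : ℝ) : ℂ) * lvl D.χ (Function.update ω (l, c) w) l' θ =
        (((NN l' : ℝ) ^ (-D.b) : ℝ) : ℂ) * lvl D.χ ω l' θ +
        (if l' = l then (((NN l : ℝ) ^ (-D.b) : ℝ) : ℂ) * ((cf D.χ l c θ : ℂ) * (clip w - clip (ω (l, c)))) else 0) := by
      intro l'
      split_ifs with h
      · subst h
        rw [lvl_upd76 D.χ ω hc, mul_add]
      · rw [lvl_upd_ne76 D.χ ω h, add_zero]
    simp only [h2]
    have h3 : Summable fun l' : ℕ => (if l' = l then (((NN l : ℝ) ^ (-D.b) : ℝ) : ℂ) *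
        ((cf D.χ l c θ : ℂ) * (clip w - clip (ω (l, c)))) else 0) :=
      (hasSum_ite_eq l _).summable
    rw [(hs76 hD ω θ).tsum_add h3, tsum_ite_eq]
  unfold Dat.A Dat.s
  rw [h1]
  push_cast
  ring

private theorem cl_lt76 (l : ℕ) (θ : Td d) (m : Fin d) : cl l θ m < NN l :=
  Pool.Agent.Helper95.PV.cel_lt l (θ m)

private theorem cf_own76 (hD : D.Ok) (l : ℕ) (θ : Td d) : cf D.χ l (cl l θ) θ = 1 := by
  unfold cf
  refine Finset.prod_eq_one fun m _ => ?_
  exact hD.one _ (Pool.Agent.Helper95.PV.inn_cel l (θ m))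

private theorem far76 {l : ℕ} {θ θ' : Td d} (h : 2 / (NN l : ℝ) ≤ dist θ θ') :
    ∃ m, 1 ≤ |tc l (cl l θ m) (θ' m)| := by
  have hN := Pool.Agent.Helper18.FD.NN_pos l
  by_contra hc
  push Not at hc
  have h1 : dist θ θ' < 2 / (NN l : ℝ) := by
    rw [dist_pi_lt_iff (by positivity)]
    intro m
    by_contra h2
    push Not at h2
    rw [dist_comm] at h2
    exact absurd (Pool.Agent.Helper95.PV.out_of_far2 (Pool.Agent.Helper95.PV.inn_cel l (θ m)) h2)
      (not_le.2 (hc m))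
  exact absurd h1 (not_lt.2 h)

theorem cl_ne {l : ℕ} {θ θ' : Td d} (h : 2 / (NN l : ℝ) ≤ dist θ θ') : cl l θ ≠ cl l θ' := by
  obtain ⟨m, hm⟩ := far76 h
  intro he
  rw [he] at hm
  have h1 : |tc l (cl l θ' m) (θ' m)| ≤ 1 / 2 := Pool.Agent.Helper95.PV.inn_cel l (θ' m)
  linarith

private theorem cf_far76 (hD : D.Ok) {l : ℕ} {θ θ' : Td d} (h : 2 / (NN l : ℝ) ≤ dist θ θ') :
    cf D.χ l (cl l θ) θ' = 0 := by
  obtain ⟨m, hm⟩ := far76 h
  unfold cf
  exact Finset.prod_eq_zero (Finset.mem_univ m) (hD.zero _ hm)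

theorem A_far (hD : D.Ok) {l : ℕ} {θ θ' : Td d} (h : 2 / (NN l : ℝ) ≤ dist θ θ') (w : ℂ) (ω : Om d) :
    D.A (Function.update ω (l, cl l θ) w) θ' = D.A ω θ' := by
  rw [A_upd76 hD ω (cl_lt76 l θ), cf_far76 hD h]
  simp

theorem A_own (hD : D.Ok) (l : ℕ) (θ : Td d) (w : ℂ) (ω : Om d) :
    D.A (Function.update ω (l, cl l θ) w) θ = D.Am l ω θ + D.s l * clip w := by
  unfold Dat.Am
  rw [A_upd76 hD ω (cl_lt76 l θ), A_upd76 hD ω (cl_lt76 l θ), cf_own76 hD, clip_zero76]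
  push_cast
  ring

theorem Am_far (hD : D.Ok) {l : ℕ} {θ θ' : Td d} (h : 2 / (NN l : ℝ) ≤ dist θ θ') (w : ℂ) (ω : Om d) :
    D.Am l (Function.update ω (l, cl l θ) w) θ' = D.Am l ω θ' := by
  have hne : ((l, cl l θ) : Ix d) ≠ (l, cl l θ') := by
    intro he
    exact cl_ne h (Prod.mk.inj he).2
  unfold Dat.Am
  rw [Function.update_comm hne, A_far hD h]

theorem Am_own (hD : D.Ok) (l : ℕ) (θ : Td d) (w : ℂ) (ω : Om d) :
    D.Am l (Function.update ω (l, cl l θ) w) θ = D.Am l ω θ := by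
  unfold Dat.Am
  rw [Function.update_idem]

theorem Am_bd (hD : D.Ok) : ∃ K : ℝ, 0 ≤ K ∧ ∀ l ω θ, ‖D.Am l ω θ‖ ≤ K := by
  obtain ⟨K, hK0, hK⟩ := A_bd hD
  exact ⟨K, hK0, fun l ω θ => hK _ θ⟩

theorem Am_meas (hD : D.Ok) (l : ℕ) : Measurable fun p : Om d × Td d => D.Am l p.1 p.2 := by
  classical
  have h1 : (fun p : Om d × Td d => D.Am l p.1 p.2) = fun p : Om d × Td d => D.A p.1 p.2 -
      D.s l * ∑ c ∈ Fintype.piFinset (fun _ : Fin d => Finset.range (NN l)),
        (if cl l p.2 = c then clip (p.1 (l, c)) else 0) := by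
    funext p
    have hmem : cl l p.2 ∈ Fintype.piFinset (fun _ : Fin d => Finset.range (NN l)) := by
      rw [Fintype.mem_piFinset]
      intro m
      exact Finset.mem_range.2 (cl_lt76 l p.2 m)
    rw [Finset.sum_ite_eq, if_pos hmem]
    unfold Dat.Am
    rw [A_upd76 hD p.1 (cl_lt76 l p.2), cf_own76 hD, clip_zero76]
    push_cast
    ring
  have hcl : Measurable fun θ : Td d => cl l θ := by
    refine measurable_pi_lambda _ fun m => ?_
    exact (Pool.Agent.Helper95.PV.meas_cel l).comp (measurable_pi_apply m)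
  rw [h1]
  refine (A_meas hD).sub (measurable_const.mul (Finset.measurable_sum _ fun c _ => ?_))
  refine Measurable.ite ?_ ?_ measurable_const
  · exact measurableSet_eq_fun (hcl.comp measurable_snd) measurable_const
  · exact clip_meas76.comp ((measurable_pi_apply (l, c)).comp measurable_fst)

end Pool.Agent.Helper46.QP
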