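import Pool.Agent.Helper46.QP.Main

/-! Project QP: the final theorem in terms of the definitions of `Out.lean`. -/

set_option autoImplicit false
open MeasureTheory Real Set Filter Topology

namespace Pool.Agent.Helper46.QP

open Pool.Agent.Helper18.UC (nn)
open Pool.Agent.Helper18.FD (NN rr)
open Pool.Agent.Helper95.PV (rp tc cel mv)
open Pool.Agent.Helper46

variable {d : ℕ}

theorem law_eq : QPO.law d = law d := rfl

theorem clip_all : ∀ᵐ ω ∂law d, ∀ i : Ix d, clip (ω i) = ω i := by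
  rw [ae_all_iff]
  intro i
  have h1 : MeasurePreserving (fun ω : Om d => ω i) (law d) dl :=
    measurePreserving_eval_infinitePi (fun _ : Ix d => dl) i
  exact h1.quasiMeasurePreserving.ae clip_ae

theorem loc_eq (l i : ℕ) (x : UnitAddCircle) : QPO.loc (2 ^ (l + 3)) i (AddCircle.equivIco (1 : ℝ) 0 x : ℝ) = tc l i x := by
  unfold QPO.loc Pool.Agent.Helper95.PV.tc Pool.Agent.Helper18.FD.rr Pool.Agent.Helper95.PV.rp Pool.Agent.Helper18.FD.NN
  push_cast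
  rfl

theorem loc_coe (l i : ℕ) (x : ℝ) : QPO.loc (2 ^ (l + 3)) i x = tc l i (x : UnitAddCircle) := by
  rw [Pool.Agent.Helper95.PV.tc_coe]
  unfold QPO.loc Pool.Agent.Helper18.FD.rr Pool.Agent.Helper18.FD.NN
  push_cast
  rfl

theorem tnoise_eq {χ : ℝ → ℝ} {b : ℝ} {ω : Om d} (h : ∀ i : Ix d, clip (ω i) = ω i) (θ : Td d) :
    QPO.tnoise χ b ω θ = nz χ b ω θ := by
  unfold QPO.tnoise QPO.noise nz lvl cf
  refine tsum_congr fun l => ?_
  congr 1
  refine Finset.sum_congr rfl fun c _ => ?_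
  rw [h (l, c), mul_comm]
  simp only [loc_eq]

theorem noise_eq {χ : ℝ → ℝ} {b : ℝ} {ω : Om d} (h : ∀ i : Ix d, clip (ω i) = ω i) (x : Fin d → ℝ) :
    QPO.noise χ b ω x = nz χ b ω fun m => (x m : UnitAddCircle) := by
  unfold QPO.noise nz lvl cf
  refine tsum_congr fun l => ?_
  congr 1
  refine Finset.sum_congr rfl fun c _ => ?_
  rw [h (l, c), mul_comm]
  simp only [loc_coe]

theorem liftn_eq (α : Td d) (A : Td d → ℂ) (θ : Td d) (n : ℕ) :
    QPO.liftn α A θ n = Fn (fun j => A (θ + j • α)) n := by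
  induction n with
  | zero => rfl
  | succ n ih =>
    funext z
    show QPO.lift (A (θ + n • α)) (QPO.liftn α A θ n z) = Fl (A (θ + n • α)) (Fn (fun j => A (θ + j • α)) n z)
    rw [ih]
    rfl

theorem final (d : ℕ) (hd : 1 ≤ d) (χ : ℝ → ℝ) (hχ : ∀ r : ℕ, ContDiff ℝ r χ)
    (hχ1 : ∀ t, |t| ≤ 1 / 2 → χ t = 1) (hχ0 : ∀ t, 1 ≤ |t| → χ t = 0) :
    ∀ᵐ α : Fin d → UnitAddCircle, ∀ b : ℝ, 0 < b → b < d / 2 →
      ∀ A₀ : (Fin d → UnitAddCircle) → ℂ, Continuous A₀ → ∀ q : ℝ, 0 < q →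
      ∀ᵐ ω ∂QPO.law d,
        (∀ r : ℕ, (r : ℝ) < b → ContDiff ℝ r (QPO.noise (d := d) χ b ω)) ∧
        Ergodic (QPO.skew α fun θ => A₀ θ + q * QPO.tnoise χ b ω θ) volume ∧
        (∀ (ξ : ℂ) (h : (Fin d → UnitAddCircle) × (UnitAddCircle × UnitAddCircle) → ℂ), Measurable h →
          (∀ᵐ p, h (QPO.skew α (fun θ => A₀ θ + q * QPO.tnoise χ b ω θ) p) = ξ * h p) →
          (∀ᵐ p, h p = 0) ∨ ∃ k : Fin d → ℤ, ∃ c : ℂ, fourier 1 (∑ m, k m • α m) = ξ ∧
            ∀ᵐ p : (Fin d → UnitAddCircle) × (UnitAddCircle × UnitAddCircle),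
              h p = c * fourier 1 (∑ m, k m • p.1 m)) ∧
        ∃ L : ℝ, 0 < L ∧ ∀ᵐ θ : Fin d → UnitAddCircle, ∀ᵐ z : ℝ × ℝ,
          Tendsto (fun n : ℕ => Real.log ‖fderiv ℝ (QPO.liftn α (fun θ => A₀ θ + q * QPO.tnoise χ b ω θ) θ n) z‖ / n)
            atTop (𝓝 L) := by
  have hd' : 0 < d := hd
  filter_upwards [Pool.Agent.Helper82.QP.dio_ae hd', Pool.Agent.Helper82.QP.ind_ae] with α hα hind b hb0 hb A₀ hA q hq
  set D : Dat d := { α := α, A0 := A₀, q := q, b := b, χ := χ } with hDdef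
  have hD : D.Ok := ⟨hd', hA, hq, hb0, (hχ 0).continuous, hχ1, hχ0⟩
  have hR := Pool.Agent.Helper82.QP.rot_erg hind
  rw [law_eq]
  filter_upwards [clip_all, erg hD hb hα hR, fib hD hb hα, lya hD hb hα] with ω hcl hE hF hL
  have hAe : (fun θ => A₀ θ + q * QPO.tnoise χ b ω θ) = D.A ω := by
    funext θ
    rw [tnoise_eq hcl]
    rfl
  have hsk : QPO.skew α (fun θ => A₀ θ + q * QPO.tnoise χ b ω θ) = D.F ω := by
    rw [hAe]
    rfl
  rw [hsk, hAe]
  refine ⟨fun r hr => ?_, hE, fun ξ h hm hh => eig hD hind hF ξ h hm hh, ?_⟩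
  · have e : QPO.noise (d := d) χ b ω = fun x : Fin d → ℝ => nz χ b ω fun m => (x m : UnitAddCircle) := by
      funext x
      exact noise_eq hcl x
    rw [e]
    exact nz_smooth (hχ r) hχ0 hr ω
  · obtain ⟨L, hL0, hLl⟩ := exponent hD hE hL
    refine ⟨L, hL0, ?_⟩
    have h1 := Measure.ae_ae_of_ae_prod hLl
    filter_upwards [h1] with θ hθ
    filter_upwards [ae_tor hθ] with z hz
    rw [show (fun n : ℕ => Real.log ‖fderiv ℝ (QPO.liftn α (D.A ω) θ n) z‖ / n) =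
      fun n : ℕ => Real.log ‖fderiv ℝ (Fn (D.As ω θ) n) z‖ / n from ?_]
    · exact Fn_lim hz
    · funext n
      rw [liftn_eq]
      rfl

end Pool.Agent.Helper46.QP
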