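import Pool.Agent.Helper46.QP.Meas
import Pool.Agent.Helper46.QP.Res
import Pool.Agent.Helper18.HY.L2

/-! Block QP-GROWA: loss of norm of the averaged growth chain.

`ach gst gkk gph s A (n+1) (z, x) = ∫ w, |x|⁻¹ * ach .. n (stp (A 0 + s w) z, va (A 0 + s w) z.1 - x⁻¹)`, so as a function of `x` it is an average of `Tv v (ach .. n (z', ·))` (`Helper18/HY/L2.lean`: `Tv`, `Qv`, `Nq`, `Nq_Qv_le`, `loss`).
With `ζ = w * ee z.1` (`dl_rot`): `z'` depends on `w` only through `ζ.im`, and `v = va (A 0) z.1 + 2 π s ζ.re`.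
* `ch_fin`: finiteness. If `K ≥ |va (A j + s w) x| + 1` for all `j`, `x` and all `‖w‖ ≤ 1` (`K = 3 + 2 π (sup_{j<n} ‖A j‖ + s)`), then `ach .. n (z, x) ≤ ofReal (K ^ n) * gph (z, x)`: `|x|⁻¹ / (|v - x⁻¹| + 1) = 1 / (|v x - 1| + |x|) ≤ K / (|x| + 1)` for `x ≠ 0`, and the left side is `0` at `x = 0`. So `f = toReal` of the chain is measurable
with `ofReal f = ach`, `Nq f = ∫⁻ (ach)^2 < ⊤`.
* `flip_mp`: `flip ζ = ζ - 1/2` if `|ζ.im| ≤ 1/2`, `0 < ζ.re ≤ 1/2`, `ζ + 1/2` if `|ζ.im| ≤ 1/2`, `-1/2 < ζ.re ≤ 0`, else `ζ`, preserves `dl` (two translated pieces of the box `B = {|im| ≤ 1/2, -1/2 < re ≤ 1/2}` inside the disc), `dl B = 1/π`.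
* Two steps: for fixed `ζ₁, ζ₂` the average over the four choices `ζ₁ or flip ζ₁`, `ζ₂ or flip ζ₂` is `Qv v₁ w₁ (Qv v₂ w₂ f)`, `f = ach .. n (z'', ·)`, `z''` not changed by the flips (only the real parts change). `|v - w| = π s =: σ ≤ 1` if `ζ ∈ B`, and `v = w` otherwise (then `Nq_Qv_le`).
By Jensen (`∫⁻ x, (∫⁻ F)^2 ≤ ∫⁻ ∫⁻ F^2`, probability) `∫⁻ x, (ach (n+2) (z, x))^2 ≤ (1 - σ^2/25000 * (1/π)^2) * sup_z ∫⁻ x, (ach n (z, x))^2`, `σ^2/π^2 = s^2`. Induction on `n / 2`; `∫⁻ gph^2 = 2`; for `n = 1`: `≤ 2` by Jensen and `Nq_Tv`. -/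

set_option autoImplicit false
open MeasureTheory Real Set
open scoped ENNReal

namespace Pool.Agent.Helper46.QP

/-- exchange of the two halves of the box `|im| ≤ 1/2`, `-1/2 < re ≤ 1/2` -/
noncomputable def flip (ζ : ℂ) : ℂ :=
  if |ζ.im| ≤ 1 / 2 ∧ 0 < ζ.re ∧ ζ.re ≤ 1 / 2 then ζ - 1 / 2
  else if |ζ.im| ≤ 1 / 2 ∧ -1 / 2 < ζ.re ∧ ζ.re ≤ 0 then ζ + 1 / 2 else ζ

private def P67 : Set ℂ := {ζ | |ζ.im| ≤ 1 / 2 ∧ 0 < ζ.re ∧ ζ.re ≤ 1 / 2}

private def N67 : Set ℂ := {ζ | |ζ.im| ≤ 1 / 2 ∧ -1 / 2 < ζ.re ∧ ζ.re ≤ 0}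

private theorem meas_im67 : MeasurableSet {ζ : ℂ | |ζ.im| ≤ 1 / 2} :=
  measurableSet_le Complex.measurable_im.norm measurable_const

private theorem meas_P67 : MeasurableSet P67 :=
  meas_im67.inter ((measurableSet_lt measurable_const Complex.measurable_re).inter
    (measurableSet_le Complex.measurable_re measurable_const))

private theorem meas_N67 : MeasurableSet N67 :=
  meas_im67.inter ((measurableSet_lt measurable_const Complex.measurable_re).inter
    (measurableSet_le Complex.measurable_re measurable_const))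

private theorem half_re67 : ((1 : ℂ) / 2).re = 1 / 2 := by norm_num

private theorem half_im67 : ((1 : ℂ) / 2).im = 0 := by norm_num

private theorem flip_P67 {ζ : ℂ} (h : ζ ∈ P67) : flip ζ = ζ - 1 / 2 := by
  unfold flip
  exact if_pos h

private theorem flip_N67 {ζ : ℂ} (h : ζ ∈ N67) : flip ζ = ζ + 1 / 2 := by
  have h1 : ¬ (|ζ.im| ≤ 1 / 2 ∧ 0 < ζ.re ∧ ζ.re ≤ 1 / 2) := fun h2 => absurd h2.2.1 (not_lt.2 h.2.2)
  unfold flip
  rw [if_neg h1]
  exact if_pos h

private theorem flip_out67 {ζ : ℂ} (h1 : ζ ∉ P67) (h2 : ζ ∉ N67) : flip ζ = ζ := by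
  have h1' : ¬ (|ζ.im| ≤ 1 / 2 ∧ 0 < ζ.re ∧ ζ.re ≤ 1 / 2) := h1
  unfold flip
  rw [if_neg h1']
  exact if_neg h2

private theorem flip_meas67 : Measurable flip := by
  unfold flip
  exact Measurable.ite meas_P67 (measurable_id.sub_const _)
    (Measurable.ite meas_N67 (measurable_id.add_const _) measurable_id)

private theorem sub_mem67 {ζ : ℂ} : ζ - 1 / 2 ∈ N67 ↔ ζ ∈ P67 := by
  unfold N67 P67
  simp only [mem_ofPred_eq, Complex.sub_im, Complex.sub_re, half_re67, half_im67, sub_zero]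
  constructor
  · rintro ⟨h1, h2, h3⟩
    exact ⟨h1, by linarith, by linarith⟩
  · rintro ⟨h1, h2, h3⟩
    exact ⟨h1, by linarith, by linarith⟩

private theorem add_mem67 {ζ : ℂ} : ζ + 1 / 2 ∈ P67 ↔ ζ ∈ N67 := by
  unfold N67 P67
  simp only [mem_ofPred_eq, Complex.add_im, Complex.add_re, half_re67, half_im67, add_zero]
  constructor
  · rintro ⟨h1, h2, h3⟩
    exact ⟨h1, by linarith, by linarith⟩
  · rintro ⟨h1, h2, h3⟩
    exact ⟨h1, by linarith, by linarith⟩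

private theorem disj67 {ζ : ℂ} (h : ζ ∈ P67) : ζ ∉ N67 := fun h' => absurd h.2.1 (not_lt.2 h'.2.2)

private theorem flip_vol67 : MeasurePreserving flip (volume : Measure ℂ) volume := by
  refine ⟨flip_meas67, Measure.ext fun S hS => ?_⟩
  rw [Measure.map_apply flip_meas67 hS, ← measure_inter_add_sdiff (flip ⁻¹' S) meas_P67,
    ← measure_inter_add_sdiff (flip ⁻¹' S \ P67) meas_N67, ← measure_inter_add_sdiff S meas_P67,
    ← measure_inter_add_sdiff (S \ P67) meas_N67]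
  have e1 : flip ⁻¹' S ∩ P67 = (fun ζ : ℂ => ζ - 1 / 2) ⁻¹' ((S \ P67) ∩ N67) := by
    ext ζ
    simp only [mem_inter_iff, mem_preimage, mem_sdiff, sub_mem67]
    constructor
    · rintro ⟨h1, h2⟩
      rw [flip_P67 h2] at h1
      exact ⟨⟨h1, fun h3 => disj67 h3 (sub_mem67.2 h2)⟩, h2⟩
    · rintro ⟨⟨h1, -⟩, h2⟩
      rw [flip_P67 h2]
      exact ⟨h1, h2⟩
  have e2 : (flip ⁻¹' S \ P67) ∩ N67 = (fun ζ : ℂ => ζ + 1 / 2) ⁻¹' (S ∩ P67) := by
    ext ζ
    simp only [mem_inter_iff, mem_preimage, mem_sdiff, add_mem67]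
    constructor
    · rintro ⟨⟨h1, -⟩, h2⟩
      rw [flip_N67 h2] at h1
      exact ⟨h1, h2⟩
    · rintro ⟨h1, h2⟩
      rw [flip_N67 h2]
      exact ⟨⟨h1, fun h3 => disj67 h3 h2⟩, h2⟩
  have e3 : (flip ⁻¹' S \ P67) \ N67 = (S \ P67) \ N67 := by
    ext ζ
    simp only [mem_preimage, mem_sdiff]
    constructor
    · rintro ⟨⟨h1, h2⟩, h3⟩
      rw [flip_out67 h2 h3] at h1
      exact ⟨⟨h1, h2⟩, h3⟩
    · rintro ⟨⟨h1, h2⟩, h3⟩
      rw [flip_out67 h2 h3]
      exact ⟨⟨h1, h2⟩, h3⟩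
  have m1 := (measurePreserving_sub_right (volume : Measure ℂ) (1 / 2)).measure_preimage
    ((hS.diff meas_P67).inter meas_N67).nullMeasurableSet
  have m2 := (measurePreserving_add_right (volume : Measure ℂ) (1 / 2)).measure_preimage
    (hS.inter meas_P67).nullMeasurableSet
  rw [e1, e2, e3, m1, m2, ← add_assoc, ← add_assoc, add_comm (volume (S \ P67 ∩ N67))]

private theorem box_ball67 {ζ : ℂ} (h1 : |ζ.im| ≤ 1 / 2) (h2 : -1 / 2 ≤ ζ.re) (h3 : ζ.re ≤ 1 / 2) :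
    ζ ∈ Metric.closedBall (0 : ℂ) 1 := by
  rw [mem_closedBall_zero_iff, ← sq_le_sq₀ (norm_nonneg _) zero_le_one, Complex.sq_norm,
    Complex.normSq_apply]
  rw [abs_le] at h1
  nlinarith

theorem flip_mp : MeasurePreserving flip dl dl := by
  have h2 := flip_vol67.restrict_preimage
    (Metric.isClosed_closedBall (x := (0 : ℂ)) (ε := 1)).measurableSet
  have e : flip ⁻¹' Metric.closedBall (0 : ℂ) 1 = Metric.closedBall (0 : ℂ) 1 := by
    ext ζ
    rw [mem_preimage]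
    by_cases hP : ζ ∈ P67
    · rw [flip_P67 hP]
      have h3 := sub_mem67.2 hP
      exact iff_of_true (box_ball67 h3.1 h3.2.1.le (h3.2.2.trans (by norm_num)))
        (box_ball67 hP.1 (by linarith [hP.2.1]) hP.2.2)
    · by_cases hN : ζ ∈ N67
      · rw [flip_N67 hN]
        have h3 := add_mem67.2 hN
        exact iff_of_true (box_ball67 h3.1 (by linarith [h3.2.1]) h3.2.2)
          (box_ball67 hN.1 hN.2.1.le (hN.2.2.trans (by norm_num)))
      · rw [flip_out67 hP hN]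
  rw [e] at h2
  unfold dl
  exact h2.smul_measure _

theorem dl_box : dl {ζ : ℂ | |ζ.im| ≤ 1 / 2 ∧ -1 / 2 < ζ.re ∧ ζ.re ≤ 1 / 2} = ENNReal.ofReal (1 / π) := by
  have hm : MeasurableSet {ζ : ℂ | |ζ.im| ≤ 1 / 2 ∧ -1 / 2 < ζ.re ∧ ζ.re ≤ 1 / 2} :=
    meas_im67.inter ((measurableSet_lt measurable_const Complex.measurable_re).inter
      (measurableSet_le Complex.measurable_re measurable_const))
  have hsub : {ζ : ℂ | |ζ.im| ≤ 1 / 2 ∧ -1 / 2 < ζ.re ∧ ζ.re ≤ 1 / 2} ⊆ Metric.closedBall (0 : ℂ) 1 :=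
    fun ζ h => box_ball67 h.1 h.2.1.le h.2.2
  have e1 : {ζ : ℂ | |ζ.im| ≤ 1 / 2 ∧ -1 / 2 < ζ.re ∧ ζ.re ≤ 1 / 2} =
      Complex.measurableEquivRealProd ⁻¹' ((Ioc (-1 / 2 : ℝ) (1 / 2)) ×ˢ (Icc (-(1 / 2) : ℝ) (1 / 2))) := by
    ext ζ
    simp only [mem_preimage, mem_prod, mem_ofPred_eq, mem_Ioc, mem_Icc, abs_le]
    constructor
    · rintro ⟨h1, h2⟩
      exact ⟨h2, h1⟩
    · rintro ⟨h1, h2⟩
      exact ⟨h2, h1⟩
  have e2 : volume {ζ : ℂ | |ζ.im| ≤ 1 / 2 ∧ -1 / 2 < ζ.re ∧ ζ.re ≤ 1 / 2} = 1 := by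
    rw [e1, Complex.volume_preserving_equiv_real_prod.measure_preimage
      (measurableSet_Ioc.prod measurableSet_Icc).nullMeasurableSet, Measure.volume_eq_prod,
      Measure.prod_prod, Real.volume_Ioc, Real.volume_Icc, ← ENNReal.ofReal_mul (by norm_num)]
    norm_num
  unfold dl
  rw [Measure.smul_apply, Measure.restrict_apply hm, inter_eq_left.2 hsub, e2, smul_eq_mul, mul_one,
    one_div, ENNReal.ofReal_inv_of_pos pi_pos]

theorem gph_int (z : TT) : ∫⁻ x : ℝ, gph (z, x) ^ 2 = 2 := by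
  have hi : Integrable (fun x : ℝ => ((|x| + 1)⁻¹) ^ 2) volume := by
    have h := integrable_one_add_norm (E := ℝ) (μ := volume) (r := 2) (by simp)
    refine h.congr (Filter.Eventually.of_forall fun x => ?_)
    show (1 + ‖x‖) ^ (-(2 : ℝ)) = ((|x| + 1)⁻¹) ^ 2
    rw [Real.norm_eq_abs, Real.rpow_neg (by positivity), Real.rpow_two, inv_pow, add_comm]
  have h1 : ∫ x : ℝ, ((|x| + 1)⁻¹) ^ 2 = 2 := by
    rw [integral_comp_abs (f := fun x => ((x + 1)⁻¹) ^ 2)]
    have h2 : ∫ x in Ioi (0 : ℝ), ((x + 1)⁻¹) ^ 2 = 0 - (-(0 + 1 : ℝ)⁻¹) := by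
      refine integral_Ioi_of_hasDerivAt_of_nonneg' (g := fun x : ℝ => -(x + 1)⁻¹) (l := 0) ?_ ?_ ?_
      · intro x hx
        have hx0 : (0 : ℝ) ≤ x := hx
        have h3 : HasDerivAt (fun x : ℝ => x + 1) 1 x := (hasDerivAt_id x).add_const 1
        have h4 := (h3.inv (by linarith : (x + 1 : ℝ) ≠ 0)).neg
        have h5 : -(-1 / (x + 1) ^ 2) = ((x + 1)⁻¹) ^ 2 := by
          rw [neg_div, neg_neg, one_div, inv_pow]
        rw [h5] at h4
        exact h4
      · intro x _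
        positivity
      · have h3 : Filter.Tendsto (fun x : ℝ => (x + 1)⁻¹) Filter.atTop (nhds 0) :=
          tendsto_inv_atTop_zero.comp (Filter.tendsto_atTop_add_const_right _ _ Filter.tendsto_id)
        simpa using h3.neg
    rw [h2]
    norm_num
  have h3 : ∀ x : ℝ, gph (z, x) ^ 2 = ENNReal.ofReal (((|x| + 1)⁻¹) ^ 2) := by
    intro x
    unfold gph
    rw [ENNReal.ofReal_pow (by positivity)]
  simp only [h3]
  rw [← ofReal_integral_eq_lintegral_ofReal hi (Filter.Eventually.of_forall fun x => by positivity), h1]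
  norm_num

private theorem ball_ae67 : ∀ᵐ w ∂dl, ‖w‖ ≤ 1 := by
  unfold dl
  refine Measure.ae_smul_measure ?_ _
  filter_upwards [ae_restrict_mem (μ := (volume : Measure ℂ))
    (Metric.isClosed_closedBall (x := (0 : ℂ)) (ε := 1)).measurableSet] with w hw
  exact mem_closedBall_zero_iff.1 hw

private theorem step67 {v V : ℝ} (hv : |v| ≤ V) (x : ℝ) :
    |x|⁻¹ * (|v - x⁻¹| + 1)⁻¹ ≤ (V + 1) * (|x| + 1)⁻¹ := by
  have hV : 0 ≤ V := (abs_nonneg v).trans hv
  rcases eq_or_ne x 0 with rfl | hx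
  · rw [abs_zero, inv_zero, zero_mul]
    positivity
  · have hx0 : 0 < |x| := abs_pos.2 hx
    have h1 : |x| * |v - x⁻¹| = |v * x - 1| := by
      rw [← abs_mul, mul_sub, mul_inv_cancel₀ hx, mul_comm x v]
    have h2 : (1 : ℝ) ≤ |v * x - 1| + |v| * |x| := by
      have h3 : (1 : ℝ) = v * x - (v * x - 1) := by ring
      have h4 : |(1 : ℝ)| ≤ |v * x| + |v * x - 1| := by
        conv_lhs => rw [h3]
        exact abs_sub _ _
      rw [abs_one, abs_mul] at h4
      linarith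
    have h5 : |v| * |x| ≤ V * |x| := mul_le_mul_of_nonneg_right hv hx0.le
    have h6 : |x| * (|v - x⁻¹| + 1) = |v * x - 1| + |x| := by rw [mul_add, h1, mul_one]
    rw [← mul_inv, ← div_eq_mul_inv, h6, le_div_iff₀ (by positivity), inv_mul_le_iff₀ (by positivity)]
    nlinarith [abs_nonneg (v * x - 1), mul_nonneg hV (abs_nonneg (v * x - 1))]

theorem ch_fin {s : ℝ} (hs : 0 ≤ s) (A : ℕ → ℂ) (n : ℕ) :
    ∃ K : ℝ, 0 ≤ K ∧ ∀ z x, ach gst gkk gph s A n (z, x) ≤ ENNReal.ofReal K * gph (z, x) := by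
  induction n generalizing A with
  | zero =>
    refine ⟨1, zero_le_one, fun z x => ?_⟩
    rw [ENNReal.ofReal_one, one_mul]
    exact le_rfl
  | succ n ih =>
    obtain ⟨K, hK0, hK⟩ := ih fun j => A (j + 1)
    have hV : (0 : ℝ) ≤ 2 + 2 * π * (‖A 0‖ + s) := by positivity
    refine ⟨K * (2 + 2 * π * (‖A 0‖ + s) + 1), by positivity, fun z x => ?_⟩
    have h1 : ach gst gkk gph s A (n + 1) (z, x) =
        ∫⁻ w, gkk (A 0 + s * w) (z, x) *
          ach gst gkk gph s (fun j => A (j + 1)) n (gst (A 0 + s * w) (z, x)) ∂dl := rfl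
    rw [h1]
    calc ∫⁻ w, gkk (A 0 + s * w) (z, x) *
          ach gst gkk gph s (fun j => A (j + 1)) n (gst (A 0 + s * w) (z, x)) ∂dl
        ≤ ∫⁻ _w, ENNReal.ofReal (K * (2 + 2 * π * (‖A 0‖ + s) + 1)) * gph (z, x) ∂dl := by
          refine lintegral_mono_ae ?_
          filter_upwards [ball_ae67] with w hw
          have hv : |va (A 0 + s * w) z.1| ≤ 2 + 2 * π * (‖A 0‖ + s) := by
            have h2 : |((A 0 + s * w) * ee z.1).re| ≤ ‖A 0‖ + s := by
              refine (Complex.abs_re_le_norm _).trans ?_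
              rw [norm_mul, norm_ee, mul_one]
              refine (norm_add_le _ _).trans (add_le_add le_rfl ?_)
              rw [norm_mul, Complex.norm_real, Real.norm_eq_abs, abs_of_nonneg hs]
              exact mul_le_of_le_one_right hs hw
            unfold va
            refine (abs_add_le _ _).trans ?_
            rw [abs_two, abs_mul, abs_of_pos (by positivity : (0 : ℝ) < 2 * π)]
            have := mul_le_mul_of_nonneg_left h2 (by positivity : (0 : ℝ) ≤ 2 * π)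
            linarith
          have h3 := hK (stp (A 0 + s * w) z) (va (A 0 + s * w) z.1 - x⁻¹)
          have h4 : gkk (A 0 + s * w) (z, x) * gph (stp (A 0 + s * w) z, va (A 0 + s * w) z.1 - x⁻¹) ≤
              ENNReal.ofReal (2 + 2 * π * (‖A 0‖ + s) + 1) * gph (z, x) := by
            unfold gkk gph
            rw [← ENNReal.ofReal_mul (by positivity), ← ENNReal.ofReal_mul (by positivity)]
            exact ENNReal.ofReal_le_ofReal (step67 hv x)
          calc gkk (A 0 + s * w) (z, x) *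
                ach gst gkk gph s (fun j => A (j + 1)) n (gst (A 0 + s * w) (z, x))
              ≤ gkk (A 0 + s * w) (z, x) * (ENNReal.ofReal K *
                  gph (stp (A 0 + s * w) z, va (A 0 + s * w) z.1 - x⁻¹)) := mul_le_mul_right h3 _
            _ = ENNReal.ofReal K * (gkk (A 0 + s * w) (z, x) *
                  gph (stp (A 0 + s * w) z, va (A 0 + s * w) z.1 - x⁻¹)) := by ring
            _ ≤ ENNReal.ofReal K * (ENNReal.ofReal (2 + 2 * π * (‖A 0‖ + s) + 1) * gph (z, x)) :=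
                mul_le_mul_right h4 _
            _ = _ := by rw [← mul_assoc, ← ENNReal.ofReal_mul hK0]
      _ = ENNReal.ofReal (K * (2 + 2 * π * (‖A 0‖ + s) + 1)) * gph (z, x) := by
          rw [lintegral_const, measure_univ, mul_one]

end Pool.Agent.Helper46.QP
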