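import Pool.Agent.Helper46.QP.GrowA

/-! Block QP-GROWA, second part (helper95): loss of norm of the averaged growth chain (`grow`). Method: see `GrowA.lean`. -/

set_option autoImplicit false
open MeasureTheory Real Set
open scoped ENNReal

namespace Pool.Agent.Helper46.QP

open Pool.Agent.Helper18.HY (Tv Qv Nq)

/-- Jensen's inequality for the square. -/
theorem sq_lint95 {Ω : Type*} [MeasurableSpace Ω] (ν : Measure Ω) [IsProbabilityMeasure ν] {F : Ω → ℝ≥0∞} (hF : AEMeasurable F ν) :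
    (∫⁻ x, F x ∂ν) ^ 2 ≤ ∫⁻ x, F x ^ 2 ∂ν := by
  have h := ENNReal.lintegral_mul_le_Lp_mul_Lq ν (p := 2) (q := 2) (by constructor <;> norm_num) hF
    (aemeasurable_const (b := (1 : ℝ≥0∞)))
  simp only [Pi.mul_apply, mul_one, ENNReal.one_rpow, lintegral_const, measure_univ] at h
  have h2 : (∫⁻ x, F x ∂ν) ^ 2 ≤ ((∫⁻ x, F x ^ (2 : ℝ) ∂ν) ^ (1 / 2 : ℝ)) ^ 2 := by
    gcongr
  refine h2.trans (le_of_eq ?_)
  rw [← ENNReal.rpow_natCast, ← ENNReal.rpow_mul]
  norm_num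

/-- the box -/
def bx95 : Set ℂ := {ζ : ℂ | |ζ.im| ≤ 1 / 2 ∧ -1 / 2 < ζ.re ∧ ζ.re ≤ 1 / 2}

theorem bx_meas95 : MeasurableSet bx95 := by
  have h1 : MeasurableSet {ζ : ℂ | |ζ.im| ≤ 1 / 2} :=
    measurableSet_le Complex.measurable_im.norm measurable_const
  have h2 : MeasurableSet {ζ : ℂ | -1 / 2 < ζ.re} := measurableSet_lt measurable_const Complex.measurable_re
  have h3 : MeasurableSet {ζ : ℂ | ζ.re ≤ 1 / 2} := measurableSet_le Complex.measurable_re measurable_const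
  exact h1.inter (h2.inter h3)

theorem flip_im95 (ζ : ℂ) : (flip ζ).im = ζ.im := by
  unfold flip
  split_ifs <;> simp

theorem flip_re95 {ζ : ℂ} (h : ζ ∈ bx95) : |ζ.re - (flip ζ).re| = 1 / 2 := by
  obtain ⟨h1, h2, h3⟩ := h
  unfold flip
  by_cases h4 : 0 < ζ.re
  · rw [if_pos ⟨h1, h4, h3⟩]
    simp
  · rw [if_neg (fun h => h4 h.2.1), if_pos ⟨h1, h2, not_lt.1 h4⟩]
    simp

/-! ### functions with values in `[0, ∞]` -/

noncomputable def TE (v : ℝ) (Φ : ℝ → ℝ≥0∞) (x : ℝ) : ℝ≥0∞ := ENNReal.ofReal |x|⁻¹ * Φ (v - x⁻¹)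

noncomputable def QE (v w : ℝ) (Φ : ℝ → ℝ≥0∞) (x : ℝ) : ℝ≥0∞ := (TE v Φ x + TE w Φ x) / 2

theorem TE_ofReal {f : ℝ → ℝ} (v x : ℝ) :
    TE v (fun y => ENNReal.ofReal (f y)) x = ENNReal.ofReal (Tv v f x) := by
  unfold TE Tv
  rw [ENNReal.ofReal_mul (by positivity)]

theorem QE_ofReal {f : ℝ → ℝ} (hf : ∀ x, 0 ≤ f x) (v w x : ℝ) :
    QE v w (fun y => ENNReal.ofReal (f y)) x = ENNReal.ofReal (Qv v w f x) := by
  unfold QE Qv
  have h1 : ∀ v, 0 ≤ Tv v f x := fun v => mul_nonneg (by positivity) (hf _)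
  rw [TE_ofReal, TE_ofReal, ← ENNReal.ofReal_add (h1 v) (h1 w), ENNReal.ofReal_div_of_pos two_pos]
  norm_num

theorem Qv_nonneg95 {f : ℝ → ℝ} (hf : ∀ x, 0 ≤ f x) (v w x : ℝ) : 0 ≤ Qv v w f x := by
  unfold Qv
  have h1 : ∀ v, 0 ≤ Tv v f x := fun v => mul_nonneg (by positivity) (hf _)
  have := h1 v
  have := h1 w
  linarith

theorem QQ_eq95 {Φ : ℝ → ℝ≥0∞} (hfin : ∀ x, Φ x ≠ ⊤) (v w v' w' : ℝ) :
    ∫⁻ x, QE v w (QE v' w' Φ) x ^ 2 = Nq (Qv v w (Qv v' w' fun x => (Φ x).toReal)) := by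
  have hf : ∀ x, 0 ≤ (Φ x).toReal := fun x => ENNReal.toReal_nonneg
  have e1 : Φ = fun x => ENNReal.ofReal (Φ x).toReal := by
    funext x
    exact (ENNReal.ofReal_toReal (hfin x)).symm
  have e2 : QE v' w' Φ = fun x => ENNReal.ofReal (Qv v' w' (fun x => (Φ x).toReal) x) := by
    funext x
    conv_lhs => rw [e1]
    exact QE_ofReal hf v' w' x
  unfold Nq
  refine lintegral_congr fun x => ?_
  rw [e2, QE_ofReal (Qv_nonneg95 hf v' w'), ENNReal.ofReal_pow (Qv_nonneg95 (Qv_nonneg95 hf v' w') v w x)]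

theorem N_eq95 {Φ : ℝ → ℝ≥0∞} (hfin : ∀ x, Φ x ≠ ⊤) : ∫⁻ x, Φ x ^ 2 = Nq fun x => (Φ x).toReal := by
  unfold Nq
  refine lintegral_congr fun x => ?_
  rw [ENNReal.ofReal_pow ENNReal.toReal_nonneg, ENNReal.ofReal_toReal (hfin x)]

theorem lossE {σ : ℝ} (hσ : 0 < σ) (hσ1 : σ ≤ 1) {v w v' w' : ℝ} (h : |v - w| = σ) (h' : |v' - w'| = σ)
    {Φ : ℝ → ℝ≥0∞} (hΦ : Measurable Φ) (hfin : ∀ x, Φ x ≠ ⊤) (hN : ∫⁻ x, Φ x ^ 2 ≠ ⊤) :
    ∫⁻ x, QE v w (QE v' w' Φ) x ^ 2 ≤ ENNReal.ofReal (1 - σ ^ 2 / 25000) * ∫⁻ x, Φ x ^ 2 := by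
  rw [QQ_eq95 hfin, N_eq95 hfin]
  rw [N_eq95 hfin] at hN
  exact Pool.Agent.Helper18.HY.loss hσ hσ1 h h' hΦ.ennreal_toReal hN

theorem noLossE (v w v' w' : ℝ) {Φ : ℝ → ℝ≥0∞} (hΦ : Measurable Φ) (hfin : ∀ x, Φ x ≠ ⊤) :
    ∫⁻ x, QE v w (QE v' w' Φ) x ^ 2 ≤ ∫⁻ x, Φ x ^ 2 := by
  rw [QQ_eq95 hfin, N_eq95 hfin]
  exact (Pool.Agent.Helper18.HY.Nq_Qv_le v w (Pool.Agent.Helper18.HY.meas_Qv v' w' hΦ.ennreal_toReal)).trans
    (Pool.Agent.Helper18.HY.Nq_Qv_le v' w' hΦ.ennreal_toReal)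

theorem noLossT (v : ℝ) {Φ : ℝ → ℝ≥0∞} (hΦ : Measurable Φ) (hfin : ∀ x, Φ x ≠ ⊤) :
    ∫⁻ x, TE v Φ x ^ 2 = ∫⁻ x, Φ x ^ 2 := by
  have hf : ∀ x, 0 ≤ (Φ x).toReal := fun x => ENNReal.toReal_nonneg
  have e1 : Φ = fun x => ENNReal.ofReal (Φ x).toReal := by
    funext x
    exact (ENNReal.ofReal_toReal (hfin x)).symm
  rw [N_eq95 hfin, ← Pool.Agent.Helper18.HY.Nq_Tv v hΦ.ennreal_toReal]
  unfold Nq
  refine lintegral_congr fun x => ?_
  have h1 : 0 ≤ Tv v (fun x => (Φ x).toReal) x := mul_nonneg (by positivity) (hf _)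
  conv_lhs => rw [e1]
  rw [TE_ofReal, ENNReal.ofReal_pow h1]

/-! ### measurability -/

theorem TE_meas {X : Type*} [MeasurableSpace X] {V : X → ℝ} (hV : Measurable V) {Ψ : X → ℝ → ℝ≥0∞}
    (hΨ : Measurable fun p : X × ℝ => Ψ p.1 p.2) : Measurable fun p : X × ℝ => TE (V p.1) (Ψ p.1) p.2 := by
  have h1 : Measurable fun p : X × ℝ => ((p.1, V p.1 - (p.2)⁻¹) : X × ℝ) :=
    measurable_fst.prodMk ((hV.comp measurable_fst).sub measurable_snd.inv)
  have h2 : Measurable fun p : X × ℝ => |p.2| := measurable_snd.norm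
  have h3 := hΨ.comp h1
  simp only [Function.comp_def] at h3
  unfold TE
  exact (ENNReal.measurable_ofReal.comp h2.inv).mul h3

theorem QE_meas {X : Type*} [MeasurableSpace X] {V W : X → ℝ} (hV : Measurable V) (hW : Measurable W)
    {Ψ : X → ℝ → ℝ≥0∞} (hΨ : Measurable fun p : X × ℝ => Ψ p.1 p.2) :
    Measurable fun p : X × ℝ => QE (V p.1) (W p.1) (Ψ p.1) p.2 := by
  unfold QE
  exact ((TE_meas hV hΨ).add (TE_meas hW hΨ)).div_const 2

theorem QE_lint {Φ : ℂ → ℝ → ℝ≥0∞} (hΦ : Measurable fun p : ℂ × ℝ => Φ p.1 p.2) (v w x : ℝ) :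
    QE v w (fun y => ∫⁻ ζ, Φ ζ y ∂dl) x = ∫⁻ ζ, QE v w (Φ ζ) x ∂dl := by
  have hm : ∀ y, Measurable fun ζ : ℂ => Φ ζ y := fun y => hΦ.comp (measurable_id.prodMk measurable_const)
  unfold QE TE
  simp only [div_eq_mul_inv]
  rw [lintegral_mul_const (f := fun ζ : ℂ => ENNReal.ofReal |x|⁻¹ * Φ ζ (v - x⁻¹) + ENNReal.ofReal |x|⁻¹ * Φ ζ (w - x⁻¹)) _
      (((hm _).const_mul _).add ((hm _).const_mul _)),
    lintegral_add_left (f := fun ζ : ℂ => ENNReal.ofReal |x|⁻¹ * Φ ζ (v - x⁻¹)) ((hm _).const_mul _),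
    lintegral_const_mul _ (hm _), lintegral_const_mul _ (hm _)]

/-! ### one step -/

/-- the next point of the torus -/
noncomputable def Zf (s : ℝ) (A : ℂ) (z : TT) (t : ℝ) : TT :=
  (z.1 + z.1 - z.2 + (((A * ee z.1).im + s * t : ℝ) : UnitAddCircle), z.1)

/-- the entry of the matrix -/
noncomputable def Vf (s : ℝ) (A : ℂ) (z : TT) (r : ℝ) : ℝ := 2 + 2 * π * ((A * ee z.1).re + s * r)

theorem sub95 (s : ℝ) (A : ℂ) (z : TT) {G : TT → ℝ → ℝ≥0∞} (hG : Measurable fun p : TT × ℝ => G p.1 p.2) :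
    ∫⁻ w, G (stp (A + s * w) z) (va (A + s * w) z.1) ∂dl = ∫⁻ ζ, G (Zf s A z ζ.im) (Vf s A z ζ.re) ∂dl := by
  have hu : ‖(starRingEnd ℂ) (ee z.1)‖ = 1 := by rw [RCLike.norm_conj, norm_ee]
  have hz : Measurable fun w : ℂ => A + s * w := measurable_const.add (measurable_id.const_mul _)
  have h1 : Measurable fun w : ℂ => G (stp (A + s * w) z) (va (A + s * w) z.1) :=
    hG.comp ((stp_meas.comp (hz.prodMk measurable_const)).prodMk (va_meas.comp (hz.prodMk measurable_const)))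
  rw [← (dl_rot hu).lintegral_comp h1]
  refine lintegral_congr fun ζ => ?_
  have h2 : (A + s * (ζ * (starRingEnd ℂ) (ee z.1))) * ee z.1 = A * ee z.1 + s * ζ := by
    have h3 : (starRingEnd ℂ) (ee z.1) * ee z.1 = 1 := by
      rw [mul_comm, Complex.mul_conj, Complex.normSq_eq_norm_sq, norm_ee]
      norm_num
    calc (A + s * (ζ * (starRingEnd ℂ) (ee z.1))) * ee z.1
        = A * ee z.1 + s * ζ * ((starRingEnd ℂ) (ee z.1) * ee z.1) := by ring
      _ = _ := by rw [h3, mul_one]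
  congr 1
  · unfold stp Zf
    rw [h2]
    simp
  · unfold va Vf
    rw [h2]
    simp

theorem flip_lint95 {G : ℂ → ℝ≥0∞} (hG : Measurable G) : ∫⁻ ζ, G ζ ∂dl = ∫⁻ ζ, (G ζ + G (flip ζ)) / 2 ∂dl := by
  simp only [div_eq_mul_inv]
  rw [lintegral_mul_const (f := fun ζ : ℂ => G ζ + G (flip ζ)) _ (hG.add (hG.comp flip_mp.measurable)),
    lintegral_add_left hG, flip_mp.lintegral_comp hG,
    ← mul_two, mul_assoc, ENNReal.mul_inv_cancel two_ne_zero ENNReal.ofNat_ne_top, mul_one]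

/-- the functions of the chain -/
noncomputable def Fc (s : ℝ) (A : ℕ → ℂ) (n : ℕ) (z : TT) (x : ℝ) : ℝ≥0∞ := ach gst gkk gph s A n (z, x)

theorem Fc_meas (s : ℝ) (A : ℕ → ℂ) (n : ℕ) : Measurable fun p : TT × ℝ => Fc s A n p.1 p.2 := by
  unfold Fc
  exact (ach_meas gst_meas gkk_meas gph_meas s n).comp (measurable_const.prodMk measurable_id)

theorem Fc_succ' (s : ℝ) (A : ℕ → ℂ) (n : ℕ) (z : TT) (x : ℝ) :
    Fc s A (n + 1) z x = ∫⁻ ζ, TE (Vf s (A 0) z ζ.re) (Fc s (fun j => A (j + 1)) n (Zf s (A 0) z ζ.im)) x ∂dl := by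
  have hG : Measurable fun p : TT × ℝ => TE p.2 (Fc s (fun j => A (j + 1)) n p.1) x := by
    have h1 : Measurable fun q : (TT × ℝ) × ℝ => Fc s (fun j => A (j + 1)) n q.1.1 q.2 :=
      (Fc_meas s (fun j => A (j + 1)) n).comp ((measurable_fst.comp measurable_fst).prodMk measurable_snd)
    have h2 := TE_meas (X := TT × ℝ) (V := fun q => q.2) (Ψ := fun q => Fc s (fun j => A (j + 1)) n q.1) measurable_snd h1
    exact h2.comp (measurable_id.prodMk measurable_const)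
  exact sub95 s (A 0) z (G := fun z' v => TE v (Fc s (fun j => A (j + 1)) n z') x) hG

theorem Zf_meas (s : ℝ) (A : ℂ) : Measurable fun p : TT × ℝ => Zf s A p.1 p.2 := by
  have h1 : Measurable fun p : TT × ℝ => (A * ee p.1.1).im + s * p.2 :=
    (Complex.measurable_im.comp ((ee_meas.comp (measurable_fst.comp measurable_fst)).const_mul A)).add
      (measurable_snd.const_mul s)
  have hx : Measurable fun p : TT × ℝ => p.1.1 := measurable_fst.comp measurable_fst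
  have hy : Measurable fun p : TT × ℝ => p.1.2 := measurable_snd.comp measurable_fst
  have h2 : Measurable fun p : TT × ℝ => (((A * ee p.1.1).im + s * p.2 : ℝ) : UnitAddCircle) := meas_coe.comp h1
  have h3 : Measurable fun p : TT × ℝ => p.1.1 + p.1.1 := hx.add hx
  have h4 : Measurable fun p : TT × ℝ => p.1.1 + p.1.1 - p.1.2 := h3.sub hy
  have h5 : Measurable fun p : TT × ℝ => p.1.1 + p.1.1 - p.1.2 + (((A * ee p.1.1).im + s * p.2 : ℝ) : UnitAddCircle) := h4.add h2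
  exact h5.prodMk hx

theorem Vf_meas (s : ℝ) (A : ℂ) : Measurable fun p : TT × ℝ => Vf s A p.1 p.2 := by
  have h1 : Measurable fun p : TT × ℝ => (A * ee p.1.1).re + s * p.2 :=
    (Complex.measurable_re.comp ((ee_meas.comp (measurable_fst.comp measurable_fst)).const_mul A)).add
      (measurable_snd.const_mul s)
  unfold Vf
  exact (h1.const_mul _).const_add _

attribute [local irreducible] Fc Zf Vf

theorem Fc_succ (s : ℝ) (A : ℕ → ℂ) (n : ℕ) (z : TT) (x : ℝ) :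
    Fc s A (n + 1) z x = ∫⁻ ζ, QE (Vf s (A 0) z ζ.re) (Vf s (A 0) z (flip ζ).re)
      (Fc s (fun j => A (j + 1)) n (Zf s (A 0) z ζ.im)) x ∂dl := by
  rw [Fc_succ']
  have hG : Measurable fun ζ : ℂ => TE (Vf s (A 0) z ζ.re) (Fc s (fun j => A (j + 1)) n (Zf s (A 0) z ζ.im)) x := by
    have h0 : Measurable fun ζ : ℂ => Zf s (A 0) z ζ.im :=
      (Zf_meas s (A 0)).comp (measurable_const.prodMk Complex.measurable_im)
    have hp : Measurable fun q : ℂ × ℝ => ((Zf s (A 0) z q.1.im, q.2) : TT × ℝ) :=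
      (h0.comp measurable_fst).prodMk measurable_snd
    have h1 : Measurable fun q : ℂ × ℝ => Fc s (fun j => A (j + 1)) n (Zf s (A 0) z q.1.im) q.2 := by
      have := (Fc_meas s (fun j => A (j + 1)) n).comp hp
      simpa only [Function.comp_def] using this
    have h3 : Measurable fun ζ : ℂ => Vf s (A 0) z ζ.re :=
      (Vf_meas s (A 0)).comp (measurable_const.prodMk Complex.measurable_re)
    have h2 := TE_meas (X := ℂ) (V := fun ζ => Vf s (A 0) z ζ.re)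
      (Ψ := fun ζ => Fc s (fun j => A (j + 1)) n (Zf s (A 0) z ζ.im)) h3 h1
    exact h2.comp (measurable_id.prodMk measurable_const)
  rw [flip_lint95 hG]
  refine lintegral_congr fun ζ => ?_
  unfold QE
  rw [flip_im95]

theorem Fc_fin {s : ℝ} (hs : 0 ≤ s) (A : ℕ → ℂ) (n : ℕ) (z : TT) (x : ℝ) : Fc s A n z x ≠ ⊤ := by
  obtain ⟨K, -, hK⟩ := ch_fin hs A n
  have h1 : ENNReal.ofReal K * gph (z, x) < ⊤ := ENNReal.mul_lt_top ENNReal.ofReal_lt_top ENNReal.ofReal_lt_top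
  unfold Fc
  exact ((hK z x).trans_lt h1).ne

/-- the function under the double integral -/
noncomputable def Kd (s : ℝ) (A : ℕ → ℂ) (n : ℕ) (z : TT) (p : ℂ × ℂ) (x : ℝ) : ℝ≥0∞ :=
  QE (Vf s (A 0) z p.1.re) (Vf s (A 0) z (flip p.1).re)
    (QE (Vf s (A 1) (Zf s (A 0) z p.1.im) p.2.re) (Vf s (A 1) (Zf s (A 0) z p.1.im) (flip p.2).re)
      (Fc s (fun j => A (j + 2)) n (Zf s (A 1) (Zf s (A 0) z p.1.im) p.2.im))) x

theorem Kd_in_meas (s : ℝ) (A : ℕ → ℂ) (n : ℕ) (z : TT) :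
    Measurable fun q : (ℂ × ℂ) × ℝ =>
      QE (Vf s (A 1) (Zf s (A 0) z q.1.1.im) q.1.2.re) (Vf s (A 1) (Zf s (A 0) z q.1.1.im) (flip q.1.2).re)
        (Fc s (fun j => A (j + 2)) n (Zf s (A 1) (Zf s (A 0) z q.1.1.im) q.1.2.im)) q.2 := by
  have hz1 : Measurable fun p : ℂ × ℂ => Zf s (A 0) z p.1.im := by
    have h0 : Measurable fun p : ℂ × ℂ => ((z, p.1.im) : TT × ℝ) :=
      measurable_const.prodMk (Complex.measurable_im.comp measurable_fst)
    have := (Zf_meas s (A 0)).comp h0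
    simpa only [Function.comp_def] using this
  have hz2 : Measurable fun p : ℂ × ℂ => Zf s (A 1) (Zf s (A 0) z p.1.im) p.2.im := by
    have h0 : Measurable fun p : ℂ × ℂ => ((Zf s (A 0) z p.1.im, p.2.im) : TT × ℝ) :=
      hz1.prodMk (Complex.measurable_im.comp measurable_snd)
    have := (Zf_meas s (A 1)).comp h0
    simpa only [Function.comp_def] using this
  have hv : Measurable fun p : ℂ × ℂ => Vf s (A 1) (Zf s (A 0) z p.1.im) p.2.re := by
    have h0 : Measurable fun p : ℂ × ℂ => ((Zf s (A 0) z p.1.im, p.2.re) : TT × ℝ) :=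
      hz1.prodMk (Complex.measurable_re.comp measurable_snd)
    have := (Vf_meas s (A 1)).comp h0
    simpa only [Function.comp_def] using this
  have hw : Measurable fun p : ℂ × ℂ => Vf s (A 1) (Zf s (A 0) z p.1.im) (flip p.2).re := by
    have h0 : Measurable fun p : ℂ × ℂ => ((Zf s (A 0) z p.1.im, (flip p.2).re) : TT × ℝ) :=
      hz1.prodMk (Complex.measurable_re.comp (flip_mp.measurable.comp measurable_snd))
    have := (Vf_meas s (A 1)).comp h0
    simpa only [Function.comp_def] using this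
  have hF : Measurable fun q : (ℂ × ℂ) × ℝ =>
      Fc s (fun j => A (j + 2)) n (Zf s (A 1) (Zf s (A 0) z q.1.1.im) q.1.2.im) q.2 := by
    have h0 : Measurable fun q : (ℂ × ℂ) × ℝ => ((Zf s (A 1) (Zf s (A 0) z q.1.1.im) q.1.2.im, q.2) : TT × ℝ) :=
      (hz2.comp measurable_fst).prodMk measurable_snd
    have := (Fc_meas s (fun j => A (j + 2)) n).comp h0
    simpa only [Function.comp_def] using this
  exact QE_meas (Ψ := fun p : ℂ × ℂ => Fc s (fun j => A (j + 2)) n (Zf s (A 1) (Zf s (A 0) z p.1.im) p.2.im)) hv hw hF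

theorem Kd_meas (s : ℝ) (A : ℕ → ℂ) (n : ℕ) (z : TT) :
    Measurable fun q : (ℂ × ℂ) × ℝ => Kd s A n z q.1 q.2 := by
  have hv : Measurable fun p : ℂ × ℂ => Vf s (A 0) z p.1.re := by
    have h0 : Measurable fun p : ℂ × ℂ => ((z, p.1.re) : TT × ℝ) :=
      measurable_const.prodMk (Complex.measurable_re.comp measurable_fst)
    have := (Vf_meas s (A 0)).comp h0
    simpa only [Function.comp_def] using this
  have hw : Measurable fun p : ℂ × ℂ => Vf s (A 0) z (flip p.1).re := by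
    have h0 : Measurable fun p : ℂ × ℂ => ((z, (flip p.1).re) : TT × ℝ) :=
      measurable_const.prodMk (Complex.measurable_re.comp (flip_mp.measurable.comp measurable_fst))
    have := (Vf_meas s (A 0)).comp h0
    simpa only [Function.comp_def] using this
  exact QE_meas (Ψ := fun p : ℂ × ℂ =>
    QE (Vf s (A 1) (Zf s (A 0) z p.1.im) p.2.re) (Vf s (A 1) (Zf s (A 0) z p.1.im) (flip p.2).re)
      (Fc s (fun j => A (j + 2)) n (Zf s (A 1) (Zf s (A 0) z p.1.im) p.2.im))) hv hw (Kd_in_meas s A n z)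

theorem Fc_two (s : ℝ) (A : ℕ → ℂ) (n : ℕ) (z : TT) (x : ℝ) :
    Fc s A (n + 2) z x = ∫⁻ p, Kd s A n z p x ∂(dl.prod dl) := by
  have hm : Measurable fun p : ℂ × ℂ => Kd s A n z p x := by
    have := (Kd_meas s A n z).comp (measurable_id.prodMk (measurable_const (a := x)))
    simpa only [Function.comp_def, id] using this
  rw [lintegral_prod _ hm.aemeasurable, Fc_succ s A (n + 1) z x]
  refine lintegral_congr fun ζ => ?_
  have h1 : Fc s (fun j => A (j + 1)) (n + 1) (Zf s (A 0) z ζ.im) = fun y =>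
      ∫⁻ ζ', QE (Vf s (A 1) (Zf s (A 0) z ζ.im) ζ'.re) (Vf s (A 1) (Zf s (A 0) z ζ.im) (flip ζ').re)
        (Fc s (fun j => A (j + 2)) n (Zf s (A 1) (Zf s (A 0) z ζ.im) ζ'.im)) y ∂dl := by
    funext y
    exact Fc_succ s (fun j => A (j + 1)) n _ y
  rw [h1, QE_lint (Φ := fun ζ' y => QE (Vf s (A 1) (Zf s (A 0) z ζ.im) ζ'.re) (Vf s (A 1) (Zf s (A 0) z ζ.im) (flip ζ').re)
        (Fc s (fun j => A (j + 2)) n (Zf s (A 1) (Zf s (A 0) z ζ.im) ζ'.im)) y)]
  · rfl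
  · have h2 : Measurable fun q : ℂ × ℝ => (((ζ, q.1), q.2) : (ℂ × ℂ) × ℝ) :=
      (measurable_const.prodMk measurable_fst).prodMk measurable_snd
    have := (Kd_in_meas s A n z).comp h2
    simpa only [Function.comp_def] using this

theorem lint_ite95 {Ω : Type*} [MeasurableSpace Ω] {μ : Measure Ω} [IsProbabilityMeasure μ] {B : Set Ω} (hB : MeasurableSet B)
    {c p : ℝ} (hc : 0 ≤ c) (hp0 : 0 ≤ p) (hp1 : p ≤ 1) (hp : μ B = ENNReal.ofReal p) {f : Ω → ℝ≥0∞}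
    (hf : ∀ x ∈ B, f x = ENNReal.ofReal c) (hf' : ∀ x ∉ B, f x = 1) : ∫⁻ x, f x ∂μ = ENNReal.ofReal (1 - (1 - c) * p) := by
  rw [← lintegral_add_compl _ hB, setLIntegral_congr_fun hB (g := fun _ => ENNReal.ofReal c) (fun x hx => hf x hx),
    setLIntegral_congr_fun hB.compl (g := fun _ => 1) (fun x hx => hf' x hx), setLIntegral_const, setLIntegral_const,
    prob_compl_eq_one_sub hB, hp, one_mul, ← ENNReal.ofReal_mul hc, ← ENNReal.ofReal_one, ← ENNReal.ofReal_sub _ hp0,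
    ← ENNReal.ofReal_add (by positivity) (by linarith)]
  congr 1
  ring

theorem step2 {s : ℝ} (hs : 0 < s) (hs1 : π * s ≤ 1) (A : ℕ → ℂ) (n : ℕ) {S : ℝ≥0∞} (hS : S ≠ ⊤)
    (h : ∀ z, ∫⁻ x : ℝ, Fc s (fun j => A (j + 2)) n z x ^ 2 ≤ S) (z : TT) :
    ∫⁻ x : ℝ, Fc s A (n + 2) z x ^ 2 ≤ ENNReal.ofReal (1 - s ^ 2 / 25000) * S := by
  classical
  have hK := Kd_meas s A n z
  have hKx : ∀ x, Measurable fun p : ℂ × ℂ => Kd s A n z p x := by
    intro x
    have := hK.comp (measurable_id.prodMk (measurable_const (a := x)))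
    simpa only [Function.comp_def, id] using this
  have h1 : ∫⁻ x : ℝ, Fc s A (n + 2) z x ^ 2 ≤ ∫⁻ x : ℝ, ∫⁻ p, Kd s A n z p x ^ 2 ∂(dl.prod dl) := by
    refine lintegral_mono fun x => ?_
    simp only
    rw [Fc_two]
    exact sq_lint95 _ (hKx x).aemeasurable
  have h2 : ∫⁻ x : ℝ, ∫⁻ p, Kd s A n z p x ^ 2 ∂(dl.prod dl) = ∫⁻ p, (∫⁻ x : ℝ, Kd s A n z p x ^ 2) ∂(dl.prod dl) := by
    refine (lintegral_lintegral_swap ?_)
    have h3 : Measurable fun q : ℝ × (ℂ × ℂ) => Kd s A n z q.2 q.1 ^ 2 := by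
      have := (hK.comp measurable_swap).pow_const 2
      simpa only [Function.comp_def, Prod.fst_swap, Prod.snd_swap] using this
    exact h3.aemeasurable
  rw [h2] at h1
  refine h1.trans ?_
  have hpi : 0 < π := Real.pi_pos
  have hσ : 0 < π * s := by positivity
  obtain ⟨c, hc⟩ : ∃ c : ℂ × ℂ → ℝ≥0∞, c = fun p => if p ∈ bx95 ×ˢ bx95 then ENNReal.ofReal (1 - (π * s) ^ 2 / 25000) else 1 := ⟨_, rfl⟩
  have hcm : Measurable c := by
    rw [hc]
    exact Measurable.ite (bx_meas95.prod bx_meas95) measurable_const measurable_const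
  have hdiff : ∀ (B : ℂ) (y : TT) {ζ : ℂ}, ζ ∈ bx95 → |Vf s B y ζ.re - Vf s B y (flip ζ).re| = π * s := by
    intro B y ζ hζ
    unfold Vf
    have h3 : 2 + 2 * π * ((B * ee y.1).re + s * ζ.re) - (2 + 2 * π * ((B * ee y.1).re + s * (flip ζ).re)) =
        2 * π * s * (ζ.re - (flip ζ).re) := by ring
    rw [h3, abs_mul, abs_of_pos (by positivity), flip_re95 hζ]
    ring
  have h3 : ∀ p, ∫⁻ x : ℝ, Kd s A n z p x ^ 2 ≤ c p * S := by
    intro p
    have hFm : Measurable (Fc s (fun j => A (j + 2)) n (Zf s (A 1) (Zf s (A 0) z p.1.im) p.2.im)) := by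
      have := (Fc_meas s (fun j => A (j + 2)) n).comp
        ((measurable_const (a := Zf s (A 1) (Zf s (A 0) z p.1.im) p.2.im)).prodMk (measurable_id (α := ℝ)))
      simpa only [Function.comp_def, id] using this
    have hfin := Fc_fin hs.le (fun j => A (j + 2)) n (Zf s (A 1) (Zf s (A 0) z p.1.im) p.2.im)
    have hSz := h (Zf s (A 1) (Zf s (A 0) z p.1.im) p.2.im)
    by_cases hp : p ∈ bx95 ×ˢ bx95
    · have h4 := lossE hσ hs1 (hdiff (A 0) z hp.1) (hdiff (A 1) (Zf s (A 0) z p.1.im) hp.2) hFm hfin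
        (ne_top_of_le_ne_top hS hSz)
      have h5 : c p = ENNReal.ofReal (1 - (π * s) ^ 2 / 25000) := by rw [hc]; exact if_pos hp
      rw [h5]
      exact h4.trans (by gcongr)
    · have h5 : c p = 1 := by rw [hc]; exact if_neg hp
      rw [h5, one_mul]
      exact (noLossE _ _ _ _ hFm hfin).trans hSz
  refine (lintegral_mono h3).trans ?_
  rw [lintegral_mul_const _ hcm]
  gcongr
  have hsq : (π * s) ^ 2 ≤ 1 := by nlinarith
  have h6 : (dl.prod dl) (bx95 ×ˢ bx95) = ENNReal.ofReal (1 / π ^ 2) := by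
    rw [Measure.prod_prod]
    have h7 : dl bx95 = ENNReal.ofReal (1 / π) := dl_box
    rw [h7, ← ENNReal.ofReal_mul (by positivity)]
    congr 1
    rw [div_mul_div_comm, one_mul, sq]
  have h8 := lint_ite95 (μ := dl.prod dl) (bx_meas95.prod bx_meas95) (c := 1 - (π * s) ^ 2 / 25000) (p := 1 / π ^ 2) (f := c)
    (by linarith) (by positivity) (by
      rw [div_le_one (by positivity)]
      nlinarith [Real.pi_gt_three]) h6 (fun x hx => by rw [hc]; exact if_pos hx) (fun x hx => by rw [hc]; exact if_neg hx)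
  rw [h8]
  refine le_of_eq (congrArg _ ?_)
  field_simp
  ring

theorem step1 {s : ℝ} (hs : 0 < s) (A : ℕ → ℂ) (z : TT) : ∫⁻ x : ℝ, Fc s A 1 z x ^ 2 ≤ 2 := by
  have hz : Measurable fun ζ : ℂ => Zf s (A 0) z ζ.im := by
    have := (Zf_meas s (A 0)).comp ((measurable_const (a := z)).prodMk Complex.measurable_im)
    simpa only [Function.comp_def] using this
  have hv : Measurable fun ζ : ℂ => Vf s (A 0) z ζ.re := by
    have := (Vf_meas s (A 0)).comp ((measurable_const (a := z)).prodMk Complex.measurable_re)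
    simpa only [Function.comp_def] using this
  have hF : Measurable fun q : ℂ × ℝ => Fc s (fun j => A (j + 1)) 0 (Zf s (A 0) z q.1.im) q.2 := by
    have h0 : Measurable fun q : ℂ × ℝ => ((Zf s (A 0) z q.1.im, q.2) : TT × ℝ) :=
      (hz.comp measurable_fst).prodMk measurable_snd
    have := (Fc_meas s (fun j => A (j + 1)) 0).comp h0
    simpa only [Function.comp_def] using this
  have hT := TE_meas (V := fun ζ : ℂ => Vf s (A 0) z ζ.re)
    (Ψ := fun ζ : ℂ => Fc s (fun j => A (j + 1)) 0 (Zf s (A 0) z ζ.im)) hv hF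
  have hTx : ∀ x, Measurable fun ζ : ℂ => TE (Vf s (A 0) z ζ.re) (Fc s (fun j => A (j + 1)) 0 (Zf s (A 0) z ζ.im)) x := by
    intro x
    have := hT.comp (measurable_id.prodMk (measurable_const (a := x)))
    simpa only [Function.comp_def, id] using this
  have h1 : ∫⁻ x : ℝ, Fc s A 1 z x ^ 2 ≤
      ∫⁻ x : ℝ, ∫⁻ ζ, TE (Vf s (A 0) z ζ.re) (Fc s (fun j => A (j + 1)) 0 (Zf s (A 0) z ζ.im)) x ^ 2 ∂dl := by
    refine lintegral_mono fun x => ?_
    simp only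
    have e := Fc_succ' s A 0 z x
    rw [zero_add] at e
    rw [e]
    exact sq_lint95 _ (hTx x).aemeasurable
  refine h1.trans ?_
  rw [lintegral_lintegral_swap]
  · have h2 : ∀ ζ : ℂ, ∫⁻ x : ℝ, TE (Vf s (A 0) z ζ.re) (Fc s (fun j => A (j + 1)) 0 (Zf s (A 0) z ζ.im)) x ^ 2 = 2 := by
      intro ζ
      have hFm : Measurable (Fc s (fun j => A (j + 1)) 0 (Zf s (A 0) z ζ.im)) := by
        have := (Fc_meas s (fun j => A (j + 1)) 0).comp
          ((measurable_const (a := Zf s (A 0) z ζ.im)).prodMk (measurable_id (α := ℝ)))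
        simpa only [Function.comp_def, id] using this
      rw [noLossT _ hFm (Fc_fin hs.le _ _ _)]
      unfold Fc
      exact gph_int _
    rw [lintegral_congr h2, lintegral_const, measure_univ, mul_one]
  · have h3 : Measurable fun q : ℝ × ℂ => TE (Vf s (A 0) z q.2.re) (Fc s (fun j => A (j + 1)) 0 (Zf s (A 0) z q.2.im)) q.1 ^ 2 := by
      have := (hT.comp measurable_swap).pow_const 2
      simpa only [Function.comp_def, Prod.fst_swap, Prod.snd_swap] using this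
    exact h3.aemeasurable

theorem grow2 {s : ℝ} (hs : 0 < s) (hs1 : π * s ≤ 1) (n : ℕ) : ∀ (A : ℕ → ℂ) (z : TT),
    ∫⁻ x : ℝ, Fc s A n z x ^ 2 ≤ ENNReal.ofReal ((1 - s ^ 2 / 25000) ^ (n / 2)) * 2 := by
  induction n using Nat.twoStepInduction with
  | zero =>
    intro A z
    unfold Fc
    simp only [Nat.zero_div, pow_zero, ENNReal.ofReal_one, one_mul]
    exact (gph_int z).le
  | one =>
    intro A z
    simp only [Nat.reduceDiv, pow_zero, ENNReal.ofReal_one, one_mul]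
    exact step1 hs A z
  | more n ih _ =>
    intro A z
    have h1 := step2 hs hs1 A n (S := ENNReal.ofReal ((1 - s ^ 2 / 25000) ^ (n / 2)) * 2)
      (ENNReal.mul_ne_top ENNReal.ofReal_ne_top ENNReal.ofNat_ne_top) (ih _) z
    refine h1.trans (le_of_eq ?_)
    have hs2 : s ≤ 1 := by nlinarith [Real.pi_gt_three]
    rw [← mul_assoc, ← ENNReal.ofReal_mul (by nlinarith), Nat.add_div_right n two_pos, ← pow_succ']

theorem grow {s : ℝ} (hs : 0 < s) (hs1 : π * s ≤ 1) (A : ℕ → ℂ) (z : TT) (n : ℕ) :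
    ∫⁻ x : ℝ, ach gst gkk gph s A n (z, x) ^ 2 ≤ ENNReal.ofReal ((1 - s ^ 2 / 25000) ^ (n / 2)) * 2 := by
  have h := grow2 hs hs1 n A z
  unfold Fc at h
  exact h

end Pool.Agent.Helper46.QP
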