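import Pool.Agent.Helper46.QP.GrowA2
import Pool.Agent.Helper46.QP.Ann

/-! Block QP-GROWB: the mean of the inverse of the norm of the derivative.

`gch_le`: let `p_(-1) = 1`, `p_0 = x`, `p_(j+1) = v_j p_j - p_(j-1)`, `v_j = va (A j) (orb A z j).1`, so `Mx A z n (x, 1)ᵀ = (p_n, p_(n-1))ᵀ`. If all `p_j ≠ 0`, `j < n` (`p_j = (Mx j) 0 0 * x + (Mx j) 0 1`, row not zero by `det_Mx`: all `x` but finitely many), then `ch gst gkk gph A n (z, x) = (|p_n| + |p_(n-1)|)⁻¹`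
(induction on `n` for all `A`, `z`, `x`, first step peeled: `x' = v_0 - x⁻¹`, `p'_j = p_(j+1) / x`, `Mx_one_add`; the exceptional set is finite because `x ↦ v - x⁻¹` is injective for `x ≠ 0`), and `|p_n| + |p_(n-1)| ≤ nn (Mx A z n) * (|x| + 1)`.
`grow_om`: `2 * ∫⁻ ω, (nn M)⁻¹ = ∫⁻ x, ∫⁻ ω, (nn M)⁻¹ * gph^2 ≤ ∫⁻ x, gph * ∫⁻ ω, ch = ∫⁻ x, gph * ∫⁻ ω, ach (D.s l) (D.Ams l ω θ)` (`ann`, `ζ = (z, x)` constant, `H = 1`) `≤ ∫⁻ ω, (∫⁻ x, gph^2)^(1/2) * (∫⁻ x, ach^2)^(1/2) ≤ 2 * ((1 - s^2/25000)^(n/2))^(1/2)` (Hölder `ENNReal.lintegral_mul_le_Lp_mul_Lq`, `grow`, `gph_int`),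
and `1 - s^2/25000 ≤ (1 - s^2/50000)^2`. -/

set_option autoImplicit false
open MeasureTheory Real Set
open scoped ENNReal

namespace Pool.Agent.Helper46.QP

open Pool.Agent.Helper18.UC (nn)

variable {d : ℕ} {D : Dat d}

open Pool.Agent.Helper95.PV (mv)

/-- the size of the image of `(x, 1)` -/
private noncomputable def qq12 (B : Matrix (Fin 2) (Fin 2) ℝ) (x : ℝ) : ℝ :=
  |B 0 0 * x + B 0 1| + |B 1 0 * x + B 1 1|

private theorem qq_pos12 {B : Matrix (Fin 2) (Fin 2) ℝ} (h : B.det = 1) (x : ℝ) : 0 < qq12 B x := by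
  unfold qq12
  rw [Matrix.det_fin_two] at h
  by_contra hc
  have h0 := abs_nonneg (B 0 0 * x + B 0 1)
  have h1 := abs_nonneg (B 1 0 * x + B 1 1)
  have hc' := not_lt.1 hc
  have e0 : B 0 0 * x + B 0 1 = 0 := abs_eq_zero.1 (by linarith)
  have e1 : B 1 0 * x + B 1 1 = 0 := abs_eq_zero.1 (by linarith)
  have h2 : B 0 0 * B 1 1 - B 0 1 * B 1 0 = 0 := by linear_combination B 0 0 * e1 - B 1 0 * e0
  linarith

private theorem qq_le12 (B : Matrix (Fin 2) (Fin 2) ℝ) (x : ℝ) : qq12 B x ≤ nn B * (|x| + 1) := by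
  unfold qq12 nn
  have h0 : |B 0 0 * x + B 0 1| ≤ |B 0 0| * |x| + |B 0 1| := by
    rw [← abs_mul]; exact abs_add_le _ _
  have h1 : |B 1 0 * x + B 1 1| ≤ |B 1 0| * |x| + |B 1 1| := by
    rw [← abs_mul]; exact abs_add_le _ _
  nlinarith [abs_nonneg (B 0 0), abs_nonneg (B 0 1), abs_nonneg (B 1 0), abs_nonneg (B 1 1), abs_nonneg x,
    mul_nonneg (abs_nonneg (B 0 1)) (abs_nonneg x), mul_nonneg (abs_nonneg (B 1 1)) (abs_nonneg x)]

private theorem qq_mv12 (B : Matrix (Fin 2) (Fin 2) ℝ) (v : ℝ) {x : ℝ} (hx : x ≠ 0) :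
    qq12 (B * mv v) x = |x| * qq12 B (v - x⁻¹) := by
  have e : ∀ i : Fin 2, |(B * mv v) i 0 * x + (B * mv v) i 1| = |x| * |B i 0 * (v - x⁻¹) + B i 1| := by
    intro i
    rw [← abs_mul]
    congr 1
    simp only [mv, Matrix.mul_apply, Fin.sum_univ_two, Matrix.of_apply, Matrix.cons_val', Matrix.cons_val_zero,
      Matrix.cons_val_one, Matrix.cons_val_fin_one]
    field_simp
    ring
  unfold qq12
  rw [e 0, e 1]
  ring

private theorem ch_eq12 (n : ℕ) : ∀ (A : ℕ → ℂ) (z : TT), ∃ S : Set ℝ, S.Countable ∧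
    ∀ x ∉ S, ch gst gkk gph A n (z, x) = ENNReal.ofReal (qq12 (Mx A z n) x)⁻¹ := by
  induction n with
  | zero =>
    intro A z
    refine ⟨∅, Set.countable_empty, fun x _ => ?_⟩
    show gph (z, x) = _
    unfold gph qq12
    congr 2
    show |x| + 1 = |(1 : Matrix (Fin 2) (Fin 2) ℝ) 0 0 * x + (1 : Matrix (Fin 2) (Fin 2) ℝ) 0 1| +
      |(1 : Matrix (Fin 2) (Fin 2) ℝ) 1 0 * x + (1 : Matrix (Fin 2) (Fin 2) ℝ) 1 1|
    simp
  | succ n ih =>
    intro A z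
    obtain ⟨S, hS, h⟩ := ih (fun j => A (j + 1)) (stp (A 0) z)
    have hinj : Function.Injective fun x : ℝ => va (A 0) z.1 - x⁻¹ := by
      intro x y hxy
      have h1 : x⁻¹ = y⁻¹ := by
        have h2 : va (A 0) z.1 - x⁻¹ = va (A 0) z.1 - y⁻¹ := hxy
        linarith
      exact inv_injective h1
    refine ⟨{0} ∪ (fun x : ℝ => va (A 0) z.1 - x⁻¹) ⁻¹' S,
      (Set.countable_singleton 0).union (hS.preimage_of_injOn hinj.injOn), fun x hx => ?_⟩
    rw [Set.mem_union, not_or] at hx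
    have hx0 : x ≠ 0 := hx.1
    have h1 : ch gst gkk gph A (n + 1) (z, x) = ENNReal.ofReal |x|⁻¹ *
        ch gst gkk gph (fun j => A (j + 1)) n (stp (A 0) z, va (A 0) z.1 - x⁻¹) := rfl
    rw [h1, h _ hx.2, Mx_one_add, qq_mv12 _ _ hx0, mul_inv, ← ENNReal.ofReal_mul (by positivity)]

theorem gch_le (A : ℕ → ℂ) (z : TT) (n : ℕ) :
    ∀ᵐ x : ℝ, ENNReal.ofReal (nn (Mx A z n))⁻¹ * gph (z, x) ≤ ch gst gkk gph A n (z, x) := by
  obtain ⟨S, hS, h⟩ := ch_eq12 n A z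
  filter_upwards [hS.ae_notMem volume] with x hx
  rw [h x hx]
  unfold gph
  have h0 : 0 < nn (Mx A z n) := by linarith [Pool.Agent.Helper95.PV.nn_ge_two (det_Mx A z n)]
  rw [← ENNReal.ofReal_mul (by positivity), ← mul_inv]
  exact ENNReal.ofReal_le_ofReal (inv_anti₀ (qq_pos12 (det_Mx A z n) x) (qq_le12 _ x))

private theorem s_pos12 (hD : D.Ok) (l : ℕ) : 0 < D.s l := by
  have hN : (0 : ℝ) < Pool.Agent.Helper18.FD.NN l := by exact_mod_cast Pool.Agent.Helper18.FD.NN_pos l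
  exact mul_pos hD.hq (Real.rpow_pos_of_pos hN _)

private theorem sqrt_le12 {s : ℝ} (hs0 : 0 < s) (hs : π * s ≤ 1) (m : ℕ) :
    ENNReal.ofReal ((1 - s ^ 2 / 25000) ^ m) ^ (1 / 2 : ℝ) ≤ ENNReal.ofReal ((1 - s ^ 2 / 50000) ^ m) := by
  have h3 := Real.pi_gt_three
  have h1 : s ≤ 1 := by nlinarith
  have h2 : s ^ 2 ≤ 1 := by nlinarith
  have h4 : (0 : ℝ) ≤ 1 - s ^ 2 / 25000 := by linarith
  have h5 : (0 : ℝ) ≤ 1 - s ^ 2 / 50000 := by linarith
  have h6 : (1 - s ^ 2 / 25000) ^ m ≤ ((1 - s ^ 2 / 50000) ^ m) ^ 2 := by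
    rw [← pow_mul, mul_comm m 2, pow_mul]
    refine pow_le_pow_left₀ h4 ?_ m
    nlinarith [sq_nonneg (s ^ 2)]
  calc ENNReal.ofReal ((1 - s ^ 2 / 25000) ^ m) ^ (1 / 2 : ℝ)
      ≤ ENNReal.ofReal (((1 - s ^ 2 / 50000) ^ m) ^ 2) ^ (1 / 2 : ℝ) :=
        ENNReal.rpow_le_rpow (ENNReal.ofReal_le_ofReal h6) (by norm_num)
    _ = ENNReal.ofReal ((1 - s ^ 2 / 50000) ^ m) := by
        rw [ENNReal.ofReal_pow (pow_nonneg h5 m), ← ENNReal.rpow_natCast, ← ENNReal.rpow_mul]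
        norm_num

private theorem holder12 (z : TT) {f : ℝ → ℝ≥0∞} (hf : Measurable f) {C : ℝ≥0∞}
    (h : ∫⁻ x : ℝ, f x ^ 2 ≤ C * 2) : ∫⁻ x : ℝ, f x * gph (z, x) ≤ C ^ (1 / 2 : ℝ) * 2 := by
  have hg : Measurable fun x : ℝ => gph (z, x) := gph_meas.comp (measurable_const.prodMk measurable_id)
  have h1 := ENNReal.lintegral_mul_le_Lp_mul_Lq (volume : Measure ℝ) Real.HolderConjugate.two_two
    hf.aemeasurable hg.aemeasurable
  simp only [ENNReal.rpow_two, gph_int, Pi.mul_apply] at h1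
  refine h1.trans ?_
  calc (∫⁻ x : ℝ, f x ^ 2) ^ (1 / 2 : ℝ) * 2 ^ (1 / 2 : ℝ)
      ≤ (C * 2) ^ (1 / 2 : ℝ) * 2 ^ (1 / 2 : ℝ) :=
        mul_le_mul_left (ENNReal.rpow_le_rpow h (by norm_num)) _
    _ = C ^ (1 / 2 : ℝ) * (2 ^ (1 / 2 : ℝ) * 2 ^ (1 / 2 : ℝ)) := by
        rw [ENNReal.mul_rpow_of_nonneg _ _ (by norm_num), mul_assoc]
    _ = C ^ (1 / 2 : ℝ) * 2 := by
        rw [← ENNReal.rpow_add _ _ two_ne_zero ENNReal.ofNat_ne_top]
        norm_num

theorem grow_om (hD : D.Ok) {l n : ℕ} (hi : D.iso l n) (hs : π * D.s l ≤ 1) (θ : Td d) (z : TT) :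
    ∫⁻ ω, ENNReal.ofReal (nn (Mx (D.As ω θ) z n))⁻¹ ∂law d ≤
      ENNReal.ofReal ((1 - D.s l ^ 2 / 50000) ^ (n / 2)) := by
  have hs0 := s_pos12 hD l
  have hAs : Measurable fun ω : Om d => D.As ω θ := (As_meas hD).comp (measurable_id.prodMk measurable_const)
  have hAms : Measurable fun ω : Om d => D.Ams l ω θ := by
    have h0 : Measurable fun ω : Om d => ((ω, θ) : Om d × Td d) := measurable_id.prodMk measurable_const
    have h := (Ams_meas hD l).comp h0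
    exact h
  have hM : Measurable fun ω : Om d => ENNReal.ofReal (nn (Mx (D.As ω θ) z n))⁻¹ := by
    have h0 : Measurable fun ω : Om d => ((D.As ω θ, z) : (ℕ → ℂ) × TT) := hAs.prodMk measurable_const
    have h := (Mx_meas n).comp h0
    exact ENNReal.measurable_ofReal.comp h.inv
  have hg : Measurable fun x : ℝ => gph (z, x) := gph_meas.comp (measurable_const.prodMk measurable_id)
  have hch : Measurable fun p : Om d × ℝ => ch gst gkk gph (D.As p.1 θ) n (z, p.2) := by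
    have h0 : Measurable fun p : Om d × ℝ => ((D.As p.1 θ, (z, p.2)) : (ℕ → ℂ) × (TT × ℝ)) :=
      (hAs.comp measurable_fst).prodMk (measurable_const.prodMk measurable_snd)
    have h := (ch_meas gst_meas gkk_meas gph_meas n).comp h0
    exact h
  have hach : Measurable fun p : Om d × ℝ => ach gst gkk gph (D.s l) (D.Ams l p.1 θ) n (z, p.2) := by
    have h0 : Measurable fun p : Om d × ℝ => ((D.Ams l p.1 θ, (z, p.2)) : (ℕ → ℂ) × (TT × ℝ)) :=
      (hAms.comp measurable_fst).prodMk (measurable_const.prodMk measurable_snd)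
    have h := (ach_meas gst_meas gkk_meas gph_meas (D.s l) n).comp h0
    exact h
  have hchg : Measurable fun p : Om d × ℝ => ch gst gkk gph (D.As p.1 θ) n (z, p.2) * gph (z, p.2) :=
    hch.mul (hg.comp measurable_snd)
  have hachg : Measurable fun p : Om d × ℝ =>
      ach gst gkk gph (D.s l) (D.Ams l p.1 θ) n (z, p.2) * gph (z, p.2) := hach.mul (hg.comp measurable_snd)
  have hsw1 := lintegral_lintegral_swap (μ := law d) (ν := (volume : Measure ℝ))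
    (f := fun ω x => ch gst gkk gph (D.As ω θ) n (z, x) * gph (z, x)) hchg.aemeasurable
  have hsw2 := lintegral_lintegral_swap (μ := law d) (ν := (volume : Measure ℝ))
    (f := fun ω x => ach gst gkk gph (D.s l) (D.Ams l ω θ) n (z, x) * gph (z, x)) hachg.aemeasurable
  have hx : ∀ ω : Om d, Measurable fun x : ℝ => ach gst gkk gph (D.s l) (D.Ams l ω θ) n (z, x) := by
    intro ω
    have h0 : Measurable fun x : ℝ => ((ω, x) : Om d × ℝ) := measurable_const.prodMk measurable_id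
    have h := hach.comp h0
    exact h
  have key : (∫⁻ ω, ENNReal.ofReal (nn (Mx (D.As ω θ) z n))⁻¹ ∂law d) * 2 ≤
      ENNReal.ofReal ((1 - D.s l ^ 2 / 50000) ^ (n / 2)) * 2 := by
    calc (∫⁻ ω, ENNReal.ofReal (nn (Mx (D.As ω θ) z n))⁻¹ ∂law d) * 2
        = ∫⁻ ω, ENNReal.ofReal (nn (Mx (D.As ω θ) z n))⁻¹ * 2 ∂law d := (lintegral_mul_const _ hM).symm
      _ = ∫⁻ ω, (∫⁻ x : ℝ, ENNReal.ofReal (nn (Mx (D.As ω θ) z n))⁻¹ * gph (z, x) ^ 2) ∂law d := by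
          refine lintegral_congr fun ω => ?_
          rw [lintegral_const_mul _ (hg.pow_const 2), gph_int]
      _ ≤ ∫⁻ ω, (∫⁻ x : ℝ, ch gst gkk gph (D.As ω θ) n (z, x) * gph (z, x)) ∂law d := by
          refine lintegral_mono fun ω => lintegral_mono_ae ?_
          filter_upwards [gch_le (D.As ω θ) z n] with x hx
          rw [pow_two, ← mul_assoc]
          exact mul_le_mul_left hx _
      _ = ∫⁻ x : ℝ, ∫⁻ ω, ch gst gkk gph (D.As ω θ) n (z, x) * gph (z, x) ∂law d :=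
          hsw1
      _ = ∫⁻ x : ℝ, ∫⁻ ω, ach gst gkk gph (D.s l) (D.Ams l ω θ) n (z, x) * gph (z, x) ∂law d := by
          refine lintegral_congr fun x => ?_
          exact ann hD gst_meas gkk_meas gph_meas hi θ (ζ := fun _ => (z, x)) measurable_const
            (H := fun _ => gph (z, x)) measurable_const (fun _ _ _ _ => rfl) (fun _ _ _ _ => rfl)
      _ = ∫⁻ ω, (∫⁻ x : ℝ, ach gst gkk gph (D.s l) (D.Ams l ω θ) n (z, x) * gph (z, x)) ∂law d :=
          hsw2.symm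
      _ ≤ ∫⁻ _ω, ENNReal.ofReal ((1 - D.s l ^ 2 / 50000) ^ (n / 2)) * 2 ∂law d := by
          refine lintegral_mono fun ω => ?_
          exact (holder12 z (hx ω) (grow hs0 hs (D.Ams l ω θ) z n)).trans
            (mul_le_mul_left (sqrt_le12 hs0 hs _) _)
      _ = ENNReal.ofReal ((1 - D.s l ^ 2 / 50000) ^ (n / 2)) * 2 := by
          rw [lintegral_const, measure_univ, mul_one]
  exact (ENNReal.mul_le_mul_iff_left two_ne_zero ENNReal.ofNat_ne_top).1 key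

end Pool.Agent.Helper46.QP
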